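import Mathlib

set_option autoImplicit false
open Polynomial Set Filter Topology MeasureTheory Metric

namespace AR

/-- the Cauchy transform of the projections -/
noncomputable def FF (μ : Measure (ℝ × ℝ)) (w : ℂ × ℂ) : ℂ :=
  ∫ y : ℝ × ℝ, (w.2 - ((y.1 : ℂ) + w.1 * (y.2 : ℂ)))⁻¹ ∂μ

/-- the differential operator with coefficients `c` at the parameter `s`, minus `Q`:
solvability modulo `(z-z₀)^K` by a polynomial -/
def Solv (r : ℕ) (c : ℕ → ℂ[X][X]) (Q : ℂ[X][X]) (s z₀ : ℂ) (K : ℕ) : Prop :=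
  ∃ f : ℂ[X], (X - C z₀) ^ K ∣
    ∑ i ∈ Finset.range (r + 1), (c i).map (evalRingHom s) * (derivative^[i] f)
      - Q.map (evalRingHom s)

/-- the derivative d/dz in the coordinate z = τ + e^w -/
noncomputable def Dw (f : ℂ → ℂ) (w : ℂ) : ℂ := Complex.exp (-w) * deriv f w

/-- evaluation of `Φ` at (ξ,t,w) -/
noncomputable def ev {n : ℕ} (Φ : MvPolynomial (Fin n ⊕ Fin 2) ℝ) (ξ : EuclideanSpace ℝ (Fin n))
    (t w : ℝ) : ℝ := MvPolynomial.eval (Sum.elim (fun i => ξ i) ![t, w]) Φ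

end AR
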