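import Mathlib

set_option autoImplicit false
open Polynomial Set Filter Topology Metric

namespace AR.J5676

/-- evaluation at `(s,z,w)` -/
noncomputable def evw (s z w : ℂ) : ℂ[X][X][X] →+* ℂ := eval₂RingHom (evalEvalRingHom s z) w

theorem evw_eq (s z w : ℂ) (P : ℂ[X][X][X]) :
    (P.map (evalEvalRingHom s z)).eval w = evw s z w P := eval_map _ _

theorem evw_C (s z w : ℂ) (c : ℂ[X][X]) : evw s z w (C c) = c.evalEval s z := by
  show eval₂ (evalEvalRingHom s z) w (C c) = _
  rw [eval₂_C]; rfl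

theorem evw_monomial (s z w : ℂ) (n : ℕ) (c : ℂ[X][X]) :
    evw s z w (monomial n c) = c.evalEval s z * w ^ n := by
  show eval₂ (evalEvalRingHom s z) w (monomial n c) = _
  rw [eval₂_monomial]; rfl

theorem evw_add (s z w : ℂ) (P Q : ℂ[X][X][X]) : evw s z w (P + Q) = evw s z w P + evw s z w Q :=
  RingHom.map_add _ _ _

theorem evw_mul (s z w : ℂ) (P Q : ℂ[X][X][X]) : evw s z w (P * Q) = evw s z w P * evw s z w Q :=
  RingHom.map_mul _ _ _

theorem evw_neg (s z w : ℂ) (P : ℂ[X][X][X]) : evw s z w (-P) = -evw s z w P := by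
  show eval₂ (evalEvalRingHom s z) w (-P) = -eval₂ (evalEvalRingHom s z) w P
  exact eval₂_neg _

theorem evw_sub (s z w : ℂ) (P Q : ℂ[X][X][X]) : evw s z w (P - Q) = evw s z w P - evw s z w Q := by
  show eval₂ (evalEvalRingHom s z) w (P - Q) = eval₂ (evalEvalRingHom s z) w P - eval₂ (evalEvalRingHom s z) w Q
  exact eval₂_sub _

/-- derivative of the coefficients with respect to `z` -/
noncomputable def TT (P : ℂ[X][X][X]) : ℂ[X][X][X] := P.sum fun n c => monomial n (derivative c)

theorem TT_add (P Q : ℂ[X][X][X]) : TT (P + Q) = TT P + TT Q := by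
  unfold TT
  rw [sum_add_index]
  · intro i; simp
  · intro n a b; rw [map_add, map_add]

theorem TT_monomial (n : ℕ) (c : ℂ[X][X]) : TT (monomial n c) = monomial n (derivative c) := by
  unfold TT
  rw [sum_monomial_index]
  simp

theorem hasDerivAt_evalEval (s z : ℂ) (c : ℂ[X][X]) :
    HasDerivAt (fun z' => c.evalEval s z') ((derivative c).evalEval s z) z := by
  have h1 : (fun z' => c.evalEval s z') = fun z' => (c.map (evalRingHom s)).eval z' := by
    funext z'; exact (map_evalRingHom_eval s z' c).symm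
  have h2 : (derivative c).evalEval s z = (derivative (c.map (evalRingHom s))).eval z := by
    rw [derivative_map]; exact (map_evalRingHom_eval s z _).symm
  rw [h1, h2]
  exact Polynomial.hasDerivAt _ _

theorem chain (s z : ℂ) (α : ℂ → ℂ) (α' : ℂ) (hα : HasDerivAt α α' z) (P : ℂ[X][X][X]) :
    HasDerivAt (fun z' => evw s z' (α z') P)
      (evw s z (α z) (TT P) + evw s z (α z) (derivative P) * α') z := by
  induction P using Polynomial.induction_on' with
  | add P Q hP hQ =>
    have h1 : (fun z' => evw s z' (α z') (P + Q)) = fun z' => evw s z' (α z') P + evw s z' (α z') Q := by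
      funext z'; exact evw_add _ _ _ _ _
    rw [h1]
    refine (hP.add hQ).congr_deriv ?_
    rw [TT_add, derivative_add, evw_add, evw_add]
    ring
  | monomial n c =>
    have h0 : (fun z' => evw s z' (α z') (monomial n c)) = fun z' => c.evalEval s z' * (α z') ^ n := by
      funext z'; exact evw_monomial _ _ _ _ _
    rw [h0]
    have h1 := (hasDerivAt_evalEval s z c).mul (hα.pow n)
    refine h1.congr_deriv ?_
    rw [TT_monomial, derivative_monomial, evw_monomial, evw_monomial]
    have h2 : (c * (n : ℂ[X][X])).evalEval s z = c.evalEval s z * n := by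
      rw [evalEval_mul, evalEval_natCast]
    rw [h2]
    show _ * (α z) ^ n + _ = _
    ring

/-- the numerators of the derivatives -/
noncomputable def BB (D : ℂ[X][X]) (B0 : ℂ[X][X][X]) : ℕ → ℂ[X][X][X]
  | 0 => B0
  | i + 1 => C D * TT (BB D B0 i) + derivative (BB D B0 i) * B0
      - C (((i + 1 : ℕ) : ℂ[X][X]) * derivative D) * BB D B0 i

theorem deriv_formula (Ψ U V : ℂ[X][X][X]) (D : ℂ[X][X]) (hD : C D = U * Ψ + V * derivative Ψ)
    (s z : ℂ) (α : ℂ → ℂ) (hα : AnalyticAt ℂ α z)
    (h0 : ∀ᶠ z' in 𝓝 z, evw s z' (α z') Ψ = 0) (i : ℕ) :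
    ∀ᶠ z' in 𝓝 z, (D.evalEval s z') ^ (i + 1) * iteratedDeriv (i + 1) α z'
      = evw s z' (α z') (BB D (-(V * TT Ψ)) i) := by
  have han : ∀ᶠ z' in 𝓝 z, AnalyticAt ℂ α z' := hα.eventually_analyticAt
  -- base
  have hbase : ∀ᶠ z' in 𝓝 z, D.evalEval s z' * deriv α z' = evw s z' (α z') (-(V * TT Ψ)) := by
    filter_upwards [han, h0.eventually_nhds] with z' h1 h2
    have h3 := chain s z' α (deriv α z') h1.differentiableAt.hasDerivAt Ψ
    have h4 : HasDerivAt (fun z' => evw s z' (α z') Ψ) 0 z' :=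
      (hasDerivAt_const z' (0 : ℂ)).congr_of_eventuallyEq h2
    have h5 := h3.unique h4
    have h6 : evw s z' (α z') Ψ = 0 := h2.self_of_nhds
    have h7 : D.evalEval s z' = evw s z' (α z') V * evw s z' (α z') (derivative Ψ) := by
      rw [← evw_C s z' (α z') D, hD, evw_add, evw_mul, evw_mul, h6]
      ring
    rw [h7, evw_neg, evw_mul]
    linear_combination (evw s z' (α z') V) * h5
  induction i with
  | zero =>
    filter_upwards [hbase] with z' h1
    simp only [zero_add, pow_one, iteratedDeriv_one]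
    exact h1
  | succ i ih =>
    filter_upwards [han, ih.eventually_nhds, hbase] with z' h1 h2 h3
    have h4 : HasDerivAt (iteratedDeriv (i + 1) α) (iteratedDeriv (i + 1 + 1) α z') z' := by
      rw [iteratedDeriv_succ (n := i + 1)]
      have h1' : AnalyticAt ℂ α z' := h1
      have : AnalyticAt ℂ (iteratedDeriv (i + 1) α) z' := by
        rw [iteratedDeriv_eq_iterate]
        exact AnalyticAt.iterated_deriv h1' (i + 1)
      exact this.differentiableAt.hasDerivAt
    have h5 := ((hasDerivAt_evalEval s z' D).pow (i + 1)).mul h4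
    have h6 := chain s z' α (deriv α z') h1.differentiableAt.hasDerivAt (BB D (-(V * TT Ψ)) i)
    have h7 := h5.unique (h6.congr_of_eventuallyEq h2)
    have h8 := h2.self_of_nhds
    have h9 : evw s z' (α z') (C D * TT (BB D (-(V * TT Ψ)) i)
      + derivative (BB D (-(V * TT Ψ)) i) * (-(V * TT Ψ))
      - C (((i + 1 : ℕ) : ℂ[X][X]) * derivative D) * BB D (-(V * TT Ψ)) i)
      = D.evalEval s z' * evw s z' (α z') (TT (BB D (-(V * TT Ψ)) i))
        + evw s z' (α z') (derivative (BB D (-(V * TT Ψ)) i)) * (D.evalEval s z' * deriv α z')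
        - (((i + 1 : ℕ) : ℂ) * (derivative D).evalEval s z') * evw s z' (α z') (BB D (-(V * TT Ψ)) i) := by
      rw [evw_sub, evw_add, evw_mul, evw_mul, evw_mul, evw_C, evw_C, h3, evalEval_mul, evalEval_natCast]
    refine Eq.trans ?_ h9.symm
    rw [← h8]
    simp only [Nat.add_sub_cancel] at h7
    have h7' : ((i + 1 : ℕ) : ℂ) * (D.evalEval s z') ^ i * (derivative D).evalEval s z'
        * iteratedDeriv (i + 1) α z'
        + (D.evalEval s z') ^ (i + 1) * iteratedDeriv (i + 1 + 1) α z'
        = evw s z' (α z') (TT (BB D (-(V * TT Ψ)) i))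
          + evw s z' (α z') (derivative (BB D (-(V * TT Ψ)) i)) * deriv α z' := h7
    linear_combination (D.evalEval s z') * h7'

section Alg

variable {R : Type} [CommRing R] [IsDomain R]

theorem fr_inj : Function.Injective (algebraMap R (FractionRing R)) := IsFractionRing.injective R _

theorem fr_map_inj : Function.Injective (Polynomial.map (algebraMap R (FractionRing R))) :=
  Polynomial.map_injective _ fr_inj

/-- clear denominators -/
theorem clear_den (P : (FractionRing R)[X]) : ∃ g : R, g ≠ 0 ∧ ∃ G : R[X],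
    G.map (algebraMap R (FractionRing R)) = C (algebraMap R (FractionRing R) g) * P := by
  obtain ⟨b, hb, h⟩ := IsLocalization.integerNormalization_spec (nonZeroDivisors R) P
  refine ⟨b, nonZeroDivisors.ne_zero hb, _, h.trans ?_⟩
  rw [← Polynomial.smul_eq_C_mul, algebraMap_smul]

theorem clear_family {ι : Type} [Fintype ι] (P : ι → (FractionRing R)[X]) :
    ∃ g : R, g ≠ 0 ∧ ∀ i, ∃ G : R[X],
    G.map (algebraMap R (FractionRing R)) = C (algebraMap R (FractionRing R) g) * P i := by
  classical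
  choose g hg G hG using fun i => clear_den (P i)
  refine ⟨∏ i, g i, Finset.prod_ne_zero_iff.2 fun i _ => hg i, fun i => ?_⟩
  obtain ⟨e, he⟩ := Finset.dvd_prod_of_mem g (Finset.mem_univ i)
  refine ⟨C e * G i, ?_⟩
  rw [he, Polynomial.map_mul, hG, Polynomial.map_C, map_mul, C_mul]
  ring

theorem clear_scalars {ι : Type} [Fintype ι] (x : ι → FractionRing R) :
    ∃ g : R, g ≠ 0 ∧ ∀ i, ∃ y : R,
    algebraMap R (FractionRing R) y = algebraMap R (FractionRing R) g * x i := by
  obtain ⟨b, hb⟩ := IsLocalization.exist_integer_multiples_of_finite (nonZeroDivisors R) x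
  refine ⟨b, nonZeroDivisors.ne_zero b.2, fun i => ?_⟩
  obtain ⟨y, hy⟩ := hb i
  refine ⟨y, hy.trans ?_⟩
  rw [Algebra.smul_def]

theorem bezout [CharZero R] [UniqueFactorizationMonoid R] (Ψ : R[X]) (hΨ : Irreducible Ψ)
    (hd : 0 < Ψ.natDegree) :
    ∃ (D : R) (U V : R[X]), D ≠ 0 ∧ C D = U * Ψ + V * derivative Ψ := by
  classical
  have hprim : Ψ.IsPrimitive := hΨ.isPrimitive hd.ne'
  have hirr : Irreducible (Ψ.map (algebraMap R (FractionRing R))) :=
    (hprim.irreducible_iff_irreducible_map_fraction_map).1 hΨ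
  have : CharZero (FractionRing R) := charZero_of_injective_algebraMap (R := R) fr_inj
  have hsep : (Ψ.map (algebraMap R (FractionRing R))).Separable := hirr.separable
  obtain ⟨a, b, hab⟩ := hsep
  obtain ⟨g1, hg1, A, hA⟩ := clear_den a
  obtain ⟨g2, hg2, B, hB⟩ := clear_den b
  refine ⟨g1 * g2, C g2 * A, C g1 * B, mul_ne_zero hg1 hg2, ?_⟩
  apply fr_map_inj
  simp only [Polynomial.map_add, Polynomial.map_mul, Polynomial.map_C, hA, hB, ← derivative_map, map_mul]
  linear_combination -(C (algebraMap R (FractionRing R) g1) * C (algebraMap R (FractionRing R) g2)) * hab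

theorem linalg (Ψ : R[X]) (hd : 0 < Ψ.natDegree) (B : ℕ → R[X]) :
    ∃ (r : ℕ) (c : ℕ → R) (g : R) (G : R[X]) (h μ : R) (Gi ρ : Fin r → R[X])
      (N : Fin r → Fin Ψ.natDegree → R), c r ≠ 0 ∧ g ≠ 0 ∧ h ≠ 0 ∧ μ ≠ 0 ∧
      C g * ∑ i ∈ Finset.range (r + 1), C (c i) * B i = Ψ * G ∧
      (∀ i : Fin r, C h * B i = Ψ * Gi i + ρ i) ∧
      (∀ i : Fin r, (ρ i).natDegree < Ψ.natDegree) ∧
      ∀ i l : Fin r, ∑ n : Fin Ψ.natDegree, (ρ i).coeff n * N l n = if i = l then h * μ else 0 := by
  classical
  obtain ⟨Ψk, hΨk⟩ : ∃ P, P = Ψ.map (algebraMap R (FractionRing R)) := ⟨_, rfl⟩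
  have hdk : Ψk.natDegree = Ψ.natDegree := by
    rw [hΨk]; exact Polynomial.natDegree_map_eq_of_injective fr_inj _
  have hΨk0 : Ψk ≠ 0 := by
    intro h0
    rw [h0, natDegree_zero] at hdk
    omega
  obtain ⟨d, hdd⟩ : ∃ d, d = Ψ.natDegree := ⟨_, rfl⟩
  rw [← hdd] at hdk hd ⊢
  -- remainders
  let bk : ℕ → (FractionRing R)[X] := fun i => (B i).map (algebraMap R (FractionRing R)) % Ψk
  let qk : ℕ → (FractionRing R)[X] := fun i => (B i).map (algebraMap R (FractionRing R)) / Ψk
  have hbq : ∀ i, (B i).map (algebraMap R (FractionRing R)) = Ψk * qk i + bk i := fun i =>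
    (EuclideanDomain.div_add_mod _ _).symm
  have hbdeg : ∀ i, (bk i).degree < (d : WithBot ℕ) := by
    intro i
    have h1 : (bk i).degree < Ψk.degree := EuclideanDomain.mod_lt _ hΨk0
    rwa [degree_eq_natDegree hΨk0, hdk] at h1
  have hbnat : ∀ i, (bk i).natDegree < d := by
    intro i
    by_cases h0 : bk i = 0
    · rw [h0, natDegree_zero]; exact hd
    · rw [Polynomial.natDegree_lt_iff_degree_lt h0]; exact hbdeg i
  have hbcoeff : ∀ i n, d ≤ n → (bk i).coeff n = 0 := fun i n hn =>
    coeff_eq_zero_of_natDegree_lt (lt_of_lt_of_le (hbnat i) hn)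
  let v : ℕ → Fin d → FractionRing R := fun i n => (bk i).coeff n
  have hex : ∃ r : ℕ, ¬ LinearIndependent (FractionRing R) (fun i : Fin (r + 1) => v i) := by
    refine ⟨d, fun hli => ?_⟩
    have := hli.fintype_card_le_finrank
    rw [Module.finrank_fin_fun, Fintype.card_fin] at this
    omega
  obtain ⟨r, hr, hmin⟩ : ∃ r : ℕ, ¬ LinearIndependent (FractionRing R) (fun i : Fin (r + 1) => v i) ∧
      ∀ r' < r, LinearIndependent (FractionRing R) (fun i : Fin (r' + 1) => v i) :=
    ⟨Nat.find hex, Nat.find_spec hex, fun r' h => not_not.1 (Nat.find_min hex h)⟩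
  have hind : LinearIndependent (FractionRing R) (fun i : Fin r => v i) := by
    rcases Nat.eq_zero_or_pos r with h0 | h0
    · subst h0; exact linearIndependent_empty_type
    · obtain ⟨r', rfl⟩ : ∃ r', r = r' + 1 := ⟨r - 1, by omega⟩
      exact hmin r' (Nat.lt_succ_self r')
  -- the relation
  obtain ⟨γ, hγ, hγ0⟩ := Fintype.not_linearIndependent_iff.1 hr
  have hγr : γ (Fin.last r) ≠ 0 := by
    intro h0
    rw [Fin.sum_univ_castSucc, h0, zero_smul, add_zero] at hγ
    have h1 := Fintype.linearIndependent_iff.1 hind (fun i => γ i.castSucc) hγ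
    obtain ⟨i, hi⟩ := hγ0
    apply hi
    induction i using Fin.lastCases with
    | last => exact h0
    | cast i => exact h1 i
  obtain ⟨b, hb, hby⟩ := clear_scalars γ
  choose y hy using hby
  let c : ℕ → R := fun i => if h : i < r + 1 then y ⟨i, h⟩ else 0
  have hc : ∀ i : Fin (r + 1), c i = y i := fun i => dif_pos i.2
  have hsumb : ∑ i : Fin (r + 1), C (γ i) * bk i = 0 := by
    ext n
    rw [finsetSum_coeff, coeff_zero]
    by_cases hn : n < d
    · have := congrFun hγ ⟨n, hn⟩
      rw [Finset.sum_apply] at this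
      simpa [v] using this
    · apply Finset.sum_eq_zero
      intro i _
      rw [coeff_C_mul, hbcoeff _ _ (not_lt.1 hn), mul_zero]
  obtain ⟨g, hg, G, hG⟩ := clear_den (R := R)
    (C (algebraMap R (FractionRing R) b) * ∑ i : Fin (r + 1), C (γ i) * qk i)
  -- independence data
  obtain ⟨h1, hh1, hGi⟩ := clear_family (R := R) (fun i : Fin r => qk i)
  obtain ⟨h2, hh2, hρ⟩ := clear_family (R := R) (fun i : Fin r => bk i)
  choose G1 hG1 using hGi
  choose ρ1 hρ1 using hρ
  let f : (Fin r → FractionRing R) →ₗ[FractionRing R] (Fin d → FractionRing R) :=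
    Fintype.linearCombination (FractionRing R) (fun i : Fin r => v i)
  have hfinj : Function.Injective f :=
    linearIndependent_iff_injective_fintypeLinearCombination.1 hind
  obtain ⟨ginv, hginv⟩ := f.exists_leftInverse_of_injective (LinearMap.ker_eq_bot.2 hfinj)
  obtain ⟨μ, hμ, hN⟩ := clear_scalars (R := R)
    (fun p : Fin r × Fin d => ginv (Pi.single p.2 1) p.1)
  choose N hN using hN
  have hcr : algebraMap R (FractionRing R) (c r) = algebraMap R (FractionRing R) b * γ (Fin.last r) := by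
    have : c r = y (Fin.last r) := hc (Fin.last r)
    rw [this, hy]
  have halg : ∀ x : R, x ≠ 0 → algebraMap R (FractionRing R) x ≠ 0 := fun x hx h0 =>
    hx (fr_inj (by rw [h0, map_zero]))
  refine ⟨r, c, g, G, h1 * h2, μ, fun i => C h2 * G1 i, fun i => C h1 * ρ1 i,
    fun l n => N (l, n), ?_, hg, mul_ne_zero hh1 hh2, hμ, ?_, ?_, ?_, ?_⟩
  · intro h0
    rw [h0, map_zero] at hcr
    exact mul_ne_zero (halg b hb) hγr hcr.symm
  · apply fr_map_inj
    rw [Polynomial.map_mul, Polynomial.map_mul, hG, Polynomial.map_C, ← hΨk]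
    have e1 : (∑ i ∈ Finset.range (r + 1), C (c i) * B i).map (algebraMap R (FractionRing R))
        = ∑ i : Fin (r + 1), C (algebraMap R (FractionRing R) b * γ i) * (Ψk * qk i + bk i) := by
      rw [← Fin.sum_univ_eq_sum_range (fun i => C (c i) * B i), Polynomial.map_sum]
      refine Finset.sum_congr rfl fun i _ => ?_
      rw [Polynomial.map_mul, Polynomial.map_C, hbq, hc, hy]
    have e2 : ∑ i : Fin (r + 1), C (algebraMap R (FractionRing R) b * γ i) * (Ψk * qk i + bk i)
        = C (algebraMap R (FractionRing R) b) * (Ψk * ∑ i : Fin (r + 1), C (γ i) * qk i)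
          + C (algebraMap R (FractionRing R) b) * ∑ i : Fin (r + 1), C (γ i) * bk i := by
      rw [Finset.mul_sum, Finset.mul_sum, Finset.mul_sum, ← Finset.sum_add_distrib]
      refine Finset.sum_congr rfl fun i _ => ?_
      rw [C_mul]; ring
    rw [e1, e2, hsumb]
    ring
  · intro i
    apply fr_map_inj
    rw [Polynomial.map_mul, Polynomial.map_add, Polynomial.map_mul, Polynomial.map_mul, Polynomial.map_mul,
      Polynomial.map_C, Polynomial.map_C, Polynomial.map_C, hG1, hρ1, hbq, ← hΨk, map_mul, C_mul]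
    ring
  · intro i
    rw [natDegree_C_mul hh1]
    have e1 : (ρ1 i).natDegree = ((ρ1 i).map (algebraMap R (FractionRing R))).natDegree :=
      (Polynomial.natDegree_map_eq_of_injective fr_inj _).symm
    rw [e1, hρ1, natDegree_C_mul (halg h2 hh2)]
    exact hbnat i
  · intro i l
    apply fr_inj
    have hρc : ∀ n : Fin d, algebraMap R (FractionRing R) ((C h1 * ρ1 i).coeff n)
        = algebraMap R (FractionRing R) h1 * (algebraMap R (FractionRing R) h2 * (bk i).coeff n) := by
      intro n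
      rw [coeff_C_mul, map_mul]
      congr 1
      have := congrArg (fun p => coeff p (n : ℕ)) (hρ1 i)
      simp only [coeff_map, coeff_C_mul] at this
      exact this
    have hgl : ∑ n : Fin d, (bk i).coeff n * ginv (Pi.single n 1) l = if i = l then 1 else 0 := by
      have e1 : ginv (v i) = Pi.single i 1 := by
        have e2 : f (Pi.single i 1) = v i := by
          rw [Fintype.linearCombination_apply_single, one_smul]
        rw [← e2]
        exact LinearMap.congr_fun hginv _
      have e3 : v i = ∑ n : Fin d, (bk i).coeff n • (Pi.single n (1 : FractionRing R) : Fin d → FractionRing R) := by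
        funext n'
        rw [Finset.sum_apply, Finset.sum_eq_single n']
        · simp [v]
        · intro w _ hne
          simp [hne.symm]
        · intro h
          exact absurd (Finset.mem_univ _) h
      have e4 : ginv (v i) l = ∑ n : Fin d, (bk i).coeff n * ginv (Pi.single n 1) l := by
        rw [e3, map_sum, Finset.sum_apply]
        refine Finset.sum_congr rfl fun n _ => ?_
        rw [map_smul, Pi.smul_apply, smul_eq_mul]
      rw [← e4, e1, Pi.single_apply]
      simp only [eq_comm]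
    have hL : algebraMap R (FractionRing R) (∑ n : Fin d, (C h1 * ρ1 i).coeff n * N (l, n))
        = (algebraMap R (FractionRing R) h1 * algebraMap R (FractionRing R) h2 * algebraMap R (FractionRing R) μ)
          * ∑ n : Fin d, (bk i).coeff n * ginv (Pi.single n 1) l := by
      rw [map_sum, Finset.mul_sum]
      refine Finset.sum_congr rfl fun n _ => ?_
      rw [map_mul, hρc, hN]
      ring
    rw [hL, hgl]
    by_cases hil : i = l
    · rw [if_pos hil, if_pos hil, map_mul, map_mul]; ring
    · rw [if_neg hil, if_neg hil, map_zero, mul_zero]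

end Alg

theorem evw_sum {ι : Type} (s z w : ℂ) (S : Finset ι) (P : ι → ℂ[X][X][X]) :
    evw s z w (∑ i ∈ S, P i) = ∑ i ∈ S, evw s z w (P i) := by
  classical
  induction S using Finset.induction_on with
  | empty => rw [Finset.sum_empty, Finset.sum_empty]; exact RingHom.map_zero _
  | insert a S ha ih => rw [Finset.sum_insert ha, Finset.sum_insert ha, evw_add, ih]

theorem indep_aux (Ψ : ℂ[X][X][X]) (hd : 0 < Ψ.natDegree) (r : ℕ) (Bs : ℕ → ℂ[X][X][X]) (D h μ : ℂ[X][X])
    (Gi ρ : Fin r → ℂ[X][X][X]) (N : Fin r → Fin Ψ.natDegree → ℂ[X][X])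
    (hdec : ∀ i : Fin r, C h * Bs i = Ψ * Gi i + ρ i)
    (hdeg : ∀ i : Fin r, (ρ i).natDegree < Ψ.natDegree)
    (hN : ∀ i l : Fin r, ∑ n : Fin Ψ.natDegree, (ρ i).coeff n * N l n = if i = l then h * μ else 0)
    (s z : ℂ) (hDz : D.evalEval s z ≠ 0) (hhz : h.evalEval s z ≠ 0) (hμz : μ.evalEval s z ≠ 0)
    (w : Fin Ψ.natDegree → ℂ) (hw : Function.Injective w) (hroot : ∀ j, evw s z (w j) Ψ = 0)
    (A : Fin Ψ.natDegree → Fin r → ℂ)
    (hA : ∀ (j : Fin Ψ.natDegree) (i : Fin r),
      (D.evalEval s z) ^ ((i : ℕ) + 1) * A j i = evw s z (w j) (Bs i))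
    (c : Fin r → ℂ) (hc : ∀ j, ∑ i : Fin r, c i * A j i = 0) : c = 0 := by
  obtain ⟨x, hx⟩ : ∃ x : Fin r → ℂ, ∀ i, c i = x i * (D.evalEval s z) ^ ((i : ℕ) + 1) :=
    ⟨fun i => c i / (D.evalEval s z) ^ ((i : ℕ) + 1), fun i => by
      rw [div_mul_cancel₀]; exact pow_ne_zero _ hDz⟩
  have hρev : ∀ j i, evw s z (w j) (ρ i) = h.evalEval s z * evw s z (w j) (Bs i) := by
    intro j i
    have h1 := congrArg (evw s z (w j)) (hdec i)
    rw [evw_mul, evw_add, evw_mul, hroot, evw_C, zero_mul, zero_add] at h1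
    exact h1.symm
  let Q : ℂ[X] := ∑ i : Fin r, C (x i) * (ρ i).map (evalEvalRingHom s z)
  have hQ0 : Q = 0 := by
    apply Polynomial.eq_zero_of_natDegree_lt_card_of_eval_eq_zero Q hw
    · intro j
      show (∑ i : Fin r, C (x i) * (ρ i).map (evalEvalRingHom s z)).eval (w j) = 0
      rw [eval_finsetSum]
      have h2 : ∀ i : Fin r, (C (x i) * (ρ i).map (evalEvalRingHom s z)).eval (w j)
          = h.evalEval s z * (c i * A j i) := by
        intro i
        rw [eval_mul, eval_C, evw_eq, hρev, ← hA, hx]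
        ring
      rw [Finset.sum_congr rfl fun i _ => h2 i, ← Finset.mul_sum, hc, mul_zero]
    · rw [Fintype.card_fin]
      have h3 : Q.natDegree ≤ Ψ.natDegree - 1 := by
        apply Polynomial.natDegree_sum_le_of_forall_le
        intro i _
        refine (natDegree_C_mul_le _ _).trans ((natDegree_map_le).trans ?_)
        have := hdeg i
        omega
      omega
  have hcoef : ∀ n : ℕ, ∑ i : Fin r, x i * ((ρ i).coeff n).evalEval s z = 0 := by
    intro n
    have h4 := congrArg (fun p => coeff p n) hQ0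
    simp only [Q, finsetSum_coeff, coeff_C_mul, coeff_map, coeff_zero] at h4
    exact h4
  funext l
  have h5 : x l * (h.evalEval s z * μ.evalEval s z) = 0 := by
    have h6 : ∑ n : Fin Ψ.natDegree, (∑ i : Fin r, x i * ((ρ i).coeff n).evalEval s z) * (N l n).evalEval s z
        = x l * (h.evalEval s z * μ.evalEval s z) := by
      have h7 : ∀ i : Fin r, ∑ n : Fin Ψ.natDegree, ((ρ i).coeff n).evalEval s z * (N l n).evalEval s z
          = if i = l then h.evalEval s z * μ.evalEval s z else 0 := by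
        intro i
        have h8 := congrArg (evalEval s z) (hN i l)
        rw [evalEval_finsetSum] at h8
        simp only [evalEval_mul] at h8
        rw [h8]
        by_cases hil : i = l
        · rw [if_pos hil, if_pos hil, evalEval_mul]
        · rw [if_neg hil, if_neg hil, evalEval_zero]
      calc ∑ n : Fin Ψ.natDegree, (∑ i : Fin r, x i * ((ρ i).coeff n).evalEval s z) * (N l n).evalEval s z
          = ∑ i : Fin r, x i * ∑ n : Fin Ψ.natDegree, ((ρ i).coeff n).evalEval s z * (N l n).evalEval s z := by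
            simp only [Finset.sum_mul, Finset.mul_sum]
            rw [Finset.sum_comm]
            refine Finset.sum_congr rfl fun i _ => Finset.sum_congr rfl fun n _ => ?_
            ring
        _ = ∑ i : Fin r, x i * (if i = l then h.evalEval s z * μ.evalEval s z else 0) :=
            Finset.sum_congr rfl fun i _ => by rw [h7]
        _ = x l * (h.evalEval s z * μ.evalEval s z) := by
            rw [Finset.sum_eq_single l]
            · rw [if_pos rfl]
            · intro i _ hi; rw [if_neg hi, mul_zero]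
            · intro h; exact absurd (Finset.mem_univ _) h
    rw [← h6]
    apply Finset.sum_eq_zero
    intro n _
    rw [hcoef, zero_mul]
  have h9 : x l = 0 := by
    rcases mul_eq_zero.1 h5 with h | h
    · exact h
    · exact absurd h (mul_ne_zero hhz hμz)
  rw [hx, h9, zero_mul]; rfl

/-- `Ψ(s,z,w)`: coefficients in ℂ[s][z], outer variable w.
`Ψ.map (evalEvalRingHom s z)` is the numerical polynomial in w.
TARGET: resolvent operator of an algebraic function. -/
theorem resolvent (Ψ : ℂ[X][X][X]) (hΨ : Irreducible Ψ) (hd : 0 < Ψ.natDegree) :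
    ∃ (r : ℕ) (p : ℕ → ℂ[X][X]) (Δ : ℂ[X][X]) (e : ℕ) (B : ℕ → ℂ[X][X][X]), Δ ≠ 0 ∧
    ∀ s z : ℂ, Δ.evalEval s z ≠ 0 →
      (Ψ.map (evalEvalRingHom s z)).natDegree = Ψ.natDegree ∧
      (Ψ.map (evalEvalRingHom s z)).Separable ∧
      (p r).evalEval s z ≠ 0 ∧
      (∀ α : ℂ → ℂ, AnalyticAt ℂ α z →
        (∀ᶠ z' in 𝓝 z, (Ψ.map (evalEvalRingHom s z')).eval (α z') = 0) →
        (∑ i ∈ Finset.range (r + 1), (p i).evalEval s z * iteratedDeriv (i + 1) α z = 0) ∧
        ∀ i ≤ r, (Δ.evalEval s z) ^ e * iteratedDeriv (i + 1) α z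
          = ((B i).map (evalEvalRingHom s z)).eval (α z)) ∧
      (∀ α : Fin Ψ.natDegree → ℂ → ℂ, (∀ j, AnalyticAt ℂ (α j) z) →
        (∀ j, ∀ᶠ z' in 𝓝 z, (Ψ.map (evalEvalRingHom s z')).eval (α j z') = 0) →
        Function.Injective (fun j => α j z) →
        ∀ c : Fin r → ℂ, (∀ j, ∑ i : Fin r, c i * iteratedDeriv ((i : ℕ) + 1) (α j) z = 0) →
          c = 0) := by
  obtain ⟨D, U, V, hD0, hD⟩ := bezout Ψ hΨ hd
  obtain ⟨r, c, g, G, h, μ, Gi, ρ, N, hcr, hg, hh, hμ, hker, hdec, hdeg, hN⟩ :=
    linalg Ψ hd (BB D (-(V * TT Ψ)))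
  have hΨ0 : Ψ ≠ 0 := hΨ.ne_zero
  have ha : Ψ.leadingCoeff ≠ 0 := leadingCoeff_ne_zero.2 hΨ0
  refine ⟨r, fun i => g * c i * D ^ (i + 1), D * (Ψ.leadingCoeff * g * c r * μ * h), r + 1,
    fun i => C ((Ψ.leadingCoeff * g * c r * μ * h) ^ (r + 1) * D ^ (r - i)) * BB D (-(V * TT Ψ)) i,
    mul_ne_zero hD0 (mul_ne_zero (mul_ne_zero (mul_ne_zero (mul_ne_zero ha hg) hcr) hμ) hh), ?_⟩
  intro s z hΔ
  simp only [evalEval_mul, ne_eq, mul_eq_zero, not_or] at hΔ
  obtain ⟨hDz, ⟨⟨⟨haz, hgz⟩, hcz⟩, hμz⟩, hhz⟩ := hΔ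
  refine ⟨?_, ?_, ?_, ?_, ?_⟩
  · exact natDegree_map_of_leadingCoeff_ne_zero (evalEvalRingHom s z) haz
  · have h1 := congrArg (Polynomial.map (evalEvalRingHom s z)) hD
    rw [Polynomial.map_add, Polynomial.map_mul, Polynomial.map_mul, Polynomial.map_C, ← derivative_map] at h1
    have h2 : (evalEvalRingHom s z) D = D.evalEval s z := rfl
    rw [h2] at h1
    refine ⟨C (D.evalEval s z)⁻¹ * U.map (evalEvalRingHom s z), C (D.evalEval s z)⁻¹ * V.map (evalEvalRingHom s z), ?_⟩
    rw [mul_assoc, mul_assoc, ← mul_add, ← h1, ← C_mul, inv_mul_cancel₀ hDz, C_1]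
  · simp only [evalEval_mul, evalEval_pow]
    exact mul_ne_zero (mul_ne_zero hgz hcz) (pow_ne_zero _ hDz)
  · intro α hα hroot
    have hroot' : ∀ᶠ z' in 𝓝 z, evw s z' (α z') Ψ = 0 := by
      filter_upwards [hroot] with z' hz'
      rw [← evw_eq]; exact hz'
    have hF : ∀ i, (D.evalEval s z) ^ (i + 1) * iteratedDeriv (i + 1) α z
        = evw s z (α z) (BB D (-(V * TT Ψ)) i) := fun i =>
      (deriv_formula Ψ U V D hD s z α hα hroot' i).self_of_nhds
    constructor
    · have h1 := congrArg (evw s z (α z)) hker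
      rw [evw_mul, evw_C, evw_sum, evw_mul, hroot'.self_of_nhds, zero_mul, Finset.mul_sum] at h1
      rw [← h1]
      refine Finset.sum_congr rfl fun i _ => ?_
      rw [evw_mul, evw_C, ← hF]
      simp only [evalEval_mul, evalEval_pow]
      ring
    · intro i hi
      rw [evw_eq, evw_mul, evw_C, ← hF]
      simp only [evalEval_mul, evalEval_pow]
      have h2 : r + 1 = (r - i) + (i + 1) := by omega
      have h3 : (D.evalEval s z) ^ (r + 1) = (D.evalEval s z) ^ (r - i) * (D.evalEval s z) ^ (i + 1) := by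
        rw [← pow_add, ← h2]
      rw [mul_pow, h3]
      ring
  · intro α hα hroot hinj c' hc'
    have hroot' : ∀ j, ∀ᶠ z' in 𝓝 z, evw s z' (α j z') Ψ = 0 := by
      intro j
      filter_upwards [hroot j] with z' hz'
      rw [← evw_eq]; exact hz'
    exact indep_aux Ψ hd r (BB D (-(V * TT Ψ))) D h μ Gi ρ N hdec hdeg hN s z hDz hhz hμz
      (fun j => α j z) hinj (fun j => (hroot' j).self_of_nhds)
      (fun j i => iteratedDeriv ((i : ℕ) + 1) (α j) z)
      (fun j i => (deriv_formula Ψ U V D hD s z (α j) (hα j) (hroot' j) i).self_of_nhds) c' hc'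

end AR.J5676

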