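import Mathlib
import Pool.Agent.Helper272.Arn.Defs

set_option autoImplicit false
open Polynomial Set Filter Topology Metric

namespace AR.J5677

/-! ### linear algebra over the function field of the curve -/

/-- solvability alternative over a field -/
theorem fredholm {κ : Type*} [Field κ] {m n : ℕ} (M : Fin m → Fin n → κ) (q : Fin m → κ) :
    (∃ x : Fin n → κ, ∀ d, ∑ j, M d j * x j = q d) ∨
    ∃ y : Fin m → κ, (∀ j, ∑ d, y d * M d j = 0) ∧ ∑ d, y d * q d = 1 := by
  by_cases h : q ∈ LinearMap.range (Matrix.mulVecLin (Matrix.of M))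
  · left
    obtain ⟨x, hx⟩ := h
    refine ⟨x, fun d => ?_⟩
    rw [← hx]
    rfl
  · right
    obtain ⟨f, hf, hker⟩ := Submodule.exists_le_ker_of_notMem h
    have hfv : ∀ v : Fin m → κ, f v = ∑ d, f (Pi.single d 1) * v d := by
      intro v
      conv_lhs => rw [pi_eq_sum_univ' v]
      rw [map_sum]
      refine Finset.sum_congr rfl fun d _ => ?_
      rw [map_smul, smul_eq_mul, mul_comm]
    refine ⟨fun d => f (Pi.single d 1) / f q, fun j => ?_, ?_⟩
    · have h1 : f (fun d => M d j) = 0 := by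
        have : (fun d => M d j) = Matrix.mulVecLin (Matrix.of M) (Pi.single j 1) := by
          rw [Matrix.mulVecLin_apply, Matrix.mulVec_single_one]
          rfl
        rw [this]
        exact hker (LinearMap.mem_range_self _ _)
      rw [hfv] at h1
      have : ∀ d, f (Pi.single d 1) / f q * M d j = (f (Pi.single d 1) * M d j) / f q :=
        fun d => by ring
      simp_rw [this]
      rw [← Finset.sum_div, h1, zero_div]
    · have : ∀ d, f (Pi.single d 1) / f q * q d = (f (Pi.single d 1) * q d) / f q :=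
        fun d => by ring
      simp_rw [this]
      rw [← Finset.sum_div, ← hfv, div_self hf]

/-- generic alternative on the curve -/
theorem generic {m n : ℕ} (M : Fin m → Fin n → ℂ[X][X]) (q : Fin m → ℂ[X][X]) (E : ℂ[X][X])
    (hE : Irreducible E) (hEd : 0 < E.natDegree) :
    ∃ a : ℂ[X], a ≠ 0 ∧
      ((∃ x : Fin n → ℂ[X][X], ∀ d, E ∣ ∑ j, M d j * x j - C a * q d) ∨
      ∃ y : Fin m → ℂ[X][X], (∀ j, E ∣ ∑ d, y d * M d j) ∧ E ∣ ∑ d, y d * q d - C a) := by
  have hprim : E.IsPrimitive := hE.isPrimitive hEd.ne'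
  let F := FractionRing ℂ[X]
  have hirr : Irreducible (E.map (algebraMap ℂ[X] F)) :=
    hprim.irreducible_iff_irreducible_map_fraction_map.mp hE
  have : Fact (Irreducible (E.map (algebraMap ℂ[X] F))) := ⟨hirr⟩
  let κ := AdjoinRoot (E.map (algebraMap ℂ[X] F))
  let ψ : ℂ[X][X] →+* κ :=
    (AdjoinRoot.mk (E.map (algebraMap ℂ[X] F))).comp (mapRingHom (algebraMap ℂ[X] F))
  have hker : ∀ p, ψ p = 0 → E ∣ p := by
    intro p hp
    have h1 : E.map (algebraMap ℂ[X] F) ∣ p.map (algebraMap ℂ[X] F) := AdjoinRoot.mk_eq_zero.mp hp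
    exact hprim.dvd_of_fraction_map_dvd_fraction_map h1
  have hlift1 : ∀ ξ : κ, ∃ b : ℂ[X], b ≠ 0 ∧ ∃ p, ψ p = ψ (C b) * ξ := by
    intro ξ
    obtain ⟨t, rfl⟩ := AdjoinRoot.mk_surjective ξ
    obtain ⟨b, hb, hbt⟩ := IsLocalization.integerNormalization_spec (nonZeroDivisors ℂ[X]) t
    refine ⟨b, nonZeroDivisors.ne_zero hb, IsLocalization.integerNormalization (nonZeroDivisors ℂ[X]) t, ?_⟩
    show AdjoinRoot.mk _ (map (algebraMap ℂ[X] F) _) = AdjoinRoot.mk _ (map (algebraMap ℂ[X] F) (C b)) * _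
    rw [hbt, ← map_mul, map_C, Algebra.smul_def, Polynomial.algebraMap_apply]
  have hlift : ∀ (k : ℕ) (ξ : Fin k → κ), ∃ b : ℂ[X], b ≠ 0 ∧
      ∃ p : Fin k → ℂ[X][X], ∀ i, ψ (p i) = ψ (C b) * ξ i := by
    intro k ξ
    choose b hb p hp using fun i => hlift1 (ξ i)
    refine ⟨∏ i, b i, Finset.prod_ne_zero_iff.mpr fun i _ => hb i,
      fun i => C (∏ j ∈ Finset.univ.erase i, b j) * p i, fun i => ?_⟩
    rw [map_mul, hp i, ← mul_assoc, ← map_mul, ← C_mul,
      Finset.prod_erase_mul _ _ (Finset.mem_univ i)]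
  rcases fredholm (fun d j => ψ (M d j)) (fun d => ψ (q d)) with ⟨x', hx'⟩ | ⟨y', hy1, hy2⟩
  · obtain ⟨a, ha, x, hx⟩ := hlift n x'
    refine ⟨a, ha, Or.inl ⟨x, fun d => hker _ ?_⟩⟩
    rw [map_sub, map_sum, map_mul, ← hx' d, Finset.mul_sum, sub_eq_zero]
    refine Finset.sum_congr rfl fun j _ => ?_
    rw [map_mul, hx j]
    ring
  · obtain ⟨a, ha, y, hy⟩ := hlift m y'
    refine ⟨a, ha, Or.inr ⟨y, fun j => hker _ ?_, hker _ ?_⟩⟩
    · have : ∑ d, ψ (y d * M d j) = ψ (C a) * ∑ d, y' d * ψ (M d j) := by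
        rw [Finset.mul_sum]
        refine Finset.sum_congr rfl fun d _ => ?_
        rw [map_mul, hy d]
        ring
      rw [map_sum, this, hy1 j, mul_zero]
    · have : ∑ d, ψ (y d * q d) = ψ (C a) * ∑ d, y' d * ψ (q d) := by
        rw [Finset.mul_sum]
        refine Finset.sum_congr rfl fun d _ => ?_
        rw [map_mul, hy d]
        ring
      rw [map_sub, map_sum, this, hy2, mul_one, sub_self]

/-- generic alternative, evaluated -/
theorem generic_eval {m n : ℕ} (M : Fin m → Fin n → ℂ[X][X]) (q : Fin m → ℂ[X][X]) (E : ℂ[X][X])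
    (hE : Irreducible E) (hEd : 0 < E.natDegree) :
    ∃ S : Set ℂ, S.Finite ∧
      ((∀ s ∉ S, ∀ z₀, E.evalEval s z₀ = 0 → ∃ x : Fin n → ℂ, ∀ d,
        ∑ j, (M d j).evalEval s z₀ * x j = (q d).evalEval s z₀) ∨
      (∀ s ∉ S, ∀ z₀, E.evalEval s z₀ = 0 → ¬ ∃ x : Fin n → ℂ, ∀ d,
        ∑ j, (M d j).evalEval s z₀ * x j = (q d).evalEval s z₀)) := by
  obtain ⟨a, ha, hcase⟩ := generic M q E hE hEd
  refine ⟨{s | a.eval s = 0}, ?_, ?_⟩
  · have : {s | a.eval s = 0} = (a.roots.toFinset : Set ℂ) := by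
      ext s
      simp [ha]
    rw [this]
    exact Finset.finite_toSet _
  have hdvd : ∀ s z₀ : ℂ, E.evalEval s z₀ = 0 → ∀ p, E ∣ p → evalEvalRingHom s z₀ p = 0 := by
    rintro s z₀ h0 p ⟨t, rfl⟩
    rw [map_mul]
    have : evalEvalRingHom s z₀ E = 0 := h0
    rw [this, zero_mul]
  have hCa : ∀ s z₀ : ℂ, evalEvalRingHom s z₀ (C a) = a.eval s := by
    intro s z₀
    show (C a).evalEval s z₀ = _
    rw [evalEval_C]
  rcases hcase with ⟨x, hx⟩ | ⟨y, hy1, hy2⟩
  · left
    intro s hs z₀ h0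
    have hs' : a.eval s ≠ 0 := hs
    refine ⟨fun j => (x j).evalEval s z₀ / a.eval s, fun d => ?_⟩
    have h1 := hdvd s z₀ h0 _ (hx d)
    rw [map_sub, map_sum, map_mul, hCa, sub_eq_zero] at h1
    have h2 : ∑ j, (M d j).evalEval s z₀ * (x j).evalEval s z₀ = a.eval s * (q d).evalEval s z₀ := by
      rw [show (q d).evalEval s z₀ = evalEvalRingHom s z₀ (q d) from rfl, ← h1]
      refine Finset.sum_congr rfl fun j _ => ?_
      rw [map_mul]
      rfl
    have : ∀ j, (M d j).evalEval s z₀ * ((x j).evalEval s z₀ / a.eval s) =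
        (M d j).evalEval s z₀ * (x j).evalEval s z₀ / a.eval s := fun j => by ring
    simp_rw [this]
    rw [← Finset.sum_div, h2, mul_div_cancel_left₀ _ hs']
  · right
    rintro s hs z₀ h0 ⟨x, hx⟩
    have hs' : a.eval s ≠ 0 := hs
    have h1 := hdvd s z₀ h0 _ hy2
    rw [map_sub, map_sum, hCa, sub_eq_zero] at h1
    apply hs'
    rw [← h1]
    have h2 : ∀ d, evalEvalRingHom s z₀ (y d * q d) =
        ∑ j, evalEvalRingHom s z₀ (y d * M d j) * x j := by
      intro d
      rw [map_mul]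
      have : evalEvalRingHom s z₀ (q d) = (q d).evalEval s z₀ := rfl
      rw [this, ← hx d, Finset.mul_sum]
      refine Finset.sum_congr rfl fun j _ => ?_
      rw [map_mul, mul_assoc]
      rfl
    simp_rw [h2]
    rw [Finset.sum_comm]
    apply Finset.sum_eq_zero
    intro j _
    rw [← Finset.sum_mul, ← map_sum, hdvd s z₀ h0 _ (hy1 j), zero_mul]

/-! ### the linear system -/

/-- entries of the linear system -/
noncomputable def mco (r : ℕ) (c : ℕ → ℂ[X][X]) (d j : ℕ) : ℂ[X][X] :=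
  ∑ i ∈ Finset.range (r + 1), ∑ ab ∈ Finset.HasAntidiagonal.antidiagonal d,
    if ab.2 + i = j then ((ab.2 + i).descFactorial i) • hasseDeriv ab.1 (c i) else 0

theorem hasse_map (s z₀ : ℂ) (k : ℕ) (p : ℂ[X][X]) :
    (taylor z₀ (p.map (evalRingHom s))).coeff k = (hasseDeriv k p).evalEval s z₀ := by
  rw [taylor_coeff]
  have h1 : hasseDeriv k (p.map (evalRingHom s)) = (hasseDeriv k p).map (evalRingHom s) := by
    ext m
    rw [hasseDeriv_coeff, coeff_map, coeff_map, hasseDeriv_coeff, map_mul, map_natCast]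
  rw [h1]
  exact (map_evalRingHom_eval s z₀ (hasseDeriv k p))

theorem evalEval_mco (r : ℕ) (c : ℕ → ℂ[X][X]) (d j : ℕ) (s z₀ : ℂ) :
    (mco r c d j).evalEval s z₀ = ∑ i ∈ Finset.range (r + 1), ∑ ab ∈ Finset.HasAntidiagonal.antidiagonal d,
      if ab.2 + i = j then (((ab.2 + i).descFactorial i : ℕ) : ℂ) *
        (hasseDeriv ab.1 (c i)).evalEval s z₀ else 0 := by
  show evalEvalRingHom s z₀ (mco r c d j) = _
  unfold mco
  rw [map_sum]
  refine Finset.sum_congr rfl fun i _ => ?_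
  rw [map_sum]
  refine Finset.sum_congr rfl fun ab _ => ?_
  split_ifs
  · rw [map_nsmul, nsmul_eq_mul]
    rfl
  · rw [map_zero]

theorem coeff_sys (r : ℕ) (c : ℕ → ℂ[X][X]) (s z₀ : ℂ) (K : ℕ) (g : ℂ[X]) (d : ℕ) (hd : d < K) :
    (∑ i ∈ Finset.range (r + 1), taylor z₀ ((c i).map (evalRingHom s)) *
      (derivative^[i] g)).coeff d =
    ∑ j ∈ Finset.range (K + r), (mco r c d j).evalEval s z₀ * g.coeff j := by
  have h1 : ∀ j, (mco r c d j).evalEval s z₀ * g.coeff j =
      ∑ i ∈ Finset.range (r + 1), ∑ ab ∈ Finset.HasAntidiagonal.antidiagonal d,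
      if ab.2 + i = j then (((ab.2 + i).descFactorial i : ℕ) : ℂ) *
        (hasseDeriv ab.1 (c i)).evalEval s z₀ * g.coeff j else 0 := by
    intro j
    rw [evalEval_mco, Finset.sum_mul]
    refine Finset.sum_congr rfl fun i _ => ?_
    rw [Finset.sum_mul]
    refine Finset.sum_congr rfl fun ab _ => ?_
    split_ifs <;> simp
  simp_rw [h1]
  rw [finsetSum_coeff, Finset.sum_comm]
  refine Finset.sum_congr rfl fun i hi => ?_
  rw [coeff_mul, Finset.sum_comm]
  refine Finset.sum_congr rfl fun ab hab => ?_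
  rw [Finset.sum_ite_eq, if_pos, hasse_map, coeff_iterate_derivative, nsmul_eq_mul]
  · ring
  · rw [Finset.mem_range] at hi ⊢
    rw [Finset.HasAntidiagonal.mem_antidiagonal] at hab
    omega

theorem iter_taylor (z₀ : ℂ) (f : ℂ[X]) (i : ℕ) :
    taylor z₀ (derivative^[i] f) = derivative^[i] (taylor z₀ f) := by
  induction i generalizing f with
  | zero => rfl
  | succ i ih =>
    rw [Function.iterate_succ_apply, Function.iterate_succ_apply, ih]
    congr 1
    rw [taylor_apply, taylor_apply, derivative_comp]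
    simp

theorem solv_iff (r : ℕ) (c : ℕ → ℂ[X][X]) (Q : ℂ[X][X]) (s z₀ : ℂ) (K : ℕ) :
    Solv r c Q s z₀ K ↔ ∃ x : Fin (K + r) → ℂ, ∀ d : Fin K,
      ∑ j : Fin (K + r), (mco r c d j).evalEval s z₀ * x j = (hasseDeriv d Q).evalEval s z₀ := by
  have key : ∀ f : ℂ[X], (X - C z₀) ^ K ∣
      (∑ i ∈ Finset.range (r + 1), (c i).map (evalRingHom s) * (derivative^[i] f)
      - Q.map (evalRingHom s)) ↔ ∀ d < K, ∑ j ∈ Finset.range (K + r),
        (mco r c d j).evalEval s z₀ * (taylor z₀ f).coeff j = (hasseDeriv d Q).evalEval s z₀ := by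
    intro f
    rw [X_sub_C_pow_dvd_iff, ← taylor_apply, X_pow_dvd_iff]
    refine forall₂_congr fun d hd => ?_
    rw [map_sub, map_sum, coeff_sub, sub_eq_zero, hasse_map, ← coeff_sys r c s z₀ K _ d hd]
    simp_rw [taylor_mul, iter_taylor]
  unfold Solv
  simp_rw [key]
  constructor
  · rintro ⟨f, hf⟩
    refine ⟨fun j => (taylor z₀ f).coeff j, fun d => ?_⟩
    rw [← hf d d.2, Finset.sum_range]
  · rintro ⟨x, hx⟩
    obtain ⟨g, hg⟩ : ∃ g : ℂ[X], ∀ j : Fin (K + r), g.coeff j = x j := by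
      refine ⟨∑ j : Fin (K + r), C (x j) * X ^ (j : ℕ), fun j => ?_⟩
      rw [finsetSum_coeff]
      simp only [coeff_C_mul, coeff_X_pow]
      rw [Finset.sum_eq_single j]
      · simp
      · intro b _ hb
        rw [if_neg (fun h => hb (Fin.ext h.symm)), mul_zero]
      · intro h; exact absurd (Finset.mem_univ _) h
    refine ⟨taylor (-z₀) g, fun d hd => ?_⟩
    rw [taylor_taylor, add_neg_cancel, taylor_zero, ← hx ⟨d, hd⟩, Finset.sum_range]
    refine Finset.sum_congr rfl fun j _ => ?_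
    rw [hg j]

/-- TARGET: transfer of solvability between conjugate roots -/
theorem transfer (r : ℕ) (c : ℕ → ℂ[X][X]) (Q : ℂ[X][X]) (E : ℂ[X][X]) (hE : Irreducible E)
    (hEd : 0 < E.natDegree)
    (h : ¬ {s : ℂ | ∃ z₀, E.evalEval s z₀ = 0 ∧ ∀ K, Solv r c Q s z₀ K}.Countable) :
    ∃ S : Set ℂ, S.Countable ∧ ∀ s ∉ S, ∀ z₀, E.evalEval s z₀ = 0 → ∀ K, Solv r c Q s z₀ K := by
  have hK : ∀ K : ℕ, ∃ S : Set ℂ, S.Finite ∧
      ∀ s ∉ S, ∀ z₀, E.evalEval s z₀ = 0 → Solv r c Q s z₀ K := by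
    intro K
    obtain ⟨S, hS, h1 | h1⟩ := generic_eval (fun (d : Fin K) (j : Fin (K + r)) => mco r c d j)
      (fun d => hasseDeriv d Q) E hE hEd
    · refine ⟨S, hS, fun s hs z₀ h0 => ?_⟩
      rw [solv_iff]
      exact h1 s hs z₀ h0
    · exfalso
      apply h
      apply hS.countable.mono
      rintro s ⟨z₀, h0, hsol⟩
      by_contra hs
      exact h1 s hs z₀ h0 ((solv_iff r c Q s z₀ K).mp (hsol K))
  choose S hS1 hS2 using hK
  refine ⟨⋃ K, S K, Set.countable_iUnion fun K => (hS1 K).countable, fun s hs z₀ h0 K => ?_⟩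
  rw [Set.mem_iUnion] at hs
  push Not at hs
  exact hS2 K s (hs K) z₀ h0

/-! ### target 2 -/

theorem iteratedDeriv_poly (f : ℂ[X]) (j : ℕ) :
    iteratedDeriv j (fun z => f.eval z) = fun z => (derivative^[j] f).eval z := by
  induction j with
  | zero => rw [iteratedDeriv_zero]; rfl
  | succ j ih =>
    rw [iteratedDeriv_succ, ih]
    funext z
    rw [Polynomial.deriv, Function.iterate_succ_apply']

theorem analyticAt_poly (f : ℂ[X]) (z₀ : ℂ) : AnalyticAt ℂ (fun z => f.eval z) z₀ :=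
  f.differentiable.analyticAt z₀

theorem dvd_of_order (P : ℂ[X]) (z₀ : ℂ) (K : ℕ)
    (h : (K : ℕ∞) ≤ analyticOrderAt (fun z => P.eval z) z₀) : (X - C z₀) ^ K ∣ P := by
  by_cases hP : P = 0
  · rw [hP]; exact dvd_zero _
  obtain ⟨R, hR1, hR2⟩ := exists_eq_pow_rootMultiplicity_mul_and_not_dvd P hP z₀
  have h1 : analyticOrderAt (fun z => P.eval z) z₀ = (rootMultiplicity z₀ P : ℕ) := by
    rw [(analyticAt_poly P z₀).analyticOrderAt_eq_natCast]
    refine ⟨fun z => R.eval z, analyticAt_poly R z₀, ?_, ?_⟩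
    · intro h0
      exact hR2 (dvd_iff_isRoot.mpr h0)
    · refine Filter.Eventually.of_forall fun z => ?_
      beta_reduce
      conv_lhs => rw [hR1]
      rw [eval_mul, eval_pow, eval_sub, eval_X, eval_C, smul_eq_mul]
  rw [h1, Nat.cast_le] at h
  conv_rhs => rw [hR1]
  exact (pow_dvd_pow _ h).trans (dvd_mul_right _ _)

theorem order_sum (z₀ : ℂ) (K : ℕ) (s : Finset ℕ) (u : ℕ → ℂ → ℂ)
    (h : ∀ i ∈ s, (K : ℕ∞) ≤ analyticOrderAt (u i) z₀) :
    (K : ℕ∞) ≤ analyticOrderAt (fun z => ∑ i ∈ s, u i z) z₀ := by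
  classical
  induction s using Finset.induction_on with
  | empty =>
    have : analyticOrderAt (fun z : ℂ => ∑ i ∈ (∅ : Finset ℕ), u i z) z₀ = ⊤ := by
      rw [analyticOrderAt_eq_top]
      exact Filter.Eventually.of_forall fun z => Finset.sum_empty
    rw [this]
    exact le_top
  | insert a s ha ih =>
    have e : (fun z => ∑ i ∈ insert a s, u i z) = u a + fun z => ∑ i ∈ s, u i z := by
      funext z
      rw [Finset.sum_insert ha]
      rfl
    rw [e]
    refine le_trans ?_ le_analyticOrderAt_add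
    exact le_min (h a (Finset.mem_insert_self _ _))
      (ih fun i hi => h i (Finset.mem_insert_of_mem hi))

/-- TARGET 2 -/
theorem taylor_solv (r : ℕ) (c : ℕ → ℂ[X]) (Q : ℂ[X]) (z₀ : ℂ) (G : ℂ → ℂ)
    (hG : AnalyticAt ℂ G z₀)
    (h : ∀ᶠ z in 𝓝 z₀, ∑ i ∈ Finset.range (r + 1), (c i).eval z * iteratedDeriv i G z = Q.eval z)
    (K : ℕ) :
    ∃ f : ℂ[X], (X - C z₀) ^ K ∣ ∑ i ∈ Finset.range (r + 1), c i * (derivative^[i] f) - Q := by
  obtain ⟨n, hn⟩ : ∃ n, n = K + r + 1 := ⟨_, rfl⟩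
  obtain ⟨g, hg⟩ : ∃ g : ℂ[X], ∀ j < n, g.coeff j = iteratedDeriv j G z₀ / (j.factorial : ℂ) := by
    refine ⟨∑ j ∈ Finset.range n, C (iteratedDeriv j G z₀ / (j.factorial : ℂ)) * X ^ j,
      fun j hj => ?_⟩
    rw [finsetSum_coeff]
    simp only [coeff_C_mul, coeff_X_pow]
    rw [Finset.sum_eq_single j]
    · simp
    · intro b _ hb
      rw [if_neg (fun h => hb h.symm), mul_zero]
    · intro h; exact absurd (Finset.mem_range.mpr hj) h
  obtain ⟨f, hf⟩ : ∃ f : ℂ[X], taylor z₀ f = g :=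
    ⟨taylor (-z₀) g, by rw [taylor_taylor, add_neg_cancel, taylor_zero]⟩
  have hfd : ∀ j < n, (derivative^[j] f).eval z₀ = iteratedDeriv j G z₀ := by
    intro j hj
    have h1 := hg j hj
    rw [← hf, taylor_coeff] at h1
    have h2 : (derivative^[j] f) = (j.factorial : ℕ) • hasseDeriv j f := by
      rw [← factorial_smul_hasseDeriv]
      rfl
    rw [h2, nsmul_eq_mul, eval_natCast_mul, h1]
    have : (j.factorial : ℂ) ≠ 0 := by exact_mod_cast j.factorial_ne_zero
    field_simp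
  refine ⟨f, dvd_of_order _ z₀ K ?_⟩
  obtain ⟨u, hu⟩ : ∃ u : ℂ → ℂ, u = fun z => f.eval z - G z := ⟨_, rfl⟩
  have hua : AnalyticAt ℂ u z₀ := by rw [hu]; exact (analyticAt_poly f z₀).sub hG
  have hud : ∀ z, AnalyticAt ℂ G z → ∀ j, iteratedDeriv j u z =
      (derivative^[j] f).eval z - iteratedDeriv j G z := by
    intro z hz j
    rw [hu, iteratedDeriv_fun_sub (analyticAt_poly f z).contDiffAt hz.contDiffAt,
      iteratedDeriv_poly]
  have hua2 : ∀ i, AnalyticAt ℂ (iteratedDeriv i u) z₀ := by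
    intro i
    rw [iteratedDeriv_eq_iterate]
    exact hua.iterated_deriv i
  have horder : ∀ i ∈ Finset.range (r + 1), (K : ℕ∞) ≤
      analyticOrderAt (fun z => (c i).eval z * iteratedDeriv i u z) z₀ := by
    intro i hi
    rw [Finset.mem_range] at hi
    have h1 : (K : ℕ∞) ≤ analyticOrderAt (iteratedDeriv i u) z₀ := by
      rw [natCast_le_analyticOrderAt_iff_iteratedDeriv_eq_zero (hua2 i)]
      intro b hb
      have : iteratedDeriv b (iteratedDeriv i u) = iteratedDeriv (b + i) u := by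
        simp only [iteratedDeriv_eq_iterate, Function.iterate_add_apply]
      rw [this, hud z₀ hG, hfd (b + i) (by omega), sub_self]
    have h2 := analyticOrderAt_mul (analyticAt_poly (c i) z₀) (hua2 i)
    have h3 : (fun z => (c i).eval z * iteratedDeriv i u z) =
      (fun z => (c i).eval z) * iteratedDeriv i u := rfl
    rw [h3, h2]
    exact h1.trans le_add_self
  have hsum := order_sum z₀ K _ _ horder
  refine hsum.trans (le_of_eq (analyticOrderAt_congr ?_))
  filter_upwards [h, hG.eventually_analyticAt] with z hz1 hz2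
  rw [eval_sub, eval_finsetSum, ← hz1, ← Finset.sum_sub_distrib]
  refine Finset.sum_congr rfl fun i _ => ?_
  rw [hud z hz2 i, eval_mul]
  ring

end AR.J5677

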