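import Mathlib

set_option autoImplicit false
open Polynomial Set Filter Topology Metric

namespace AR.J5678

lemma GR_dense {D : Set ℂ} (hD : Dense D) {f g : ℂ → ℝ} (hf : Continuous f) (hg : Continuous g)
    (h : ∀ s ∈ D, f s ≤ g s) (s : ℂ) : f s ≤ g s := by
  have h1 : IsClosed {s | f s ≤ g s} := isClosed_le hf hg
  have h2 : closure D ⊆ {s | f s ≤ g s} := h1.closure_subset_iff.2 h
  exact h2 (hD s)

lemma GR_vieta (p : ℂ[X]) (hp : p ≠ 0) (B : ℝ) (h : ∀ z, p.eval z = 0 → ‖z‖ ≤ B) (i : ℕ) :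
    ‖p.coeff i‖ ≤ ‖p.leadingCoeff‖ * (B ^ (p.natDegree - i) * p.natDegree.choose i) := by
  have hl : p.leadingCoeff ≠ 0 := leadingCoeff_ne_zero.2 hp
  set q := C (p.leadingCoeff)⁻¹ * p with hq
  have hm : q.Monic := monic_C_mul_of_mul_leadingCoeff_eq_one (inv_mul_cancel₀ hl)
  have hd : q.natDegree = p.natDegree := natDegree_C_mul (inv_ne_zero hl)
  have h1 := coeff_le_of_roots_le (p := q) (f := RingHom.id ℂ) (B := B) i hm
    (by simpa using IsAlgClosed.splits q) (by
      intro z hz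
      rw [Polynomial.map_id, hq, roots_C_mul _ (inv_ne_zero hl)] at hz
      exact h z (isRoot_of_mem_roots hz))
  rw [Polynomial.map_id, hd, hq, coeff_C_mul, norm_mul, norm_inv] at h1
  have h2 : 0 < ‖p.leadingCoeff‖ := norm_pos_iff.2 hl
  rw [inv_mul_le_iff₀ h2] at h1
  exact h1

lemma GR_dvd_aux (n : ℕ) : ∀ (q : ℂ[X]), q ≠ 0 → q.natDegree = n → ∀ (p : ℂ[X]) (b : ℂ → ℝ),
    Continuous b → (∀ s, ‖p.eval s‖ ≤ b s * ‖q.eval s‖) → q ∣ p := by
  induction n with
  | zero =>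
    intro q hq hd p b _ _
    have h1 : q = C (q.coeff 0) := eq_C_of_natDegree_eq_zero hd
    have h2 : q.coeff 0 ≠ 0 := by
      intro h
      rw [h, C_0] at h1
      exact hq h1
    rw [h1]
    exact (isUnit_C.2 h2.isUnit).dvd
  | succ n ih =>
    intro q hq hd p b hb h
    obtain ⟨a, ha⟩ := IsAlgClosed.exists_root q (by
      rw [degree_eq_natDegree hq, hd]
      exact_mod_cast (Nat.succ_ne_zero n))
    obtain ⟨q', hq'⟩ := dvd_iff_isRoot.2 ha
    have hpa : p.IsRoot a := by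
      have := h a
      rw [show q.eval a = 0 from ha, norm_zero, mul_zero] at this
      exact norm_le_zero_iff.1 this
    obtain ⟨p', hp'⟩ := dvd_iff_isRoot.2 hpa
    have hq'0 : q' ≠ 0 := by
      rintro rfl
      rw [mul_zero] at hq'
      exact hq hq'
    have hd' : q'.natDegree = n := by
      rw [hq', natDegree_mul (X_sub_C_ne_zero a) hq'0, natDegree_X_sub_C] at hd
      omega
    have h' : ∀ s, ‖p'.eval s‖ ≤ b s * ‖q'.eval s‖ := by
      apply GR_dense (dense_compl_singleton a) (by fun_prop) (by fun_prop)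
      intro s hs
      have hs' : s - a ≠ 0 := sub_ne_zero.2 hs
      have h3 := h s
      rw [hp', hq', eval_mul, eval_mul, norm_mul, norm_mul, eval_sub, eval_X, eval_C] at h3
      have h4 : 0 < ‖s - a‖ := norm_pos_iff.2 hs'
      have h5 : ‖s - a‖ * ‖p'.eval s‖ ≤ ‖s - a‖ * (b s * ‖q'.eval s‖) := by
        calc _ ≤ _ := h3
          _ = _ := by ring
      exact le_of_mul_le_mul_left h5 h4
    obtain ⟨r, hr⟩ := ih q' hq'0 hd' p' b hb h'
    exact ⟨r, by rw [hp', hq', hr, mul_assoc]⟩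

lemma GR_growth (r : ℂ[X]) (K : ℝ) (k : ℕ) (h : ∀ s, ‖r.eval s‖ ≤ K * (1 + ‖s‖) ^ k) :
    r.natDegree ≤ k := by
  by_contra hk
  push Not at hk
  have h1 : ∀ w : ℂ, ‖(reverse r).eval w‖ ≤ K * (‖w‖ + 1) ^ k * ‖w‖ ^ (r.natDegree - k) := by
    apply GR_dense (dense_compl_singleton (0 : ℂ)) (by fun_prop) (by fun_prop)
    intro w hw
    have hw' : w ≠ 0 := hw
    let _ : Invertible (w⁻¹) := ⟨w, mul_inv_cancel₀ hw', inv_mul_cancel₀ hw'⟩
    have h2 := eval₂_reverse_mul_pow (RingHom.id ℂ) (w⁻¹) r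
    have h3 : (⅟(w⁻¹) : ℂ) = w := rfl
    rw [h3, ← eval, ← eval] at h2
    have hn : 0 < ‖w‖ := norm_pos_iff.2 hw'
    have h4 : ‖(reverse r).eval w‖ * ‖w‖⁻¹ ^ r.natDegree ≤ K * (1 + ‖w‖⁻¹) ^ k := by
      rw [← norm_inv, ← norm_pow, ← norm_mul, h2]
      exact h _
    have h5 : (1 + ‖w‖⁻¹) ^ k * ‖w‖ ^ k = (‖w‖ + 1) ^ k := by
      rw [← mul_pow]
      congr 1
      field_simp
    have h6 : ‖w‖ ^ r.natDegree = ‖w‖ ^ k * ‖w‖ ^ (r.natDegree - k) := by
      rw [← pow_add]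
      congr 1
      omega
    calc ‖(reverse r).eval w‖ = ‖(reverse r).eval w‖ * ‖w‖⁻¹ ^ r.natDegree * ‖w‖ ^ r.natDegree := by
          rw [mul_assoc, ← mul_pow, inv_mul_cancel₀ hn.ne', one_pow, mul_one]
      _ ≤ K * (1 + ‖w‖⁻¹) ^ k * ‖w‖ ^ r.natDegree := by
          apply mul_le_mul_of_nonneg_right h4 (by positivity)
      _ = K * ((1 + ‖w‖⁻¹) ^ k * ‖w‖ ^ k) * ‖w‖ ^ (r.natDegree - k) := by
          rw [h6]; ring
      _ = _ := by rw [h5]
  have h2 := h1 0
  rw [← coeff_zero_eq_eval_zero, coeff_zero_reverse, norm_zero, zero_pow (by omega), mul_zero] at h2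
  have h3 : r = 0 := leadingCoeff_eq_zero.1 (norm_le_zero_iff.1 h2)
  rw [h3] at hk
  simp at hk

lemma GR_sep (G : ℂ[X][X]) (hG : Irreducible G) (hm : G.Monic) :
    ∃ (U V : ℂ[X][X]) (b : ℂ[X]), b ≠ 0 ∧ U * G + V * derivative G = C b := by
  let K := FractionRing ℂ[X]
  let φ := algebraMap ℂ[X] K
  have hinj : Function.Injective φ := IsFractionRing.injective ℂ[X] K
  have h1 : Irreducible (G.map φ) := (hm.irreducible_iff_irreducible_map_fraction_map).1 hG
  have : CharZero K := (algebraMap ℂ[X] K).charZero_iff hinj |>.1 inferInstance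
  have h2 : (G.map φ).Separable := h1.separable
  obtain ⟨a, b, hab⟩ := h2
  obtain ⟨c, hc, hc'⟩ := IsLocalization.integerNormalization_spec (nonZeroDivisors ℂ[X]) a
  obtain ⟨d, hd, hd'⟩ := IsLocalization.integerNormalization_spec (nonZeroDivisors ℂ[X]) b
  set A := IsLocalization.integerNormalization (nonZeroDivisors ℂ[X]) a
  set B := IsLocalization.integerNormalization (nonZeroDivisors ℂ[X]) b
  refine ⟨C d * A, C c * B, c * d, mul_ne_zero (nonZeroDivisors.ne_zero hc)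
    (nonZeroDivisors.ne_zero hd), ?_⟩
  apply Polynomial.map_injective φ hinj
  have hc'' : A.map φ = C (φ c) * a := by
    rw [hc']
    rw [← IsScalarTower.algebraMap_smul K c a, smul_eq_C_mul]
  have hd'' : B.map φ = C (φ d) * b := by
    rw [hd']
    rw [← IsScalarTower.algebraMap_smul K d b, smul_eq_C_mul]
  rw [derivative_map] at hab
  rw [Polynomial.map_add, Polynomial.map_mul, Polynomial.map_mul, Polynomial.map_mul,
    Polynomial.map_mul, Polynomial.map_C, Polynomial.map_C, hc'', hd'', Polynomial.map_C, map_mul,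
    C_mul]
  linear_combination (C (φ c) * C (φ d)) * hab

/-- TARGET -/
theorem growth (E : ℂ[X][X]) (hE : Irreducible E) (hEd : 0 < E.natDegree) (ρ : ℝ) (S : Set ℂ)
    (hS : S.Countable) (hb : ∀ s ∉ S, ∀ z, E.evalEval s z = 0 → ‖z‖ ≤ ρ * (1 + ‖s‖)) :
    ∃ (a : ℂ) (G : ℂ[X][X]), a ≠ 0 ∧ E = C (C a) * G ∧ G.Monic ∧ G.natDegree = E.natDegree ∧
      (∀ k ≤ G.natDegree, (G.coeff (G.natDegree - k)).natDegree ≤ k) ∧
      ∃ T : Set ℂ, T.Finite ∧ ∀ s ∉ T, (G.map (evalRingHom s)).roots.Nodup := by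
  have hE0 : E ≠ 0 := hE.ne_zero
  set e := E.leadingCoeff with he
  have he0 : e ≠ 0 := leadingCoeff_ne_zero.2 hE0
  set g := E.natDegree with hg
  have hfin : {s : ℂ | e.eval s = 0}.Finite := finite_setOfPred_isRoot he0
  have hcount : (S ∪ {s : ℂ | e.eval s = 0}).Countable := hS.union hfin.countable
  have hdense : Dense (S ∪ {s : ℂ | e.eval s = 0})ᶜ := hcount.dense_compl ℂ
  have key : ∀ i s, ‖(E.coeff i).eval s‖ ≤
      ((|ρ| * (1 + ‖s‖)) ^ (g - i) * (g.choose i : ℝ)) * ‖e.eval s‖ := by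
    intro i
    apply GR_dense hdense (by fun_prop) (by fun_prop)
    intro s hs
    rw [mem_compl_iff, mem_union, not_or] at hs
    have hs2 : e.eval s ≠ 0 := hs.2
    have hmap : (evalRingHom s) E.leadingCoeff ≠ 0 := hs2
    have hd : (E.map (evalRingHom s)).natDegree = g :=
      natDegree_map_of_leadingCoeff_ne_zero _ hmap
    have hl : (E.map (evalRingHom s)).leadingCoeff = e.eval s :=
      leadingCoeff_map_of_leadingCoeff_ne_zero _ hmap
    have hp0 : E.map (evalRingHom s) ≠ 0 := by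
      intro h
      rw [h, leadingCoeff_zero] at hl
      exact hs2 hl.symm
    have h1 := GR_vieta (E.map (evalRingHom s)) hp0 (|ρ| * (1 + ‖s‖)) (by
      intro z hz
      rw [map_evalRingHom_eval] at hz
      refine (hb s hs.1 z hz).trans ?_
      exact mul_le_mul_of_nonneg_right (le_abs_self ρ) (by positivity)) i
    rw [hd, hl, coeff_map, coe_evalRingHom, mul_comm] at h1
    exact h1
  have hdvd : ∀ i, e ∣ E.coeff i := fun i =>
    GR_dvd_aux e.natDegree e he0 rfl (E.coeff i) _ (by fun_prop) (key i)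
  obtain ⟨G, hG⟩ := (C_dvd_iff_dvd_coeff e E).2 hdvd
  have hGd : G.natDegree = g := by
    have h1 : E.natDegree = (C e * G).natDegree := by rw [← hG]
    rw [natDegree_C_mul he0] at h1
    exact h1.symm
  have hGm : G.Monic := by
    have h1 : E.coeff g = e * G.coeff g := by
      conv_lhs => rw [hG]
      rw [coeff_C_mul]
    have h2 : E.coeff g = e := rfl
    rw [h2] at h1
    have h3 : G.coeff g = 1 := by
      have h4 : e * (G.coeff g - 1) = 0 := by rw [mul_sub, ← h1]; ring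
      rcases mul_eq_zero.1 h4 with h | h
      · exact absurd h he0
      · exact sub_eq_zero.1 h
    rw [Monic, leadingCoeff, hGd, h3]
  have heu : IsUnit e := by
    rcases hE.isUnit_or_isUnit hG with h | h
    · exact isUnit_C.1 h
    · exfalso
      have := natDegree_eq_zero_of_isUnit h
      omega
  obtain ⟨a, ha, hae⟩ := Polynomial.isUnit_iff.1 heu
  have ha0 : a ≠ 0 := ha.ne_zero
  have hGirr : Irreducible G := by
    have h1 : Associated E G := by
      rw [hG]
      exact associated_unit_mul_left G (C e) (isUnit_C.2 heu)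
    exact h1.irreducible hE
  refine ⟨a, G, ha0, by rw [hae, ← hG], hGm, hGd, ?_, ?_⟩
  · intro k hk
    rw [hGd] at hk ⊢
    have h1 := key (g - k)
    have h2 : ∀ s, ‖(G.coeff (g - k)).eval s‖ ≤ (|ρ| ^ k * (g.choose (g - k) : ℝ)) *
        (1 + ‖s‖) ^ k := by
      intro s
      have h3 := h1 s
      have h4 : E.coeff (g - k) = C a * G.coeff (g - k) := by
        conv_lhs => rw [hG, ← hae, coeff_C_mul]
      rw [h4, ← hae, eval_mul, eval_C, norm_mul, show g - (g - k) = k by omega, mul_pow,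
        mul_comm] at h3
      have h5 : 0 < ‖a‖ := norm_pos_iff.2 ha0
      have h6 := le_of_mul_le_mul_right h3 h5
      calc _ ≤ _ := h6
        _ = _ := by ring
    exact GR_growth _ _ _ h2
  · obtain ⟨U, V, b, hb0, hUV⟩ := GR_sep G hGirr hGm
    refine ⟨{s | b.eval s = 0}, finite_setOfPred_isRoot hb0, ?_⟩
    intro s hs
    have hs' : b.eval s ≠ 0 := hs
    apply nodup_roots
    have h1 := congrArg (Polynomial.map (evalRingHom s)) hUV
    rw [Polynomial.map_add, Polynomial.map_mul, Polynomial.map_mul, Polynomial.map_C,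
      ← derivative_map, coe_evalRingHom] at h1
    refine ⟨C (b.eval s)⁻¹ * U.map (evalRingHom s), C (b.eval s)⁻¹ * V.map (evalRingHom s), ?_⟩
    rw [mul_assoc, mul_assoc, ← mul_add, h1, ← C_mul, inv_mul_cancel₀ hs', C_1]

/-- TARGET 2: an irreducible factor vanishing on an uncountable set of graph points -/
theorem exists_factor (P : ℂ[X][X]) (hP : P ≠ 0) (G : Set ℝ) (hG : ¬ G.Countable) (τ : ℝ → ℝ)
    (h : ∀ s ∈ G, P.evalEval (s : ℂ) (τ s : ℂ) = 0) :
    ∃ E : ℂ[X][X], Irreducible E ∧ 0 < E.natDegree ∧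
      ¬ {s ∈ G | E.evalEval (s : ℂ) (τ s : ℂ) = 0}.Countable := by
  classical
  obtain ⟨u, hu⟩ := UniqueFactorizationMonoid.factors_prod hP
  by_contra hcon
  push Not at hcon
  apply hG
  have h1 : G ⊆ ⋃ f ∈ (UniqueFactorizationMonoid.factors P).toFinset,
      {s ∈ G | f.evalEval (s : ℂ) (τ s : ℂ) = 0} := by
    intro s hs
    have h2 := h s hs
    rw [← hu, ← coe_evalEvalRingHom, map_mul, map_multiset_prod] at h2
    rcases mul_eq_zero.1 h2 with h3 | h3
    · rw [Multiset.prod_eq_zero_iff, Multiset.mem_map] at h3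
      obtain ⟨f, hf, hf0⟩ := h3
      refine mem_iUnion₂.2 ⟨f, Multiset.mem_toFinset.2 hf, hs, hf0⟩
    · exact absurd h3 ((u.isUnit.map (evalEvalRingHom (s : ℂ) (τ s : ℂ))).ne_zero)
  refine Countable.mono h1 (Countable.biUnion (Finset.countable_toSet _) ?_)
  intro f hf
  have hfi : Irreducible f :=
    UniqueFactorizationMonoid.irreducible_of_factor f (Multiset.mem_toFinset.1 hf)
  by_cases hd : 0 < f.natDegree
  · exact hcon f hfi hd
  · have hd0 : f.natDegree = 0 := by omega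
    have hfC : f = C (f.coeff 0) := eq_C_of_natDegree_eq_zero hd0
    have hc0 : f.coeff 0 ≠ 0 := by
      intro h0
      rw [h0, C_0] at hfC
      exact hfi.ne_zero hfC
    have h4 : {z : ℂ | (f.coeff 0).eval z = 0}.Finite := finite_setOfPred_isRoot hc0
    have h5 : ((fun s : ℝ => (s : ℂ)) ⁻¹' {z : ℂ | (f.coeff 0).eval z = 0}).Finite :=
      h4.preimage (Complex.ofReal_injective.injOn)
    refine (h5.countable).mono ?_
    rintro s ⟨_, hs⟩
    rw [hfC, evalEval_C] at hs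
    exact hs

/-- TARGET 3: an irreducible factor for a family of analytic functions -/
theorem exists_factor3 (Ψ : ℂ[X][X][X]) (hΨ : Ψ ≠ 0) (G : Set ℝ) (hG : ¬ G.Countable)
    (U : ℝ → Set ℝ) (hUo : ∀ s ∈ G, IsOpen (U s)) (hUp : ∀ s ∈ G, IsPreconnected (U s))
    (hUne : ∀ s ∈ G, (U s).Nonempty) (V : ℝ → ℝ → ℝ)
    (hV : ∀ s ∈ G, ∀ t ∈ U s, AnalyticAt ℝ (V s) t)
    (h : ∀ s ∈ G, ∀ t ∈ U s, (Ψ.map (evalEvalRingHom (s : ℂ) (t : ℂ))).eval (V s t : ℂ) = 0) :
    ∃ Ψ' : ℂ[X][X][X], Irreducible Ψ' ∧ 0 < Ψ'.natDegree ∧ ∃ G' ⊆ G, ¬ G'.Countable ∧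
      ∀ s ∈ G', ∀ t ∈ U s, (Ψ'.map (evalEvalRingHom (s : ℂ) (t : ℂ))).eval (V s t : ℂ) = 0 := by
  classical
  let Φ : ℝ → ℝ → ℂ[X][X][X] →+* ℂ := fun s t =>
    (evalRingHom (V s t : ℂ)).comp (mapRingHom (evalEvalRingHom (s : ℂ) (t : ℂ)))
  have hΦ : ∀ s t f, Φ s t f = (f.map (evalEvalRingHom (s : ℂ) (t : ℂ))).eval (V s t : ℂ) :=
    fun s t f => rfl
  have han : ∀ f : ℂ[X][X][X], ∀ s ∈ G, AnalyticOnNhd ℝ (fun t => Φ s t f) (U s) := by
    intro f s hs t ht
    have hVa : AnalyticAt ℝ (fun t => ((V s t : ℝ) : ℂ)) t :=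
      (Complex.ofRealCLM.analyticAt _).comp (hV s hs t ht)
    have hta : AnalyticAt ℝ (fun t : ℝ => (t : ℂ)) t := Complex.ofRealCLM.analyticAt _
    have e1 : (fun t => Φ s t f) = fun t : ℝ => ∑ i ∈ Finset.range (f.natDegree + 1),
        (∑ j ∈ Finset.range ((f.coeff i).natDegree + 1),
          (((f.coeff i).coeff j).eval (s : ℂ)) * (t : ℂ) ^ j) * (V s t : ℂ) ^ i := by
      funext t
      rw [hΦ, eval_map, eval₂_eq_sum_range]
      refine Finset.sum_congr rfl fun i _ => ?_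
      congr 1
      rw [coe_evalEvalRingHom, ← eval₂_evalRingHom, eval₂_eq_sum_range]
      rfl
    rw [e1]
    refine Finset.analyticAt_fun_sum _ fun i _ => ?_
    refine AnalyticAt.mul (Finset.analyticAt_fun_sum _ fun j _ => ?_) (hVa.pow i)
    exact analyticAt_const.mul (hta.pow j)
  obtain ⟨u, hu⟩ := UniqueFactorizationMonoid.factors_prod (α := ℂ[X][X][X]) (a := Ψ) hΨ
  by_contra hcon
  push Not at hcon
  apply hG
  let Z : ℂ[X][X][X] → Set ℝ := fun f => {s ∈ G | ∀ t ∈ U s, Φ s t f = 0}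
  have h1 : G ⊆ ⋃ f ∈ (UniqueFactorizationMonoid.factors Ψ).toFinset, Z f := by
    intro s hs
    by_contra hns
    rw [mem_iUnion₂] at hns
    push Not at hns
    obtain ⟨t0, ht0⟩ := hUne s hs
    have h2 : ∀ f ∈ (UniqueFactorizationMonoid.factors Ψ).toFinset,
        ∀ᶠ t in 𝓝[≠] t0, Φ s t f ≠ 0 := by
      intro f hf
      by_contra h3
      have h4 : ∃ᶠ t in 𝓝[≠] t0, Φ s t f = 0 := by
        rw [Filter.not_eventually] at h3
        exact h3.mono fun t ht => not_not.1 ht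
      have h5 := (han f s hs).eqOn_zero_of_preconnected_of_frequently_eq_zero (hUp s hs) ht0 h4
      exact hns f hf ⟨hs, fun t ht => h5 ht⟩
    have h3 : ∀ᶠ t in 𝓝[≠] t0, ∀ f ∈ (UniqueFactorizationMonoid.factors Ψ).toFinset,
        Φ s t f ≠ 0 := (Finset.eventually_all _).2 h2
    have h4 : ∀ᶠ t in 𝓝[≠] t0, t ∈ U s :=
      mem_nhdsWithin_of_mem_nhds ((hUo s hs).mem_nhds ht0)
    obtain ⟨t, ht1, ht2⟩ := (h3.and h4).exists
    have h5 : Φ s t Ψ = 0 := h s hs t ht2
    rw [← hu, map_mul, map_multiset_prod] at h5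
    rcases mul_eq_zero.1 h5 with h6 | h6
    · rw [Multiset.prod_eq_zero_iff, Multiset.mem_map] at h6
      obtain ⟨f, hf, hf0⟩ := h6
      exact ht1 f (Multiset.mem_toFinset.2 hf) hf0
    · exact (u.isUnit.map (Φ s t)).ne_zero h6
  refine Countable.mono h1 (Countable.biUnion (Finset.countable_toSet _) ?_)
  intro f hf
  have hfi : Irreducible f :=
    UniqueFactorizationMonoid.irreducible_of_factor f (Multiset.mem_toFinset.1 hf)
  by_cases hd : 0 < f.natDegree
  · by_contra hnc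
    obtain ⟨s, hs, t, ht, hst⟩ := hcon f hfi hd (Z f) (fun s hs => hs.1) hnc
    exact hst (hs.2 t ht)
  · have hd0 : f.natDegree = 0 := by omega
    have hfC : f = C (f.coeff 0) := eq_C_of_natDegree_eq_zero hd0
    set c := f.coeff 0 with hc
    have hc0 : c ≠ 0 := by
      intro h0
      rw [h0, C_0] at hfC
      exact hfi.ne_zero hfC
    have hl0 : c.leadingCoeff ≠ 0 := leadingCoeff_ne_zero.2 hc0
    have h4 : {z : ℂ | (c.leadingCoeff).eval z = 0}.Finite := finite_setOfPred_isRoot hl0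
    have h5 : ((fun s : ℝ => (s : ℂ)) ⁻¹' {z : ℂ | (c.leadingCoeff).eval z = 0}).Finite :=
      h4.preimage (Complex.ofReal_injective.injOn)
    refine (h5.countable).mono ?_
    rintro s ⟨hs, hs0⟩
    have h6 : c.map (evalRingHom (s : ℂ)) = 0 := by
      apply eq_zero_of_infinite_isRoot
      have h7 : (U s).Infinite := by
        obtain ⟨t0, ht0⟩ := hUne s hs
        exact infinite_of_mem_nhds t0 ((hUo s hs).mem_nhds ht0)
      have h8 : ((fun t : ℝ => (t : ℂ)) '' (U s)).Infinite :=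
        h7.image (Complex.ofReal_injective.injOn)
      refine h8.mono ?_
      rintro _ ⟨t, ht, rfl⟩
      have h9 := hs0 t ht
      rw [hΦ, hfC, map_C, eval_C, coe_evalEvalRingHom] at h9
      change (c.map (evalRingHom (s : ℂ))).eval (t : ℂ) = 0
      rw [map_evalRingHom_eval]
      exact h9
    have h10 := congrArg (fun p => Polynomial.coeff p c.natDegree) h6
    simp only [coeff_map, coeff_zero] at h10
    exact h10

end AR.J5678

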