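import Mathlib
import Pool.Agent.Helper272.Arn.Defs

set_option autoImplicit false
open Polynomial Set Filter Topology MeasureTheory Metric

namespace AR.J5758

/-- the linear form -/
noncomputable def auxl (s : ℂ) (y : ℝ × ℝ) : ℂ := (y.1 : ℂ) + s * (y.2 : ℂ)

lemma aux_cont (s : ℂ) : Continuous (auxl s) := by unfold auxl; fun_prop

lemma aux_bd (s : ℂ) {ρ : ℝ} {y : ℝ × ℝ} (hy : ‖y‖ ≤ ρ) : ‖auxl s y‖ ≤ ρ * (1 + ‖s‖) := by
  unfold auxl
  have h1 : ‖(y.1 : ℂ)‖ ≤ ρ := by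
    rw [Complex.norm_real]; exact (norm_fst_le y).trans hy
  have h2 : ‖(y.2 : ℂ)‖ ≤ ρ := by
    rw [Complex.norm_real]; exact (norm_snd_le y).trans hy
  refine (norm_add_le _ _).trans ?_
  rw [norm_mul]
  nlinarith [norm_nonneg s, mul_le_mul_of_nonneg_left h2 (norm_nonneg s)]

lemma aux_int (μ : Measure (ℝ × ℝ)) [IsFiniteMeasure μ] (ρ : ℝ)
    (hμ : ∀ᵐ y ∂μ, ‖y‖ ≤ ρ) (F : ℝ × ℝ → ℂ) (hF : Continuous F) : Integrable F μ := by
  obtain ⟨K, hK⟩ := (isCompact_closedBall (0 : ℝ × ℝ) ρ).exists_bound_of_continuousOn hF.continuousOn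
  refine Integrable.of_bound hF.aestronglyMeasurable K ?_
  filter_upwards [hμ] with y hy
  exact hK y (by simpa using hy)

/-- moments -/
noncomputable def auxM (μ : Measure (ℝ × ℝ)) (s : ℂ) (k : ℕ) : ℂ := ∫ y, auxl s y ^ k ∂μ

lemma aux_moment (μ : Measure (ℝ × ℝ)) [IsFiniteMeasure μ] (ρ : ℝ)
    (hμ : ∀ᵐ y ∂μ, ‖y‖ ≤ ρ) : ∃ MP : ℕ → ℂ[X], ∀ k s, auxM μ s k = (MP k).eval s := by
  refine ⟨fun k => ∑ i ∈ Finset.range (k + 1), C ((k.choose i : ℂ) *
      ∫ y : ℝ × ℝ, (y.1 : ℂ) ^ (k - i) * (y.2 : ℂ) ^ i ∂μ) * X ^ i, fun k s => ?_⟩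
  have h3 : ∀ y : ℝ × ℝ, (auxl s y) ^ k = ∑ i ∈ Finset.range (k + 1),
      ((k.choose i : ℂ) * s ^ i) * ((y.1 : ℂ) ^ (k - i) * (y.2 : ℂ) ^ i) := by
    intro y
    unfold auxl
    rw [add_comm, add_pow]
    refine Finset.sum_congr rfl fun i _ => ?_
    rw [mul_pow]; ring
  unfold auxM
  simp_rw [h3]
  rw [integral_finsetSum, eval_finsetSum]
  · refine Finset.sum_congr rfl fun i _ => ?_
    rw [integral_const_mul]
    simp only [eval_mul, eval_C, eval_pow, eval_X]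
    ring
  · intro i _
    exact aux_int μ ρ hμ _ (by fun_prop)

lemma aux_map (P : ℂ[X][X]) (s : ℂ) : P.map (evalRingHom s) =
    ∑ p ∈ Finset.range (P.natDegree + 1), C ((P.coeff p).eval s) * X ^ p := by
  conv_lhs => rw [P.as_sum_range_C_mul_X_pow]
  rw [Polynomial.map_sum]
  refine Finset.sum_congr rfl fun p _ => ?_
  rw [Polynomial.map_mul, Polynomial.map_pow, map_X, map_C]
  rfl

lemma aux_evalEval (P : ℂ[X][X]) (s z : ℂ) : P.evalEval s z =
    ∑ p ∈ Finset.range (P.natDegree + 1), (P.coeff p).eval s * z ^ p := by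
  have h : P.evalEval s z = (P.map (evalRingHom s)).eval z := by
    rw [← eval₂_evalRingHom, eval_map]
  rw [h, aux_map, eval_finsetSum]
  refine Finset.sum_congr rfl fun p _ => ?_
  simp

lemma aux_ident (μ : Measure (ℝ × ℝ)) [IsFiniteMeasure μ] (ρ : ℝ)
    (hμ : ∀ᵐ y ∂μ, ‖y‖ ≤ ρ) (r : ℕ) (c : ℕ → ℂ[X][X]) (s : ℂ) (k : ℕ) :
    ∫ y : ℝ × ℝ, (∑ i ∈ Finset.range (r + 1),
      (-1) ^ i * (derivative^[i] ((c i).map (evalRingHom s) * X ^ k))).eval
        ((y.1 : ℂ) + s * (y.2 : ℂ)) ∂μ =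
    ∑ i ∈ Finset.range (r + 1), ∑ p ∈ Finset.range ((c i).natDegree + 1),
      ((c i).coeff p).eval s * ((-1) ^ i * ((k + p).descFactorial i : ℂ) * auxM μ s (k + p - i)) := by
  have h1 : ∀ y : ℝ × ℝ, (∑ i ∈ Finset.range (r + 1),
      (-1) ^ i * (derivative^[i] ((c i).map (evalRingHom s) * X ^ k))).eval
        ((y.1 : ℂ) + s * (y.2 : ℂ)) = ∑ i ∈ Finset.range (r + 1),
        ∑ p ∈ Finset.range ((c i).natDegree + 1),
        (((c i).coeff p).eval s * ((-1) ^ i * ((k + p).descFactorial i : ℂ))) *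
          auxl s y ^ (k + p - i) := by
    intro y
    rw [eval_finsetSum]
    refine Finset.sum_congr rfl fun i _ => ?_
    rw [aux_map, Finset.sum_mul, iterate_derivative_sum, eval_mul, eval_finsetSum,
      Finset.mul_sum]
    refine Finset.sum_congr rfl fun p _ => ?_
    have e : C (((c i).coeff p).eval s) * X ^ p * X ^ k =
        C (((c i).coeff p).eval s) * X ^ (k + p) := by
      rw [mul_assoc, ← pow_add, add_comm p k]
    rw [e, iterate_derivative_C_mul, iterate_derivative_X_pow_eq_C_mul]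
    simp only [eval_mul, eval_C, eval_pow, eval_X, eval_neg, eval_one]
    show _ = _ * ((y.1 : ℂ) + s * (y.2 : ℂ)) ^ (k + p - i)
    ring
  simp_rw [h1]
  have hI : ∀ (i p : ℕ), Integrable (fun y => (((c i).coeff p).eval s *
      ((-1) ^ i * ((k + p).descFactorial i : ℂ))) * auxl s y ^ (k + p - i)) μ := by
    intro i p
    exact aux_int μ ρ hμ _ (continuous_const.mul ((aux_cont s).pow _))
  rw [integral_finsetSum _ (fun i _ => integrable_finsetSum _ fun p _ => hI i p)]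
  refine Finset.sum_congr rfl fun i _ => ?_
  rw [integral_finsetSum _ (fun p _ => hI i p)]
  refine Finset.sum_congr rfl fun p _ => ?_
  rw [integral_const_mul]
  unfold auxM
  ring

/-- TARGET 2: the identities extend from infinitely many real to all complex parameters -/
theorem complex_M (μ : Measure (ℝ × ℝ)) [IsFiniteMeasure μ] (ρ : ℝ) (hμ : ∀ᵐ y ∂μ, ‖y‖ ≤ ρ)
    (r : ℕ) (c : ℕ → ℂ[X][X]) (D : Set ℝ) (hD : D.Infinite)
    (h : ∀ s ∈ D, ∀ k : ℕ, ∫ y : ℝ × ℝ, (∑ i ∈ Finset.range (r + 1),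
      (-1) ^ i * (derivative^[i] ((c i).map (evalRingHom (s : ℂ)) * X ^ k))).eval
        ((y.1 : ℂ) + (s : ℂ) * (y.2 : ℂ)) ∂μ = 0) (s : ℂ) (k : ℕ) :
    ∫ y : ℝ × ℝ, (∑ i ∈ Finset.range (r + 1),
      (-1) ^ i * (derivative^[i] ((c i).map (evalRingHom s) * X ^ k))).eval
        ((y.1 : ℂ) + s * (y.2 : ℂ)) ∂μ = 0 := by
  obtain ⟨MP, hMP⟩ := aux_moment μ ρ hμ
  set I : ℂ[X] := ∑ i ∈ Finset.range (r + 1), ∑ p ∈ Finset.range ((c i).natDegree + 1),
      (c i).coeff p * (C ((-1) ^ i * ((k + p).descFactorial i : ℂ)) * MP (k + p - i)) with hI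
  have hev : ∀ s : ℂ, I.eval s = ∑ i ∈ Finset.range (r + 1),
      ∑ p ∈ Finset.range ((c i).natDegree + 1),
      ((c i).coeff p).eval s * ((-1) ^ i * ((k + p).descFactorial i : ℂ) * auxM μ s (k + p - i)) := by
    intro s
    rw [hI, eval_finsetSum]
    refine Finset.sum_congr rfl fun i _ => ?_
    rw [eval_finsetSum]
    refine Finset.sum_congr rfl fun p _ => ?_
    rw [eval_mul, eval_mul, eval_C, hMP]
  have hI0 : I = 0 := by
    apply eq_zero_of_infinite_isRoot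
    refine (hD.image (Complex.ofReal_injective.injOn)).mono ?_
    rintro _ ⟨s, hs, rfl⟩
    show I.eval (s : ℂ) = 0
    rw [hev, ← aux_ident μ ρ hμ r c (s : ℂ) k]
    exact h s hs k
  rw [aux_ident μ ρ hμ r c s k, ← hev, hI0, eval_zero]

lemma aux_lower {R δ : ℝ} {l z : ℂ} (hl : ‖l‖ ≤ R) (hz : R + δ < ‖z‖) : δ < ‖z - l‖ := by
  have h := norm_sub_norm_le z l
  linarith

lemma aux_deriv (μ : Measure (ℝ × ℝ)) [IsFiniteMeasure μ] (ρ : ℝ)
    (hμ : ∀ᵐ y ∂μ, ‖y‖ ≤ ρ) (s : ℂ) (i : ℕ) (z : ℂ) (hz : ρ * (1 + ‖s‖) < ‖z‖) :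
    HasDerivAt (fun z => ∫ y, ((z - auxl s y) ^ (i + 1))⁻¹ ∂μ)
      (-((i : ℂ) + 1) * ∫ y, ((z - auxl s y) ^ (i + 2))⁻¹ ∂μ) z := by
  set R : ℝ := ρ * (1 + ‖s‖) with hR
  set δ : ℝ := (‖z‖ - R) / 2 with hδ
  have hδ0 : 0 < δ := by rw [hδ]; linarith
  have hzs : R + δ < ‖z‖ := by rw [hδ]; linarith
  have hopen : IsOpen {x : ℂ | R + δ < ‖x‖} := isOpen_lt continuous_const continuous_norm
  have hmeas : ∀ (x : ℂ) (j : ℕ), AEStronglyMeasurable (fun y => ((x - auxl s y) ^ j)⁻¹) μ :=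
    fun x j => (((measurable_const.sub (aux_cont s).measurable).pow_const j).inv).aestronglyMeasurable
  have hbd : ∀ (j : ℕ) (x : ℂ), R + δ < ‖x‖ → ∀ y : ℝ × ℝ, ‖y‖ ≤ ρ →
      ‖((x - auxl s y) ^ j)⁻¹‖ ≤ (δ ^ j)⁻¹ := by
    intro j x hx y hy
    rw [norm_inv, norm_pow]
    apply inv_anti₀ (by positivity)
    exact pow_le_pow_left₀ hδ0.le (aux_lower (aux_bd s hy) hx).le j
  have hint : ∀ j : ℕ, Integrable (fun y => ((z - auxl s y) ^ j)⁻¹) μ := fun j =>
    Integrable.of_bound (hmeas z j) ((δ ^ j)⁻¹) (hμ.mono fun y hy => hbd j z hzs y hy)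
  have key := hasDerivAt_integral_of_dominated_loc_of_deriv_le (𝕜 := ℂ) (μ := μ)
    (F := fun (x : ℂ) (y : ℝ × ℝ) => ((x - auxl s y) ^ (i + 1))⁻¹)
    (F' := fun (x : ℂ) (y : ℝ × ℝ) => -((i : ℂ) + 1) * ((x - auxl s y) ^ (i + 2))⁻¹)
    (bound := fun _ => ‖(-((i : ℂ) + 1))‖ * (δ ^ (i + 2))⁻¹) (x₀ := z)
    (s := {x : ℂ | R + δ < ‖x‖}) (hopen.mem_nhds hzs)
    (Eventually.of_forall fun x => hmeas x (i + 1)) (hint (i + 1))
    ((hmeas z (i + 2)).const_mul _)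
    (hμ.mono fun y hy x hx => by
      rw [norm_mul]
      exact mul_le_mul_of_nonneg_left (hbd (i + 2) x hx y hy) (norm_nonneg _))
    (integrable_const _)
    (hμ.mono fun y hy x hx => by
      have hne : x - auxl s y ≠ 0 := norm_pos_iff.mp (hδ0.trans (aux_lower (aux_bd s hy) hx))
      have h1 : HasDerivAt (fun x : ℂ => x - auxl s y) 1 x := (hasDerivAt_id x).sub_const _
      have h2 := (h1.pow (i + 1)).inv (pow_ne_zero _ hne)
      refine h2.congr_deriv ?_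
      show -(((i + 1 : ℕ) : ℂ) * (x - auxl s y) ^ i * 1) / ((x - auxl s y) ^ (i + 1)) ^ 2 =
        -((i : ℂ) + 1) * ((x - auxl s y) ^ (i + 2))⁻¹
      have e : ((x - auxl s y) ^ (i + 1)) ^ 2 = (x - auxl s y) ^ i * (x - auxl s y) ^ (i + 2) := by
        ring
      rw [e]
      push_cast
      field_simp)
  have h3 := key.2
  rw [integral_const_mul] at h3
  exact h3

lemma aux_iter (μ : Measure (ℝ × ℝ)) [IsFiniteMeasure μ] (ρ : ℝ)
    (hμ : ∀ᵐ y ∂μ, ‖y‖ ≤ ρ) (s : ℂ) (i : ℕ) (z : ℂ) (hz : ρ * (1 + ‖s‖) < ‖z‖) :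
    iteratedDeriv i (fun z => FF μ (s, z)) z =
      (-1) ^ i * (i.factorial : ℂ) * ∫ y, ((z - auxl s y) ^ (i + 1))⁻¹ ∂μ := by
  induction i generalizing z with
  | zero =>
    rw [iteratedDeriv_zero]
    simp only [pow_zero, Nat.factorial_zero, Nat.cast_one, one_mul, zero_add, pow_one]
    rfl
  | succ i ih =>
    rw [iteratedDeriv_succ]
    have hopen : IsOpen {x : ℂ | ρ * (1 + ‖s‖) < ‖x‖} := isOpen_lt continuous_const continuous_norm
    have hev : iteratedDeriv i (fun z => FF μ (s, z)) =ᶠ[𝓝 z]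
        fun z => (-1) ^ i * (i.factorial : ℂ) * ∫ y, ((z - auxl s y) ^ (i + 1))⁻¹ ∂μ := by
      filter_upwards [hopen.mem_nhds hz] with x hx
      exact ih x hx
    rw [hev.deriv_eq, ((aux_deriv μ ρ hμ s i z hz).const_mul _).deriv]
    rw [Nat.factorial_succ]
    push_cast
    ring

lemma aux_anal (μ : Measure (ℝ × ℝ)) [IsFiniteMeasure μ] (ρ : ℝ)
    (hμ : ∀ᵐ y ∂μ, ‖y‖ ≤ ρ) (s : ℂ) (z : ℂ) (hz : ρ * (1 + ‖s‖) < ‖z‖) :
    AnalyticAt ℂ (fun z => FF μ (s, z)) z := by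
  have hopen : IsOpen {x : ℂ | ρ * (1 + ‖s‖) < ‖x‖} := isOpen_lt continuous_const continuous_norm
  have hd : DifferentiableOn ℂ (fun z => FF μ (s, z)) {x : ℂ | ρ * (1 + ‖s‖) < ‖x‖} := by
    intro x hx
    have h := (aux_deriv μ ρ hμ s 0 x hx).differentiableAt.differentiableWithinAt
      (s := {x : ℂ | ρ * (1 + ‖s‖) < ‖x‖})
    simp only [zero_add, pow_one] at h
    exact h
  exact hd.analyticAt (hopen.mem_nhds hz)

lemma aux_geo {𝕜 : Type*} [RCLike 𝕜] (i : ℕ) (l z : 𝕜) (h : ‖l‖ < ‖z‖) :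
    HasSum (fun k : ℕ => (((k + i).descFactorial i : ℕ) : 𝕜) * l ^ k * (z ^ (k + i + 1))⁻¹)
      ((i.factorial : 𝕜) * ((z - l) ^ (i + 1))⁻¹) := by
  have hz : z ≠ 0 := by
    intro h0; rw [h0, norm_zero] at h; exact absurd h (not_lt.mpr (norm_nonneg _))
  have hx : ‖l / z‖ < 1 := by
    rw [norm_div, div_lt_one (norm_pos_iff.mpr hz)]; exact h
  have hzl : z - l ≠ 0 := by
    intro h0
    rw [sub_eq_zero.mp h0] at h
    exact lt_irrefl _ h
  have h1 := (hasSum_choose_mul_geometric_of_norm_lt_one i hx).mul_left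
    ((i.factorial : 𝕜) * (z ^ (i + 1))⁻¹)
  have e : (i.factorial : 𝕜) * (z ^ (i + 1))⁻¹ * (1 / (1 - l / z) ^ (i + 1)) =
      (i.factorial : 𝕜) * ((z - l) ^ (i + 1))⁻¹ := by
    have e1 : 1 - l / z = (z - l) / z := by field_simp
    rw [e1, div_pow]
    field_simp
  rw [e] at h1
  refine h1.congr_fun ?_
  intro k
  rw [Nat.descFactorial_eq_factorial_mul_choose, div_pow]
  push_cast
  have e2 : z ^ (k + i + 1) = z ^ k * z ^ (i + 1) := by rw [← pow_add]; congr 1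
  rw [e2]
  field_simp

lemma aux_series (μ : Measure (ℝ × ℝ)) [IsFiniteMeasure μ] (ρ : ℝ)
    (hρ : 0 ≤ ρ) (hμ : ∀ᵐ y ∂μ, ‖y‖ ≤ ρ) (s : ℂ) (i : ℕ) (z : ℂ) (hz : ρ * (1 + ‖s‖) < ‖z‖) :
    HasSum (fun k : ℕ => (-1) ^ i * ((k + i).descFactorial i : ℂ) * auxM μ s k *
      (z ^ (k + i + 1))⁻¹)
      ((-1) ^ i * (i.factorial : ℂ) * ∫ y, ((z - auxl s y) ^ (i + 1))⁻¹ ∂μ) := by
  set R : ℝ := ρ * (1 + ‖s‖) with hR
  have hR0 : 0 ≤ R := by positivity
  set F : ℕ → ℝ × ℝ → ℂ := fun k y => ((k + i).descFactorial i : ℂ) * auxl s y ^ k *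
    (z ^ (k + i + 1))⁻¹ with hF
  have hFi : ∀ k, Integrable (F k) μ := fun k =>
    aux_int μ ρ hμ _ ((continuous_const.mul ((aux_cont s).pow k)).mul continuous_const)
  have hgeo := aux_geo (𝕜 := ℝ) i R ‖z‖ (by
    rw [norm_norm, Real.norm_of_nonneg hR0]; exact hz)
  have hFs : Summable fun k => ∫ y, ‖F k y‖ ∂μ := by
    refine Summable.of_nonneg_of_le (fun k => integral_nonneg fun y => norm_nonneg _) (fun k => ?_)
      (hgeo.summable.mul_left (μ.real univ))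
    have hb : ∀ᵐ y ∂μ, ‖F k y‖ ≤ ((k + i).descFactorial i : ℝ) * R ^ k * (‖z‖ ^ (k + i + 1))⁻¹ := by
      filter_upwards [hμ] with y hy
      rw [hF]
      simp only
      rw [norm_mul, norm_mul, norm_inv, norm_pow, norm_pow, Complex.norm_natCast]
      have h1 : ‖auxl s y‖ ^ k ≤ R ^ k := pow_le_pow_left₀ (norm_nonneg _) (aux_bd s hy) k
      have h2 : (0 : ℝ) ≤ (‖z‖ ^ (k + i + 1))⁻¹ := by positivity
      exact mul_le_mul_of_nonneg_right (mul_le_mul_of_nonneg_left h1 (Nat.cast_nonneg _)) h2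
    calc ∫ y, ‖F k y‖ ∂μ ≤ ∫ _y : ℝ × ℝ, ((k + i).descFactorial i : ℝ) * R ^ k *
          (‖z‖ ^ (k + i + 1))⁻¹ ∂μ := integral_mono_ae (hFi k).norm (integrable_const _) hb
      _ = _ := by rw [integral_const, smul_eq_mul]
  have h1 := hasSum_integral_of_summable_integral_norm hFi hFs
  have h2 : ∫ y, ∑' k, F k y ∂μ = (i.factorial : ℂ) * ∫ y, ((z - auxl s y) ^ (i + 1))⁻¹ ∂μ := by
    rw [← integral_const_mul]
    apply integral_congr_ae
    filter_upwards [hμ] with y hy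
    exact (aux_geo i (auxl s y) z (lt_of_le_of_lt (aux_bd s hy) hz)).tsum_eq
  rw [h2] at h1
  have h3 := h1.mul_left ((-1 : ℂ) ^ i)
  rw [← mul_assoc] at h3
  refine h3.congr_fun ?_
  intro k
  rw [hF]
  simp only
  rw [integral_mul_const, integral_const_mul]
  unfold auxM
  ring

lemma aux_shift (M : ℕ → ℂ) (i p : ℕ) (z : ℂ) (hz : z ≠ 0) (S : ℂ)
    (h : HasSum (fun k : ℕ => (-1) ^ i * ((k + i).descFactorial i : ℂ) * M k *
      (z ^ (k + i + 1))⁻¹) S) :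
    HasSum (fun n : ℕ => (-1) ^ i * ((n + p).descFactorial i : ℂ) * M (n + p - i) *
      (z ^ (n + 1))⁻¹) (z ^ p * S - ∑ k ∈ Finset.range (p - i),
        (-1) ^ i * ((k + i).descFactorial i : ℂ) * M k * z ^ (p - i - 1 - k)) := by
  have h' := h.mul_left (z ^ p)
  rcases le_or_gt i p with hip | hip
  · obtain ⟨q, rfl⟩ : ∃ q, p = i + q := ⟨p - i, by omega⟩
    have e0 : i + q - i = q := by omega
    rw [e0]
    have h2 := (hasSum_nat_add_iff' q).2 h'
    have e1 : ∑ k ∈ Finset.range q, z ^ (i + q) * ((-1) ^ i * ((k + i).descFactorial i : ℂ) * M k *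
        (z ^ (k + i + 1))⁻¹) = ∑ k ∈ Finset.range q,
        (-1) ^ i * ((k + i).descFactorial i : ℂ) * M k * z ^ (q - 1 - k) := by
      refine Finset.sum_congr rfl fun k hk => ?_
      rw [Finset.mem_range] at hk
      have e2 : z ^ (i + q) = z ^ (q - 1 - k) * z ^ (k + i + 1) := by
        rw [← pow_add]; congr 1; omega
      rw [e2]
      field_simp
    rw [e1] at h2
    refine h2.congr_fun ?_
    intro n
    have e3 : n + (i + q) = n + q + i := by ring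
    have e4 : n + q + i - i = n + q := by omega
    rw [e3, e4]
    have e5 : z ^ (n + q + i + 1) = z ^ (n + 1) * z ^ (i + q) := by
      rw [← pow_add]; congr 1; ring
    rw [e5]
    field_simp
  · obtain ⟨q, rfl⟩ : ∃ q, i = p + q := ⟨i - p, by omega⟩
    have e0 : p - (p + q) = 0 := by omega
    rw [e0, Finset.range_zero, Finset.sum_empty, sub_zero]
    rw [← hasSum_nat_add_iff' q]
    have e1 : ∑ n ∈ Finset.range q, (-1) ^ (p + q) * ((n + p).descFactorial (p + q) : ℂ) *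
        M (n + p - (p + q)) * (z ^ (n + 1))⁻¹ = 0 := by
      apply Finset.sum_eq_zero
      intro n hn
      rw [Finset.mem_range] at hn
      have : (n + p).descFactorial (p + q) = 0 := Nat.descFactorial_eq_zero_iff_lt.2 (by omega)
      rw [this]
      simp
    rw [e1, sub_zero]
    refine h'.congr_fun ?_
    intro n
    have e3 : n + q + p = n + (p + q) := by ring
    have e4 : n + (p + q) - (p + q) = n := by omega
    rw [e3, e4]
    have e5 : z ^ (n + (p + q) + 1) = z ^ (n + q + 1) * z ^ p := by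
      rw [← pow_add]; congr 1; ring
    rw [e5]
    field_simp

/-- TARGET 1: differential equation for the Cauchy transform from the moment identities -/
theorem exists_Q_gen (μ : Measure (ℝ × ℝ)) [IsFiniteMeasure μ] (ρ : ℝ) (hρ : 0 ≤ ρ)
    (hμ : ∀ᵐ y ∂μ, ‖y‖ ≤ ρ) (r : ℕ) (c : ℕ → ℂ[X][X])
    (hM : ∀ (s : ℂ) (k : ℕ), ∫ y : ℝ × ℝ, (∑ i ∈ Finset.range (r + 1),
      (-1) ^ i * (derivative^[i] ((c i).map (evalRingHom s) * X ^ k))).eval
        ((y.1 : ℂ) + s * (y.2 : ℂ)) ∂μ = 0) :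
    ∃ Q : ℂ[X][X], ∀ s z : ℂ, ρ * (1 + ‖s‖) < ‖z‖ →
      AnalyticAt ℂ (fun z => FF μ (s, z)) z ∧
      ∑ i ∈ Finset.range (r + 1), (c i).evalEval s z * iteratedDeriv i (fun z => FF μ (s, z)) z
        = Q.evalEval s z := by
  obtain ⟨MP, hMP⟩ := aux_moment μ ρ hμ
  refine ⟨∑ i ∈ Finset.range (r + 1), ∑ p ∈ Finset.range ((c i).natDegree + 1),
    ∑ k ∈ Finset.range (p - i), C ((c i).coeff p * (C ((-1) ^ i * ((k + i).descFactorial i : ℂ)) *
      MP k)) * X ^ (p - i - 1 - k), fun s z hz => ⟨aux_anal μ ρ hμ s z hz, ?_⟩⟩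
  have hz0 : z ≠ 0 := by
    intro h0
    rw [h0, norm_zero] at hz
    have : 0 ≤ ρ * (1 + ‖s‖) := by positivity
    linarith
  set DD : ℕ → ℂ := fun i => iteratedDeriv i (fun z => FF μ (s, z)) z with hDD
  have hser : ∀ i, HasSum (fun k : ℕ => (-1) ^ i * ((k + i).descFactorial i : ℂ) * auxM μ s k *
      (z ^ (k + i + 1))⁻¹) (DD i) := by
    intro i
    rw [hDD]
    simp only
    rw [aux_iter μ ρ hμ s i z hz]
    exact aux_series μ ρ hρ hμ s i z hz
  have hsum : HasSum (fun n : ℕ => ∑ i ∈ Finset.range (r + 1),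
      ∑ p ∈ Finset.range ((c i).natDegree + 1), ((c i).coeff p).eval s *
        ((-1) ^ i * ((n + p).descFactorial i : ℂ) * auxM μ s (n + p - i) * (z ^ (n + 1))⁻¹))
      (∑ i ∈ Finset.range (r + 1), ∑ p ∈ Finset.range ((c i).natDegree + 1),
        ((c i).coeff p).eval s * (z ^ p * DD i - ∑ k ∈ Finset.range (p - i),
        (-1) ^ i * ((k + i).descFactorial i : ℂ) * auxM μ s k * z ^ (p - i - 1 - k))) :=
    hasSum_sum fun i _ => hasSum_sum fun p _ =>
      (aux_shift (auxM μ s) i p z hz0 (DD i) (hser i)).mul_left _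
  have hzero : ∀ n : ℕ, ∑ i ∈ Finset.range (r + 1),
      ∑ p ∈ Finset.range ((c i).natDegree + 1), ((c i).coeff p).eval s *
        ((-1) ^ i * ((n + p).descFactorial i : ℂ) * auxM μ s (n + p - i) * (z ^ (n + 1))⁻¹) = 0 := by
    intro n
    have h1 := hM s n
    rw [aux_ident μ ρ hμ r c s n] at h1
    have h2 := congrArg (fun x => x * (z ^ (n + 1))⁻¹) h1
    simp only [zero_mul, Finset.sum_mul] at h2
    rw [← h2]
    refine Finset.sum_congr rfl fun i _ => Finset.sum_congr rfl fun p _ => ?_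
    ring
  simp only [hzero] at hsum
  have h0 := hsum.unique hasSum_zero
  have hQ : (∑ i ∈ Finset.range (r + 1), ∑ p ∈ Finset.range ((c i).natDegree + 1),
    ∑ k ∈ Finset.range (p - i), C ((c i).coeff p * (C ((-1) ^ i * ((k + i).descFactorial i : ℂ)) *
      MP k)) * X ^ (p - i - 1 - k) : ℂ[X][X]).evalEval s z =
      ∑ i ∈ Finset.range (r + 1), ∑ p ∈ Finset.range ((c i).natDegree + 1),
      ((c i).coeff p).eval s * ∑ k ∈ Finset.range (p - i),
        (-1) ^ i * ((k + i).descFactorial i : ℂ) * auxM μ s k * z ^ (p - i - 1 - k) := by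
    rw [← coe_evalEvalRingHom]
    simp only [map_sum, Finset.mul_sum]
    refine Finset.sum_congr rfl fun i _ => Finset.sum_congr rfl fun p _ =>
      Finset.sum_congr rfl fun k _ => ?_
    rw [map_mul, map_pow, coe_evalEvalRingHom, evalEval_C, evalEval_X, eval_mul, eval_mul,
      eval_C, hMP]
    ring
  rw [hQ]
  have h3 : ∑ i ∈ Finset.range (r + 1), (c i).evalEval s z * DD i =
      ∑ i ∈ Finset.range (r + 1), ∑ p ∈ Finset.range ((c i).natDegree + 1),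
        ((c i).coeff p).eval s * (z ^ p * DD i) := by
    refine Finset.sum_congr rfl fun i _ => ?_
    rw [aux_evalEval, Finset.sum_mul]
    refine Finset.sum_congr rfl fun p _ => ?_
    ring
  show ∑ i ∈ Finset.range (r + 1), (c i).evalEval s z * DD i = _
  rw [h3]
  simp only [mul_sub, Finset.sum_sub_distrib] at h0
  exact sub_eq_zero.1 h0

end AR.J5758

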