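import Mathlib

set_option autoImplicit false
open Polynomial Set Filter Topology Metric

namespace AR.J5652

theorem rf_eval (p : ℂ[X]) (d : ℕ) (hd : p.natDegree = d) (w : ℂ) :
    p.eval w = ∑ i ∈ Finset.range (d + 1), p.coeff i * w ^ i := by
  rw [Polynomial.eval_eq_sum_range, hd]

/-- bound for the roots -/
theorem rf_bound (p : ℂ[X]) (d : ℕ) (hd : p.natDegree = d) (h0 : p ≠ 0) (w : ℂ)
    (hw : p.eval w = 0) :
    ‖w‖ ≤ 1 + ∑ i ∈ Finset.range d, ‖p.coeff i‖ / ‖p.coeff d‖ := by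
  have hlead : p.coeff d ≠ 0 := by rw [← hd]; exact leadingCoeff_ne_zero.2 h0
  have hl : 0 < ‖p.coeff d‖ := norm_pos_iff.2 hlead
  have hnn : 0 ≤ ∑ i ∈ Finset.range d, ‖p.coeff i‖ / ‖p.coeff d‖ :=
    Finset.sum_nonneg fun i _ => by positivity
  by_cases h1 : ‖w‖ ≤ 1
  · linarith
  push Not at h1
  rcases Nat.eq_zero_or_pos d with hd0 | hd0
  · exfalso
    rw [rf_eval p d hd] at hw
    subst hd0
    simp at hw
    exact hlead hw
  obtain ⟨n, rfl⟩ : ∃ n, d = n + 1 := ⟨d - 1, by omega⟩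
  rw [rf_eval p (n + 1) hd, Finset.sum_range_succ] at hw
  have h2 : ‖p.coeff (n + 1)‖ * ‖w‖ ^ (n + 1) ≤
      ∑ i ∈ Finset.range (n + 1), ‖p.coeff i‖ * ‖w‖ ^ n := by
    have h3 : p.coeff (n + 1) * w ^ (n + 1) = - ∑ i ∈ Finset.range (n + 1), p.coeff i * w ^ i := by
      linear_combination hw
    rw [← norm_pow, ← norm_mul, h3, norm_neg]
    refine (norm_sum_le _ _).trans (Finset.sum_le_sum fun i hi => ?_)
    rw [norm_mul, norm_pow]
    apply mul_le_mul_of_nonneg_left _ (norm_nonneg _)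
    exact pow_le_pow_right₀ h1.le (by have := Finset.mem_range.1 hi; omega)
  have h3 : ‖w‖ ≤ ∑ i ∈ Finset.range (n + 1), ‖p.coeff i‖ / ‖p.coeff (n + 1)‖ := by
    rw [← Finset.sum_div, le_div_iff₀ hl]
    rw [← Finset.sum_mul, pow_succ] at h2
    have hwn : 0 < ‖w‖ ^ n := by positivity
    have h4 : (‖w‖ * ‖p.coeff (n + 1)‖) * ‖w‖ ^ n
        ≤ (∑ i ∈ Finset.range (n + 1), ‖p.coeff i‖) * ‖w‖ ^ n := by linarith
    exact le_of_mul_le_mul_right h4 hwn
  linarith

/-- a root near a point where the polynomial is small -/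
theorem rf_root_near (p : ℂ[X]) (w0 : ℂ) (ε : ℝ) (hε : 0 < ε)
    (h : ‖p.eval w0‖ < ‖p.leadingCoeff‖ * ε ^ p.natDegree) :
    ∃ w, p.eval w = 0 ∧ ‖w - w0‖ < ε := by
  by_contra hc
  push Not at hc
  have hs : p.Splits := IsAlgClosed.splits p
  have e3 : ∀ s : Multiset ℂ, (∀ w ∈ s, ε ≤ ‖w0 - w‖) →
      ε ^ Multiset.card s ≤ ‖(s.map (fun w => w0 - w)).prod‖ := by
    intro s
    induction s using Multiset.induction_on with
    | empty => intro _; simp
    | cons a s ih =>
      intro hs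
      rw [Multiset.card_cons, Multiset.map_cons, Multiset.prod_cons, norm_mul, pow_succ, mul_comm]
      exact mul_le_mul (hs a (Multiset.mem_cons_self a s))
        (ih fun w hw => hs w (Multiset.mem_cons_of_mem hw)) (by positivity) (norm_nonneg _)
  by_cases hp0 : p = 0
  · subst hp0
    simp at h
  have e4 := e3 p.roots (fun w hw => by
    have h1 := hc w ((mem_roots hp0).1 hw)
    rwa [norm_sub_rev])
  rw [hs.eval_eq_prod_roots, norm_mul] at h
  rw [← hs.natDegree_eq_card_roots] at e4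
  have h5 : ‖p.leadingCoeff‖ * ε ^ p.natDegree ≤
      ‖p.leadingCoeff‖ * ‖(p.roots.map (fun w => w0 - w)).prod‖ :=
    mul_le_mul_of_nonneg_left e4 (norm_nonneg _)
  exact absurd h (not_lt.2 h5)

/-- divided difference -/
noncomputable def Qf (c : ℕ → ℂ) (d : ℕ) (w w' : ℂ) : ℂ :=
  ∑ i ∈ Finset.range (d + 1), c i * ∑ k ∈ Finset.range i, w ^ k * w' ^ (i - 1 - k)

theorem rf_Qf (p : ℂ[X]) (d : ℕ) (hd : p.natDegree = d) (w w' : ℂ) :
    p.eval w - p.eval w' = (w - w') * Qf p.coeff d w w' := by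
  rw [rf_eval p d hd, rf_eval p d hd, ← Finset.sum_sub_distrib, Qf, Finset.mul_sum]
  refine Finset.sum_congr rfl fun i _ => ?_
  rw [← mul_sub, ← Commute.geom_sum₂_mul (Commute.all w w') i]; ring

theorem rf_Qf_diag (p : ℂ[X]) (d : ℕ) (hd : p.natDegree = d) (w : ℂ) :
    Qf p.coeff d w w = p.derivative.eval w := by
  rw [Polynomial.derivative_eval, Polynomial.sum_over_range _ (by intro n; simp), hd, Qf]
  refine Finset.sum_congr rfl fun i _ => ?_
  have : ∑ k ∈ Finset.range i, w ^ k * w ^ (i - 1 - k) = (i : ℂ) * w ^ (i - 1) := by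
    rw [Finset.sum_congr rfl (g := fun _ => w ^ (i - 1))]
    · simp
    · intro k hk
      rw [← pow_add]
      congr 1
      have := Finset.mem_range.1 hk
      omega
  rw [this]; ring

theorem rf_sep_ne (p : ℂ[X]) (hp : p.Separable) (w : ℂ) (hw : p.eval w = 0) :
    p.derivative.eval w ≠ 0 := by
  obtain ⟨a, b, hab⟩ := hp
  intro h
  have h1 := congrArg (fun q => q.eval w) hab
  simp [hw, h] at h1

theorem rf_sep_ne_zero (p : ℂ[X]) (hp : p.Separable) : p ≠ 0 := by
  rintro rfl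
  obtain ⟨a, b, hab⟩ := hp
  simp at hab

/-- the total space of the root covering -/
abbrev TS (H : Set ℂ) (p : ℂ → ℂ[X]) := {q : H × ℂ // (p (q.1 : ℂ)).eval q.2 = 0}

def prj (H : Set ℂ) (p : ℂ → ℂ[X]) : TS H p → H := fun e => e.1.1

section
variable {H : Set ℂ} {p : ℂ → ℂ[X]} {d : ℕ}

theorem prj_cont : Continuous (prj H p) := continuous_fst.comp continuous_subtype_val

theorem rf_cont_eval (hp : ∀ i, Continuous fun h : H => (p h).coeff i)
    (hdeg : ∀ h ∈ H, (p h).natDegree = d) :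
    Continuous fun q : H × ℂ => (p (q.1 : ℂ)).eval q.2 := by
  have h1 : (fun q : H × ℂ => (p (q.1 : ℂ)).eval q.2)
      = fun q : H × ℂ => ∑ i ∈ Finset.range (d + 1), (p (q.1 : ℂ)).coeff i * q.2 ^ i := by
    funext q
    exact rf_eval _ d (hdeg _ q.1.2) _
  rw [h1]
  refine continuous_finsetSum _ fun i _ => ?_
  exact ((hp i).comp continuous_fst).mul (continuous_snd.pow i)

theorem rf_cont_Qf (hp : ∀ i, Continuous fun h : H => (p h).coeff i) :
    Continuous fun q : H × ℂ × ℂ => Qf (p (q.1 : ℂ)).coeff d q.2.1 q.2.2 := by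
  unfold Qf
  refine continuous_finsetSum _ fun i _ => ?_
  refine ((hp i).comp continuous_fst).mul ?_
  refine continuous_finsetSum _ fun k _ => ?_
  exact ((continuous_fst.comp continuous_snd).pow k).mul
    ((continuous_snd.comp continuous_snd).pow (i - 1 - k))

theorem rf_closedMap (hHo : IsOpen H) (hp : ∀ i, Continuous fun h : H => (p h).coeff i)
    (hdeg : ∀ h ∈ H, (p h).natDegree = d) (hne : ∀ h ∈ H, p h ≠ 0) : IsClosedMap (prj H p) := by
  have : LocallyCompactSpace H := hHo.locallyCompactSpace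
  apply IsProperMap.isClosedMap
  rw [isProperMap_iff_isCompact_preimage]
  refine ⟨prj_cont, ?_⟩
  intro K hK
  have hRcont : Continuous (fun h : H => 1 + ∑ i ∈ Finset.range d,
      ‖(p h).coeff i‖ / ‖(p h).coeff d‖) := by
    refine continuous_const.add (continuous_finsetSum _ fun i _ => ?_)
    refine (hp i).norm.div (hp d).norm ?_
    intro h
    rw [norm_ne_zero_iff]
    have h1 := leadingCoeff_ne_zero.2 (hne _ h.2)
    rwa [leadingCoeff, hdeg _ h.2] at h1
  obtain ⟨M, hM⟩ := hK.bddAbove_image hRcont.continuousOn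
  have hcl : IsClosedEmbedding (Subtype.val : TS H p → H × ℂ) :=
    (isClosed_singleton.preimage (rf_cont_eval hp hdeg)).isClosedEmbedding_subtypeVal
  have h1 : prj H p ⁻¹' K = Subtype.val ⁻¹' (K ×ˢ closedBall (0:ℂ) M) := by
    ext e
    simp only [mem_preimage, mem_prod, mem_closedBall_zero_iff]
    constructor
    · intro he
      refine ⟨he, ?_⟩
      refine (rf_bound _ d (hdeg _ e.1.1.2) (hne _ e.1.1.2) _ e.2).trans ?_
      exact hM ⟨e.1.1, he, rfl⟩
    · intro he
      exact he.1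
  rw [h1]
  exact hcl.isCompact_preimage (hK.prod (isCompact_closedBall _ _))

theorem rf_openMap (hp : ∀ i, Continuous fun h : H => (p h).coeff i)
    (hdeg : ∀ h ∈ H, (p h).natDegree = d) (hne : ∀ h ∈ H, p h ≠ 0) : IsOpenMap (prj H p) := by
  rw [isOpenMap_iff_nhds_le]
  rintro ⟨⟨h0, w0⟩, he⟩ V hV
  rw [Filter.mem_map, mem_nhds_induced] at hV
  obtain ⟨W, hW, hWV⟩ := hV
  rw [nhds_prod_eq, Filter.mem_prod_iff] at hW
  obtain ⟨U1, hU1, U2, hU2, hUW⟩ := hW
  obtain ⟨ε, hε, hball⟩ := Metric.mem_nhds_iff.1 hU2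
  have he : (p (h0 : ℂ)).eval w0 = 0 := he
  -- the polynomial is small at w0 near h0
  have hc1 : Continuous (fun h : H => ‖(p (h : ℂ)).eval w0‖) :=
    ((rf_cont_eval hp hdeg).comp (continuous_id.prodMk continuous_const)).norm
  have hc2 : Continuous (fun h : H => ‖(p (h : ℂ)).coeff d‖ * ε ^ d) :=
    (hp d).norm.mul continuous_const
  have hlt : ‖(p (h0 : ℂ)).eval w0‖ < ‖(p (h0 : ℂ)).coeff d‖ * ε ^ d := by
    rw [he, norm_zero]
    have h1 := leadingCoeff_ne_zero.2 (hne _ h0.2)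
    rw [leadingCoeff, hdeg _ h0.2] at h1
    have := norm_pos_iff.2 h1
    positivity
  have hev : ∀ᶠ h : H in 𝓝 h0, ‖(p (h : ℂ)).eval w0‖ < ‖(p (h : ℂ)).coeff d‖ * ε ^ d :=
    hc1.continuousAt.eventually_lt hc2.continuousAt hlt
  show V ∈ 𝓝 h0
  filter_upwards [hev, hU1] with h h1 h2
  obtain ⟨w, hw1, hw2⟩ := rf_root_near (p h) w0 ε hε (by
    rw [leadingCoeff, hdeg _ h.2]; exact h1)
  have hmem : (⟨(h, w), hw1⟩ : TS H p) ∈ prj H p ⁻¹' V := by
    apply hWV
    show (h, w) ∈ W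
    apply hUW
    refine ⟨h2, hball ?_⟩
    show w ∈ ball w0 ε
    rw [mem_ball, dist_eq_norm]; exact hw2
  exact hmem

theorem rf_locHomeo (hp : ∀ i, Continuous fun h : H => (p h).coeff i)
    (hdeg : ∀ h ∈ H, (p h).natDegree = d) (hsep : ∀ h ∈ H, (p h).Separable) :
    IsLocalHomeomorph (prj H p) := by
  have hne : ∀ h ∈ H, p h ≠ 0 := fun h hh => rf_sep_ne_zero _ (hsep h hh)
  rw [isLocalHomeomorph_iff_isOpenEmbedding_restrict]
  rintro e₀
  -- local injectivity
  have hQ : Continuous (fun q : TS H p × TS H p =>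
      Qf (p (q.1.1.1 : ℂ)).coeff d q.1.1.2 q.2.1.2) := by
    have h1 : Continuous (fun q : TS H p × TS H p => (q.1.1.1, q.1.1.2, q.2.1.2)) := by
      fun_prop
    exact (rf_cont_Qf (d := d) hp).comp h1
  have hQ0 : Qf (p (e₀.1.1 : ℂ)).coeff d e₀.1.2 e₀.1.2 ≠ 0 := by
    rw [rf_Qf_diag _ d (hdeg _ e₀.1.1.2)]
    exact rf_sep_ne _ (hsep _ e₀.1.1.2) _ e₀.2
  have hev : ∀ᶠ q : TS H p × TS H p in 𝓝 (e₀, e₀),
      Qf (p (q.1.1.1 : ℂ)).coeff d q.1.1.2 q.2.1.2 ≠ 0 :=
    hQ.continuousAt.eventually_ne hQ0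
  rw [nhds_prod_eq] at hev
  obtain ⟨U1, hU1, U2, hU2, hUW⟩ := Filter.mem_prod_iff.1 hev
  obtain ⟨U, hUsub, hUo, heU⟩ := _root_.mem_nhds_iff.1 (Filter.inter_mem hU1 hU2)
  refine ⟨U, hUo.mem_nhds heU, ?_⟩
  apply IsOpenEmbedding.of_continuous_injective_isOpenMap
  · exact prj_cont.comp continuous_subtype_val
  · rintro ⟨⟨⟨h, w⟩, hw⟩, h1⟩ ⟨⟨⟨h', w'⟩, hw'⟩, h1'⟩ heq
    have heq' : h = h' := heq
    subst heq'
    have hq : Qf (p (h : ℂ)).coeff d w w' ≠ 0 := by
      have : ((⟨(h, w), hw⟩ : TS H p), (⟨(h, w'), hw'⟩ : TS H p)) ∈ U1 ×ˢ U2 :=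
        ⟨(hUsub h1).1, (hUsub h1').2⟩
      exact hUW this
    have h2 := rf_Qf (p h) d (hdeg _ h.2) w w'
    have hw : (p (h : ℂ)).eval w = 0 := hw
    have hw' : (p (h : ℂ)).eval w' = 0 := hw'
    rw [hw, hw', sub_self] at h2
    have h3 : w - w' = 0 := by
      rcases mul_eq_zero.1 h2.symm with h | h
      · exact h
      · exact absurd h hq
    have h4 : w = w' := sub_eq_zero.1 h3
    subst h4
    rfl
  · exact (rf_openMap hp hdeg hne).domRestrict hUo

theorem rf_covering (hHo : IsOpen H) (hp : ∀ i, Continuous fun h : H => (p h).coeff i)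
    (hdeg : ∀ h ∈ H, (p h).natDegree = d) (hsep : ∀ h ∈ H, (p h).Separable) :
    IsCoveringMap (prj H p) := by
  have hne : ∀ h ∈ H, p h ≠ 0 := fun h hh => rf_sep_ne_zero _ (hsep h hh)
  rw [isCoveringMap_iff_isCoveringMapOn_univ]
  apply (rf_closedMap hHo hp hdeg hne).isCoveringMapOn_of_isLocalHomeomorphOn
  · intro h _
    have hfin : {w | (p (h : ℂ)).IsRoot w}.Finite := Polynomial.finite_setOfPred_isRoot (hne _ h.2)
    refine Set.Finite.of_injOn (f := fun e : TS H p => e.1.2) (t := {w | (p (h : ℂ)).IsRoot w}) ?_ ?_ hfin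
    · intro e he
      have he : e.1.1 = h := he
      have := e.2
      rw [he] at this
      exact this
    · rintro ⟨⟨a, b⟩, hab⟩ he ⟨⟨a', b'⟩, hab'⟩ he' hh
      have he : a = h := he
      have he' : a' = h := he'
      have hh : b = b' := hh
      subst he; subst he'; subst hh
      rfl
  · exact (rf_locHomeo hp hdeg hsep).isLocalHomeomorphOn.mono (subset_univ _)

end

/-- a continuous root function is holomorphic -/
theorem rf_diff {H : Set ℂ} (hHo : IsOpen H) (d : ℕ) (p : ℂ → ℂ[X])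
    (hp : ∀ i, DifferentiableOn ℂ (fun h => (p h).coeff i) H)
    (hdeg : ∀ h ∈ H, (p h).natDegree = d) (hsep : ∀ h ∈ H, (p h).Separable)
    (β : ℂ → ℂ) (hβ : ContinuousOn β H) (hroot : ∀ h ∈ H, (p h).eval (β h) = 0) :
    DifferentiableOn ℂ β H := by
  intro h0 hh0
  apply DifferentiableAt.differentiableWithinAt
  have hpd : ∀ i, DifferentiableAt ℂ (fun h => (p h).coeff i) h0 := fun i =>
    (hp i h0 hh0).differentiableAt (hHo.mem_nhds hh0)
  -- the function g
  have hg : DifferentiableAt ℂ (fun h => ∑ i ∈ Finset.range (d + 1), (p h).coeff i * (β h0) ^ i) h0 := by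
    apply DifferentiableAt.fun_sum
    intro i _
    exact (hpd i).mul_const _
  set g : ℂ → ℂ := fun h => ∑ i ∈ Finset.range (d + 1), (p h).coeff i * (β h0) ^ i with hgdef
  have hβc : ContinuousAt β h0 := hβ.continuousAt (hHo.mem_nhds hh0)
  have hQc : ContinuousAt (fun h => Qf (p h).coeff d (β h) (β h0)) h0 := by
    unfold Qf
    apply tendsto_finsetSum
    intro i _
    apply (hpd i).continuousAt.mul
    apply tendsto_finsetSum
    intro k _
    exact (hβc.pow k).mul continuousAt_const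
  have hQ0 : Qf (p h0).coeff d (β h0) (β h0) ≠ 0 := by
    rw [rf_Qf_diag _ d (hdeg _ hh0)]
    exact rf_sep_ne _ (hsep _ hh0) _ (hroot h0 hh0)
  have hslope : Tendsto (slope g h0) (𝓝[≠] h0) (𝓝 (deriv g h0)) :=
    hasDerivAt_iff_tendsto_slope.1 hg.hasDerivAt
  have hlim : Tendsto (fun h => - (slope g h0 h) / Qf (p h).coeff d (β h) (β h0)) (𝓝[≠] h0)
      (𝓝 (- deriv g h0 / Qf (p h0).coeff d (β h0) (β h0))) :=
    hslope.neg.div (hQc.tendsto.mono_left nhdsWithin_le_nhds) hQ0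
  have hder : HasDerivAt β (- deriv g h0 / Qf (p h0).coeff d (β h0) (β h0)) h0 := by
    rw [hasDerivAt_iff_tendsto_slope]
    refine hlim.congr' ?_
    have hev1 : ∀ᶠ h in 𝓝[≠] h0, Qf (p h).coeff d (β h) (β h0) ≠ 0 :=
      (hQc.eventually_ne hQ0).filter_mono nhdsWithin_le_nhds
    have hev2 : ∀ᶠ h in 𝓝[≠] h0, h ∈ H :=
      Filter.Eventually.filter_mono nhdsWithin_le_nhds (hHo.mem_nhds hh0)
    have hev3 : ∀ᶠ h in 𝓝[≠] h0, h ≠ h0 := self_mem_nhdsWithin
    filter_upwards [hev1, hev2, hev3] with h h1 h2 h3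
    rw [slope_def_field, slope_def_field]
    have e1 := rf_Qf (p h) d (hdeg _ h2) (β h) (β h0)
    rw [hroot h h2] at e1
    have e2 : g h = (p h).eval (β h0) := (rf_eval (p h) d (hdeg _ h2) _).symm
    have e3 : g h0 = 0 := by
      rw [← hroot h0 hh0]; exact (rf_eval (p h0) d (hdeg _ hh0) _).symm
    rw [e3, sub_zero, e2]
    have h4 : h - h0 ≠ 0 := sub_ne_zero.2 h3
    have e4 : (p h).eval (β h0) = - ((β h - β h0) * Qf (p h).coeff d (β h) (β h0)) := by
      rw [← e1]; ring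
    rw [e4]
    field_simp
  exact hder.differentiableAt

/-- TARGET 1: holomorphic root functions on a convex open set -/
theorem root_functions {H : Set ℂ} (hHo : IsOpen H) (hHc : Convex ℝ H) (d : ℕ) (p : ℂ → ℂ[X])
    (hp : ∀ i, DifferentiableOn ℂ (fun h => (p h).coeff i) H)
    (hdeg : ∀ h ∈ H, (p h).natDegree = d) (hsep : ∀ h ∈ H, (p h).Separable) :
    ∃ α : Fin d → ℂ → ℂ, (∀ j, DifferentiableOn ℂ (α j) H) ∧
      (∀ h ∈ H, Function.Injective fun j => α j h) ∧
      (∀ h ∈ H, ∀ w, (p h).eval w = 0 ↔ ∃ j, w = α j h) := by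
  classical
  rcases H.eq_empty_or_nonempty with hHe | hHne
  · subst hHe
    exact ⟨fun j _ => 0, fun j => differentiableOn_empty, fun h hh => absurd hh (notMem_empty h),
      fun h hh => absurd hh (notMem_empty h)⟩
  have hne : ∀ h ∈ H, p h ≠ 0 := fun h hh => rf_sep_ne_zero _ (hsep h hh)
  have hpc : ∀ i, Continuous fun h : H => (p h).coeff i := fun i =>
    continuousOn_iff_continuous_domRestrict.1 (hp i).continuousOn
  have cov : IsCoveringMap (prj H p) := rf_covering hHo hpc hdeg hsep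
  have : ContractibleSpace H := hHc.contractibleSpace hHne
  have : LocallyPathConnectedSpace H := hHo.locallyPathConnectedSpace
  have : PreconnectedSpace H := Subtype.preconnectedSpace hHc.isPreconnected
  obtain ⟨hs, hhs⟩ := hHne
  -- roots at the base point
  have hroots : ∀ h ∈ H, (p h).roots.toFinset.card = d := by
    intro h hh
    rw [Multiset.toFinset_card_of_nodup (nodup_roots (hsep h hh)),
      ← (IsAlgClosed.splits (p h)).natDegree_eq_card_roots, hdeg h hh]
  have hmem : ∀ h ∈ H, ∀ w, w ∈ (p h).roots.toFinset ↔ (p h).eval w = 0 := by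
    intro h hh w
    rw [Multiset.mem_toFinset, mem_roots (hne h hh)]; rfl
  let ee : Fin d ≃ (p hs).roots.toFinset := (Finset.equivFinOfCardEq (hroots hs hhs)).symm
  have hee : ∀ j, (p hs).eval (ee j : ℂ) = 0 := fun j => (hmem hs hhs _).1 (ee j).2
  have hex : ∀ j : Fin d, ∃ F : C(H, TS H p), F ⟨hs, hhs⟩ = ⟨(⟨hs, hhs⟩, (ee j : ℂ)), hee j⟩ ∧
      prj H p ∘ F = (ContinuousMap.id H) := by
    intro j
    obtain ⟨F, hF, -⟩ := cov.existsUnique_continuousMap_lifts (ContinuousMap.id H) ⟨hs, hhs⟩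
      ⟨(⟨hs, hhs⟩, (ee j : ℂ)), hee j⟩ rfl
    exact ⟨F, hF⟩
  choose F hF1 hF2 using hex
  have hF3 : ∀ j (h : H), (F j h).1.1 = h := fun j h => congrFun (hF2 j) h
  let α : Fin d → ℂ → ℂ := fun j h => if hh : h ∈ H then (F j ⟨h, hh⟩).1.2 else 0
  have hα : ∀ j (h : H), α j h = (F j h).1.2 := by
    intro j h
    show (if hh : (h : ℂ) ∈ H then (F j ⟨h, hh⟩).1.2 else 0) = _
    rw [dif_pos h.2]
  have hαroot : ∀ j, ∀ h ∈ H, (p h).eval (α j h) = 0 := by
    intro j h hh
    have h1 := (F j ⟨h, hh⟩).2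
    rw [hF3] at h1
    rw [hα j ⟨h, hh⟩]
    exact h1
  have hαinj : ∀ h ∈ H, Function.Injective fun j => α j h := by
    intro h hh i j hij
    have hij : α i h = α j h := hij
    have h1 : F i ⟨h, hh⟩ = F j ⟨h, hh⟩ := by
      apply Subtype.ext
      apply Prod.ext
      · rw [hF3, hF3]
      · rw [← hα i ⟨h, hh⟩, ← hα j ⟨h, hh⟩]; exact hij
    have h2 : (F i : H → TS H p) = F j :=
      cov.eq_of_comp_eq (F i).continuous (F j).continuous ((hF2 i).trans (hF2 j).symm) ⟨h, hh⟩ h1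
    have h3 : F i ⟨hs, hhs⟩ = F j ⟨hs, hhs⟩ := congrFun h2 _
    rw [hF1, hF1] at h3
    have h4 : (ee i : ℂ) = ee j := congrArg (fun e : TS H p => e.1.2) h3
    exact ee.injective (Subtype.ext h4)
  have hαcont : ∀ j, ContinuousOn (α j) H := by
    intro j
    rw [continuousOn_iff_continuous_domRestrict]
    have h1 : Set.domRestrict H (α j) = fun h : H => (F j h).1.2 := by
      funext h; exact hα j h
    rw [h1]
    exact continuous_snd.comp (continuous_subtype_val.comp (F j).continuous)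
  refine ⟨α, fun j => rf_diff hHo d p hp hdeg hsep (α j) (hαcont j) (hαroot j), hαinj, ?_⟩
  intro h hh w
  constructor
  · intro hw
    have himg : Finset.univ.image (fun j => α j h) = (p h).roots.toFinset := by
      apply Finset.eq_of_subset_of_card_le
      · intro x hx
        obtain ⟨j, -, rfl⟩ := Finset.mem_image.1 hx
        exact (hmem h hh _).2 (hαroot j h hh)
      · rw [hroots h hh, Finset.card_image_of_injective _ (hαinj h hh)]
        simp
    have : w ∈ Finset.univ.image (fun j => α j h) := by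
      rw [himg]; exact (hmem h hh w).2 hw
    obtain ⟨j, -, hj⟩ := Finset.mem_image.1 this
    exact ⟨j, hj.symm⟩
  · rintro ⟨j, rfl⟩
    exact hαroot j h hh

/-- TARGET 2: a continuous root is one of the root functions -/
theorem root_unique {T : Set ℂ} (hT : IsPreconnected T) (hne : T.Nonempty) (d : ℕ) (p : ℂ → ℂ[X])
    (α : Fin d → ℂ → ℂ) (hα : ∀ j, ContinuousOn (α j) T)
    (hinj : ∀ h ∈ T, Function.Injective fun j => α j h)
    (hroot : ∀ h ∈ T, ∀ w, (p h).eval w = 0 ↔ ∃ j, w = α j h) (β : ℂ → ℂ)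
    (hβ : ContinuousOn β T) (hβr : ∀ h ∈ T, (p h).eval (β h) = 0) :
    ∃ j, ∀ h ∈ T, β h = α j h := by
  classical
  have : PreconnectedSpace T := Subtype.preconnectedSpace hT
  have hβ' : Continuous (fun x : T => β x) := continuousOn_iff_continuous_domRestrict.1 hβ
  have hα' : ∀ j, Continuous (fun x : T => α j x) := fun j =>
    continuousOn_iff_continuous_domRestrict.1 (hα j)
  have hcl : ∀ j, IsClosed {x : T | β x = α j x} := fun j => isClosed_eq hβ' (hα' j)
  have hop : ∀ j, IsOpen {x : T | β x = α j x} := by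
    intro j
    have h1 : {x : T | β x = α j x}ᶜ = ⋃ i ∈ (Finset.univ.erase j : Finset (Fin d)),
        {x : T | β x = α i x} := by
      ext x
      simp only [mem_compl_iff, mem_ofPred_eq, mem_iUnion, Finset.mem_erase, Finset.mem_univ,
        and_true, exists_prop]
      constructor
      · intro hx
        obtain ⟨i, hi⟩ := (hroot x x.2 _).1 (hβr x x.2)
        refine ⟨i, ?_, hi⟩
        rintro rfl
        exact hx hi
      · rintro ⟨i, hij, hi⟩ hx
        apply hij
        exact hinj x x.2 (hi.symm.trans hx)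
    rw [← isClosed_compl_iff, h1]
    exact Set.Finite.isClosed_biUnion (Finset.finite_toSet _) fun i _ => hcl i
  obtain ⟨t0, ht0⟩ := hne
  obtain ⟨j, hj⟩ := (hroot t0 ht0 _).1 (hβr t0 ht0)
  have huniv : {x : T | β x = α j x} = univ :=
    IsClopen.eq_univ ⟨hcl j, hop j⟩ ⟨⟨t0, ht0⟩, hj⟩
  refine ⟨j, fun h hh => ?_⟩
  have : (⟨h, hh⟩ : T) ∈ {x : T | β x = α j x} := by rw [huniv]; trivial
  exact this

end AR.J5652

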