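import Mathlib
import Pool.Agent.Helper272.Arn.J5652

set_option autoImplicit false
open Polynomial Set Filter Topology Metric MeasureTheory
open scoped ContDiff

namespace AR.J5759

open AR.J5652 (root_functions root_unique)

/-- lower bound for a polynomial with at most one zero -/
theorem pz_lower (L : ℂ[X]) (τ : ℂ) (r : ℝ) (hr : 0 < r)
    (hL : ∀ z, 0 < ‖z - τ‖ → ‖z - τ‖ ≤ r → L.eval z ≠ 0) :
    ∃ (δ : ℝ) (k : ℕ), 0 < δ ∧ ∀ z, 0 < ‖z - τ‖ → ‖z - τ‖ ≤ r → δ * ‖z - τ‖ ^ k ≤ ‖L.eval z‖ := by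
  have hL0 : L ≠ 0 := by
    rintro rfl
    have h1 := hL (τ + r) (by simp [hr.ne']) (by simp [abs_of_pos hr])
    simp at h1
  obtain ⟨R, hR, hRd⟩ := Polynomial.exists_eq_pow_rootMultiplicity_mul_and_not_dvd L hL0 τ
  set k := L.rootMultiplicity τ with hk
  have hRτ : R.eval τ ≠ 0 := by
    intro h
    exact hRd (Polynomial.dvd_iff_isRoot.mpr h)
  have hRne : ∀ z ∈ Metric.closedBall τ r, ‖R.eval z‖ ≠ 0 := by
    intro z hz
    rw [Metric.mem_closedBall, dist_eq_norm] at hz
    rw [norm_ne_zero_iff]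
    by_cases h : z = τ
    · rw [h]; exact hRτ
    · have h1 : 0 < ‖z - τ‖ := norm_pos_iff.mpr (sub_ne_zero.mpr h)
      have h2 := hL z h1 hz
      rw [hR, eval_mul] at h2
      exact right_ne_zero_of_mul h2
  obtain ⟨z₀, hz₀, hmin⟩ := (isCompact_closedBall τ r).exists_isMinOn
    ⟨τ, Metric.mem_closedBall_self hr.le⟩ (f := fun z => ‖R.eval z‖)
    (R.continuous.norm.continuousOn)
  refine ⟨‖R.eval z₀‖, k, lt_of_le_of_ne (norm_nonneg _) (Ne.symm (hRne z₀ hz₀)), ?_⟩
  intro z hz hzr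
  have h1 : ‖R.eval z₀‖ ≤ ‖R.eval z‖ := hmin (by rw [Metric.mem_closedBall, dist_eq_norm]; exact hzr)
  rw [hR, eval_mul, eval_pow, eval_sub, eval_X, eval_C, norm_mul, norm_pow, mul_comm]
  exact mul_le_mul_of_nonneg_left h1 (by positivity)

/-- Cauchy bound -/
theorem pz_root_bound (p : ℂ[X]) (v : ℂ) (hv : p.eval v = 0) (hp : 0 < ‖p.leadingCoeff‖) :
    ‖v‖ ≤ 1 + (∑ i ∈ Finset.range p.natDegree, ‖p.coeff i‖) / ‖p.leadingCoeff‖ := by
  by_cases h1 : ‖v‖ ≤ 1
  · have : 0 ≤ (∑ i ∈ Finset.range p.natDegree, ‖p.coeff i‖) / ‖p.leadingCoeff‖ := by positivity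
    linarith
  push Not at h1
  have hd : p.natDegree ≠ 0 := by
    intro h0
    rw [Polynomial.eq_C_of_natDegree_eq_zero h0, eval_C] at hv
    have : p.leadingCoeff = 0 := by rw [leadingCoeff, h0, hv]
    rw [this, norm_zero] at hp
    exact lt_irrefl _ hp
  obtain ⟨e, he⟩ := Nat.exists_eq_succ_of_ne_zero hd
  rw [Polynomial.eval_eq_sum_range, Finset.sum_range_succ] at hv
  have h2 : ‖p.leadingCoeff‖ * ‖v‖ ^ p.natDegree ≤
      (∑ i ∈ Finset.range p.natDegree, ‖p.coeff i‖) * ‖v‖ ^ e := by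
    have h3 : p.coeff p.natDegree * v ^ p.natDegree =
        - ∑ i ∈ Finset.range p.natDegree, p.coeff i * v ^ i := by
      linear_combination hv
    have h4 : ‖p.leadingCoeff‖ * ‖v‖ ^ p.natDegree = ‖p.coeff p.natDegree * v ^ p.natDegree‖ := by
      rw [norm_mul, norm_pow]; rfl
    rw [h4, h3, norm_neg, Finset.sum_mul]
    refine (norm_sum_le _ _).trans (Finset.sum_le_sum ?_)
    intro i hi
    rw [norm_mul, norm_pow]
    have hi' : i ≤ e := by
      rw [Finset.mem_range] at hi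
      omega
    exact mul_le_mul_of_nonneg_left (pow_le_pow_right₀ h1.le hi') (norm_nonneg _)
  have h5 : ‖p.leadingCoeff‖ * ‖v‖ ≤ ∑ i ∈ Finset.range p.natDegree, ‖p.coeff i‖ := by
    have hpos : 0 < ‖v‖ ^ e := by positivity
    have h2' : ‖v‖ ^ p.natDegree = ‖v‖ ^ e * ‖v‖ := by rw [he, Nat.succ_eq_add_one, pow_succ]
    rw [h2'] at h2
    have h6 : (‖p.leadingCoeff‖ * ‖v‖) * ‖v‖ ^ e ≤
        (∑ i ∈ Finset.range p.natDegree, ‖p.coeff i‖) * ‖v‖ ^ e := by
      calc _ = ‖p.leadingCoeff‖ * (‖v‖ ^ e * ‖v‖) := by ring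
        _ ≤ _ := h2
    exact le_of_mul_le_mul_right h6 hpos
  have h7 : ‖v‖ ≤ (∑ i ∈ Finset.range p.natDegree, ‖p.coeff i‖) / ‖p.leadingCoeff‖ := by
    rw [le_div_iff₀ hp]
    linarith
  linarith

theorem evalEval_eq_map (P : ℂ[X][X]) (z v : ℂ) :
    P.evalEval z v = (P.map (evalRingHom z)).eval v := by
  rw [Polynomial.map_evalRingHom_eval]

/-- TARGET 1 (Puiseux): the root functions near an isolated bad point `τ`, in the coordinate
`z = τ + e^w`, are periodic and of moderate growth -/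
theorem puiseux (P : ℂ[X][X]) (τ : ℂ) (c₀ : ℝ)
    (hdeg : ∀ z, 0 < ‖z - τ‖ → ‖z - τ‖ < Real.exp c₀ →
      (P.map (evalRingHom z)).natDegree = P.natDegree)
    (hsep : ∀ z, 0 < ‖z - τ‖ → ‖z - τ‖ < Real.exp c₀ → (P.map (evalRingHom z)).Separable) :
    ∃ (N : ℕ) (α : Fin P.natDegree → ℂ → ℂ), 0 < N ∧
      (∀ j, DifferentiableOn ℂ (α j) {w | w.re < c₀}) ∧
      (∀ w : ℂ, w.re < c₀ → Function.Injective fun j => α j w) ∧
      (∀ w : ℂ, w.re < c₀ → ∀ v, P.evalEval (τ + Complex.exp w) v = 0 ↔ ∃ j, v = α j w) ∧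
      (∀ j, ∀ w : ℂ, w.re < c₀ → α j (w + 2 * Real.pi * Complex.I * N) = α j w) ∧
      (∀ c₁ < c₀, ∃ C a : ℝ, ∀ j, ∀ w : ℂ, w.re < c₁ → ‖α j w‖ ≤ C * Real.exp (-a * w.re)) := by
  classical
  have hz : ∀ w : ℂ, ‖(τ + Complex.exp w) - τ‖ = Real.exp w.re := by
    intro w
    rw [add_sub_cancel_left, Complex.norm_exp]
  have hHo : IsOpen {w : ℂ | w.re < c₀} := isOpen_lt Complex.continuous_re continuous_const
  have hHc : Convex ℝ {w : ℂ | w.re < c₀} := convex_halfSpace_re_lt c₀
  have hHn : ({w : ℂ | w.re < c₀}).Nonempty := ⟨((c₀ - 1 : ℝ) : ℂ), by simp⟩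
  obtain ⟨α, hα1, hα2, hα3⟩ := root_functions hHo hHc P.natDegree
    (fun w => P.map (evalRingHom (τ + Complex.exp w)))
    (by
      intro i
      simp only [coeff_map, coe_evalRingHom]
      apply Differentiable.differentiableOn
      have h1 : Differentiable ℂ (fun z => (P.coeff i).eval z) := (P.coeff i).differentiable
      exact h1.comp ((differentiable_const τ).add Complex.differentiable_exp))
    (by
      intro w hw
      exact hdeg _ (by rw [hz]; positivity) (by rw [hz]; exact Real.exp_lt_exp.mpr hw))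
    (by
      intro w hw
      exact hsep _ (by rw [hz]; positivity) (by rw [hz]; exact Real.exp_lt_exp.mpr hw))
  have hshift : ∀ w : ℂ, w.re < c₀ → (w + 2 * Real.pi * Complex.I).re < c₀ := by
    intro w hw
    simpa using hw
  have hexp : ∀ w : ℂ, Complex.exp (w + 2 * Real.pi * Complex.I) = Complex.exp w :=
    fun w => Complex.exp_periodic w
  -- monodromy
  have hmon : ∀ j, ∃ k, ∀ w : ℂ, w.re < c₀ → α j (w + 2 * Real.pi * Complex.I) = α k w := by
    intro j
    refine root_unique hHc.isPreconnected hHn P.natDegree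
      (fun w => P.map (evalRingHom (τ + Complex.exp w))) α (fun j => (hα1 j).continuousOn) hα2 hα3
      (fun w => α j (w + 2 * Real.pi * Complex.I)) ?_ ?_
    · apply (hα1 j).continuousOn.comp (by fun_prop)
      intro w hw
      exact hshift w hw
    · intro w hw
      have h1 := (hα3 _ (hshift w hw) (α j (w + 2 * Real.pi * Complex.I))).mpr ⟨j, rfl⟩
      simp only [hexp] at h1
      exact h1
  choose σ hσ using hmon
  have hσinj : Function.Injective σ := by
    intro i j hij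
    obtain ⟨w, hw⟩ := hHn
    have h1 := hσ i w hw
    have h2 := hσ j w hw
    rw [hij, ← h2] at h1
    exact hα2 _ (hshift w hw) h1
  have hσb : Function.Bijective σ := Finite.injective_iff_bijective.mp hσinj
  set s : Equiv.Perm (Fin P.natDegree) := Equiv.ofBijective σ hσb with hs
  have hiter : ∀ n : ℕ, ∀ j, ∀ w : ℂ, w.re < c₀ →
      α j (w + 2 * Real.pi * Complex.I * n) = α ((s ^ n) j) w := by
    intro n
    induction n with
    | zero => intro j w hw; simp
    | succ n ih =>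
      intro j w hw
      have h1 : (w + 2 * Real.pi * Complex.I * n).re < c₀ := by
        simpa using hw
      have h2 : w + 2 * Real.pi * Complex.I * ((n + 1 : ℕ) : ℂ) =
          (w + 2 * Real.pi * Complex.I * n) + 2 * Real.pi * Complex.I := by
        push_cast; ring
      rw [h2, hσ j _ h1, ih (σ j) w hw, pow_succ, Equiv.Perm.mul_apply]
      rfl
  refine ⟨orderOf s, α, orderOf_pos s, hα1, hα2, ?_, ?_, ?_⟩
  · intro w hw v
    rw [evalEval_eq_map]
    exact hα3 w hw v
  · intro j w hw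
    rw [hiter _ j w hw, pow_orderOf_eq_one]
    rfl
  · intro c₁ hc₁
    obtain ⟨δ, k, hδ, hlow⟩ := pz_lower P.leadingCoeff τ (Real.exp c₁) (Real.exp_pos _) (by
      intro z hz0 hz1
      have hz2 : ‖z - τ‖ < Real.exp c₀ := lt_of_le_of_lt hz1 (Real.exp_lt_exp.mpr hc₁)
      have h1 := hdeg z hz0 hz2
      have h2 := hsep z hz0 hz2
      intro h3
      have h4 : (P.map (evalRingHom z)).leadingCoeff = 0 := by
        rw [leadingCoeff, h1, coeff_map]
        exact h3
      rw [leadingCoeff_eq_zero] at h4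
      rw [h4] at h2
      exact h2.ne_zero rfl)
    obtain ⟨M, hM⟩ := (isCompact_closedBall τ (Real.exp c₁)).bddAbove_image
      (f := fun z => ∑ i ∈ Finset.range P.natDegree, ‖(P.coeff i).eval z‖)
      (by
        apply Continuous.continuousOn
        exact continuous_finsetSum _ fun i _ => (P.coeff i).continuous.norm)
    refine ⟨Real.exp (k * c₁) + M / δ, k, ?_⟩
    intro j w hw
    have hw0 : w.re < c₀ := hw.trans hc₁
    set z := τ + Complex.exp w with hzdef
    have hz0 : 0 < ‖z - τ‖ := by rw [hz]; positivity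
    have hz1 : ‖z - τ‖ ≤ Real.exp c₁ := by rw [hz]; exact (Real.exp_lt_exp.mpr hw).le
    have hz2 : ‖z - τ‖ < Real.exp c₀ := by rw [hz]; exact (Real.exp_lt_exp.mpr hw0)
    have hroot := (hα3 w hw0 (α j w)).mpr ⟨j, rfl⟩
    have hlead : (P.map (evalRingHom z)).leadingCoeff = P.leadingCoeff.eval z := by
      rw [leadingCoeff, hdeg z hz0 hz2, coeff_map]
      rfl
    have hlow' := hlow z hz0 hz1
    have hpos : 0 < δ * ‖z - τ‖ ^ k := by positivity
    have h1 := pz_root_bound _ _ hroot (by rw [hlead]; linarith)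
    rw [hlead] at h1
    have h2 : (∑ i ∈ Finset.range (P.map (evalRingHom z)).natDegree,
        ‖(P.map (evalRingHom z)).coeff i‖) ≤ M := by
      have h3 := hM (Set.mem_image_of_mem _ (show z ∈ Metric.closedBall τ (Real.exp c₁) by
        rw [Metric.mem_closedBall, dist_eq_norm]; exact hz1))
      rw [hdeg z hz0 hz2]
      simpa only [coeff_map, coe_evalRingHom] using h3
    have hM0 : 0 ≤ M := le_trans (by positivity) h2
    have h4 : (∑ i ∈ Finset.range (P.map (evalRingHom z)).natDegree,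
        ‖(P.map (evalRingHom z)).coeff i‖) / ‖P.leadingCoeff.eval z‖ ≤ M / (δ * ‖z - τ‖ ^ k) :=
      div_le_div₀ hM0 h2 hpos hlow'
    have h5 : M / (δ * ‖z - τ‖ ^ k) = M / δ * Real.exp (-k * w.re) := by
      rw [hz w, ← Real.exp_nat_mul, neg_mul, Real.exp_neg]
      field_simp
    have h6 : 1 ≤ Real.exp (k * c₁) * Real.exp (-k * w.re) := by
      rw [← Real.exp_add]
      apply Real.one_le_exp
      have : 0 ≤ (k : ℝ) * (c₁ - w.re) := mul_nonneg (Nat.cast_nonneg _) (by linarith)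
      linarith
    calc ‖α j w‖ ≤ _ := h1
      _ ≤ 1 + M / (δ * ‖z - τ‖ ^ k) := by linarith
      _ ≤ Real.exp (k * c₁) * Real.exp (-k * w.re) + M / δ * Real.exp (-k * w.re) := by
        rw [h5]; linarith
      _ = _ := by ring

/-- TARGET 2 (Laurent): periodic functions of moderate growth on a half plane -/
theorem laurent (c₀ : ℝ) (N : ℕ) (hN : 0 < N) (g : ℂ → ℂ)
    (hg : DifferentiableOn ℂ g {w | w.re < c₀})
    (hper : ∀ w : ℂ, w.re < c₀ → g (w + 2 * Real.pi * Complex.I * N) = g w)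
    (C a : ℝ) (hgrow : ∀ w : ℂ, w.re < c₀ → ‖g w‖ ≤ C * Real.exp (-a * w.re)) :
    (∀ w : ℂ, w.re < c₀ → g w = 0) ∨ ∃ (l : ℤ) (G : ℂ → ℂ), AnalyticAt ℂ G 0 ∧ G 0 ≠ 0 ∧
      ∃ c₁ < c₀, ∀ w : ℂ, w.re < c₁ → g w = Complex.exp (l * w / N) * G (Complex.exp (w / N)) := by
  classical
  have hNr : (0 : ℝ) < N := by exact_mod_cast hN
  have hNc : (N : ℂ) ≠ 0 := by exact_mod_cast hN.ne'
  obtain ⟨m, hm⟩ := exists_nat_gt (a * N)
  set hp : ℝ := 2 * Real.pi * N with hhp
  have hp0 : 0 < hp := by positivity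
  have hHo : IsOpen {w : ℂ | w.re < c₀} := isOpen_lt Complex.continuous_re continuous_const
  have hHc : Convex ℝ {w : ℂ | w.re < c₀} := convex_halfSpace_re_lt c₀
  set F : ℂ → ℂ := fun z => if (Complex.I * z).re < c₀ then
    g (Complex.I * z) * Complex.exp (m * (Complex.I * z) / N) else 0 with hF
  have hre : ∀ z : ℂ, (Complex.I * z).re = -z.im := by intro z; simp
  have hFper : Function.Periodic F hp := by
    intro z
    have h1 : Complex.I * (z + hp) = Complex.I * z + 2 * Real.pi * Complex.I * N := by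
      rw [hhp]; push_cast; ring
    have h2 : (Complex.I * (z + hp)).re = (Complex.I * z).re := by
      rw [hre, hre]; simp
    simp only [hF, h2]
    split_ifs with h
    · rw [h1, hper _ h]
      congr 1
      have h3 : (m : ℂ) * (Complex.I * z + 2 * Real.pi * Complex.I * N) / N =
          m * (Complex.I * z) / N + m * (2 * Real.pi * Complex.I) := by
        field_simp
      rw [h3, Complex.exp_add, Complex.exp_nat_mul_two_pi_mul_I, mul_one]
    · rfl
  have hFdiff : ∀ z : ℂ, -z.im < c₀ → DifferentiableAt ℂ F z := by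
    intro z hz
    have h1 : DifferentiableAt ℂ
        (fun z => g (Complex.I * z) * Complex.exp (m * (Complex.I * z) / N)) z := by
      have h2 : DifferentiableAt ℂ g (Complex.I * z) :=
        hg.differentiableAt (hHo.mem_nhds (by rw [Set.mem_ofPred_eq, hre]; exact hz))
      have h3 : DifferentiableAt ℂ (fun z : ℂ => Complex.I * z) z := by fun_prop
      have h4 : DifferentiableAt ℂ (fun z => g (Complex.I * z)) z :=
        DifferentiableAt.comp z h2 h3
      have h5 : DifferentiableAt ℂ (fun z : ℂ => Complex.exp (m * (Complex.I * z) / N)) z := by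
        fun_prop
      exact h4.mul h5
    refine h1.congr_of_eventuallyEq ?_
    have h6 : ∀ᶠ z' in 𝓝 z, -(z'.im) < c₀ :=
      (Complex.continuous_im.neg.tendsto z).eventually_lt_const hz
    filter_upwards [h6] with z' hz'
    simp only [hF, hre, hz', if_true]
  have hhol : ∀ᶠ z in comap Complex.im atTop, DifferentiableAt ℂ F z := by
    have h1 : ∀ᶠ y in (atTop : Filter ℝ), -y < c₀ := by
      filter_upwards [eventually_gt_atTop (-c₀)] with y hy
      linarith
    exact (h1.comap Complex.im).mono fun z hz => hFdiff z hz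
  have hbd : BoundedAtFilter (comap Complex.im atTop) F := by
    apply Asymptotics.IsBigO.of_bound |C|
    have h1 : ∀ᶠ y in (atTop : Filter ℝ), -y < c₀ ∧ 0 ≤ y := by
      filter_upwards [eventually_gt_atTop (-c₀), eventually_ge_atTop 0] with y hy hy0
      exact ⟨by linarith, hy0⟩
    refine (h1.comap Complex.im).mono fun z hz => ?_
    obtain ⟨hz1, hz2⟩ := hz
    have h2 : ‖g (Complex.I * z)‖ ≤ |C| * Real.exp (-a * (-z.im)) := by
      have h3 := hgrow (Complex.I * z) (by rw [hre]; exact hz1)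
      rw [hre] at h3
      exact h3.trans (mul_le_mul_of_nonneg_right (le_abs_self C) (Real.exp_pos _).le)
    have h4 : ‖Complex.exp (m * (Complex.I * z) / N)‖ = Real.exp (m / N * (-z.im)) := by
      rw [Complex.norm_exp]
      congr 1
      have h5 : (m : ℂ) * (Complex.I * z) / N = (((m / N : ℝ)) : ℂ) * (Complex.I * z) := by
        push_cast; ring
      rw [h5, Complex.re_ofReal_mul, hre]
    simp only [hF, hre, hz1, if_true, norm_mul, Pi.one_apply, norm_one, mul_one]
    rw [h4]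
    calc ‖g (Complex.I * z)‖ * Real.exp (m / N * (-z.im))
        ≤ |C| * Real.exp (-a * (-z.im)) * Real.exp (m / N * (-z.im)) :=
          mul_le_mul_of_nonneg_right h2 (Real.exp_pos _).le
      _ = |C| * Real.exp (-((m / N - a) * z.im)) := by
          rw [mul_assoc, ← Real.exp_add]; congr 2; ring
      _ ≤ |C| * 1 := by
          apply mul_le_mul_of_nonneg_left _ (abs_nonneg _)
          rw [Real.exp_le_one_iff]
          have : a ≤ m / N := by
            rw [le_div_iff₀ hNr]; exact hm.le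
          have : 0 ≤ (m / N - a) * z.im := mul_nonneg (by linarith) hz2
          linarith
      _ = |C| := mul_one _
  set G₁ := Function.Periodic.cuspFunction hp F with hG₁
  have hG0 : DifferentiableAt ℂ G₁ 0 :=
    Function.Periodic.differentiableAt_cuspFunction_zero hp0 hFper hhol hbd
  have hGne := Function.Periodic.eventually_differentiableAt_cuspFunction_nhds_ne_zero hp0 hFper hhol
  have hGan : AnalyticAt ℂ G₁ 0 := by
    rw [Complex.analyticAt_iff_eventually_differentiableAt]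
    rw [eventually_nhdsWithin_iff] at hGne
    filter_upwards [hGne] with q hq
    by_cases h : q = 0
    · rw [h]; exact hG0
    · exact hq h
  have hkey : ∀ w : ℂ, w.re < c₀ → G₁ (Complex.exp (w / N)) = g w * Complex.exp (m * w / N) := by
    intro w hw
    have h1 := Function.Periodic.eq_cuspFunction hp0.ne' hFper (-Complex.I * w)
    have h2 : Function.Periodic.qParam hp (-Complex.I * w) = Complex.exp (w / N) := by
      unfold Function.Periodic.qParam
      congr 1
      rw [hhp]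
      push_cast
      have hpi : (Real.pi : ℂ) ≠ 0 := by exact_mod_cast Real.pi_ne_zero
      field_simp
      linear_combination (-w) * Complex.I_sq
    have h3 : Complex.I * (-Complex.I * w) = w := by
      linear_combination (-w) * Complex.I_sq
    rw [h2] at h1
    rw [hG₁, h1]
    simp only [hF, h3, hw, if_true]
  have hsmall : ∀ ε > 0, ∃ c₁ < c₀, ∀ w : ℂ, w.re < c₁ → ‖Complex.exp (w / N)‖ < ε := by
    intro ε hε
    refine ⟨min (c₀ - 1) (N * Real.log ε), lt_of_le_of_lt (min_le_left _ _) (by linarith), ?_⟩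
    intro w hw
    have h1 : w.re < N * Real.log ε := lt_of_lt_of_le hw (min_le_right _ _)
    rw [Complex.norm_exp]
    have h2 : (w / (N : ℂ)).re = w.re / N := by
      rw [← Complex.ofReal_natCast, Complex.div_ofReal_re]
    rw [h2, ← Real.lt_log_iff_exp_lt hε, div_lt_iff₀ hNr]
    linarith
  by_cases hz : ∀ᶠ z in 𝓝 (0 : ℂ), G₁ z = 0
  · left
    obtain ⟨ε, hε, hball⟩ := Metric.eventually_nhds_iff.mp hz
    obtain ⟨c₁, hc₁, hc₁'⟩ := hsmall ε hε
    have hz1 : ∀ w : ℂ, w.re < c₁ → g w = 0 := by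
      intro w hw
      have h1 := hball (show dist (Complex.exp (w / N)) 0 < ε by
        rw [dist_zero_right]; exact hc₁' w hw)
      rw [hkey w (hw.trans hc₁)] at h1
      exact (mul_eq_zero.mp h1).resolve_right (Complex.exp_ne_zero _)
    have hA : AnalyticOnNhd ℂ g {w | w.re < c₀} := hg.analyticOnNhd hHo
    have h2 : EqOn g 0 {w | w.re < c₀} := by
      apply hA.eqOn_zero_of_preconnected_of_eventuallyEq_zero hHc.isPreconnected
        (z₀ := ((c₁ - 1 : ℝ) : ℂ))
      · rw [Set.mem_ofPred_eq, Complex.ofReal_re]; linarith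
      · have h3 : ∀ᶠ w in 𝓝 ((c₁ - 1 : ℝ) : ℂ), w.re < c₁ :=
          (Complex.continuous_re.tendsto _).eventually_lt_const (by
            rw [Complex.ofReal_re]; linarith)
        filter_upwards [h3] with w hw
        exact hz1 w hw
    intro w hw
    exact h2 hw
  · right
    obtain ⟨n, G, hG1, hG2, hG3⟩ := hGan.exists_eventuallyEq_pow_smul_nonzero_iff.mpr hz
    obtain ⟨ε, hε, hball⟩ := Metric.eventually_nhds_iff.mp hG3
    obtain ⟨c₁, hc₁, hc₁'⟩ := hsmall ε hε
    refine ⟨(n : ℤ) - m, G, hG1, hG2, c₁, hc₁, ?_⟩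
    intro w hw
    have h1 := hball (show dist (Complex.exp (w / N)) 0 < ε by
        rw [dist_zero_right]; exact hc₁' w hw)
    rw [hkey w (hw.trans hc₁), sub_zero, smul_eq_mul, ← Complex.exp_nat_mul] at h1
    have h2 : Complex.exp ((((n : ℤ) - m : ℤ) : ℂ) * w / N) * Complex.exp (m * w / N) =
        Complex.exp (n * (w / N)) := by
      rw [← Complex.exp_add]
      congr 1
      push_cast
      field_simp
      ring
    have h3 : g w * Complex.exp (m * w / N) =
        (Complex.exp ((((n : ℤ) - m : ℤ) : ℂ) * w / N) * G (Complex.exp (w / N))) *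
          Complex.exp (m * w / N) := by
      rw [h1, ← h2]; ring
    exact mul_right_cancel₀ (Complex.exp_ne_zero _) h3

theorem flat_core {E₀ : ℂ → ℂ} (hE₀ : ContinuousAt E₀ 0) {ι : Type*} {l : Filter ι} [l.NeBot]
    (s : ι → ℂ) (hs : Tendsto s l (𝓝[≠] 0)) (k M : ℕ) (hkM : k < M)
    (h : (fun i => s i ^ k * E₀ (s i)) =O[l] fun i => s i ^ M) : E₀ 0 = 0 := by
  have hs0 : Tendsto s l (𝓝 0) := hs.mono_right nhdsWithin_le_nhds
  have hne : ∀ᶠ i in l, s i ≠ 0 := hs.eventually self_mem_nhdsWithin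
  have h1 : (fun i => E₀ (s i)) =O[l] fun i => s i ^ (M - k) := by
    rw [Asymptotics.isBigO_iff] at h ⊢
    obtain ⟨c, hc⟩ := h
    refine ⟨c, ?_⟩
    filter_upwards [hc, hne] with i hi hi0
    have h2 : 0 < ‖s i‖ ^ k := by positivity
    rw [norm_mul, norm_pow, norm_pow] at hi
    rw [norm_pow]
    have h3 : ‖s i‖ ^ M = ‖s i‖ ^ k * ‖s i‖ ^ (M - k) := by
      rw [← pow_add]; congr 1; omega
    rw [h3] at hi
    have h4 : ‖s i‖ ^ k * ‖E₀ (s i)‖ ≤ ‖s i‖ ^ k * (c * ‖s i‖ ^ (M - k)) := by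
      calc _ ≤ _ := hi
        _ = _ := by ring
    exact le_of_mul_le_mul_left h4 h2
  have h2 : Tendsto (fun i => s i ^ (M - k)) l (𝓝 0) := by
    have := hs0.pow (M - k)
    rwa [zero_pow (by omega)] at this
  have h3 : Tendsto (fun i => E₀ (s i)) l (𝓝 0) := h1.trans_tendsto h2
  have h4 : Tendsto (fun i => E₀ (s i)) l (𝓝 (E₀ 0)) := hE₀.tendsto.comp hs0
  exact tendsto_nhds_unique h4 h3

theorem tendsto_ofReal_right : Tendsto (fun u : ℝ => (u : ℂ)) (𝓝[>] 0) (𝓝[≠] 0) := by
  apply tendsto_nhdsWithin_of_tendsto_nhds_of_eventually_within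
  · have : Tendsto (fun u : ℝ => (u : ℂ)) (𝓝 0) (𝓝 ((0 : ℝ) : ℂ)) :=
      Complex.continuous_ofReal.tendsto 0
    rw [Complex.ofReal_zero] at this
    exact this.mono_left nhdsWithin_le_nhds
  · filter_upwards [self_mem_nhdsWithin] with u hu
    have : (u : ℂ) ≠ 0 := by exact_mod_cast (ne_of_gt hu)
    exact this

theorem analytic_bigO_right {E : ℂ → ℂ} (hE : AnalyticAt ℂ E 0) (M : ℕ)
    (h : (fun u : ℝ => E u) =O[𝓝[>] 0] (fun u : ℝ => (u : ℂ) ^ M)) :
    E =O[𝓝 0] (fun z => z ^ M) := by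
  by_cases hz : ∀ᶠ z in 𝓝 (0 : ℂ), E z = 0
  · exact (Asymptotics.isBigO_zero _ _).congr' (hz.mono fun z hz => hz.symm) (EventuallyEq.refl _ _)
  · obtain ⟨k, G, hG1, hG2, hG3⟩ := hE.exists_eventuallyEq_pow_smul_nonzero_iff.mpr hz
    have hG3' : ∀ᶠ z in 𝓝 (0 : ℂ), E z = z ^ k * G z := by
      filter_upwards [hG3] with z hz
      rw [hz, sub_zero, smul_eq_mul]
    by_cases hkM : k < M
    · exfalso
      apply hG2
      apply flat_core hG1.continuousAt (fun u : ℝ => (u : ℂ)) tendsto_ofReal_right k M hkM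
      refine h.congr' ?_ (EventuallyEq.refl _ _)
      exact (tendsto_ofReal_right.mono_right nhdsWithin_le_nhds).eventually hG3'
    · push Not at hkM
      have h1 : (fun z => z ^ k * G z) =O[𝓝 0] (fun z : ℂ => z ^ M) := by
        have h2 : (fun z : ℂ => z ^ k * G z) = fun z => z ^ M * (z ^ (k - M) * G z) := by
          ext z
          rw [← mul_assoc, ← pow_add]
          congr 2
          omega
        rw [h2]
        have h3 : (fun z : ℂ => z ^ (k - M) * G z) =O[𝓝 0] (fun _ => (1 : ℂ)) := by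
          have h4 : ContinuousAt (fun z : ℂ => z ^ (k - M) * G z) 0 :=
            (continuousAt_id.pow _).mul hG1.continuousAt
          exact h4.tendsto.isBigO_one ℂ
        have h5 := (Asymptotics.isBigO_refl (fun z : ℂ => z ^ M) (𝓝 0)).mul h3
        simpa using h5
      exact h1.congr' (hG3'.mono fun z hz => hz.symm) (EventuallyEq.refl _ _)

theorem flat_zero {E : ℂ → ℂ} (hE : AnalyticAt ℂ E 0)
    (h : ∀ M : ℕ, E =O[𝓝 0] (fun z => z ^ M)) : ∀ᶠ z in 𝓝 (0 : ℂ), E z = 0 := by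
  by_contra hz
  obtain ⟨k, G, hG1, hG2, hG3⟩ := hE.exists_eventuallyEq_pow_smul_nonzero_iff.mpr hz
  apply hG2
  apply flat_core hG1.continuousAt (l := 𝓝[≠] (0 : ℂ)) (fun z => z) tendsto_id k (k + 1)
    (Nat.lt_succ_self k)
  have h1 := (h (k + 1)).mono (nhdsWithin_le_nhds (s := {(0 : ℂ)}ᶜ))
  refine h1.congr' ?_ (EventuallyEq.refl _ _)
  have h2 : ∀ᶠ z in 𝓝[≠] (0 : ℂ), E z = (z - 0) ^ k • G z := hG3.filter_mono nhdsWithin_le_nhds
  filter_upwards [h2] with z hz
  rw [hz, sub_zero, smul_eq_mul]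

theorem laurent' (c₀ : ℝ) (N : ℕ) (hN : 0 < N) (g : ℂ → ℂ)
    (hg : DifferentiableOn ℂ g {w | w.re < c₀})
    (hper : ∀ w : ℂ, w.re < c₀ → g (w + 2 * Real.pi * Complex.I * N) = g w)
    (C a : ℝ) (hgrow : ∀ w : ℂ, w.re < c₀ → ‖g w‖ ≤ C * Real.exp (-a * w.re))
    (K c : ℝ) (hb : ∀ x : ℝ, x < c → ‖g x‖ ≤ K) :
    ∃ F : ℂ → ℂ, AnalyticAt ℂ F 0 ∧
      ∃ c₁ < c₀, ∀ w : ℂ, w.re < c₁ → g w = F (Complex.exp (w / N)) := by
  have hNr : (0 : ℝ) < N := by exact_mod_cast hN
  rcases laurent c₀ N hN g hg hper C a hgrow with h | ⟨l, G, hG1, hG2, c₁, hc₁, h⟩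
  · exact ⟨fun _ => 0, analyticAt_const, c₀ - 1, by linarith, fun w hw => h w (by linarith)⟩
  · have hl : 0 ≤ l := by
      by_contra hl
      push Not at hl
      apply hG2
      have h1 : Tendsto (fun x : ℝ => G (Complex.exp ((x : ℂ) / N))) atBot (𝓝 (G 0)) := by
        apply hG1.continuousAt.tendsto.comp
        rw [tendsto_zero_iff_norm_tendsto_zero]
        have h2 : ∀ x : ℝ, ‖Complex.exp ((x : ℂ) / N)‖ = Real.exp (x / N) := by
          intro x
          rw [Complex.norm_exp]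
          congr 1
          rw [← Complex.ofReal_natCast, Complex.div_ofReal_re, Complex.ofReal_re]
        simp only [h2]
        exact Real.tendsto_exp_atBot.comp (tendsto_id.atBot_div_const hNr)
      have h2 : Tendsto (fun x : ℝ => G (Complex.exp ((x : ℂ) / N))) atBot (𝓝 0) := by
        rw [tendsto_zero_iff_norm_tendsto_zero]
        have h3 : Tendsto (fun x : ℝ => |K| * Real.exp ((-(l : ℝ)) * x / N)) atBot (𝓝 0) := by
          rw [← mul_zero (|K|)]
          apply Tendsto.const_mul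
          apply Real.tendsto_exp_atBot.comp
          apply Tendsto.atBot_div_const hNr
          apply Tendsto.const_mul_atBot _ tendsto_id
          have : (l : ℝ) < 0 := by exact_mod_cast hl
          linarith
        refine squeeze_zero' (Eventually.of_forall fun x => norm_nonneg _) ?_ h3
        filter_upwards [eventually_lt_atBot c, eventually_lt_atBot c₁] with x hx hx1
        have h4 := h (x : ℂ) (by rw [Complex.ofReal_re]; exact hx1)
        have h5 : G (Complex.exp ((x : ℂ) / N)) = g x * Complex.exp ((-(l : ℂ)) * x / N) := by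
          rw [h4]
          have : Complex.exp ((l : ℂ) * x / N) * Complex.exp ((-(l : ℂ)) * x / N) = 1 := by
            rw [← Complex.exp_add]
            have : (l : ℂ) * x / N + (-(l : ℂ)) * x / N = 0 := by ring
            rw [this, Complex.exp_zero]
          calc G (Complex.exp ((x : ℂ) / N)) = 1 * G (Complex.exp ((x : ℂ) / N)) := (one_mul _).symm
            _ = _ := by rw [← this]; ring
        rw [h5, norm_mul, Complex.norm_exp]
        have h6 : ((-(l : ℂ)) * x / N).re = (-(l : ℝ)) * x / N := by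
          have : ((-(l : ℂ)) * x / N) = (((-(l : ℝ)) * x / N : ℝ) : ℂ) := by push_cast; ring
          rw [this, Complex.ofReal_re]
        rw [h6]
        exact mul_le_mul_of_nonneg_right ((hb x hx).trans (le_abs_self K)) (Real.exp_pos _).le
      exact tendsto_nhds_unique h1 h2
    obtain ⟨k, rfl⟩ := Int.eq_ofNat_of_zero_le hl
    refine ⟨fun s => s ^ k * G s, (analyticAt_id.pow k).mul hG1, c₁, hc₁, ?_⟩
    intro w hw
    show g w = Complex.exp (w / N) ^ k * G (Complex.exp (w / N))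
    rw [h w hw, ← Complex.exp_nat_mul]
    congr 2
    push_cast
    ring

/-- clearing denominators -/
theorem clear_denom (u : (FractionRing ℂ[X])[X]) : ∃ (b : ℂ[X]) (v : ℂ[X][X]), b ≠ 0 ∧
    v.map (algebraMap ℂ[X] (FractionRing ℂ[X])) = C (algebraMap ℂ[X] (FractionRing ℂ[X]) b) * u := by
  obtain ⟨b, hb, h⟩ := IsLocalization.integerNormalization_spec (nonZeroDivisors ℂ[X]) u
  refine ⟨b, _, nonZeroDivisors.ne_zero hb, h.trans ?_⟩
  ext i
  simp [Algebra.smul_def]

theorem sqfree_part (P : ℂ[X][X]) (hP : P ≠ 0) :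
    ∃ (R : ℂ[X][X]) (bad : ℂ[X]), bad ≠ 0 ∧
      (∀ z, bad.eval z ≠ 0 → (R.map (evalRingHom z)).natDegree = R.natDegree) ∧
      (∀ z, bad.eval z ≠ 0 → (R.map (evalRingHom z)).Separable) ∧
      (∀ z v, bad.eval z ≠ 0 → P.evalEval z v = 0 → R.evalEval z v = 0) := by
  classical
  set φ := algebraMap ℂ[X] (FractionRing ℂ[X]) with hφ
  have hφi : Function.Injective φ := IsFractionRing.injective ℂ[X] (FractionRing ℂ[X])
  have hmi : Function.Injective (Polynomial.map φ) := Polynomial.map_injective φ hφi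
  have hP' : P.map φ ≠ 0 := by
    intro h
    apply hP
    apply hmi
    rw [h, Polynomial.map_zero]
  obtain ⟨S, n, hS, hSP, W, hW⟩ := exists_squarefree_dvd_pow_of_ne_zero hP'
  have : CharZero (FractionRing ℂ[X]) := by
    constructor
    intro a b hab
    have h1 : φ (a : ℂ[X]) = φ (b : ℂ[X]) := by simpa using hab
    exact_mod_cast hφi h1
  have hSsep : S.Separable := PerfectField.separable_iff_squarefree.mpr hS
  obtain ⟨u, v, huv⟩ := hSsep
  obtain ⟨b, R, hb, hR⟩ := clear_denom S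
  obtain ⟨b₁, u', hb₁, hu'⟩ := clear_denom u
  obtain ⟨b₂, v', hb₂, hv'⟩ := clear_denom v
  obtain ⟨b₃, W', hb₃, hW'⟩ := clear_denom W
  rw [← hφ] at hR hu' hv' hW'
  have hS0 : S ≠ 0 := hS.ne_zero
  have hR0 : R ≠ 0 := by
    rintro rfl
    rw [Polynomial.map_zero] at hR
    rcases mul_eq_zero.mp hR.symm with h | h
    · rw [C_eq_zero] at h
      exact hb (hφi (by rw [h, map_zero]))
    · exact hS0 h
  have hbez : C b₂ * u' * R + C b₁ * v' * derivative R = C (b₁ * b₂ * b) := by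
    apply hmi
    simp only [Polynomial.map_add, Polynomial.map_mul, Polynomial.map_C, hu', hv', hR,
      ← Polynomial.derivative_map, derivative_mul, derivative_C, zero_mul, zero_add, map_mul]
    linear_combination (C (φ b₁) * C (φ b₂) * C (φ b)) * huv
  have hpow : C b₃ * R ^ n = C (b ^ n) * P * W' := by
    apply hmi
    simp only [Polynomial.map_mul, Polynomial.map_C, Polynomial.map_pow, hR, hW', map_pow]
    rw [mul_pow, hW]
    ring
  refine ⟨R, b₁ * b₂ * b * b₃ * R.leadingCoeff, ?_, ?_, ?_, ?_⟩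
  · have := Polynomial.leadingCoeff_ne_zero.mpr hR0
    simp [hb₁, hb₂, hb, hb₃, hR0]
  · intro z hz
    apply Polynomial.natDegree_map_of_leadingCoeff_ne_zero
    rw [eval_mul] at hz
    exact right_ne_zero_of_mul hz
  · intro z hz
    have h1 : (b₁ * b₂ * b).eval z ≠ 0 := by
      rw [eval_mul, eval_mul] at hz
      exact left_ne_zero_of_mul (left_ne_zero_of_mul hz)
    have h2 := congrArg (Polynomial.map (evalRingHom z)) hbez
    simp only [Polynomial.map_add, Polynomial.map_mul, Polynomial.map_C,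
      ← Polynomial.derivative_map] at h2
    refine ⟨C (((b₁ * b₂ * b).eval z)⁻¹) * (C (evalRingHom z b₂) * u'.map (evalRingHom z)),
      C (((b₁ * b₂ * b).eval z)⁻¹) * (C (evalRingHom z b₁) * v'.map (evalRingHom z)), ?_⟩
    have h3 : C (((b₁ * b₂ * b).eval z)⁻¹) * C (evalRingHom z (b₁ * b₂ * b)) = 1 := by
      rw [← C_mul, coe_evalRingHom, inv_mul_cancel₀ h1, C_1]
    linear_combination C (((b₁ * b₂ * b).eval z)⁻¹) * h2 + h3
  · intro z v hz hPz
    have h1 : b₃.eval z ≠ 0 := by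
      rw [eval_mul, eval_mul] at hz
      exact right_ne_zero_of_mul (left_ne_zero_of_mul hz)
    have h2 := congrArg (fun p : ℂ[X][X] => p.evalEval z v) hpow
    simp only [evalEval_mul, evalEval_C, evalEval_pow, hPz, mul_zero, zero_mul] at h2
    have hn : n ≠ 0 := by
      intro h
      rw [h, pow_zero, mul_one] at h2
      exact h1 h2
    exact (pow_eq_zero_iff hn).mp ((mul_eq_zero.mp h2).resolve_left h1)

theorem exists_ball_ne (bad : ℂ[X]) (hbad : bad ≠ 0) :
    ∃ ε > 0, ∀ z : ℂ, 0 < ‖z‖ → ‖z‖ < ε → bad.eval z ≠ 0 := by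
  classical
  have hfin : ((bad.roots.toFinset.erase 0 : Finset ℂ) : Set ℂ).Finite := Finset.finite_toSet _
  have hopen : IsOpen (((bad.roots.toFinset.erase 0 : Finset ℂ) : Set ℂ)ᶜ) :=
    hfin.isClosed.isOpen_compl
  obtain ⟨ε, hε, hball⟩ := Metric.isOpen_iff.mp hopen 0 (by simp)
  refine ⟨ε, hε, ?_⟩
  intro z hz0 hz1 h
  have h1 := hball (show z ∈ Metric.ball (0 : ℂ) ε by rw [mem_ball_zero_iff]; exact hz1)
  apply h1
  simp only [Finset.coe_erase, Set.mem_sdiff, Set.mem_singleton_iff, Finset.mem_coe,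
    Multiset.mem_toFinset, mem_roots hbad]
  exact ⟨h, norm_pos_iff.mp hz0⟩

/-- the one sided statement -/
theorem one_sided (P : ℂ[X][X]) (hP : P ≠ 0) (f : ℝ → ℂ) (δ : ℝ) (hδ : 0 < δ)
    (hf : ContinuousOn f (Ioo 0 δ)) (hPf : ∀ u ∈ Ioo 0 δ, P.evalEval (u : ℂ) (f u) = 0)
    (hT : ∀ m : ℕ, ∃ T : ℂ[X], (fun u : ℝ => f u - T.eval (u : ℂ)) =O[𝓝[>] 0]
      fun u : ℝ => (u : ℂ) ^ m) :
    ∃ B : ℂ → ℂ, AnalyticAt ℂ B 0 ∧ ∀ᶠ u : ℝ in 𝓝[>] 0, f u = B u := by
  obtain ⟨R, bad, hbad, hdeg, hsep, hPR⟩ := sqfree_part P hP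
  obtain ⟨ε, hε, hball⟩ := exists_ball_ne bad hbad
  set c₀ := Real.log (min ε δ) with hc₀
  have hmin : 0 < min ε δ := lt_min hε hδ
  have hexp : Real.exp c₀ = min ε δ := Real.exp_log hmin
  have hb0 : ∀ z : ℂ, 0 < ‖z - 0‖ → ‖z - 0‖ < Real.exp c₀ → bad.eval z ≠ 0 := by
    intro z h1 h2
    rw [sub_zero] at h1 h2
    exact hball z h1 (h2.trans_le (hexp ▸ min_le_left _ _))
  obtain ⟨N, α, hN, hα1, hα2, hα3, hα4, hα5⟩ := puiseux R 0 c₀
    (fun z h1 h2 => hdeg z (hb0 z h1 h2)) (fun z h1 h2 => hsep z (hb0 z h1 h2))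
  have hNr : (0 : ℝ) < N := by exact_mod_cast hN
  have hNc : (N : ℂ) ≠ 0 := by exact_mod_cast hN.ne'
  -- f(e^x) is a root function
  have hex : ∀ x : ℝ, x < c₀ → Real.exp x ∈ Ioo 0 δ := by
    intro x hx
    refine ⟨Real.exp_pos x, ?_⟩
    exact (Real.exp_lt_exp.mpr hx).trans_le (hexp ▸ min_le_right _ _)
  obtain ⟨j, hj⟩ := root_unique (T := (fun x : ℝ => (x : ℂ)) '' Iio c₀)
    (isPreconnected_Iio.image _ Complex.continuous_ofReal.continuousOn)
    ⟨_, c₀ - 1, by rw [Set.mem_Iio]; linarith, rfl⟩ R.natDegree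
    (fun w => R.map (evalRingHom (0 + Complex.exp w))) α
    (by
      intro j
      apply (hα1 j).continuousOn.mono
      rintro _ ⟨x, hx, rfl⟩
      simpa using hx)
    (by
      rintro _ ⟨x, hx, rfl⟩
      exact hα2 _ (by simpa using hx))
    (by
      rintro _ ⟨x, hx, rfl⟩ v
      have h1 := hα3 (x : ℂ) (by simpa using hx) v
      rwa [evalEval_eq_map] at h1)
    (fun w => f (Real.exp w.re))
    (by
      apply hf.comp
      · apply Continuous.continuousOn
        exact Real.continuous_exp.comp Complex.continuous_re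
      · rintro _ ⟨x, hx, rfl⟩
        show Real.exp ((x : ℂ)).re ∈ Ioo 0 δ
        rw [Complex.ofReal_re]
        exact hex x hx)
    (by
      rintro _ ⟨x, hx, rfl⟩
      rw [← evalEval_eq_map, zero_add, Complex.ofReal_re, ← Complex.ofReal_exp]
      apply hPR
      · apply hball
        · rw [Complex.norm_real, Real.norm_eq_abs, abs_of_pos (Real.exp_pos x)]
          exact Real.exp_pos x
        · rw [Complex.norm_real, Real.norm_eq_abs, abs_of_pos (Real.exp_pos x)]
          exact (Real.exp_lt_exp.mpr hx).trans_le (hexp ▸ min_le_left _ _)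
      · exact hPf _ (hex x hx))
  have hfα : ∀ x : ℝ, x < c₀ → f (Real.exp x) = α j x := by
    intro x hx
    have := hj _ ⟨x, hx, rfl⟩
    simpa using this
  -- boundedness
  obtain ⟨K, c, hK⟩ : ∃ K c : ℝ, ∀ x : ℝ, x < c → ‖α j x‖ ≤ K := by
    obtain ⟨T, hT0⟩ := hT 0
    rw [Asymptotics.isBigO_iff] at hT0
    obtain ⟨K₁, hK₁⟩ := hT0
    have h1 : ∀ᶠ u : ℝ in 𝓝[>] 0, ‖T.eval (u : ℂ)‖ < ‖T.eval (0 : ℂ)‖ + 1 := by
      have h2 : Tendsto (fun u : ℝ => ‖T.eval (u : ℂ)‖) (𝓝[>] 0) (𝓝 ‖T.eval (0 : ℂ)‖) := by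
        have h3 := (T.continuous.tendsto (0 : ℂ)).comp
          (tendsto_ofReal_right.mono_right nhdsWithin_le_nhds)
        exact h3.norm
      exact h2.eventually_lt_const (by linarith)
    have h3 := (hK₁.and h1)
    rw [eventually_nhdsWithin_iff, Metric.eventually_nhds_iff] at h3
    obtain ⟨ρ, hρ, h4⟩ := h3
    refine ⟨K₁ + (‖T.eval (0 : ℂ)‖ + 1), min c₀ (Real.log ρ), ?_⟩
    intro x hx
    have hx0 : x < c₀ := hx.trans_le (min_le_left _ _)
    have hx1 : Real.exp x < ρ := by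
      rw [← Real.lt_log_iff_exp_lt hρ]
      exact hx.trans_le (min_le_right _ _)
    rw [← hfα x hx0]
    have h5 := h4 (show dist (Real.exp x) 0 < ρ by
      rw [Real.dist_0_eq_abs, abs_of_pos (Real.exp_pos x)]; exact hx1) (Real.exp_pos x)
    have h6 := h5.1
    rw [pow_zero, norm_one, mul_one] at h6
    calc ‖f (Real.exp x)‖ = ‖(f (Real.exp x) - T.eval ((Real.exp x : ℝ) : ℂ)) +
          T.eval ((Real.exp x : ℝ) : ℂ)‖ := by rw [sub_add_cancel]
      _ ≤ _ := norm_add_le _ _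
      _ ≤ _ := add_le_add h6 h5.2.le
  -- first Laurent expansion
  obtain ⟨C, a, hgrow⟩ := hα5 (c₀ - 1) (by linarith)
  obtain ⟨F, hF, c₁, hc₁, hF1⟩ := laurent' (c₀ - 1) N hN (α j)
    ((hα1 j).mono fun w hw => by
      rw [Set.mem_ofPred_eq] at hw ⊢
      linarith)
    (fun w hw => hα4 j w (by linarith)) C a (hgrow j) K c hK
  -- flatness: F is invariant
  set ζ := Complex.exp (2 * Real.pi * Complex.I / N) with hz1
  have hzN : ζ ^ N = 1 := by
    rw [hz1, ← Complex.exp_nat_mul, mul_div_cancel₀ _ hNc, Complex.exp_two_pi_mul_I]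
  have hznorm : ‖ζ‖ = 1 := Complex.norm_eq_one_of_pow_eq_one hzN hN.ne'
  have hlogs : ∀ s : ℝ, 0 < s → Real.log s * N < c₁ → f (s ^ N) = F s := by
    intro s hs hs1
    have h1 : s ^ N = Real.exp (Real.log s * N) := by
      rw [mul_comm, Real.exp_nat_mul, Real.exp_log hs]
    rw [h1, hfα _ (by linarith), hF1 _ (by rw [Complex.ofReal_re]; exact hs1)]
    congr 1
    have h2 : (((Real.log s * N : ℝ) : ℂ)) / N = ((Real.log s : ℝ) : ℂ) := by
      push_cast
      field_simp
    rw [h2, ← Complex.ofReal_exp, Real.exp_log hs]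
  have hfF : ∀ᶠ s : ℝ in 𝓝[>] 0, f (s ^ N) = F s := by
    have h1 : ∀ᶠ s : ℝ in 𝓝[>] 0, Real.log s < c₁ / N :=
      Real.tendsto_log_nhdsGT_zero.eventually (eventually_lt_atBot _)
    filter_upwards [h1, self_mem_nhdsWithin] with s hs hs0
    exact hlogs s hs0 ((lt_div_iff₀ hNr).mp hs)
  have hpowN : Tendsto (fun s : ℝ => s ^ N) (𝓝[>] 0) (𝓝[>] 0) := by
    apply tendsto_nhdsWithin_of_tendsto_nhds_of_eventually_within
    · have : Tendsto (fun s : ℝ => s ^ N) (𝓝 0) (𝓝 (0 ^ N)) := (continuous_pow N).tendsto 0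
      rw [zero_pow hN.ne'] at this
      exact this.mono_left nhdsWithin_le_nhds
    · filter_upwards [self_mem_nhdsWithin] with s hs
      exact pow_pos (Set.mem_Ioi.mp hs) N
  have hE : ∀ m : ℕ, (fun z : ℂ => F (ζ * z) - F z) =O[𝓝 0] (fun z => z ^ m) := by
    intro m
    obtain ⟨T, hTm⟩ := hT m
    set E : ℂ → ℂ := fun z => F z - T.eval (z ^ N) with hEdef
    have hEan : AnalyticAt ℂ E 0 := by
      apply hF.sub
      have : Differentiable ℂ (fun z : ℂ => T.eval (z ^ N)) :=
        T.differentiable.comp (differentiable_id.pow N)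
      exact this.analyticAt 0
    have h1 : (fun s : ℝ => E s) =O[𝓝[>] 0] (fun s : ℝ => (s : ℂ) ^ (N * m)) := by
      have h2 := hTm.comp_tendsto hpowN
      refine h2.congr' ?_ ?_
      · filter_upwards [hfF] with s hs
        simp only [Function.comp_apply, hEdef, hs]
        push_cast
        rfl
      · filter_upwards with s
        simp only [Function.comp_apply]
        push_cast
        rw [← pow_mul]
    have h3 := analytic_bigO_right hEan (N * m) h1
    have h4 : Tendsto (fun z : ℂ => ζ * z) (𝓝 0) (𝓝 0) := by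
      have : Tendsto (fun z : ℂ => ζ * z) (𝓝 0) (𝓝 (ζ * 0)) :=
        (continuous_const.mul continuous_id).tendsto 0
      rwa [mul_zero] at this
    have h5 : (fun z : ℂ => E (ζ * z)) =O[𝓝 0] (fun z => z ^ (N * m)) := by
      have h6 := h3.comp_tendsto h4
      refine h6.trans ?_
      apply Asymptotics.IsBigO.of_bound 1
      filter_upwards with z
      simp only [Function.comp_apply]
      rw [mul_pow, norm_mul, norm_pow ζ, hznorm, one_pow]
    have h7 := h5.sub h3
    have h8 : (fun z : ℂ => z ^ (N * m)) =O[𝓝 0] (fun z => z ^ m) := by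
      apply Asymptotics.IsBigO.of_bound 1
      filter_upwards [Metric.ball_mem_nhds (0 : ℂ) one_pos] with z hz
      rw [mem_ball_zero_iff] at hz
      rw [norm_pow, norm_pow, one_mul]
      exact pow_le_pow_of_le_one (norm_nonneg _) hz.le (Nat.le_mul_of_pos_left m hN)
    refine (h7.trans h8).congr_left ?_
    intro z
    simp only [hEdef]
    rw [mul_pow, hzN, one_mul]
    ring
  have hFz : AnalyticAt ℂ (fun z : ℂ => F (ζ * z)) 0 := by
    have h1 : AnalyticAt ℂ F (ζ * 0) := by rw [mul_zero]; exact hF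
    exact h1.comp (f := fun z : ℂ => ζ * z) (analyticAt_const.mul analyticAt_id)
  have hinv := flat_zero (hFz.sub hF) hE
  -- a smaller half plane on which `α j` is periodic
  obtain ⟨ρ, hρ, hinv'⟩ := Metric.eventually_nhds_iff.mp hinv
  set c₂ := min c₁ (N * Real.log ρ) with hc₂
  have hper2 : ∀ w : ℂ, w.re < c₂ → α j (w + 2 * Real.pi * Complex.I * (1 : ℕ)) = α j w := by
    intro w hw
    have hw1 : w.re < c₁ := hw.trans_le (min_le_left _ _)
    have hw2 : w.re < N * Real.log ρ := hw.trans_le (min_le_right _ _)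
    rw [Nat.cast_one, mul_one]
    rw [hF1 w hw1, hF1 _ (by simpa using hw1)]
    have h1 : Complex.exp ((w + 2 * Real.pi * Complex.I) / N) = ζ * Complex.exp (w / N) := by
      rw [hz1, ← Complex.exp_add]
      congr 1
      ring
    rw [h1]
    have h2 : ‖Complex.exp (w / N)‖ < ρ := by
      rw [Complex.norm_exp]
      have h3 : (w / (N : ℂ)).re = w.re / N := by
        rw [← Complex.ofReal_natCast, Complex.div_ofReal_re]
      rw [h3, ← Real.lt_log_iff_exp_lt hρ, div_lt_iff₀ hNr]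
      linarith
    have h4 := hinv' (show dist (Complex.exp (w / N)) 0 < ρ by rw [dist_zero_right]; exact h2)
    exact sub_eq_zero.mp h4
  obtain ⟨B, hB, c₃, hc₃, hB1⟩ := laurent' c₂ 1 one_pos (α j)
    ((hα1 j).mono fun w hw => by
      rw [Set.mem_ofPred_eq] at hw ⊢
      have := hw.trans_le (min_le_left c₁ (N * Real.log ρ))
      linarith) hper2 C a (fun w hw => hgrow j w (by
        have := hw.trans_le (min_le_left c₁ (N * Real.log ρ))
        linarith)) K c hK
  refine ⟨B, hB, ?_⟩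
  have h1 : ∀ᶠ s : ℝ in 𝓝[>] 0, Real.log s < c₃ :=
      Real.tendsto_log_nhdsGT_zero.eventually (eventually_lt_atBot _)
  filter_upwards [h1, self_mem_nhdsWithin] with s hs hs0
  have h2 := hfα (Real.log s) (by
    have := min_le_left c₁ (N * Real.log ρ)
    linarith)
  rw [Real.exp_log hs0] at h2
  rw [h2, hB1 _ (by rw [Complex.ofReal_re]; exact hs), Nat.cast_one, div_one, ← Complex.ofReal_exp,
    Real.exp_log hs0]

theorem taylor_poly (U : Set ℝ) (hU : IsOpen U) (V : ℝ → ℝ) (hV : ContDiffOn ℝ ∞ V U) (t₀ : ℝ)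
    (ht₀ : t₀ ∈ U) (m : ℕ) : ∃ T : ℂ[X], (fun u : ℝ => ((V (t₀ + u) : ℝ) : ℂ) - T.eval (u : ℂ)) =O[𝓝 0]
      fun u : ℝ => (u : ℂ) ^ m := by
  obtain ⟨ε, hε, hball⟩ := Metric.isOpen_iff.mp hU t₀ ht₀
  have h1 := taylor_isLittleO (f := V) (x₀ := t₀) (n := m) (s := Metric.ball t₀ ε)
    (convex_ball _ _) (Metric.mem_ball_self hε) ((hV.mono hball).of_le (by exact_mod_cast le_top))
  rw [(Metric.isOpen_ball).nhdsWithin_eq (Metric.mem_ball_self hε)] at h1
  refine ⟨∑ k ∈ Finset.range (m + 1), C ((((k.factorial : ℝ)⁻¹ *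
    iteratedDerivWithin k V (Metric.ball t₀ ε) t₀ : ℝ)) : ℂ) * X ^ k, ?_⟩
  have h2 : Tendsto (fun u : ℝ => t₀ + u) (𝓝 0) (𝓝 t₀) := by
    have : Tendsto (fun u : ℝ => t₀ + u) (𝓝 0) (𝓝 (t₀ + 0)) :=
      (continuous_const.add continuous_id).tendsto 0
    rwa [add_zero] at this
  have h3 := (h1.comp_tendsto h2).isBigO
  rw [Asymptotics.isBigO_iff] at h3 ⊢
  obtain ⟨c, hc⟩ := h3
  refine ⟨c, ?_⟩
  filter_upwards [hc] with u hu
  simp only [Function.comp_apply, add_sub_cancel_left] at hu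
  have h4 : ((V (t₀ + u) : ℝ) : ℂ) - (∑ k ∈ Finset.range (m + 1), C ((((k.factorial : ℝ)⁻¹ *
      iteratedDerivWithin k V (Metric.ball t₀ ε) t₀ : ℝ)) : ℂ) * X ^ k).eval (u : ℂ) =
      ((V (t₀ + u) - taylorWithinEval V m (Metric.ball t₀ ε) t₀ (t₀ + u) : ℝ) : ℂ) := by
    rw [taylor_within_apply, eval_finsetSum]
    push_cast
    congr 1
    apply Finset.sum_congr rfl
    intro k hk
    simp only [eval_mul, eval_C, eval_pow, eval_X, smul_eq_mul, add_sub_cancel_left]
    push_cast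
    ring
  rw [h4, Complex.norm_real, norm_pow, Complex.norm_real]
  rwa [norm_pow] at hu

theorem evalEval_comp (P : ℂ[X][X]) (q : ℂ[X]) (z v : ℂ) :
    (P.map (compRingHom q)).evalEval z v = P.evalEval (q.eval z) v := by
  rw [evalEval_eq_map, evalEval_eq_map, Polynomial.map_map]
  congr 2
  ext <;> simp

/-- TARGET 3: a smooth algebraic function is analytic -/
theorem smooth_algebraic (U : Set ℝ) (hU : IsOpen U) (V : ℝ → ℝ) (hV : ContDiffOn ℝ ∞ V U)
    (P : ℂ[X][X]) (hP : P ≠ 0) (hPV : ∀ t ∈ U, P.evalEval (t : ℂ) (V t : ℂ) = 0) (t₀ : ℝ)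
    (ht₀ : t₀ ∈ U) : AnalyticAt ℝ V t₀ := by
  obtain ⟨ε, hε, hball⟩ := Metric.isOpen_iff.mp hU t₀ ht₀
  have hcont : ContinuousOn V U := hV.continuousOn
  have hside : ∀ σ : ℝ, σ = 1 ∨ σ = -1 → ∃ B : ℂ → ℂ, AnalyticAt ℂ B 0 ∧
      ∀ᶠ u : ℝ in 𝓝[>] 0, ((V (t₀ + σ * u) : ℝ) : ℂ) = B u := by
    intro σ hσ
    have hσ0 : σ ≠ 0 := by rcases hσ with h | h <;> rw [h] <;> norm_num
    have habs : |σ| = 1 := by rcases hσ with h | h <;> rw [h] <;> norm_num
    have hmem : ∀ u ∈ Ioo 0 ε, t₀ + σ * u ∈ U := by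
      intro u hu
      apply hball
      rw [Metric.mem_ball, Real.dist_eq, add_sub_cancel_left, abs_mul, habs, one_mul,
        abs_of_pos hu.1]
      exact hu.2
    apply one_sided (P.map (compRingHom (C (t₀ : ℂ) + C (σ : ℂ) * X))) ?_
      (fun u => ((V (t₀ + σ * u) : ℝ) : ℂ)) ε hε ?_ ?_ ?_
    · intro h
      apply hP
      ext1 i
      have h1 := congrArg (fun p : ℂ[X][X] => p.coeff i) h
      simp only [coeff_map, coe_compRingHom, coeff_zero] at h1
      rw [Polynomial.comp_eq_zero_iff] at h1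
      rcases h1 with h1 | ⟨h1, h2⟩
      · rw [h1, coeff_zero]
      · exfalso
        have h3 := congrArg (fun p : ℂ[X] => p.coeff 1) h2
        simp [hσ0] at h3
    · apply Complex.continuous_ofReal.comp_continuousOn
      apply hcont.comp (by fun_prop)
      intro u hu
      exact hmem u hu
    · intro u hu
      rw [evalEval_comp]
      have h1 := hPV _ (hmem u hu)
      push_cast at h1
      simpa using h1
    · intro m
      obtain ⟨T, hT⟩ := taylor_poly U hU V hV t₀ ht₀ m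
      refine ⟨T.comp (C (σ : ℂ) * X), ?_⟩
      have h1 : Tendsto (fun u : ℝ => σ * u) (𝓝[>] 0) (𝓝 0) := by
        have : Tendsto (fun u : ℝ => σ * u) (𝓝 0) (𝓝 (σ * 0)) :=
          (continuous_const.mul continuous_id).tendsto 0
        rw [mul_zero] at this
        exact this.mono_left nhdsWithin_le_nhds
      have h2 := hT.comp_tendsto h1
      rw [Asymptotics.isBigO_iff] at h2 ⊢
      obtain ⟨c, hc⟩ := h2
      refine ⟨c, ?_⟩
      filter_upwards [hc] with u hu
      simp only [Function.comp_apply] at hu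
      rw [norm_pow, Complex.norm_real, norm_mul, Real.norm_eq_abs σ, habs, one_mul] at hu
      rw [norm_pow, Complex.norm_real]
      simpa using hu
  obtain ⟨B₁, hB₁, hBV₁⟩ := hside 1 (Or.inl rfl)
  obtain ⟨B₂, hB₂, hBV₂⟩ := hside (-1) (Or.inr rfl)
  -- the two sides match
  have hneg : AnalyticAt ℂ (fun z : ℂ => B₂ (-z)) 0 := by
    have h1 : AnalyticAt ℂ B₂ (-0) := by rw [neg_zero]; exact hB₂
    exact h1.comp (f := fun z : ℂ => -z) analyticAt_id.neg
  have hD : ∀ m : ℕ, (fun z : ℂ => B₁ z - B₂ (-z)) =O[𝓝 0] (fun z => z ^ m) := by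
    intro m
    obtain ⟨T, hT⟩ := taylor_poly U hU V hV t₀ ht₀ m
    have hTan : ∀ σ : ℂ, AnalyticAt ℂ (fun z : ℂ => T.eval (σ * z)) 0 := by
      intro σ
      have : Differentiable ℂ (fun z : ℂ => T.eval (σ * z)) :=
        T.differentiable.comp ((differentiable_const σ).mul differentiable_id)
      exact this.analyticAt 0
    have h1 : (fun z : ℂ => B₁ z - T.eval (1 * z)) =O[𝓝 0] (fun z => z ^ m) := by
      apply analytic_bigO_right (hB₁.sub (hTan 1)) m
      refine (hT.mono nhdsWithin_le_nhds).congr' ?_ (EventuallyEq.refl _ _)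
      filter_upwards [hBV₁] with u hu
      simp only [one_mul, Pi.sub_apply] at hu ⊢
      rw [hu]
    have h2 : (fun z : ℂ => B₂ z - T.eval (-1 * z)) =O[𝓝 0] (fun z => z ^ m) := by
      apply analytic_bigO_right (hB₂.sub (hTan (-1))) m
      have h3 : Tendsto (fun u : ℝ => -u) (𝓝[>] 0) (𝓝 0) := by
        have : Tendsto (fun u : ℝ => -u) (𝓝 0) (𝓝 (-0)) := continuous_neg.tendsto 0
        rw [neg_zero] at this
        exact this.mono_left nhdsWithin_le_nhds
      have h4 := hT.comp_tendsto h3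
      rw [Asymptotics.isBigO_iff] at h4 ⊢
      obtain ⟨c, hc⟩ := h4
      refine ⟨c, ?_⟩
      filter_upwards [hc, hBV₂] with u hu hu2
      simp only [Function.comp_apply] at hu
      rw [norm_pow, Complex.norm_real, norm_neg] at hu
      rw [norm_pow, Complex.norm_real]
      simp only [Pi.sub_apply]
      rw [← hu2]
      simpa using hu
    have h3 : Tendsto (fun z : ℂ => -z) (𝓝 0) (𝓝 0) := by
      have : Tendsto (fun z : ℂ => -z) (𝓝 0) (𝓝 (-0)) := continuous_neg.tendsto 0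
      rwa [neg_zero] at this
    have h4 := h2.comp_tendsto h3
    have h5 : (fun z : ℂ => B₂ (-z) - T.eval z) =O[𝓝 0] (fun z => z ^ m) := by
      rw [Asymptotics.isBigO_iff] at h4 ⊢
      obtain ⟨c, hc⟩ := h4
      refine ⟨c, ?_⟩
      filter_upwards [hc] with z hz
      simp only [Function.comp_apply] at hz
      rw [norm_pow, norm_neg] at hz
      rw [norm_pow]
      simpa using hz
    refine (h1.sub h5).congr_left ?_
    intro z
    rw [one_mul]
    ring
  have hflat := flat_zero (hB₁.sub hneg) hD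
  -- eventually `V (t₀ + u) = B₁ u`
  have hpos : ∀ᶠ u : ℝ in 𝓝[>] 0, ((V (t₀ + u) : ℝ) : ℂ) = B₁ u := by
    filter_upwards [hBV₁] with u hu
    rwa [one_mul] at hu
  have hneg' : ∀ᶠ u : ℝ in 𝓝[<] 0, ((V (t₀ + u) : ℝ) : ℂ) = B₁ u := by
    have h1 : Tendsto (fun u : ℝ => -u) (𝓝[<] 0) (𝓝[>] 0) := by
      apply tendsto_nhdsWithin_of_tendsto_nhds_of_eventually_within
      · have : Tendsto (fun u : ℝ => -u) (𝓝 0) (𝓝 (-0)) := continuous_neg.tendsto 0
        rw [neg_zero] at this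
        exact this.mono_left nhdsWithin_le_nhds
      · filter_upwards [self_mem_nhdsWithin] with u hu
        exact neg_pos.mpr (Set.mem_Iio.mp hu)
    have h2 := h1.eventually hBV₂
    have h3 : Tendsto (fun u : ℝ => (u : ℂ)) (𝓝[<] 0) (𝓝 0) := by
      have : Tendsto (fun u : ℝ => (u : ℂ)) (𝓝 0) (𝓝 ((0 : ℝ) : ℂ)) :=
        Complex.continuous_ofReal.tendsto 0
      rw [Complex.ofReal_zero] at this
      exact this.mono_left nhdsWithin_le_nhds
    filter_upwards [h2, h3.eventually hflat] with u hu hu2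
    have h4 : B₁ u = B₂ (-u) := sub_eq_zero.mp hu2
    rw [h4]
    have h5 : t₀ + -1 * -u = t₀ + u := by ring
    rw [h5] at hu
    rw [hu]
    push_cast
    rfl
  have hzero : ((V (t₀ + 0) : ℝ) : ℂ) = B₁ (0 : ℝ) := by
    have h1 : Tendsto (fun u : ℝ => ((V (t₀ + u) : ℝ) : ℂ)) (𝓝[>] 0) (𝓝 ((V (t₀ + 0) : ℝ) : ℂ)) := by
      have h2 : ContinuousAt V (t₀ + 0) := by
        rw [add_zero]
        exact hcont.continuousAt (hU.mem_nhds ht₀)
      have h3 : ContinuousAt (fun u : ℝ => V (t₀ + u)) 0 :=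
        ContinuousAt.comp (f := fun u : ℝ => t₀ + u) h2 (by fun_prop)
      exact ((Complex.continuous_ofReal.tendsto _).comp h3.tendsto).mono_left nhdsWithin_le_nhds
    have h2 : Tendsto (fun u : ℝ => B₁ u) (𝓝[>] 0) (𝓝 (B₁ (0 : ℝ))) := by
      have h3 := hB₁.continuousAt.tendsto.comp
        (tendsto_ofReal_right.mono_right nhdsWithin_le_nhds)
      rw [Complex.ofReal_zero]
      exact h3
    exact tendsto_nhds_unique (h1.congr' hpos) h2 |>.symm ▸ rfl
  have hall : ∀ᶠ u : ℝ in 𝓝 0, ((V (t₀ + u) : ℝ) : ℂ) = B₁ u := by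
    have h1 := eventually_nhdsWithin_iff.mp hpos
    have h2 := eventually_nhdsWithin_iff.mp hneg'
    filter_upwards [h1, h2] with u hu1 hu2
    rcases lt_trichotomy u 0 with h | h | h
    · exact hu2 h
    · rw [h]; exact hzero
    · exact hu1 h
  have hfin : ∀ᶠ t : ℝ in 𝓝 t₀, V t = (B₁ ((t : ℂ) - t₀)).re := by
    have h1 : Tendsto (fun t : ℝ => t - t₀) (𝓝 t₀) (𝓝 0) := by
      have : Tendsto (fun t : ℝ => t - t₀) (𝓝 t₀) (𝓝 (t₀ - t₀)) :=
        (continuous_id.sub continuous_const).tendsto t₀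
      rwa [sub_self] at this
    filter_upwards [h1.eventually hall] with t ht
    rw [add_sub_cancel] at ht
    rw [← Complex.ofReal_sub, ← ht, Complex.ofReal_re]
  have hB3 : AnalyticAt ℂ (fun z : ℂ => B₁ (z - t₀)) ((t₀ : ℝ) : ℂ) := by
    have h1 : AnalyticAt ℂ B₁ ((t₀ : ℂ) - t₀) := by rw [sub_self]; exact hB₁
    exact h1.comp (f := fun z : ℂ => z - t₀) (analyticAt_id.sub analyticAt_const)
  have h4 : AnalyticAt ℝ (fun t : ℝ => (B₁ ((t : ℂ) - t₀)).re) t₀ := hB3.re_ofReal
  refine h4.congr ?_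
  filter_upwards [hfin] with t ht
  exact ht.symm

end AR.J5759

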