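import Mathlib

set_option autoImplicit false
open Polynomial Set Filter Topology Metric MeasureTheory
open scoped ContDiff

namespace AR.J5763

theorem MI_aux_smooth (b τ : ℝ) (V : ℝ → ℝ) (hV : ContDiffOn ℝ ∞ V (Ioo b τ)) (k : ℕ) :
    ContDiffOn ℝ ∞ (iteratedDeriv k V) (Ioo b τ) := by
  induction k with
  | zero => simpa [iteratedDeriv_zero] using hV
  | succ k ih =>
    rw [iteratedDeriv_succ]
    exact ih.deriv_of_isOpen isOpen_Ioo (by simp)

theorem MI_aux_deriv (b τ : ℝ) (V : ℝ → ℝ) (hV : ContDiffOn ℝ ∞ V (Ioo b τ)) (k : ℕ) (t : ℝ)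
    (ht : t ∈ Ioo b τ) : HasDerivAt (fun t => ((iteratedDeriv k V t : ℝ) : ℂ))
      ((iteratedDeriv (k + 1) V t : ℝ) : ℂ) t := by
  have h1 : DifferentiableAt ℝ (iteratedDeriv k V) t :=
    ((MI_aux_smooth b τ V hV k).differentiableOn (by simp)).differentiableAt
      (isOpen_Ioo.mem_nhds ht)
  have h2 := h1.hasDerivAt
  rw [iteratedDeriv_succ]
  exact h2.ofReal_comp

theorem MI_aux_lim (b τ x : ℝ) (V : ℝ → ℝ) (M e l j r : ℕ) (g q : ℂ[X]) (hgx : g.eval (x : ℂ) = 0)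
    (hM : e + l + 1 ≤ M) (C : ℝ) (hj : j ≤ r)
    (hC : ∀ i ≤ r, ∀ t ∈ Ioo b τ, ‖g.eval (t : ℂ)‖ ^ e * |iteratedDeriv (i + 1) V t| ≤ C)
    (F : Filter ℝ) (hF : F ≤ 𝓝 x) (hF2 : Ioo b τ ∈ F) :
    Tendsto (fun t : ℝ => ((iteratedDeriv (j + 1) V t : ℝ) : ℂ) *
      (derivative^[l] (g ^ M * q)).eval (t : ℂ)) F (𝓝 0) := by
  have h1 : g ^ (M - l) ∣ derivative^[l] (g ^ M * q) :=
    pow_sub_dvd_iterate_derivative_of_pow_dvd l (Dvd.intro _ rfl)
  obtain ⟨s, hs⟩ := h1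
  obtain ⟨k, hk⟩ : ∃ k, M - l = e + (k + 1) := ⟨M - l - e - 1, by omega⟩
  have h2 : derivative^[l] (g ^ M * q) = g ^ e * (g * (g ^ k * s)) := by
    rw [hs, hk]; ring
  rw [h2]
  have h3 : Tendsto (fun t : ℝ => C * ‖(g * (g ^ k * s)).eval (t : ℂ)‖) F (𝓝 0) := by
    have hc : Continuous (fun t : ℝ => C * ‖(g * (g ^ k * s)).eval (t : ℂ)‖) := by
      have : Continuous (fun t : ℝ => (g * (g ^ k * s)).eval (t : ℂ)) :=
        (g * (g ^ k * s)).continuous.comp Complex.continuous_ofReal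
      exact continuous_const.mul this.norm
    have h4 := (hc.tendsto x).mono_left hF
    have h5 : C * ‖(g * (g ^ k * s)).eval (x : ℂ)‖ = 0 := by
      rw [eval_mul, hgx, zero_mul, norm_zero, mul_zero]
    rwa [h5] at h4
  refine squeeze_zero_norm' ?_ h3
  filter_upwards [hF2] with t ht
  have h6 := hC j hj t ht
  rw [norm_mul, eval_mul, norm_mul, eval_pow, norm_pow, Complex.norm_real, Real.norm_eq_abs]
  have h7 := mul_le_mul_of_nonneg_right h6 (norm_nonneg ((g * (g ^ k * s)).eval (t : ℂ)))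
  refine le_trans (le_of_eq ?_) h7
  ring

/-- TARGET: integration by parts against an operator killing V' with coefficients vanishing
to high order at the end points -/
theorem moment_identity (b τ : ℝ) (hbτ : b < τ) (V : ℝ → ℝ) (hV : ContDiffOn ℝ ∞ V (Ioo b τ))
    (r M e : ℕ) (g : ℂ[X]) (hgb : g.eval (b : ℂ) = 0) (hgτ : g.eval (τ : ℂ) = 0)
    (p : ℕ → ℂ[X]) (hM : e + r + 1 ≤ M)
    (hbd : ∃ C : ℝ, ∀ i ≤ r, ∀ t ∈ Ioo b τ, ‖g.eval (t : ℂ)‖ ^ e * |iteratedDeriv (i + 1) V t| ≤ C)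
    (hkill : ∀ t ∈ Ioo b τ, ∑ i ∈ Finset.range (r + 1),
      (p i).eval (t : ℂ) * ((iteratedDeriv (i + 1) V t : ℝ) : ℂ) = 0)
    (hint : IntegrableOn (deriv V) (Ioo b τ)) (φ : ℂ[X]) :
    ∫ t in Ioo b τ, ((deriv V t : ℝ) : ℂ) * (∑ i ∈ Finset.range (r + 1),
      (-1) ^ i * (derivative^[i] (g ^ M * p i * φ))).eval (t : ℂ) = 0 := by
  obtain ⟨C, hC⟩ := hbd
  obtain ⟨v, hv⟩ : ∃ v : ℕ → ℝ → ℂ, v = fun k t => ((iteratedDeriv k V t : ℝ) : ℂ) := ⟨_, rfl⟩
  obtain ⟨H, hH⟩ : ∃ H : ℕ → ℂ[X], H = fun i => g ^ M * p i * φ := ⟨_, rfl⟩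
  have hvd : ∀ k t, t ∈ Ioo b τ → HasDerivAt (v k) (v (k + 1) t) t := by
    intro k t ht
    rw [hv]
    exact MI_aux_deriv b τ V hV k t ht
  have hqd : ∀ (q : ℂ[X]) (t : ℝ), HasDerivAt (fun t : ℝ => q.eval (t : ℂ))
      ((derivative q).eval (t : ℂ)) t := fun q t => (q.hasDerivAt (t : ℂ)).comp_ofReal
  obtain ⟨Q, hQ⟩ : ∃ Q : ℂ[X], Q = ∑ i ∈ Finset.range (r + 1),
      (-1) ^ i * (derivative^[i] (g ^ M * p i * φ)) := ⟨_, rfl⟩
  obtain ⟨P, hP⟩ : ∃ P : ℝ → ℂ, P = fun t => ∑ i ∈ Finset.range (r + 1), ∑ j ∈ Finset.range i,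
      (-1) ^ (i - (j + 1)) * (v (j + 1) t * (derivative^[i - (j + 1)] (H i)).eval (t : ℂ)) :=
    ⟨_, rfl⟩
  have hPd : ∀ t ∈ Ioo b τ, HasDerivAt (fun t => - P t) (v 1 t * Q.eval (t : ℂ)) t := by
    intro t ht
    obtain ⟨a, ha⟩ : ∃ a : ℕ → ℕ → ℂ, a = fun i j =>
      (-1) ^ (i - j) * (v (j + 1) t * (derivative^[i - j] (H i)).eval (t : ℂ)) := ⟨_, rfl⟩
    have h1 : HasDerivAt P (∑ i ∈ Finset.range (r + 1), ∑ j ∈ Finset.range i,
        (a i (j + 1) - a i j)) t := by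
      rw [hP]
      refine HasDerivAt.fun_sum fun i _ => HasDerivAt.fun_sum fun j hj => ?_
      have hj' := Finset.mem_range.1 hj
      have h2 := ((hvd (j + 1) t ht).mul
        (hqd (derivative^[i - (j + 1)] (H i)) t)).const_mul ((-1 : ℂ) ^ (i - (j + 1)))
      refine h2.congr_deriv ?_
      rw [ha]
      simp only
      obtain ⟨m, hm⟩ : ∃ m, i = j + 1 + m := ⟨i - (j + 1), by omega⟩
      have e1 : i - (j + 1) = m := by omega
      have e2 : i - j = m + 1 := by omega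
      rw [e1, e2, Function.iterate_succ_apply', pow_succ]
      ring
    have h2 : ∑ i ∈ Finset.range (r + 1), ∑ j ∈ Finset.range i, (a i (j + 1) - a i j) =
        - (v 1 t * Q.eval (t : ℂ)) := by
      have h3 : ∀ i ∈ Finset.range (r + 1), ∑ j ∈ Finset.range i, (a i (j + 1) - a i j) =
          a i i - a i 0 := fun i _ => Finset.sum_range_sub (a i) i
      rw [Finset.sum_congr rfl h3, Finset.sum_sub_distrib]
      have h4 : ∑ i ∈ Finset.range (r + 1), a i i = 0 := by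
        have h5 := hkill t ht
        have h6 : ∑ i ∈ Finset.range (r + 1), a i i = (g ^ M * φ).eval (t : ℂ) *
            ∑ i ∈ Finset.range (r + 1), (p i).eval (t : ℂ) *
              ((iteratedDeriv (i + 1) V t : ℝ) : ℂ) := by
          rw [Finset.mul_sum]
          refine Finset.sum_congr rfl fun i _ => ?_
          rw [ha, hH, hv]
          simp only [Nat.sub_self, pow_zero, Function.iterate_zero, id_eq, eval_mul]
          ring
        rw [h6, h5, mul_zero]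
      have h7 : ∑ i ∈ Finset.range (r + 1), a i 0 = v 1 t * Q.eval (t : ℂ) := by
        rw [hQ, eval_finset_sum, Finset.mul_sum]
        refine Finset.sum_congr rfl fun i _ => ?_
        rw [ha, hH]
        simp only [Nat.sub_zero, zero_add, eval_mul, eval_pow, eval_neg, eval_one]
        ring
      rw [h4, h7, zero_sub]
    rw [h2] at h1
    have h3 := h1.neg
    rw [neg_neg] at h3
    exact h3
  have hlim : ∀ (x : ℝ) (F : Filter ℝ), g.eval (x : ℂ) = 0 → F ≤ 𝓝 x → Ioo b τ ∈ F →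
      Tendsto (fun t => - P t) F (𝓝 0) := by
    intro x F hgx hF hF2
    have h1 : Tendsto P F (𝓝 0) := by
      rw [hP]
      have h2 : Tendsto (fun t => ∑ i ∈ Finset.range (r + 1), ∑ j ∈ Finset.range i,
          (-1 : ℂ) ^ (i - (j + 1)) * (v (j + 1) t * (derivative^[i - (j + 1)] (H i)).eval (t : ℂ)))
          F (𝓝 (∑ i ∈ Finset.range (r + 1), ∑ j ∈ Finset.range i,
            (-1 : ℂ) ^ (i - (j + 1)) * 0)) := by
        refine tendsto_finset_sum _ fun i hi => tendsto_finset_sum _ fun j hj => ?_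
        have hi' := Finset.mem_range.1 hi
        have hj' := Finset.mem_range.1 hj
        refine Tendsto.const_mul _ ?_
        rw [hv, hH]
        simp only
        rw [mul_assoc (g ^ M)]
        exact MI_aux_lim b τ x V M e (i - (j + 1)) j r g (p i * φ) hgx (by omega) C (by omega) hC
          F hF hF2
      simpa using h2
    simpa using h1.neg
  have hL := hlim b (𝓝[>] b) hgb nhdsWithin_le_nhds (Ioo_mem_nhdsGT hbτ)
  have hR := hlim τ (𝓝[<] τ) hgτ nhdsWithin_le_nhds (Ioo_mem_nhdsLT hbτ)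
  have hv1 : v 1 = fun t => ((deriv V t : ℝ) : ℂ) := by
    rw [hv]
    simp only [iteratedDeriv_one]
  have hii : IntervalIntegrable (fun t => v 1 t * Q.eval (t : ℂ)) volume b τ := by
    rw [intervalIntegrable_iff_integrableOn_Icc_of_le hbτ.le]
    have h1 : IntegrableOn (fun t => v 1 t) (Icc b τ) := by
      rw [integrableOn_Icc_iff_integrableOn_Ioo, hv1]
      exact hint.ofReal
    exact h1.mul_continuousOn ((Q.continuous.comp Complex.continuous_ofReal).continuousOn)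
      isCompact_Icc
  have hfin := intervalIntegral.integral_eq_sub_of_hasDerivAt_of_tendsto hbτ hPd hii hL hR
  rw [← hQ, ← integral_Ioc_eq_integral_Ioo, ← intervalIntegral.integral_of_le hbτ.le]
  rw [hv1] at hfin
  rw [hfin, sub_zero]

end AR.J5763

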