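import Mathlib
import Pool.Agent.Helper272.Arn.Defs

set_option autoImplicit false
open Polynomial Set Filter Topology Metric MeasureTheory
open scoped ContDiff

namespace AR.J5809

/-- functions of `w` which are meromorphic functions of `exp (w / N)` with a pole at most at 0 -/
def D1_MM (c₀ : ℝ) (N : ℕ) (f : ℂ → ℂ) : Prop :=
  ∃ (m : ℕ) (F : ℂ → ℂ), DifferentiableOn ℂ F (ball 0 (Real.exp (c₀ / N))) ∧
    ∀ w : ℂ, w.re < c₀ → Complex.exp (w / N) ^ m * f w = F (Complex.exp (w / N))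

lemma D1_q_mem (c₀ : ℝ) (N : ℕ) (hN : 0 < N) (w : ℂ) (hw : w.re < c₀) :
    Complex.exp (w / N) ∈ ball (0 : ℂ) (Real.exp (c₀ / N)) := by
  rw [mem_ball_zero_iff, Complex.norm_exp, Complex.div_natCast_re]
  have h1 : (0 : ℝ) < N := by exact_mod_cast hN
  exact Real.exp_lt_exp.2 (div_lt_div_of_pos_right hw h1)

lemma D1_q_surj (c₀ : ℝ) (N : ℕ) (hN : 0 < N) (q : ℂ) (hq : q ≠ 0)
    (hq2 : q ∈ ball (0 : ℂ) (Real.exp (c₀ / N))) : ∃ w : ℂ, w.re < c₀ ∧ Complex.exp (w / N) = q := by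
  have h1 : (0 : ℝ) < N := by exact_mod_cast hN
  have h2 : (N : ℂ) ≠ 0 := by exact_mod_cast hN.ne'
  refine ⟨N * Complex.log q, ?_, ?_⟩
  · rw [mem_ball_zero_iff] at hq2
    have h3 : Real.log ‖q‖ < c₀ / N := (Real.log_lt_iff_lt_exp (norm_pos_iff.2 hq)).2 hq2
    have h4 : ((N : ℂ) * Complex.log q).re = N * Real.log ‖q‖ := by
      rw [← Complex.ofReal_natCast, Complex.re_ofReal_mul, Complex.log_re]
    rw [h4]
    rw [lt_div_iff₀ h1] at h3
    linarith
  · rw [mul_div_cancel_left₀ _ h2, Complex.exp_log hq]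

lemma D1_MM_congr {c₀ : ℝ} {N : ℕ} {f g : ℂ → ℂ} (hf : D1_MM c₀ N f)
    (hfg : ∀ w : ℂ, w.re < c₀ → g w = f w) : D1_MM c₀ N g := by
  obtain ⟨m, F, hF, h⟩ := hf
  exact ⟨m, F, hF, fun w hw => by rw [hfg w hw, h w hw]⟩

lemma D1_MM_add {c₀ : ℝ} {N : ℕ} {f g : ℂ → ℂ} (hf : D1_MM c₀ N f) (hg : D1_MM c₀ N g) :
    D1_MM c₀ N (fun w => f w + g w) := by
  obtain ⟨m, F, hF, h⟩ := hf
  obtain ⟨k, G, hG, h'⟩ := hg
  refine ⟨m + k, fun q => q ^ k * F q + q ^ m * G q,
    ((differentiableOn_id.pow k).mul hF).add ((differentiableOn_id.pow m).mul hG), ?_⟩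
  intro w hw
  simp only
  rw [← h w hw, ← h' w hw]
  ring

lemma D1_MM_mul {c₀ : ℝ} {N : ℕ} {f g : ℂ → ℂ} (hf : D1_MM c₀ N f) (hg : D1_MM c₀ N g) :
    D1_MM c₀ N (fun w => f w * g w) := by
  obtain ⟨m, F, hF, h⟩ := hf
  obtain ⟨k, G, hG, h'⟩ := hg
  refine ⟨m + k, fun q => F q * G q, hF.mul hG, ?_⟩
  intro w hw
  simp only
  rw [← h w hw, ← h' w hw]
  ring

lemma D1_MM_const (c₀ : ℝ) (N : ℕ) (a : ℂ) : D1_MM c₀ N (fun _ => a) :=
  ⟨0, fun _ => a, differentiableOn_const a, fun w _ => by simp⟩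

lemma D1_MM_sum {c₀ : ℝ} {N : ℕ} {ι : Type*} (s : Finset ι) (f : ι → ℂ → ℂ)
    (hf : ∀ i ∈ s, D1_MM c₀ N (f i)) : D1_MM c₀ N (fun w => ∑ i ∈ s, f i w) := by
  classical
  induction s using Finset.induction_on with
  | empty => simpa using D1_MM_const c₀ N 0
  | insert a s ha ih =>
    simp only [Finset.sum_insert ha]
    exact D1_MM_add (hf a (Finset.mem_insert_self _ _))
      (ih fun i hi => hf i (Finset.mem_insert_of_mem hi))

lemma D1_MM_prod {c₀ : ℝ} {N : ℕ} {ι : Type*} (s : Finset ι) (f : ι → ℂ → ℂ)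
    (hf : ∀ i ∈ s, D1_MM c₀ N (f i)) : D1_MM c₀ N (fun w => ∏ i ∈ s, f i w) := by
  classical
  induction s using Finset.induction_on with
  | empty => simpa using D1_MM_const c₀ N 1
  | insert a s ha ih =>
    simp only [Finset.prod_insert ha]
    exact D1_MM_mul (hf a (Finset.mem_insert_self _ _))
      (ih fun i hi => hf i (Finset.mem_insert_of_mem hi))

lemma D1_MM_det {c₀ : ℝ} {N : ℕ} {r : ℕ} (A : ℂ → Matrix (Fin r) (Fin r) ℂ)
    (hA : ∀ i j, D1_MM c₀ N (fun w => A w i j)) : D1_MM c₀ N (fun w => (A w).det) := by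
  simp only [Matrix.det_apply']
  refine D1_MM_sum _ _ fun σ _ => D1_MM_mul (D1_MM_const c₀ N _) (D1_MM_prod _ _ fun i _ => hA _ _)

lemma D1_MM_adj {c₀ : ℝ} {N : ℕ} {r : ℕ} (A : ℂ → Matrix (Fin r) (Fin r) ℂ)
    (hA : ∀ i j, D1_MM c₀ N (fun w => A w i j)) (i j : Fin r) :
    D1_MM c₀ N (fun w => (A w).adjugate i j) := by
  simp only [Matrix.adjugate_apply]
  refine D1_MM_det _ fun k l => ?_
  by_cases hk : k = j
  · subst hk
    simp only [Matrix.updateRow_self]
    exact D1_MM_const c₀ N _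
  · simp only [Matrix.updateRow_ne hk]
    exact hA k l

lemma D1_MM_poly (c₀ : ℝ) (N : ℕ) (hN : 0 < N) (τ : ℂ) (p : ℂ[X]) :
    D1_MM c₀ N (fun w => p.eval (τ + Complex.exp w)) := by
  refine ⟨0, fun q => p.eval (τ + q ^ N), ?_, ?_⟩
  · have h1 : Differentiable ℂ (fun q : ℂ => τ + q ^ N) := by fun_prop
    exact (p.differentiable.comp h1).differentiableOn
  · intro w _
    have h2 : (N : ℂ) ≠ 0 := by exact_mod_cast hN.ne'
    have h3 : Complex.exp (w / N) ^ N = Complex.exp w := by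
      rw [← Complex.exp_nat_mul, mul_div_cancel₀ _ h2]
    simp only
    rw [h3]
    simp

lemma D1_isOpen (c₀ : ℝ) : IsOpen {w : ℂ | w.re < c₀} :=
  isOpen_lt Complex.continuous_re continuous_const

lemma D1_MM_hasDeriv {c₀ : ℝ} {N : ℕ} (hN : 0 < N) {f : ℂ → ℂ} {m : ℕ} {F : ℂ → ℂ}
    (hF : DifferentiableOn ℂ F (ball 0 (Real.exp (c₀ / N))))
    (h : ∀ w : ℂ, w.re < c₀ → Complex.exp (w / N) ^ m * f w = F (Complex.exp (w / N)))
    (w : ℂ) (hw : w.re < c₀) : ∃ f' : ℂ, HasDerivAt f f' w ∧ Complex.exp (w / N) ^ m * f' =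
      (1 / N) * (Complex.exp (w / N) * deriv F (Complex.exp (w / N)) -
        m * F (Complex.exp (w / N))) := by
  have hN2 : (N : ℂ) ≠ 0 := by exact_mod_cast hN.ne'
  have hq0 : Complex.exp (w / N) ≠ 0 := Complex.exp_ne_zero _
  have h1 : HasDerivAt (fun w : ℂ => Complex.exp (w / N)) (Complex.exp (w / N) * (1 / N)) w := by
    have := ((hasDerivAt_id w).div_const (N : ℂ)).cexp
    simpa using this
  have h2 : HasDerivAt F (deriv F (Complex.exp (w / N))) (Complex.exp (w / N)) :=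
    (hF.differentiableAt (isOpen_ball.mem_nhds (D1_q_mem c₀ N hN w hw))).hasDerivAt
  have h3 : HasDerivAt (fun w : ℂ => F (Complex.exp (w / N)))
      (deriv F (Complex.exp (w / N)) * (Complex.exp (w / N) * (1 / N))) w := h2.comp w h1
  have h4 := h1.pow m
  have h5 := h3.div h4 (pow_ne_zero m hq0)
  have h6 : f =ᶠ[𝓝 w] fun w : ℂ => F (Complex.exp (w / N)) / Complex.exp (w / N) ^ m := by
    filter_upwards [(D1_isOpen c₀).mem_nhds hw] with v hv
    rw [← h v hv, mul_div_cancel_left₀ _ (pow_ne_zero m (Complex.exp_ne_zero _))]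
  refine ⟨_, h5.congr_of_eventuallyEq h6, ?_⟩
  simp only [Pi.pow_apply]
  obtain ⟨q, hq⟩ : ∃ q, q = Complex.exp (w / N) := ⟨_, rfl⟩
  rw [← hq] at hq0 ⊢
  cases m with
  | zero => simp; ring
  | succ m =>
    rw [Nat.add_sub_cancel]
    field_simp
    ring

lemma D1_MM_diff {c₀ : ℝ} {N : ℕ} (hN : 0 < N) {f : ℂ → ℂ} (hf : D1_MM c₀ N f) :
    DifferentiableOn ℂ f {w | w.re < c₀} := by
  obtain ⟨m, F, hF, h⟩ := hf
  intro w hw
  obtain ⟨f', hf', _⟩ := D1_MM_hasDeriv hN hF h w hw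
  exact hf'.differentiableAt.differentiableWithinAt

lemma D1_MM_Dw {c₀ : ℝ} {N : ℕ} (hN : 0 < N) {f : ℂ → ℂ} (hf : D1_MM c₀ N f) :
    D1_MM c₀ N (Dw f) := by
  obtain ⟨m, F, hF, h⟩ := hf
  refine ⟨m + N, fun q => (1 / N) * (q * deriv F q - m * F q), ?_, ?_⟩
  · exact ((differentiableOn_id.mul (hF.deriv isOpen_ball)).sub (hF.const_mul _)).const_mul _
  · intro w hw
    obtain ⟨f', hf', h2⟩ := D1_MM_hasDeriv hN hF h w hw
    unfold Dw
    rw [hf'.deriv]
    simp only
    rw [← h2, pow_add]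
    have hN2 : (N : ℂ) ≠ 0 := by exact_mod_cast hN.ne'
    have h3 : Complex.exp (w / N) ^ N * Complex.exp (-w) = 1 := by
      rw [← Complex.exp_nat_mul, mul_div_cancel₀ _ hN2, ← Complex.exp_add]
      simp
    calc Complex.exp (w / N) ^ m * Complex.exp (w / N) ^ N * (Complex.exp (-w) * f')
        = Complex.exp (w / N) ^ m * f' * (Complex.exp (w / N) ^ N * Complex.exp (-w)) := by ring
      _ = _ := by rw [h3, mul_one]

lemma D1_MM_iter {c₀ : ℝ} {N : ℕ} (hN : 0 < N) {f : ℂ → ℂ} (hf : D1_MM c₀ N f) (i : ℕ) :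
    D1_MM c₀ N (Dw^[i] f) := by
  induction i with
  | zero => exact hf
  | succ i ih =>
    rw [Function.iterate_succ_apply']
    exact D1_MM_Dw hN ih

lemma D1_MM_inv {c₀ : ℝ} {N : ℕ} (hN : 0 < N) {f : ℂ → ℂ} (hf : D1_MM c₀ N f)
    (hne : ∀ w : ℂ, w.re < c₀ → f w ≠ 0) : D1_MM c₀ N (fun w => (f w)⁻¹) := by
  obtain ⟨m, F, hF, h⟩ := hf
  have hR : 0 < Real.exp (c₀ / N) := Real.exp_pos _
  have hFne : ∀ q ∈ ball (0 : ℂ) (Real.exp (c₀ / N)), q ≠ 0 → F q ≠ 0 := by
    intro q hq hq0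
    obtain ⟨w, hw, rfl⟩ := D1_q_surj c₀ N hN q hq0 hq
    rw [← h w hw]
    exact mul_ne_zero (pow_ne_zero _ (Complex.exp_ne_zero _)) (hne w hw)
  have han : AnalyticAt ℂ F 0 :=
    hF.analyticAt (isOpen_ball.mem_nhds (mem_ball_self hR))
  have hnz : ¬ ∀ᶠ z in 𝓝 (0 : ℂ), F z = 0 := by
    intro hz
    rw [Metric.eventually_nhds_iff_ball] at hz
    obtain ⟨ε, hε, hz⟩ := hz
    obtain ⟨δ, hδ⟩ : ∃ δ : ℝ, δ = min ε (Real.exp (c₀ / N)) / 2 := ⟨_, rfl⟩
    have hmin : 0 < min ε (Real.exp (c₀ / N)) := lt_min hε hR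
    have hδ0 : 0 < δ := by rw [hδ]; linarith
    have hn : ‖(δ : ℂ)‖ = δ := by
      rw [Complex.norm_real, Real.norm_eq_abs, abs_of_pos hδ0]
    have h1 : (δ : ℂ) ∈ ball (0 : ℂ) ε := by
      rw [mem_ball_zero_iff, hn, hδ]
      have := min_le_left ε (Real.exp (c₀ / N))
      linarith
    have h2 : (δ : ℂ) ∈ ball (0 : ℂ) (Real.exp (c₀ / N)) := by
      rw [mem_ball_zero_iff, hn, hδ]
      have := min_le_right ε (Real.exp (c₀ / N))
      linarith
    exact hFne _ h2 (by exact_mod_cast hδ0.ne') (hz _ h1)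
  obtain ⟨l, G, hG, hG0, hFG⟩ := han.exists_eventuallyEq_pow_smul_nonzero_iff.2 hnz
  simp only [sub_zero, smul_eq_mul] at hFG
  obtain ⟨G1, hG1⟩ : ∃ G1 : ℂ → ℂ, G1 = fun q => if q = 0 then G 0 else F q / q ^ l := ⟨_, rfl⟩
  have hG1d : DifferentiableOn ℂ G1 (ball 0 (Real.exp (c₀ / N))) := by
    intro q hq
    by_cases hq0 : q = 0
    · subst hq0
      have h1 : G1 =ᶠ[𝓝 0] G := by
        filter_upwards [hFG] with z hz
        rw [hG1]
        by_cases hz0 : z = 0
        · subst hz0; simp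
        · simp only [if_neg hz0]
          rw [hz, mul_div_cancel_left₀ _ (pow_ne_zero _ hz0)]
      exact (hG.differentiableAt.congr_of_eventuallyEq h1).differentiableWithinAt
    · have h1 : G1 =ᶠ[𝓝 q] fun q => F q / q ^ l := by
        filter_upwards [isOpen_ne.mem_nhds hq0] with z hz
        rw [hG1]
        simp only [if_neg (show z ≠ 0 from hz)]
      have h2 : DifferentiableAt ℂ (fun q => F q / q ^ l) q :=
        (hF.differentiableAt (isOpen_ball.mem_nhds hq)).div (differentiableAt_id.pow l)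
          (pow_ne_zero _ hq0)
      exact (h2.congr_of_eventuallyEq h1).differentiableWithinAt
  have hG1ne : ∀ q ∈ ball (0 : ℂ) (Real.exp (c₀ / N)), G1 q ≠ 0 := by
    intro q hq
    rw [hG1]
    by_cases hq0 : q = 0
    · simp only [if_pos hq0]; exact hG0
    · simp only [if_neg hq0]
      exact div_ne_zero (hFne q hq hq0) (pow_ne_zero _ hq0)
  refine ⟨l, fun q => q ^ m / G1 q, (differentiableOn_id.pow m).div hG1d hG1ne, ?_⟩
  intro w hw
  have hq0 : Complex.exp (w / N) ≠ 0 := Complex.exp_ne_zero _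
  have h1 : G1 (Complex.exp (w / N)) = F (Complex.exp (w / N)) / Complex.exp (w / N) ^ l := by
    rw [hG1]
    simp only [if_neg hq0]
  simp only
  rw [h1, ← h w hw]
  have := hne w hw
  field_simp

lemma D1_MM_of_growth (c₀ : ℝ) (N : ℕ) (hN : 0 < N) (f : ℂ → ℂ)
    (hf : DifferentiableOn ℂ f {w | w.re < c₀})
    (hper : ∀ w : ℂ, w.re < c₀ → f (w + 2 * Real.pi * Complex.I * N) = f w)
    (C a : ℝ) (hgrow : ∀ w : ℂ, w.re < c₀ → ‖f w‖ ≤ C * Real.exp (-a * w.re)) :
    D1_MM c₀ N f := by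
  have hN1 : (0 : ℝ) < N := by exact_mod_cast hN
  have hN2 : (N : ℂ) ≠ 0 := by exact_mod_cast hN.ne'
  obtain ⟨m, hm⟩ : ∃ m : ℕ, a * N ≤ m := exists_nat_ge _
  obtain ⟨fh, hfh⟩ : ∃ fh : ℂ → ℂ, fh = fun z => if (2 * Real.pi * Complex.I * z).re < c₀ then
      Complex.exp (2 * Real.pi * Complex.I * z / N) ^ m * f (2 * Real.pi * Complex.I * z) else 0 :=
    ⟨_, rfl⟩
  have hNre : (2 * Real.pi * Complex.I * (N : ℂ)).re = 0 := by simp
  have hfper : Function.Periodic fh (((N : ℝ) : ℂ)) := by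
    intro z
    rw [hfh]
    simp only [Complex.ofReal_natCast]
    have e1 : 2 * Real.pi * Complex.I * (z + N) =
        2 * Real.pi * Complex.I * z + 2 * Real.pi * Complex.I * N := by ring
    rw [e1, Complex.add_re, hNre, add_zero]
    split_ifs with hz
    · have h2 : Complex.exp ((2 * Real.pi * Complex.I * z + 2 * Real.pi * Complex.I * N) / N) =
          Complex.exp (2 * Real.pi * Complex.I * z / N) := by
        rw [add_div, mul_div_cancel_right₀ _ hN2, Complex.exp_add, Complex.exp_two_pi_mul_I,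
          mul_one]
      rw [h2, hper _ hz]
    · rfl
  have hopen : IsOpen {z : ℂ | (2 * Real.pi * Complex.I * z).re < c₀} :=
    isOpen_lt (Complex.continuous_re.comp (continuous_const.mul continuous_id)) continuous_const
  have hfd : ∀ z : ℂ, (2 * Real.pi * Complex.I * z).re < c₀ → DifferentiableAt ℂ fh z := by
    intro z hz
    have h1 : fh =ᶠ[𝓝 z] fun z => Complex.exp (2 * Real.pi * Complex.I * z / N) ^ m *
        f (2 * Real.pi * Complex.I * z) := by
      filter_upwards [hopen.mem_nhds hz] with v hv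
      rw [hfh]
      simp only
      rw [if_pos hv]
    refine DifferentiableAt.congr_of_eventuallyEq ?_ h1
    have h2 : DifferentiableAt ℂ f (2 * Real.pi * Complex.I * z) :=
      hf.differentiableAt ((D1_isOpen c₀).mem_nhds hz)
    have h3 : DifferentiableAt ℂ (fun z : ℂ => 2 * Real.pi * Complex.I * z) z := by fun_prop
    have h4 : DifferentiableAt ℂ (fun z : ℂ => f (2 * Real.pi * Complex.I * z)) z :=
      h2.comp z h3
    have h5 : DifferentiableAt ℂ
      (fun z : ℂ => Complex.exp (2 * Real.pi * Complex.I * z / N) ^ m) z := by fun_prop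
    exact h5.mul h4
  have hre : ∀ z : ℂ, (2 * Real.pi * Complex.I * z).re = -(2 * Real.pi * z.im) := by
    intro z
    simp
  have hbd : ∀ z : ℂ, ‖fh z‖ ≤ |C| * Real.exp ((m / N - a) * c₀) := by
    intro z
    rw [hfh]
    simp only
    split_ifs with hz
    · obtain ⟨x, hx⟩ : ∃ x : ℝ, x = (2 * Real.pi * Complex.I * z).re := ⟨_, rfl⟩
      have h1 := hgrow _ hz
      rw [← hx] at h1 hz
      rw [norm_mul, norm_pow, Complex.norm_exp, Complex.div_natCast_re, ← hx, ← Real.exp_nat_mul]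
      have h2 : ‖f (2 * Real.pi * Complex.I * z)‖ ≤ |C| * Real.exp (-a * x) :=
        h1.trans (mul_le_mul_of_nonneg_right (le_abs_self C) (Real.exp_pos _).le)
      have h3 : 0 ≤ m / N - a := by
        rw [sub_nonneg, le_div_iff₀ hN1]
        exact hm
      calc Real.exp (m * (x / N)) * ‖f (2 * Real.pi * Complex.I * z)‖
          ≤ Real.exp (m * (x / N)) * (|C| * Real.exp (-a * x)) :=
            mul_le_mul_of_nonneg_left h2 (Real.exp_pos _).le
        _ = |C| * Real.exp ((m / N - a) * x) := by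
            rw [mul_left_comm, ← Real.exp_add]
            congr 2
            ring
        _ ≤ |C| * Real.exp ((m / N - a) * c₀) := by
            apply mul_le_mul_of_nonneg_left _ (abs_nonneg C)
            exact Real.exp_le_exp.2 (mul_le_mul_of_nonneg_left hz.le h3)
    · rw [norm_zero]; positivity
  have h0 : DifferentiableAt ℂ (Function.Periodic.cuspFunction (N : ℝ) fh) 0 := by
    apply Function.Periodic.differentiableAt_cuspFunction_zero hN1 hfper
    · have h1 : ∀ᶠ y : ℝ in atTop, -(2 * Real.pi * y) < c₀ := by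
        filter_upwards [eventually_gt_atTop (-c₀ / (2 * Real.pi))] with y hy
        rw [div_lt_iff₀ (by positivity)] at hy
        linarith
      filter_upwards [h1.comap Complex.im] with z hz
      exact hfd z (by rw [hre]; exact hz)
    · refine Asymptotics.IsBigO.of_bound (|C| * Real.exp ((m / N - a) * c₀))
        (Eventually.of_forall fun z => ?_)
      simpa using hbd z
  have hpi : (2 * Real.pi * Complex.I : ℂ) ≠ 0 := Complex.two_pi_I_ne_zero
  refine ⟨m, Function.Periodic.cuspFunction (N : ℝ) fh, ?_, ?_⟩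
  · intro q hq
    by_cases hq0 : q = 0
    · rw [hq0]; exact h0.differentiableWithinAt
    · obtain ⟨w, hw, rfl⟩ := D1_q_surj c₀ N hN q hq0 hq
      have h1 : Function.Periodic.qParam (N : ℝ) (w / (2 * Real.pi * Complex.I)) =
          Complex.exp (w / N) := by
        unfold Function.Periodic.qParam
        rw [mul_div_cancel₀ _ hpi]
        simp
      rw [← h1]
      apply DifferentiableAt.differentiableWithinAt
      apply Function.Periodic.differentiableAt_cuspFunction hN1.ne' hfper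
      apply hfd
      rw [mul_div_cancel₀ _ hpi]
      exact hw
  · intro w hw
    have h1 : Function.Periodic.qParam (N : ℝ) (w / (2 * Real.pi * Complex.I)) =
        Complex.exp (w / N) := by
      unfold Function.Periodic.qParam
      rw [mul_div_cancel₀ _ hpi]
      simp
    rw [← h1, Function.Periodic.eq_cuspFunction hN1.ne' hfper, hfh, h1]
    simp only
    rw [mul_div_cancel₀ _ hpi, if_pos hw]

lemma D1_Dw_congr {Ω : Set ℂ} (hΩ : IsOpen Ω) {f g : ℂ → ℂ} (h : ∀ w ∈ Ω, f w = g w) :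
    ∀ w ∈ Ω, Dw f w = Dw g w := by
  intro w hw
  have h1 : f =ᶠ[𝓝 w] g := by
    filter_upwards [hΩ.mem_nhds hw] with v hv
    exact h v hv
  unfold Dw
  rw [h1.deriv_eq]

lemma D1_Dw_diff {Ω : Set ℂ} (hΩ : IsOpen Ω) {f : ℂ → ℂ} (h : DifferentiableOn ℂ f Ω) :
    DifferentiableOn ℂ (Dw f) Ω := by
  have h1 : Differentiable ℂ (fun w : ℂ => Complex.exp (-w)) := by fun_prop
  exact h1.differentiableOn.mul (h.deriv hΩ)

lemma D1_iter_diff {Ω : Set ℂ} (hΩ : IsOpen Ω) {f : ℂ → ℂ} (h : DifferentiableOn ℂ f Ω) (i : ℕ) :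
    DifferentiableOn ℂ (Dw^[i] f) Ω := by
  induction i with
  | zero => exact h
  | succ i ih =>
    rw [Function.iterate_succ_apply']
    exact D1_Dw_diff hΩ ih

lemma D1_hasDeriv {Ω : Set ℂ} (hΩ : IsOpen Ω) {f : ℂ → ℂ} (h : DifferentiableOn ℂ f Ω) (w : ℂ)
    (hw : w ∈ Ω) : HasDerivAt f (Complex.exp w * Dw f w) w := by
  have h1 := (h.differentiableAt (hΩ.mem_nhds hw)).hasDerivAt
  refine h1.congr_deriv ?_
  unfold Dw
  rw [← mul_assoc, ← Complex.exp_add]
  simp

lemma D1_Dw_of_hasDeriv {f : ℂ → ℂ} {f' w : ℂ} (h : HasDerivAt f (Complex.exp w * f') w) :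
    Dw f w = f' := by
  unfold Dw
  rw [h.deriv, ← mul_assoc, ← Complex.exp_add]
  simp

lemma D1_iter_sum {Ω : Set ℂ} (hΩ : IsOpen Ω) {r : ℕ} (a : Fin r → ℂ) (f : Fin r → ℂ → ℂ)
    (h : ∀ k, DifferentiableOn ℂ (f k) Ω) (i : ℕ) : ∀ w ∈ Ω,
      Dw^[i] (fun w => ∑ k, a k * f k w) w = ∑ k, a k * Dw^[i] (f k) w := by
  induction i with
  | zero => intro w _; rfl
  | succ i ih =>
    intro w hw
    rw [Function.iterate_succ_apply', D1_Dw_congr hΩ ih w hw]
    apply D1_Dw_of_hasDeriv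
    have h1 : HasDerivAt (fun w => ∑ k, a k * Dw^[i] (f k) w)
        (∑ k, a k * (Complex.exp w * Dw (Dw^[i] (f k)) w)) w :=
      HasDerivAt.fun_sum fun k _ =>
        (D1_hasDeriv hΩ (D1_iter_diff hΩ (h k) i) w hw).const_mul (a k)
    refine h1.congr_deriv ?_
    rw [Finset.mul_sum]
    refine Finset.sum_congr rfl fun k _ => ?_
    rw [Function.iterate_succ_apply']
    ring

lemma D1_iter_sub {Ω : Set ℂ} (hΩ : IsOpen Ω) {f g : ℂ → ℂ}
    (hf : DifferentiableOn ℂ f Ω) (hg : DifferentiableOn ℂ g Ω) (i : ℕ) : ∀ w ∈ Ω,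
      Dw^[i] (fun w => f w - g w) w = Dw^[i] f w - Dw^[i] g w := by
  induction i with
  | zero => intro w _; rfl
  | succ i ih =>
    intro w hw
    rw [Function.iterate_succ_apply', D1_Dw_congr hΩ ih w hw]
    apply D1_Dw_of_hasDeriv
    have h1 := (D1_hasDeriv hΩ (D1_iter_diff hΩ hf i) w hw).sub
      (D1_hasDeriv hΩ (D1_iter_diff hΩ hg i) w hw)
    refine h1.congr_deriv ?_
    rw [Function.iterate_succ_apply', Function.iterate_succ_apply']
    ring

lemma D1_unique (Ω : Set ℂ) (hΩ : IsOpen Ω) (hconv : Convex ℝ Ω) (r : ℕ) (τ : ℂ)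
    (p : ℕ → ℂ[X]) (hpr : ∀ w ∈ Ω, (p r).eval (τ + Complex.exp w) ≠ 0) (h : ℂ → ℂ)
    (hh : DifferentiableOn ℂ h Ω)
    (heq : ∀ w ∈ Ω, ∑ i ∈ Finset.range (r + 1), (p i).eval (τ + Complex.exp w) * Dw^[i] h w = 0)
    (w0 : ℂ) (hw0 : w0 ∈ Ω) (h0 : ∀ i < r, Dw^[i] h w0 = 0) :
    ∀ w ∈ Ω, ∀ i < r, Dw^[i] h w = 0 := by
  intro w hw
  obtain ⟨γ, hγ⟩ : ∃ γ : ℝ → ℂ, γ = fun t : ℝ => w0 + (t : ℂ) * (w - w0) := ⟨_, rfl⟩
  have hγm : ∀ t ∈ Icc (0 : ℝ) 1, γ t ∈ Ω := by
    intro t ht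
    have h1 := hconv hw0 hw (sub_nonneg.2 ht.2) ht.1 (sub_add_cancel 1 t)
    have h2 : γ t = (1 - t) • w0 + t • w := by
      rw [hγ]
      simp only [Complex.real_smul]
      push_cast
      ring
    rw [h2]
    exact h1
  have hγc : Continuous γ := by
    rw [hγ]
    fun_prop
  have hder : ∀ (i : ℕ) (t : ℝ), t ∈ Icc (0 : ℝ) 1 → HasDerivAt (fun t => Dw^[i] h (γ t))
      ((w - w0) * (Complex.exp (γ t) * Dw^[i + 1] h (γ t))) t := by
    intro i t ht
    have h1 := D1_hasDeriv hΩ (D1_iter_diff hΩ hh i) (γ t) (hγm t ht)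
    have h2 : HasDerivAt (fun s : ℂ => w0 + s * (w - w0)) (w - w0) (t : ℂ) := by
      have := ((hasDerivAt_id (t : ℂ)).mul_const (w - w0)).const_add w0
      simpa using this
    have h3 : HasDerivAt (fun s : ℂ => Dw^[i] h (w0 + s * (w - w0)))
        (Complex.exp (γ t) * Dw (Dw^[i] h) (γ t) * (w - w0)) (t : ℂ) := by
      refine HasDerivAt.comp (t : ℂ) ?_ h2
      rw [hγ] at h1
      rw [hγ]
      exact h1
    have h4 := h3.comp_ofReal
    rw [hγ] at h4 ⊢
    refine h4.congr_deriv ?_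
    rw [Function.iterate_succ_apply']
    ring
  -- the vector
  obtain ⟨v, hv⟩ : ∃ v : ℝ → Fin r → ℂ, v = fun (t : ℝ) (i : Fin r) => Dw^[(i : ℕ)] h (γ t) := ⟨_, rfl⟩
  obtain ⟨v', hv'⟩ : ∃ v' : ℝ → Fin r → ℂ, v' = fun (t : ℝ) (i : Fin r) =>
      (w - w0) * (Complex.exp (γ t) * Dw^[(i : ℕ) + 1] h (γ t)) := ⟨_, rfl⟩
  have hvd : ∀ t ∈ Icc (0 : ℝ) 1, HasDerivAt v (v' t) t := by
    intro t ht
    rw [hv, hv', hasDerivAt_pi]
    intro i
    exact hder i t ht
  obtain ⟨κ, hκ⟩ : ∃ κ : ℝ → ℝ, κ = fun t => ‖w - w0‖ * (‖Complex.exp (γ t)‖ *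
      (1 + ∑ j ∈ Finset.range r, ‖(p j).eval (τ + Complex.exp (γ t)) /
        (p r).eval (τ + Complex.exp (γ t))‖)) := ⟨_, rfl⟩
  have hκc : ContinuousOn κ (Icc (0 : ℝ) 1) := by
    rw [hκ]
    have h1 : Continuous (fun t => Complex.exp (γ t)) := Complex.continuous_exp.comp hγc
    have h2 : ∀ j, Continuous (fun t => (p j).eval (τ + Complex.exp (γ t))) := fun j =>
      (p j).continuous.comp (continuous_const.add h1)
    refine continuousOn_const.mul (h1.norm.continuousOn.mul (continuousOn_const.add ?_))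
    refine continuousOn_finsetSum _ fun j _ => ?_
    exact (((h2 j).continuousOn).div ((h2 r).continuousOn) fun t ht => hpr _ (hγm t ht)).norm
  obtain ⟨K, hK⟩ := isCompact_Icc.exists_bound_of_continuousOn hκc
  have hbound : ∀ t ∈ Icc (0 : ℝ) 1, ‖v' t‖ ≤ K * ‖v t‖ := by
    intro t ht
    have hκ0 : 0 ≤ κ t := by rw [hκ]; positivity
    have hκK : κ t ≤ K := (le_abs_self _).trans (hK t ht)
    refine le_trans ?_ (mul_le_mul_of_nonneg_right hκK (norm_nonneg _))
    rw [pi_norm_le_iff_of_nonneg (by positivity)]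
    intro i
    have hvj : ∀ j (hj : j < r), ‖Dw^[j] h (γ t)‖ ≤ ‖v t‖ := by
      intro j hj
      have h1 := norm_le_pi_norm (v t) ⟨j, hj⟩
      rw [hv] at h1 ⊢
      exact h1
    have hmain : ‖Dw^[(i : ℕ) + 1] h (γ t)‖ ≤ (1 + ∑ j ∈ Finset.range r,
        ‖(p j).eval (τ + Complex.exp (γ t)) / (p r).eval (τ + Complex.exp (γ t))‖) * ‖v t‖ := by
      have hs0 : 0 ≤ ∑ j ∈ Finset.range r,
        ‖(p j).eval (τ + Complex.exp (γ t)) / (p r).eval (τ + Complex.exp (γ t))‖ :=
        Finset.sum_nonneg fun _ _ => norm_nonneg _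
      by_cases hi : (i : ℕ) + 1 < r
      · have h1 := hvj _ hi
        nlinarith [mul_nonneg hs0 (norm_nonneg (v t))]
      · have hir : (i : ℕ) + 1 = r := by have := i.2; omega
        rw [hir]
        have h1 := heq (γ t) (hγm t ht)
        rw [Finset.sum_range_succ] at h1
        have h2 := hpr (γ t) (hγm t ht)
        have h3 : Dw^[r] h (γ t) = - ∑ j ∈ Finset.range r, (p j).eval (τ + Complex.exp (γ t)) /
            (p r).eval (τ + Complex.exp (γ t)) * Dw^[j] h (γ t) := by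
          have h4 : (p r).eval (τ + Complex.exp (γ t)) * Dw^[r] h (γ t) =
              - ∑ j ∈ Finset.range r, (p j).eval (τ + Complex.exp (γ t)) * Dw^[j] h (γ t) := by
            linear_combination h1
          have h5 : ∑ j ∈ Finset.range r, (p j).eval (τ + Complex.exp (γ t)) /
              (p r).eval (τ + Complex.exp (γ t)) * Dw^[j] h (γ t) =
              ((p r).eval (τ + Complex.exp (γ t)))⁻¹ *
                ∑ j ∈ Finset.range r, (p j).eval (τ + Complex.exp (γ t)) * Dw^[j] h (γ t) := by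
            rw [Finset.mul_sum]
            refine Finset.sum_congr rfl fun j _ => ?_
            rw [div_eq_mul_inv]
            ring
          rw [h5]
          have h6 := congrArg (fun x => ((p r).eval (τ + Complex.exp (γ t)))⁻¹ * x) h4
          rw [← mul_assoc, inv_mul_cancel₀ h2, one_mul] at h6
          rw [h6]
          ring
        rw [h3, norm_neg]
        refine (norm_sum_le _ _).trans ?_
        rw [add_mul, one_mul, Finset.sum_mul]
        refine le_trans (Finset.sum_le_sum fun j hj => ?_) (le_add_of_nonneg_left (norm_nonneg _))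
        rw [norm_mul]
        exact mul_le_mul_of_nonneg_left (hvj j (Finset.mem_range.1 hj)) (norm_nonneg _)
    rw [hv', hκ]
    simp only
    rw [norm_mul, norm_mul, mul_assoc, mul_assoc]
    exact mul_le_mul_of_nonneg_left (mul_le_mul_of_nonneg_left hmain (norm_nonneg _))
      (norm_nonneg _)
  have hv0 : v 0 = 0 := by
    rw [hv]
    funext i
    have : γ 0 = w0 := by rw [hγ]; simp
    simp only [this, Pi.zero_apply]
    exact h0 i i.2
  have hfin := eq_zero_of_abs_deriv_le_mul_abs_self_of_eq_zero_right (f := v) (f' := v') (K := K)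
    (a := 0) (b := 1) (fun t ht => (hvd t ht).continuousAt.continuousWithinAt)
    (fun t ht => (hvd t ⟨ht.1, ht.2.le⟩).hasDerivWithinAt) hv0
    (fun t ht => hbound t ⟨ht.1, ht.2.le⟩) 1 ⟨zero_le_one, le_rfl⟩
  intro i hi
  have h1 := congrFun hfin ⟨i, hi⟩
  rw [hv] at h1
  have h2 : γ 1 = w := by rw [hγ]; simp
  simp only [h2, Pi.zero_apply] at h1
  exact h1

lemma D1_select (r d : ℕ) (v : Fin d → Fin r → ℂ)
    (hv : ∀ c : Fin r → ℂ, (∀ j, ∑ i, c i * v j i = 0) → c = 0) :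
    ∃ J : Fin r → Fin d, (Matrix.of fun k i => v (J k) i).det ≠ 0 := by
  have hspan : Submodule.span ℂ (Set.range v) = ⊤ := by
    by_contra hne
    obtain ⟨f, hf, hf2⟩ := Submodule.exists_le_ker_of_lt_top _ (lt_top_iff_ne_top.2 hne)
    apply hf
    have h1 : ∀ x : Fin r → ℂ, f x = ∑ i, f (Pi.single i 1) * x i := by
      intro x
      conv_lhs => rw [pi_eq_sum_univ' x]
      rw [map_sum]
      refine Finset.sum_congr rfl fun i _ => ?_
      rw [map_smul, smul_eq_mul, mul_comm]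
    have h2 := hv (fun i => f (Pi.single i 1)) (fun j => by
      rw [← h1 (v j)]
      exact hf2 (Submodule.subset_span ⟨j, rfl⟩))
    have h3 : ∀ i, f (Pi.single i 1) = 0 := fun i => congrFun h2 i
    refine LinearMap.ext fun x => ?_
    rw [h1]
    simp [h3]
  obtain ⟨b, hb1, hb2, hb3⟩ := exists_linearIndependent ℂ (Set.range v)
  have hb4 : ⊤ ≤ Submodule.span ℂ (Set.range ((↑) : b → Fin r → ℂ)) := by
    rw [Subtype.range_coe, hb2, hspan]
  let B := Module.Basis.mk hb3 hb4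
  let e : b ≃ Fin r := B.indexEquiv (Pi.basisFun ℂ (Fin r))
  have hmem : ∀ k : Fin r, ∃ j, v j = ((e.symm k : b) : Fin r → ℂ) := fun k =>
    hb1 (e.symm k).2
  choose J hJ using hmem
  refine ⟨J, ?_⟩
  have h5 : LinearIndependent ℂ (fun k : Fin r => ((e.symm k : b) : Fin r → ℂ)) :=
    hb3.comp _ e.symm.injective
  have h6 : IsUnit (Matrix.of fun k i => v (J k) i) := by
    rw [← Matrix.linearIndependent_rows_iff_isUnit]
    have h7 : (Matrix.of fun k i => v (J k) i).row =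
        fun k : Fin r => ((e.symm k : b) : Fin r → ℂ) := by
      funext k
      rw [← hJ k]
      rfl
    rw [h7]
    exact h5
  rw [Matrix.isUnit_iff_isUnit_det] at h6
  exact h6.ne_zero

/-- TARGET: if the homogeneous equation has a full system `g j` of solutions which are periodic
and of moderate growth in the coordinate `w`, then solutions on the slit disc of the equation with
a right hand side vanishing to high order at `τ` extend periodically. -/
theorem periodic_ext (τ : ℂ) (c₀ : ℝ) (N : ℕ) (hN : 0 < N) (r : ℕ) (p : ℕ → ℂ[X])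
    (hpr : ∀ z, 0 < ‖z - τ‖ → ‖z - τ‖ < Real.exp c₀ → (p r).eval z ≠ 0) (d : ℕ)
    (g : Fin d → ℂ → ℂ) (hg : ∀ j, DifferentiableOn ℂ (g j) {w | w.re < c₀})
    (hper : ∀ j, ∀ w : ℂ, w.re < c₀ → g j (w + 2 * Real.pi * Complex.I * N) = g j w)
    (hgrow : ∃ C a : ℝ, ∀ j, ∀ w : ℂ, w.re < c₀ → ‖g j w‖ ≤ C * Real.exp (-a * w.re))
    (hkill : ∀ j, ∀ w : ℂ, w.re < c₀ → ∑ i ∈ Finset.range (r + 1),
      (p i).eval (τ + Complex.exp w) * (Dw^[i] (g j)) w = 0)
    (hspan : ∀ w : ℂ, w.re < c₀ → ∀ c : Fin r → ℂ,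
      (∀ j, ∑ i : Fin r, c i * (Dw^[(i : ℕ)] (g j)) w = 0) → c = 0) :
    ∃ K : ℕ, ∀ E : ℂ[X], (X - C τ) ^ K ∣ E → ∀ y : ℂ → ℂ,
      DifferentiableOn ℂ y {z | ‖z - τ‖ < Real.exp c₀ ∧ z - τ ∈ Complex.slitPlane} →
      (∀ z, ‖z - τ‖ < Real.exp c₀ → z - τ ∈ Complex.slitPlane →
        ∑ i ∈ Finset.range (r + 1), (p i).eval z * iteratedDeriv i y z = E.eval z) →
      ∃ Y : ℂ → ℂ, DifferentiableOn ℂ Y {w | w.re < c₀} ∧
        (∀ w : ℂ, w.re < c₀ → |w.im| < Real.pi → Y w = y (τ + Complex.exp w)) ∧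
        (∀ w : ℂ, w.re < c₀ → Y (w + 2 * Real.pi * Complex.I * N) = Y w) := by
  have hN2 : (N : ℂ) ≠ 0 := by exact_mod_cast hN.ne'
  have hHo := D1_isOpen c₀
  have hnorm : ∀ w : ℂ, w.re < c₀ → ‖Complex.exp w‖ < Real.exp c₀ := fun w hw => by
    rw [Complex.norm_exp]; exact Real.exp_lt_exp.2 hw
  have hprH : ∀ w : ℂ, w.re < c₀ → (p r).eval (τ + Complex.exp w) ≠ 0 := by
    intro w hw
    apply hpr
    · rw [add_sub_cancel_left]; exact norm_pos_iff.2 (Complex.exp_ne_zero _)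
    · rw [add_sub_cancel_left]; exact hnorm w hw
  have hexpN : ∀ w : ℂ, Complex.exp (w + 2 * Real.pi * Complex.I * N) = Complex.exp w := by
    intro w
    rw [Complex.exp_add]
    have : Complex.exp (2 * Real.pi * Complex.I * N) = 1 := by
      rw [mul_comm, Complex.exp_nat_mul, Complex.exp_two_pi_mul_I, one_pow]
    rw [this, mul_one]
  have hslit : ∀ w : ℂ, |w.im| < Real.pi → Complex.exp w ∈ Complex.slitPlane := by
    intro w hw
    rw [abs_lt] at hw
    rw [Complex.mem_slitPlane_iff_arg]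
    refine ⟨?_, Complex.exp_ne_zero _⟩
    rw [← Complex.log_im, Complex.log_exp hw.1 hw.2.le]
    exact hw.2.ne
  have hreN : (2 * Real.pi * Complex.I * (N : ℂ)).re = 0 := by simp
  rcases Nat.eq_zero_or_pos r with hr0 | hrpos
  · -- order zero
    subst hr0
    refine ⟨0, fun E _ y _ hy2 => ?_⟩
    refine ⟨fun w => E.eval (τ + Complex.exp w) / (p 0).eval (τ + Complex.exp w), ?_, ?_, ?_⟩
    · have h1 : Differentiable ℂ (fun w : ℂ => τ + Complex.exp w) := by fun_prop
      exact ((E.differentiable.comp h1).differentiableOn).div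
        (((p 0).differentiable.comp h1).differentiableOn) fun w hw => hprH w hw
    · intro w hw hw2
      have h2 := hy2 (τ + Complex.exp w) (by rw [add_sub_cancel_left]; exact hnorm w hw)
        (by rw [add_sub_cancel_left]; exact hslit w hw2)
      rw [Finset.sum_range_one, iteratedDeriv_zero] at h2
      simp only
      rw [← h2, mul_div_cancel_left₀ _ (hprH w hw)]
    · intro w _
      simp only
      rw [hexpN]
  obtain ⟨r', rfl⟩ : ∃ r', r = r' + 1 := ⟨r - 1, by omega⟩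
  -- selection of the solutions
  obtain ⟨w0, hw0⟩ : ∃ w0 : ℂ, w0 = ((c₀ - 1 : ℝ) : ℂ) := ⟨_, rfl⟩
  have hw0re : w0.re < c₀ := by rw [hw0, Complex.ofReal_re]; linarith
  have hw0im : w0.im = 0 := by rw [hw0, Complex.ofReal_im]
  obtain ⟨J, hJ⟩ := D1_select (r' + 1) d (fun j i => (Dw^[(i : ℕ)] (g j)) w0) (hspan w0 hw0re)
  obtain ⟨f, hf⟩ : ∃ f : Fin (r' + 1) → ℂ → ℂ, f = fun k => g (J k) := ⟨_, rfl⟩
  have hfd : ∀ k, DifferentiableOn ℂ (f k) {w | w.re < c₀} := fun k => by rw [hf]; exact hg _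
  obtain ⟨W, hW⟩ : ∃ W : ℂ → Matrix (Fin (r' + 1)) (Fin (r' + 1)) ℂ,
      W = fun w => Matrix.of fun (k i : Fin (r' + 1)) => (Dw^[(i : ℕ)] (f k)) w := ⟨_, rfl⟩
  have hW0 : (W w0).det ≠ 0 := by rw [hW, hf]; exact hJ
  have hkillf : ∀ k, ∀ w : ℂ, w.re < c₀ → ∑ i ∈ Finset.range (r' + 1 + 1),
      (p i).eval (τ + Complex.exp w) * (Dw^[i] (f k)) w = 0 := by
    intro k w hw
    rw [hf]; exact hkill _ w hw
  have hdet : ∀ w : ℂ, w.re < c₀ → (W w).det ≠ 0 := by
    intro w1 hw1 hdet0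
    obtain ⟨a, ha, ha2⟩ := Matrix.exists_vecMul_eq_zero_iff.2 hdet0
    have h1 : ∀ i < r' + 1, ∀ w : ℂ, w.re < c₀ → Dw^[i] (fun w => ∑ k, a k * f k w) w =
        ∑ k, a k * Dw^[i] (f k) w := fun i _ w hw => D1_iter_sum hHo a f hfd i w hw
    have h2 := D1_unique {w | w.re < c₀} hHo (convex_halfSpace_re_lt c₀) (r' + 1) τ p hprH
      (fun w => ∑ k, a k * f k w)
      (DifferentiableOn.fun_sum fun k _ => (hfd k).const_mul (a k)) ?_ w1 hw1 ?_ w0 hw0re
    · have h3 : Matrix.vecMul a (W w0) = 0 := by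
        funext i
        have h4 := h2 i i.2
        rw [h1 i i.2 w0 hw0re] at h4
        rw [hW]
        simp only [Matrix.vecMul, dotProduct, Matrix.of_apply, Pi.zero_apply]
        exact h4
      exact hW0 (Matrix.exists_vecMul_eq_zero_iff.1 ⟨a, ha, h3⟩)
    · intro w hw
      have h5 : ∀ i ∈ Finset.range (r' + 1 + 1), (p i).eval (τ + Complex.exp w) *
          Dw^[i] (fun w => ∑ k, a k * f k w) w =
          ∑ k, a k * ((p i).eval (τ + Complex.exp w) * Dw^[i] (f k) w) := by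
        intro i _
        rw [D1_iter_sum hHo a f hfd i w hw, Finset.mul_sum]
        refine Finset.sum_congr rfl fun k _ => ?_
        ring
      rw [Finset.sum_congr rfl h5, Finset.sum_comm]
      refine Finset.sum_eq_zero fun k _ => ?_
      rw [← Finset.mul_sum, hkillf k w hw, mul_zero]
    · intro i hi
      rw [h1 i hi w1 hw1]
      have h6 := congrFun ha2 ⟨i, hi⟩
      rw [hW] at h6
      simpa only [Matrix.vecMul, dotProduct, Matrix.of_apply, Pi.zero_apply] using h6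
  -- the class of meromorphic functions
  obtain ⟨C, a, hCa⟩ := hgrow
  have hfMM : ∀ k, D1_MM c₀ N (f k) := fun k => by
    rw [hf]
    exact D1_MM_of_growth c₀ N hN _ (hg _) (hper _) C a (hCa _)
  have hWMM : ∀ k i, D1_MM c₀ N (fun w => W w k i) := by
    intro k i
    rw [hW]
    exact D1_MM_iter hN (hfMM k) i
  have hprMM := D1_MM_inv hN (D1_MM_poly c₀ N hN τ (p (r' + 1))) hprH
  have hdetMM := D1_MM_inv hN (D1_MM_det W hWMM) hdet
  obtain ⟨Lf, hLf⟩ : ∃ Lf : Fin (r' + 1) → ℂ → ℂ, Lf = fun k w =>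
      (W w).adjugate (Fin.last r') k * ((W w).det)⁻¹ *
        ((p (r' + 1)).eval (τ + Complex.exp w))⁻¹ := ⟨_, rfl⟩
  have hLMM : ∀ k, D1_MM c₀ N (Lf k) := by
    intro k
    rw [hLf]
    exact D1_MM_mul (D1_MM_mul (D1_MM_adj W hWMM _ _) hdetMM) hprMM
  have hLsum : ∀ w : ℂ, w.re < c₀ → ∀ i : Fin (r' + 1), ∑ k, Lf k w * Dw^[(i : ℕ)] (f k) w =
      if i = Fin.last r' then ((p (r' + 1)).eval (τ + Complex.exp w))⁻¹ else 0 := by
    intro w hw i
    have h1 := congrFun (congrFun (Matrix.adjugate_mul (W w)) (Fin.last r')) i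
    rw [Matrix.mul_apply, Matrix.smul_apply, Matrix.one_apply] at h1
    have h2 : ∑ k, Lf k w * Dw^[(i : ℕ)] (f k) w = (((W w).det)⁻¹ *
        ((p (r' + 1)).eval (τ + Complex.exp w))⁻¹) *
          ∑ k, (W w).adjugate (Fin.last r') k * W w k i := by
      rw [Finset.mul_sum]
      refine Finset.sum_congr rfl fun k _ => ?_
      rw [hLf, hW]
      simp only [Matrix.of_apply]
      ring
    rw [h2, h1]
    have h3 := hdet w hw
    by_cases hi : i = Fin.last r'
    · rw [if_pos hi, if_pos hi.symm, smul_eq_mul, mul_one]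
      field_simp
    · rw [if_neg hi, if_neg (Ne.symm hi), smul_zero, mul_zero]
  choose m F hF hFq using hLMM
  refine ⟨∑ k, m k, ?_⟩
  intro E hE y hy hyeq
  obtain ⟨E1, hE1⟩ := hE
  obtain ⟨K, hK⟩ : ∃ K, K = ∑ k, m k := ⟨_, rfl⟩
  rw [← hK] at hE1
  have hmK : ∀ k, m k ≤ K := fun k => by
    rw [hK]; exact Finset.single_le_sum (f := m) (fun _ _ => Nat.zero_le _) (Finset.mem_univ k)
  have hprim : ∀ k, ∃ B : ℂ → ℂ, ∀ q ∈ ball (0 : ℂ) (Real.exp (c₀ / N)), HasDerivAt B
      (q ^ (N + N * K - m k - 1) * F k q * E1.eval (τ + q ^ N)) q := by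
    intro k
    apply DifferentiableOn.isExactOn_ball
    have h1 : Differentiable ℂ (fun q : ℂ => τ + q ^ N) := by fun_prop
    exact ((differentiableOn_id.pow _).mul (hF k)).mul (E1.differentiable.comp h1).differentiableOn
  choose B hB using hprim
  -- the functions on the strip
  obtain ⟨S, hS⟩ : ∃ S : Set ℂ, S = {w : ℂ | w.re < c₀ ∧ |w.im| < Real.pi} := ⟨_, rfl⟩
  have hSo : IsOpen S := by
    rw [hS]
    exact (isOpen_lt Complex.continuous_re continuous_const).inter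
      (isOpen_lt Complex.continuous_im.abs continuous_const)
  have hSc : Convex ℝ S := by
    have h1 : S = {w : ℂ | w.re < c₀} ∩ ({w : ℂ | w.im < Real.pi} ∩ {w : ℂ | -Real.pi < w.im}) := by
      rw [hS]
      ext w
      simp only [mem_inter_iff, Set.mem_ofPred_eq, abs_lt]
      tauto
    rw [h1]
    exact (convex_halfSpace_re_lt c₀).inter
      ((convex_halfSpace_im_lt _).inter (convex_halfSpace_im_gt _))
  have hSre : ∀ w ∈ S, w.re < c₀ := fun w hw => by rw [hS] at hw; exact hw.1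
  have hSim : ∀ w ∈ S, |w.im| < Real.pi := fun w hw => by rw [hS] at hw; exact hw.2
  have hw0S : w0 ∈ S := by
    rw [hS]
    refine ⟨hw0re, ?_⟩
    rw [hw0im, abs_zero]
    exact Real.pi_pos
  obtain ⟨U, hU⟩ : ∃ U : Set ℂ, U = {z | ‖z - τ‖ < Real.exp c₀ ∧ z - τ ∈ Complex.slitPlane} :=
    ⟨_, rfl⟩
  have hUo : IsOpen U := by
    rw [hU]
    have c1 : Continuous (fun z : ℂ => ‖z - τ‖) := by fun_prop
    have c2 : Continuous (fun z : ℂ => z - τ) := by fun_prop
    exact (isOpen_lt c1 continuous_const).inter (Complex.isOpen_slitPlane.preimage c2)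
  have hSU : ∀ w ∈ S, τ + Complex.exp w ∈ U := by
    intro w hw
    rw [hU]
    refine ⟨?_, ?_⟩
    · rw [add_sub_cancel_left]; exact hnorm w (hSre w hw)
    · rw [add_sub_cancel_left]; exact hslit w (hSim w hw)
  rw [← hU] at hy
  have hyi : ∀ i, DifferentiableOn ℂ (iteratedDeriv i y) U := by
    intro i
    induction i with
    | zero => rw [iteratedDeriv_zero]; exact hy
    | succ i ih => rw [iteratedDeriv_succ]; exact ih.deriv hUo
  obtain ⟨yt, hyt⟩ : ∃ yt : ℂ → ℂ, yt = fun w => y (τ + Complex.exp w) := ⟨_, rfl⟩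
  have hyti : ∀ i, ∀ w ∈ S, Dw^[i] yt w = iteratedDeriv i y (τ + Complex.exp w) := by
    intro i
    induction i with
    | zero => intro w _; rw [hyt, iteratedDeriv_zero]; rfl
    | succ i ih =>
      intro w hw
      rw [Function.iterate_succ_apply', D1_Dw_congr hSo ih w hw]
      apply D1_Dw_of_hasDeriv
      have h1 := ((hyi i).differentiableAt (hUo.mem_nhds (hSU w hw))).hasDerivAt
      have h2 : HasDerivAt (fun w : ℂ => τ + Complex.exp w) (Complex.exp w) w :=
        (Complex.hasDerivAt_exp w).const_add τ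
      have h3 := h1.comp w h2
      refine h3.congr_deriv ?_
      rw [iteratedDeriv_succ]
      ring
  have hytd : DifferentiableOn ℂ yt S := by
    rw [hyt]
    intro w hw
    have h1 := (hy.differentiableAt (hUo.mem_nhds (hSU w hw))).hasDerivAt
    have h2 : HasDerivAt (fun w : ℂ => τ + Complex.exp w) (Complex.exp w) w :=
      (Complex.hasDerivAt_exp w).const_add τ
    exact (h1.comp w h2).differentiableAt.differentiableWithinAt
  -- initial values
  obtain ⟨b, hb⟩ : ∃ b : Fin (r' + 1) → ℂ, ∀ i : Fin (r' + 1),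
      ∑ k, b k * Dw^[(i : ℕ)] (f k) w0 = Dw^[(i : ℕ)] yt w0 := by
    refine ⟨Matrix.vecMul (fun i : Fin (r' + 1) => Dw^[(i : ℕ)] yt w0) (W w0)⁻¹, fun i => ?_⟩
    have h1 : Matrix.vecMul (Matrix.vecMul (fun i : Fin (r' + 1) => Dw^[(i : ℕ)] yt w0) (W w0)⁻¹)
        (W w0) = fun i : Fin (r' + 1) => Dw^[(i : ℕ)] yt w0 := by
      rw [Matrix.vecMul_vecMul, Matrix.nonsing_inv_mul _ (isUnit_iff_ne_zero.2 hW0),
        Matrix.vecMul_one]
    have h2 := congrFun h1 i
    have h3 : Matrix.vecMul (Matrix.vecMul (fun i : Fin (r' + 1) => Dw^[(i : ℕ)] yt w0) (W w0)⁻¹)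
        (W w0) i = ∑ k, (Matrix.vecMul (fun i : Fin (r' + 1) => Dw^[(i : ℕ)] yt w0)
          (W w0)⁻¹) k * W w0 k i := rfl
    rw [h3] at h2
    rw [← h2]
    refine Finset.sum_congr rfl fun k _ => ?_
    have h4 : W w0 k i = Dw^[(i : ℕ)] (f k) w0 := by rw [hW]; rfl
    rw [h4]
  obtain ⟨c, hc⟩ : ∃ c : Fin (r' + 1) → ℂ → ℂ, c = fun k w =>
      N * B k (Complex.exp (w / N)) + (b k - N * B k (Complex.exp (w0 / N))) := ⟨_, rfl⟩
  have hc0 : ∀ k, c k w0 = b k := by intro k; rw [hc]; ring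
  have hcd : ∀ k, ∀ w : ℂ, w.re < c₀ → HasDerivAt (c k)
      (Complex.exp w * (E.eval (τ + Complex.exp w) * Lf k w)) w := by
    intro k w hw
    have hq0 : Complex.exp (w / N) ≠ 0 := Complex.exp_ne_zero _
    have h1 : HasDerivAt (fun w : ℂ => Complex.exp (w / N)) (Complex.exp (w / N) * (1 / N)) w := by
      have := ((hasDerivAt_id w).div_const (N : ℂ)).cexp
      simpa using this
    have h2 := (hB k _ (D1_q_mem c₀ N hN w hw)).comp w h1
    have h3 := (h2.const_mul (N : ℂ)).add_const (b k - N * B k (Complex.exp (w0 / N)))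
    rw [hc]
    refine h3.congr_deriv ?_
    have hqN : Complex.exp (w / N) ^ N = Complex.exp w := by
      rw [← Complex.exp_nat_mul, mul_div_cancel₀ _ hN2]
    have h4 : E.eval (τ + Complex.exp w) = Complex.exp w ^ K * E1.eval (τ + Complex.exp w) := by
      rw [hE1, eval_mul, eval_pow, eval_sub, eval_X, eval_C, add_sub_cancel_left]
    rw [h4, ← hFq k w hw, ← hqN]
    obtain ⟨q, hq⟩ : ∃ q, q = Complex.exp (w / N) := ⟨_, rfl⟩
    rw [← hq] at hq0 ⊢
    have hKm := hmK k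
    have hNK : K ≤ N * K := Nat.le_mul_of_pos_left K hN
    obtain ⟨e, he⟩ : ∃ e, N + N * K = m k + 1 + e := ⟨N + N * K - m k - 1, by omega⟩
    have he2 : N + N * K - m k - 1 = e := by omega
    rw [he2]
    have h5 : q ^ N * (q ^ N) ^ K = q ^ (m k) * q * q ^ e := by
      rw [← pow_mul, ← pow_add, he, pow_add, pow_succ]
    calc (N : ℂ) * (q ^ e * (q ^ m k * Lf k w) * eval (τ + q ^ N) E1 * (q * (1 / N)))
        = (q ^ (m k) * q * q ^ e) * (eval (τ + q ^ N) E1 * Lf k w) := by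
          field_simp
      _ = _ := by rw [← h5]; ring
  obtain ⟨Y, hY⟩ : ∃ Y : ℂ → ℂ, Y = fun w => ∑ k, c k w * f k w := ⟨_, rfl⟩
  have hYd : DifferentiableOn ℂ Y {w | w.re < c₀} := by
    rw [hY]
    exact DifferentiableOn.fun_sum fun k _ =>
      (DifferentiableOn.mul (fun w hw => (hcd k w hw).differentiableAt.differentiableWithinAt)
        (hfd k))
  have hstep : ∀ i : Fin (r' + 1),
      (∀ w : ℂ, w.re < c₀ → Dw^[(i : ℕ)] Y w = ∑ k, c k w * Dw^[(i : ℕ)] (f k) w) →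
      ∀ w : ℂ, w.re < c₀ → Dw^[(i : ℕ) + 1] Y w = ∑ k, c k w * Dw^[(i : ℕ) + 1] (f k) w +
        E.eval (τ + Complex.exp w) *
          (if i = Fin.last r' then ((p (r' + 1)).eval (τ + Complex.exp w))⁻¹ else 0) := by
    intro i hi w hw
    rw [Function.iterate_succ_apply', D1_Dw_congr hHo hi w hw]
    apply D1_Dw_of_hasDeriv
    have h1 : HasDerivAt (fun w => ∑ k, c k w * Dw^[(i : ℕ)] (f k) w)
        (∑ k, ((Complex.exp w * (E.eval (τ + Complex.exp w) * Lf k w)) * Dw^[(i : ℕ)] (f k) w +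
          c k w * (Complex.exp w * Dw (Dw^[(i : ℕ)] (f k)) w))) w :=
      HasDerivAt.fun_sum fun k _ => (hcd k w hw).mul
        (D1_hasDeriv hHo (D1_iter_diff hHo (hfd k) i) w hw)
    refine h1.congr_deriv ?_
    rw [Finset.sum_add_distrib, ← hLsum w hw i, mul_add, Finset.mul_sum, Finset.mul_sum,
      Finset.mul_sum, add_comm]
    congr 1
    · refine Finset.sum_congr rfl fun k _ => ?_
      rw [Function.iterate_succ_apply']
      ring
    · refine Finset.sum_congr rfl fun k _ => ?_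
      ring
  have hYi : ∀ i, i < r' + 1 → ∀ w : ℂ, w.re < c₀ → Dw^[i] Y w = ∑ k, c k w * Dw^[i] (f k) w := by
    intro i
    induction i with
    | zero => intro _ w _; rw [hY]; rfl
    | succ i ih =>
      intro hi w hw
      have h1 := hstep ⟨i, by omega⟩ (ih (by omega)) w hw
      have h2 : ¬ ((⟨i, by omega⟩ : Fin (r' + 1)) = Fin.last r') := by
        intro h
        have := congrArg Fin.val h
        simp at this
        omega
      rw [if_neg h2, mul_zero, add_zero] at h1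
      exact h1
  have hYr : ∀ w : ℂ, w.re < c₀ → Dw^[r' + 1] Y w = ∑ k, c k w * Dw^[r' + 1] (f k) w +
      E.eval (τ + Complex.exp w) * ((p (r' + 1)).eval (τ + Complex.exp w))⁻¹ := by
    intro w hw
    have h1 := hstep (Fin.last r') (hYi r' (by omega)) w hw
    rw [if_pos rfl] at h1
    exact h1
  have hYeq : ∀ w : ℂ, w.re < c₀ → ∑ i ∈ Finset.range (r' + 1 + 1),
      (p i).eval (τ + Complex.exp w) * Dw^[i] Y w = E.eval (τ + Complex.exp w) := by
    intro w hw
    rw [Finset.sum_range_succ, hYr w hw, mul_add]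
    have h1 : ∀ i ∈ Finset.range (r' + 1), (p i).eval (τ + Complex.exp w) * Dw^[i] Y w =
        ∑ k, c k w * ((p i).eval (τ + Complex.exp w) * Dw^[i] (f k) w) := by
      intro i hi
      rw [hYi i (Finset.mem_range.1 hi) w hw, Finset.mul_sum]
      refine Finset.sum_congr rfl fun k _ => ?_
      ring
    rw [Finset.sum_congr rfl h1, Finset.sum_comm]
    have h2 : (p (r' + 1)).eval (τ + Complex.exp w) * ∑ k, c k w * Dw^[r' + 1] (f k) w =
        ∑ k, c k w * ((p (r' + 1)).eval (τ + Complex.exp w) * Dw^[r' + 1] (f k) w) := by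
      rw [Finset.mul_sum]
      refine Finset.sum_congr rfl fun k _ => ?_
      ring
    rw [h2, ← add_assoc, ← Finset.sum_add_distrib]
    have h3 : ∑ k, (∑ i ∈ Finset.range (r' + 1), c k w * ((p i).eval (τ + Complex.exp w) *
        Dw^[i] (f k) w) + c k w * ((p (r' + 1)).eval (τ + Complex.exp w) *
          Dw^[r' + 1] (f k) w)) = 0 := by
      refine Finset.sum_eq_zero fun k _ => ?_
      have h4 := hkillf k w hw
      rw [Finset.sum_range_succ] at h4
      rw [← Finset.mul_sum, ← mul_add, h4, mul_zero]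
    rw [h3, zero_add]
    have h5 := hprH w hw
    field_simp
  refine ⟨Y, hYd, ?_, ?_⟩
  · intro w hw hw2
    have hwS : w ∈ S := by rw [hS]; exact ⟨hw, hw2⟩
    have hYdS : DifferentiableOn ℂ Y S := hYd.mono fun w hw => hSre w hw
    have h1 := D1_unique S hSo hSc (r' + 1) τ p (fun w hw => hprH w (hSre w hw))
      (fun w => Y w - yt w) (hYdS.sub hytd) ?_ w0 hw0S ?_ w hwS 0 (by omega)
    · have h2 : Y w - yt w = 0 := h1
      rw [hyt] at h2
      exact sub_eq_zero.1 h2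
    · intro v hv
      have h3 : ∀ i ∈ Finset.range (r' + 1 + 1), (p i).eval (τ + Complex.exp v) *
          Dw^[i] (fun w => Y w - yt w) v = (p i).eval (τ + Complex.exp v) * Dw^[i] Y v -
          (p i).eval (τ + Complex.exp v) * iteratedDeriv i y (τ + Complex.exp v) := by
        intro i _
        rw [D1_iter_sub hSo hYdS hytd i v hv, hyti i v hv]
        ring
      rw [Finset.sum_congr rfl h3, Finset.sum_sub_distrib, hYeq v (hSre v hv)]
      have h4 := hyeq (τ + Complex.exp v)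
        (by rw [add_sub_cancel_left]; exact hnorm v (hSre v hv))
        (by rw [add_sub_cancel_left]; exact hslit v (hSim v hv))
      rw [h4, sub_self]
    · intro i hi
      rw [D1_iter_sub hSo hYdS hytd i w0 hw0S, hYi i hi w0 hw0re]
      simp_rw [hc0]
      rw [hb ⟨i, hi⟩, sub_self]
  · intro w hw
    rw [hY]
    simp only
    refine Finset.sum_congr rfl fun k _ => ?_
    have h1 : f k (w + 2 * Real.pi * Complex.I * N) = f k w := by rw [hf]; exact hper _ w hw
    have h2 : Complex.exp ((w + 2 * Real.pi * Complex.I * N) / N) = Complex.exp (w / N) := by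
      rw [add_div, mul_div_cancel_right₀ _ hN2, Complex.exp_add, Complex.exp_two_pi_mul_I,
        mul_one]
    rw [h1, hc]
    simp only
    rw [h2]

end AR.J5809

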