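import Mathlib
import Pool.Agent.Helper272.Arn.Defs
import Pool.Agent.Helper272.Arn.J5809
import Pool.Agent.Helper272.Arn.J5652
import Pool.Agent.Helper272.Arn.J5759
import Pool.Agent.Helper272.Ell.J4094

set_option autoImplicit false
open Polynomial Set Filter Topology Metric MeasureTheory
open scoped ContDiff

namespace AR.J5810

open AR.J5809 (periodic_ext)
open AR.J5652 (root_unique)
open AR.J5759 (puiseux laurent)
open AS.J4094 (jump)

/-! the following lemmas are proved elsewhere, you may use them -/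

theorem T_Dw_congr {f g : ℂ → ℂ} {w : ℂ} (h : f =ᶠ[𝓝 w] g) : Dw f =ᶠ[𝓝 w] Dw g := by
  filter_upwards [h.eventuallyEq_nhds] with v hv
  unfold Dw
  rw [hv.deriv_eq]

theorem T_Dw_iter {F : ℂ → ℂ} {τ w : ℂ} (hF : AnalyticAt ℂ F (τ + Complex.exp w))
    {β : ℂ → ℂ} (h : β =ᶠ[𝓝 w] fun v => F (τ + Complex.exp v)) (i : ℕ) :
    Dw^[i] β =ᶠ[𝓝 w] fun v => iteratedDeriv i F (τ + Complex.exp v) := by
  induction i with
  | zero => simpa using h
  | succ i ih =>
    rw [Function.iterate_succ_apply']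
    refine (T_Dw_congr ih).trans ?_
    have hc : ContinuousAt (fun v => τ + Complex.exp v) w := by fun_prop
    filter_upwards [hc.eventually hF.eventually_analyticAt] with v hv
    have h1 : AnalyticAt ℂ (iteratedDeriv i F) (τ + Complex.exp v) := by
      rw [iteratedDeriv_eq_iterate]
      exact AnalyticAt.iterated_deriv hv i
    have h2 : HasDerivAt (fun v => τ + Complex.exp v) (Complex.exp v) v :=
      (Complex.hasDerivAt_exp v).const_add τ
    have h3 := h1.differentiableAt.hasDerivAt.comp v h2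
    unfold Dw
    have h4 : deriv (fun v => iteratedDeriv i F (τ + Complex.exp v)) v =
      deriv (iteratedDeriv i F) (τ + Complex.exp v) * Complex.exp v := h3.deriv
    rw [h4, iteratedDeriv_succ]
    have h5 : Complex.exp (-v) * Complex.exp v = 1 := by rw [← Complex.exp_add]; simp
    linear_combination (deriv (iteratedDeriv i F) (τ + Complex.exp v)) * h5

/-- local inverse of `w ↦ τ + exp w` -/
theorem T_local (P : ℂ[X][X]) (τ : ℂ) (c : ℝ) (α : ℂ → ℂ)
    (hα : DifferentiableOn ℂ α {w | w.re < c})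
    (hP : ∀ w : ℂ, w.re < c → P.evalEval (τ + Complex.exp w) (α w) = 0) (w : ℂ) (hw : w.re < c) :
    ∃ F : ℂ → ℂ, AnalyticAt ℂ F (τ + Complex.exp w) ∧
      (∀ᶠ z' in 𝓝 (τ + Complex.exp w), P.evalEval z' (F z') = 0) ∧
      F (τ + Complex.exp w) = α w ∧
      α =ᶠ[𝓝 w] fun v => F (τ + Complex.exp v) := by
  have hopen : IsOpen {w : ℂ | w.re < c} := isOpen_lt Complex.continuous_re continuous_const
  have hne : Complex.exp w ≠ 0 := Complex.exp_ne_zero w
  let L : ℂ → ℂ := fun z => w + Complex.log ((z - τ) / Complex.exp w)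
  have hL0 : L (τ + Complex.exp w) = w := by
    simp [L, hne]
  have hLan : AnalyticAt ℂ L (τ + Complex.exp w) := by
    have h1 : AnalyticAt ℂ (fun z => (z - τ) / Complex.exp w) (τ + Complex.exp w) := by
      fun_prop (disch := exact hne)
    refine analyticAt_const.add (h1.clog ?_)
    have : (τ + Complex.exp w - τ) / Complex.exp w = 1 := by
      rw [add_sub_cancel_left, div_self hne]
    rw [this]
    exact Complex.one_mem_slitPlane
  have hαan : AnalyticAt ℂ α w := hα.analyticAt (hopen.mem_nhds hw)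
  refine ⟨fun z => α (L z), ?_, ?_, ?_, ?_⟩
  · have : AnalyticAt ℂ α (L (τ + Complex.exp w)) := by rw [hL0]; exact hαan
    exact this.comp hLan
  · have h1 : ∀ᶠ z' in 𝓝 (τ + Complex.exp w), (L z').re < c := by
      have h2 : ContinuousAt L (τ + Complex.exp w) := hLan.continuousAt
      have h3 : Tendsto L (𝓝 (τ + Complex.exp w)) (𝓝 w) := by
        have := h2.tendsto
        rwa [hL0] at this
      exact h3.eventually (hopen.mem_nhds hw)
    have h2 : ∀ᶠ z' in 𝓝 (τ + Complex.exp w), z' ≠ τ := by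
      apply eventually_ne_nhds
      simp
    filter_upwards [h1, h2] with z hz hz2
    have h3 : τ + Complex.exp (L z) = z := by
      simp only [L]
      rw [Complex.exp_add, Complex.exp_log]
      · field_simp
        ring
      · exact div_ne_zero (sub_ne_zero.2 hz2) hne
    have h4 := hP (L z) hz
    rwa [h3] at h4
  · simp only [hL0]
  · have h1 : ∀ᶠ v in 𝓝 w, |(v - w).im| < Real.pi := by
      have hc : ContinuousAt (fun v : ℂ => |(v - w).im|) w := by fun_prop
      have : Tendsto (fun v : ℂ => |(v - w).im|) (𝓝 w) (𝓝 0) := by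
        have := hc.tendsto
        simpa using this
      exact this.eventually (gt_mem_nhds Real.pi_pos)
    filter_upwards [h1] with v hv
    have h2 : L (τ + Complex.exp v) = v := by
      simp only [L]
      rw [add_sub_cancel_left, ← Complex.exp_sub, Complex.log_exp]
      · ring
      · exact (abs_lt.1 hv).1
      · exact (abs_lt.1 hv).2.le
    simp only [h2]

theorem T_Dw_diff {α : ℂ → ℂ} {c : ℝ} (hα : DifferentiableOn ℂ α {w | w.re < c}) :
    DifferentiableOn ℂ (Dw α) {w | w.re < c} := by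
  have hopen : IsOpen {w : ℂ | w.re < c} := isOpen_lt Complex.continuous_re continuous_const
  have h1 : DifferentiableOn ℂ (deriv α) {w | w.re < c} := hα.deriv hopen
  unfold Dw
  exact (by fun_prop : Differentiable ℂ fun w : ℂ => Complex.exp (-w)).differentiableOn.mul h1

theorem T_Dw_per {α : ℂ → ℂ} {c : ℝ} {N : ℕ}
    (hper : ∀ w : ℂ, w.re < c → α (w + 2 * Real.pi * Complex.I * N) = α w) (w : ℂ)
    (hw : w.re < c) : Dw α (w + 2 * Real.pi * Complex.I * N) = Dw α w := by
  have hopen : IsOpen {w : ℂ | w.re < c} := isOpen_lt Complex.continuous_re continuous_const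
  unfold Dw
  have h1 : deriv α (w + 2 * Real.pi * Complex.I * N) = deriv α w := by
    rw [← deriv_comp_add_const]
    apply Filter.EventuallyEq.deriv_eq
    filter_upwards [hopen.mem_nhds hw] with v hv
    exact hper v hv
  rw [h1]
  congr 1
  have : -(w + 2 * Real.pi * Complex.I * N) = -w - N * (2 * Real.pi * Complex.I) := by ring
  rw [this]
  exact Complex.exp_periodic.sub_nat_mul_eq N

theorem T_Dw_growth {α : ℂ → ℂ} {c₁ : ℝ} (hα : DifferentiableOn ℂ α {w | w.re < c₁})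
    {C a : ℝ} (hgrow : ∀ w : ℂ, w.re < c₁ → ‖α w‖ ≤ C * Real.exp (-a * w.re)) (w : ℂ)
    (hw : w.re < c₁ - 1) :
    ‖Dw α w‖ ≤ |C| * Real.exp |a| * Real.exp (-(a + 1) * w.re) := by
  have hre : ∀ v : ℂ, v ∈ closedBall w 1 → |v.re - w.re| ≤ 1 := by
    intro v hv
    rw [mem_closedBall, dist_eq_norm] at hv
    calc |v.re - w.re| = |(v - w).re| := by simp
      _ ≤ ‖v - w‖ := Complex.abs_re_le_norm _
      _ ≤ 1 := hv
  have hsub : closedBall w 1 ⊆ {w : ℂ | w.re < c₁} := by
    intro v hv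
    have := abs_le.1 (hre v hv)
    show v.re < c₁
    linarith
  have h1 : ‖deriv α w‖ ≤ (|C| * Real.exp |a| * Real.exp (-a * w.re)) / 1 := by
    refine Complex.norm_deriv_le_of_forall_mem_sphere_norm_le one_pos ?_ ?_
    · exact (hα.mono hsub).diffContOnCl_ball (subset_refl _)
    · intro z hz
      have hz' := sphere_subset_closedBall hz
      refine (hgrow z (hsub hz')).trans ?_
      have h2 : C * Real.exp (-a * z.re) ≤ |C| * Real.exp (-a * z.re) :=
        mul_le_mul_of_nonneg_right (le_abs_self C) (Real.exp_pos _).le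
      refine h2.trans ?_
      rw [mul_assoc, ← Real.exp_add]
      refine mul_le_mul_of_nonneg_left (Real.exp_le_exp.2 ?_) (abs_nonneg _)
      have h3 : -a * z.re - (-a * w.re) ≤ |a| := by
        have : -a * z.re - (-a * w.re) = -a * (z.re - w.re) := by ring
        rw [this]
        calc -a * (z.re - w.re) ≤ |-a * (z.re - w.re)| := le_abs_self _
          _ = |a| * |z.re - w.re| := by rw [abs_mul, abs_neg]
          _ ≤ |a| * 1 := mul_le_mul_of_nonneg_left (hre z hz') (abs_nonneg _)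
          _ = |a| := mul_one _
      linarith
  unfold Dw
  rw [norm_mul, Complex.norm_exp, Complex.neg_re]
  calc Real.exp (-w.re) * ‖deriv α w‖
      ≤ Real.exp (-w.re) * ((|C| * Real.exp |a| * Real.exp (-a * w.re)) / 1) :=
        mul_le_mul_of_nonneg_left h1 (Real.exp_pos _).le
    _ = |C| * Real.exp |a| * (Real.exp (-w.re) * Real.exp (-a * w.re)) := by ring
    _ = |C| * Real.exp |a| * Real.exp (-(a + 1) * w.re) := by
        rw [← Real.exp_add]; congr 2; ring

theorem T_offopen (b τ : ℝ) : IsOpen {z : ℂ | ∀ t ∈ Icc b τ, z ≠ (t : ℂ)} := by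
  have h1 : IsCompact ((fun t : ℝ => (t : ℂ)) '' Icc b τ) :=
    isCompact_Icc.image Complex.continuous_ofReal
  have h2 : {z : ℂ | ∀ t ∈ Icc b τ, z ≠ (t : ℂ)} = ((fun t : ℝ => (t : ℂ)) '' Icc b τ)ᶜ := by
    ext z
    simp only [mem_ofPred_eq, mem_compl_iff, mem_image, not_exists, not_and]
    constructor
    · intro h t ht h'
      exact h t ht h'.symm
    · intro h t ht h'
      exact h t ht h'.symm
  rw [h2]
  exact h1.isClosed.isOpen_compl

theorem T_cauchy (b τ : ℝ) (v : ℝ → ℝ) (hv : AEStronglyMeasurable v (volume.restrict (Ioo b τ)))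
    (MV : ℝ) (hb : ∀ t ∈ Ioo b τ, |v t| ≤ MV) :
    DifferentiableOn ℂ (fun z : ℂ => ∫ t in Ioo b τ, ((v t : ℝ) : ℂ) / (z - t))
      {z : ℂ | ∀ t ∈ Icc b τ, z ≠ (t : ℂ)} := by
  intro z₀ hz₀
  apply DifferentiableAt.differentiableWithinAt
  obtain ⟨δ, hδ, hball⟩ := Metric.isOpen_iff.1 (T_offopen b τ) z₀ hz₀
  have hlow : ∀ z ∈ ball z₀ (δ / 2), ∀ t ∈ Ioo b τ, δ / 2 ≤ ‖z - (t : ℂ)‖ := by
    intro z hz t ht
    by_contra hlt
    push Not at hlt
    have h1 : (t : ℂ) ∈ ball z₀ δ := by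
      rw [mem_ball, dist_eq_norm] at hz ⊢
      calc ‖(t : ℂ) - z₀‖ = ‖(z - z₀) - (z - t)‖ := by congr 1; ring
        _ ≤ ‖z - z₀‖ + ‖z - t‖ := norm_sub_le _ _
        _ < δ := by linarith
    exact hball h1 t ⟨ht.1.le, ht.2.le⟩ rfl
  have hvc : AEStronglyMeasurable (fun t : ℝ => ((v t : ℝ) : ℂ)) (volume.restrict (Ioo b τ)) :=
    Complex.continuous_ofReal.comp_aestronglyMeasurable hv
  have hmeas : ∀ z : ℂ, AEStronglyMeasurable (fun t : ℝ => ((v t : ℝ) : ℂ) / (z - t))
      (volume.restrict (Ioo b τ)) := by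
    intro z
    have h1 : Measurable fun t : ℝ => (z - (t : ℂ))⁻¹ := by fun_prop
    simp only [div_eq_mul_inv]
    exact hvc.mul h1.aestronglyMeasurable
  have hMV : ∀ t ∈ Ioo b τ, ‖((v t : ℝ) : ℂ)‖ ≤ |MV| := by
    intro t ht
    rw [Complex.norm_real]
    exact (hb t ht).trans (le_abs_self _)
  have hfin : IsFiniteMeasure (volume.restrict (Ioo b τ)) := by
    refine ⟨?_⟩
    rw [Measure.restrict_apply_univ]
    simp
  have h := hasDerivAt_integral_of_dominated_loc_of_deriv_le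
    (μ := volume.restrict (Ioo b τ)) (𝕜 := ℂ)
    (F := fun (z : ℂ) (t : ℝ) => ((v t : ℝ) : ℂ) / (z - t))
    (F' := fun (z : ℂ) (t : ℝ) => -((v t : ℝ) : ℂ) / (z - t) ^ 2)
    (x₀ := z₀) (s := ball z₀ (δ / 2)) (bound := fun _ => |MV| / (δ / 2) ^ 2)
    (ball_mem_nhds z₀ (by positivity)) (Eventually.of_forall hmeas) ?_ ?_ ?_ ?_ ?_
  · exact h.2.differentiableAt
  · refine Integrable.mono' (integrable_const (|MV| / (δ / 2))) (hmeas z₀) ?_
    refine (ae_restrict_iff' measurableSet_Ioo).2 (Eventually.of_forall fun t ht => ?_)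
    rw [norm_div]
    exact div_le_div₀ (abs_nonneg _) (hMV t ht) (by positivity)
      (hlow z₀ (mem_ball_self (by positivity)) t ht)
  · have h1 : Measurable fun t : ℝ => ((z₀ - (t : ℂ)) ^ 2)⁻¹ := by fun_prop
    have h2 : (fun t : ℝ => -((v t : ℝ) : ℂ) / (z₀ - t) ^ 2) =
        fun t : ℝ => (-((v t : ℝ) : ℂ)) * ((z₀ - (t : ℂ)) ^ 2)⁻¹ := by
      funext t
      rw [div_eq_mul_inv]
    show AEStronglyMeasurable (fun t : ℝ => -((v t : ℝ) : ℂ) / (z₀ - t) ^ 2) _
    rw [h2]
    exact hvc.neg.mul h1.aestronglyMeasurable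
  · refine (ae_restrict_iff' measurableSet_Ioo).2 (Eventually.of_forall fun t ht z hz => ?_)
    rw [norm_div, norm_neg, norm_pow]
    exact div_le_div₀ (abs_nonneg _) (hMV t ht) (by positivity)
      (pow_le_pow_left₀ (by positivity) (hlow z hz t ht) 2)
  · exact integrable_const _
  · refine (ae_restrict_iff' measurableSet_Ioo).2 (Eventually.of_forall fun t ht z hz => ?_)
    have hne : z - (t : ℂ) ≠ 0 := by
      intro h0
      have := hlow z hz t ht
      rw [h0, norm_zero] at this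
      linarith
    have h1 : HasDerivAt (fun z : ℂ => z - (t : ℂ)) 1 z := (hasDerivAt_id z).sub_const _
    have h2 := (hasDerivAt_const z ((v t : ℝ) : ℂ)).div h1 hne
    have h3 : (0 * (z - (t : ℂ)) - ((v t : ℝ) : ℂ) * 1) / (z - (t : ℂ)) ^ 2 =
        -((v t : ℝ) : ℂ) / (z - t) ^ 2 := by ring
    rw [h3] at h2
    exact h2

theorem T_poly (f : ℂ[X]) (i : ℕ) (z : ℂ) :
    iteratedDeriv i (fun z => f.eval z) z = (derivative^[i] f).eval z := by
  induction i generalizing f z with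
  | zero => simp
  | succ i ih =>
    rw [iteratedDeriv_succ']
    have : deriv (fun z => f.eval z) = fun z => (derivative f).eval z := by
      funext z
      exact f.deriv
    rw [this, ih, Function.iterate_succ_apply]

theorem T_expto (N : ℕ) (hN : 0 < N) (c : ℂ) :
    Tendsto (fun s : ℝ => Complex.exp (((s : ℂ) + c) / N)) atBot (𝓝 0) := by
  rw [tendsto_zero_iff_norm_tendsto_zero]
  have h1 : ∀ s : ℝ, ‖Complex.exp (((s : ℂ) + c) / N)‖ = Real.exp (s / N + c.re / N) := by
    intro s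
    rw [Complex.norm_exp]
    congr 1
    have : (((s : ℂ) + c) / N).re = ((s : ℂ) + c).re / N := by
      rw [Complex.div_natCast_re]
    rw [this, Complex.add_re, Complex.ofReal_re]
    ring
  simp only [h1]
  refine Real.tendsto_exp_atBot.comp ?_
  have hN' : (0 : ℝ) < N := by exact_mod_cast hN
  exact tendsto_atBot_add_const_right _ _ (tendsto_id.atBot_div_const hN')

theorem T_final (c₀ : ℝ) (N : ℕ) (hN : 0 < N) (A : ℂ → ℂ) (q : ℕ) (C₁ C₂ : ℝ) (hC₁ : 0 < C₁)
    (a : ℝ → ℝ) (ha : ∀ s < c₀, C₁ * Real.exp (q * s) ≤ a s ∧ a s ≤ C₂ * Real.exp (q * s))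
    (hAa : ∀ s < c₀, A ((s : ℂ) + Real.pi * Complex.I) = a s)
    (hS : ∀ w : ℂ, w.re < c₀ →
      ∑ k ∈ Finset.range N, A (w - 2 * Real.pi * Complex.I * k) = 0)
    (l : ℤ) (G : ℂ → ℂ) (hG : AnalyticAt ℂ G 0) (hG0 : G 0 ≠ 0) (c₁ : ℝ) (hc₁ : c₁ < c₀)
    (hrep : ∀ w : ℂ, w.re < c₁ → A w = Complex.exp (l * w / N) * G (Complex.exp (w / N))) :
    False := by
  have hN' : (0 : ℝ) < N := by exact_mod_cast hN
  have hGt : ∀ c : ℂ, Tendsto (fun s : ℝ => G (Complex.exp (((s : ℂ) + c) / N))) atBot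
      (𝓝 (G 0)) := fun c => hG.continuousAt.tendsto.comp (T_expto N hN c)
  have hnG := (hGt (Real.pi * Complex.I)).norm
  have hlt : ∀ᶠ s : ℝ in atBot, s < c₁ := eventually_lt_atBot c₁
  set e : ℝ := q - l / N with he
  have hform : ∀ s < c₁, ‖G (Complex.exp (((s : ℂ) + Real.pi * Complex.I) / N))‖ =
      a s * Real.exp (-(l / N * s)) := by
    intro s hs
    have h1 := hAa s (hs.trans hc₁)
    rw [hrep _ (by simpa using hs)] at h1
    have h2 := congrArg norm h1
    rw [norm_mul, Complex.norm_exp, Complex.norm_real] at h2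
    have h3 : (l * ((s : ℂ) + Real.pi * Complex.I) / N).re = l / N * s := by
      rw [Complex.div_natCast_re]
      have : ((l : ℂ) * ((s : ℂ) + Real.pi * Complex.I)).re = l * s := by
        simp
      rw [this]
      ring
    have h4 : 0 ≤ a s := le_trans (by positivity) (ha s (hs.trans hc₁)).1
    rw [h3, Real.norm_of_nonneg h4] at h2
    rw [← h2, mul_comm (Real.exp _), mul_assoc, ← Real.exp_add]
    simp
  have hlow : ∀ s < c₁, C₁ * Real.exp (e * s) ≤
      ‖G (Complex.exp (((s : ℂ) + Real.pi * Complex.I) / N))‖ := by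
    intro s hs
    rw [hform s hs]
    have h1 := mul_le_mul_of_nonneg_right (ha s (hs.trans hc₁)).1
      (Real.exp_pos (-(l / N * s))).le
    rw [mul_assoc, ← Real.exp_add] at h1
    have h2 : (q : ℝ) * s + -(l / N * s) = e * s := by rw [he]; ring
    rwa [h2] at h1
  have hup : ∀ s < c₁, ‖G (Complex.exp (((s : ℂ) + Real.pi * Complex.I) / N))‖ ≤
      C₂ * Real.exp (e * s) := by
    intro s hs
    rw [hform s hs]
    have h1 := mul_le_mul_of_nonneg_right (ha s (hs.trans hc₁)).2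
      (Real.exp_pos (-(l / N * s))).le
    rw [mul_assoc, ← Real.exp_add] at h1
    have h2 : (q : ℝ) * s + -(l / N * s) = e * s := by rw [he]; ring
    rwa [h2] at h1
  have hpos : 0 < ‖G 0‖ := norm_pos_iff.2 hG0
  have he0 : e = 0 := by
    rcases lt_trichotomy e 0 with h | h | h
    · exfalso
      have h1 : Tendsto (fun s : ℝ => C₁ * Real.exp (e * s)) atBot atTop := by
        refine Tendsto.const_mul_atTop hC₁ (Real.tendsto_exp_atTop.comp ?_)
        exact tendsto_id.const_mul_atBot_of_neg h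
      have h2 : Tendsto (fun s : ℝ =>
          ‖G (Complex.exp (((s : ℂ) + Real.pi * Complex.I) / N))‖) atBot atTop := by
        refine tendsto_atTop_mono' _ ?_ h1
        filter_upwards [hlt] with s hs using hlow s hs
      exact not_tendsto_nhds_of_tendsto_atTop h2 _ hnG
    · exact h
    · exfalso
      have h1 : Tendsto (fun s : ℝ => C₂ * Real.exp (e * s)) atBot (𝓝 (C₂ * 0)) := by
        refine Tendsto.const_mul _ (Real.tendsto_exp_atBot.comp ?_)
        exact tendsto_id.const_mul_atBot h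
      have h2 := le_of_tendsto_of_tendsto hnG h1
        (by filter_upwards [hlt] with s hs using hup s hs)
      rw [mul_zero] at h2
      linarith
  have hl : (l : ℂ) / N = q := by
    have h1 : (l : ℝ) / N = q := by rw [he] at he0; linarith
    have h2 : ((l / N : ℝ) : ℂ) = ((q : ℝ) : ℂ) := by rw [h1]
    push_cast at h2
    exact h2
  have hsum : ∀ s : ℝ, s < c₁ → ∑ k ∈ Finset.range N,
      G (Complex.exp (((s : ℂ) + (-(2 * Real.pi * Complex.I * k))) / N)) = 0 := by
    intro s hs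
    have h1 := hS (s : ℂ) (by simpa using hs.trans hc₁)
    have h2 : ∀ k ∈ Finset.range N, A ((s : ℂ) - 2 * Real.pi * Complex.I * k) =
        Complex.exp (q * s) *
          G (Complex.exp (((s : ℂ) + (-(2 * Real.pi * Complex.I * k))) / N)) := by
      intro k _
      rw [hrep _ (by simpa using hs)]
      have h3 : Complex.exp (l * ((s : ℂ) - 2 * Real.pi * Complex.I * k) / N) =
          Complex.exp (q * s) := by
        have h4 : (l : ℂ) * ((s : ℂ) - 2 * Real.pi * Complex.I * k) / N =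
            (q * s : ℂ) - ((q * k : ℕ) : ℂ) * (2 * Real.pi * Complex.I) := by
          have : (l : ℂ) * ((s : ℂ) - 2 * Real.pi * Complex.I * k) / N =
            (l : ℂ) / N * ((s : ℂ) - 2 * Real.pi * Complex.I * k) := by ring
          rw [this, hl]
          push_cast
          ring
        rw [h4]
        exact Complex.exp_periodic.sub_nat_mul_eq (q * k)
      rw [h3, sub_eq_add_neg]
    rw [Finset.sum_congr rfl h2, ← Finset.mul_sum] at h1
    exact (mul_eq_zero.1 h1).resolve_left (Complex.exp_ne_zero _)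
  have hlim : Tendsto (fun s : ℝ => ∑ k ∈ Finset.range N,
      G (Complex.exp (((s : ℂ) + (-(2 * Real.pi * Complex.I * k))) / N))) atBot
      (𝓝 (∑ k ∈ Finset.range N, G 0)) :=
    tendsto_finsetSum _ fun k _ => hGt _
  have hlim0 : Tendsto (fun s : ℝ => ∑ k ∈ Finset.range N,
      G (Complex.exp (((s : ℂ) + (-(2 * Real.pi * Complex.I * k))) / N))) atBot (𝓝 0) := by
    refine tendsto_const_nhds.congr' ?_
    filter_upwards [hlt] with s hs
    exact (hsum s hs).symm
  have h5 := tendsto_nhds_unique hlim hlim0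
  rw [Finset.sum_const, Finset.card_range, nsmul_eq_mul] at h5
  rcases mul_eq_zero.1 h5 with h6 | h6
  · have : (N : ℂ) ≠ 0 := by exact_mod_cast hN.ne'
    exact this h6
  · exact hG0 h6

theorem T_exppi (s : ℝ) : Complex.exp ((s : ℂ) + Real.pi * Complex.I) = -((Real.exp s : ℝ) : ℂ) := by
  rw [Complex.exp_add, Complex.exp_pi_mul_I, Complex.ofReal_exp]
  ring

theorem T_step8 (α : ℂ → ℂ) (c : ℝ) (hα : DifferentiableOn ℂ α {w | w.re < c}) (V : ℝ → ℝ)
    (b τ : ℝ) (hV : ∀ t ∈ Ioo b τ, AnalyticAt ℝ V t) (hc : Real.exp c ≤ τ - b)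
    (h : ∀ s < c, α ((s : ℂ) + Real.pi * Complex.I) = ((V (τ - Real.exp s) : ℝ) : ℂ)) (s : ℝ)
    (hs : s < c) :
    Dw α ((s : ℂ) + Real.pi * Complex.I) = ((deriv V (τ - Real.exp s) : ℝ) : ℂ) := by
  have hopen : IsOpen {w : ℂ | w.re < c} := isOpen_lt Complex.continuous_re continuous_const
  have hmem : (s : ℂ) + Real.pi * Complex.I ∈ {w : ℂ | w.re < c} := by
    show ((s : ℂ) + Real.pi * Complex.I).re < c
    simpa using hs
  have h1 : HasDerivAt α (deriv α ((s : ℂ) + Real.pi * Complex.I))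
      ((s : ℂ) + Real.pi * Complex.I) := (hα.differentiableAt (hopen.mem_nhds hmem)).hasDerivAt
  have h2 : HasDerivAt (fun u : ℝ => (u : ℂ) + Real.pi * Complex.I) 1 s :=
    (Complex.ofRealCLM.hasDerivAt (x := s)).add_const _
  have h3 : HasDerivAt (fun u : ℝ => α ((u : ℂ) + Real.pi * Complex.I))
      (deriv α ((s : ℂ) + Real.pi * Complex.I) * 1) s := h1.comp s h2
  have hx : τ - Real.exp s ∈ Ioo b τ := by
    have := Real.exp_lt_exp.2 hs
    exact ⟨by linarith, by linarith [Real.exp_pos s]⟩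
  have h4 : HasDerivAt V (deriv V (τ - Real.exp s)) (τ - Real.exp s) :=
    (hV _ hx).differentiableAt.hasDerivAt
  have h5 : HasDerivAt (fun u : ℝ => τ - Real.exp u) (-Real.exp s) s :=
    (Real.hasDerivAt_exp s).const_sub τ
  have h6 : HasDerivAt (fun u : ℝ => V (τ - Real.exp u))
      (deriv V (τ - Real.exp s) * (-Real.exp s)) s := h4.comp s h5
  have h7 : HasDerivAt (fun u : ℝ => ((V (τ - Real.exp u) : ℝ) : ℂ))
      ((deriv V (τ - Real.exp s) * (-Real.exp s) : ℝ) : ℂ) s := h6.ofReal_comp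
  have h8 : (fun u : ℝ => α ((u : ℂ) + Real.pi * Complex.I)) =ᶠ[𝓝 s]
      fun u : ℝ => ((V (τ - Real.exp u) : ℝ) : ℂ) := by
    filter_upwards [gt_mem_nhds hs] with u hu using h u hu
  have h9 := (h7.congr_of_eventuallyEq h8).unique h3
  unfold Dw
  rw [mul_one] at h9
  rw [← h9]
  have h10 : Complex.exp (-((s : ℂ) + Real.pi * Complex.I)) = -((Real.exp s : ℝ) : ℂ)⁻¹ := by
    rw [Complex.exp_neg, T_exppi, inv_neg]
  rw [h10]
  have h11 : ((Real.exp s : ℝ) : ℂ) ≠ 0 := by
    exact_mod_cast (Real.exp_pos s).ne'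
  push_cast at h11 ⊢
  field_simp

theorem T_jump (b τ : ℝ) (V : ℝ → ℝ)
    (hV : ∀ t ∈ Ioo b τ, AnalyticAt ℝ V t) (MV : ℝ) (hVb : ∀ t ∈ Ioo b τ, |deriv V t| ≤ MV)
    (Fe : ℂ → ℂ) (hFe : Fe = fun z => ∫ t in Ioo b τ, ((deriv V t : ℝ) : ℂ) / (z - t))
    (c : ℝ) (hc : Real.exp c ≤ τ - b) (Ft : ℂ → ℂ) (hF : DifferentiableOn ℂ Ft {w | w.re < c})
    (hFF : ∀ w : ℂ, w.re < c → |w.im| < Real.pi → Ft w = Fe (τ + Complex.exp w)) (s : ℝ)
    (hs : s < c) :
    Ft ((s : ℂ) + Real.pi * Complex.I) - Ft ((s : ℂ) - Real.pi * Complex.I) =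
      -2 * Real.pi * Complex.I * ((deriv V (τ - Real.exp s) : ℝ) : ℂ) := by
  classical
  have hopen : IsOpen {w : ℂ | w.re < c} := isOpen_lt Complex.continuous_re continuous_const
  set x : ℝ := τ - Real.exp s with hxdef
  have hx : x ∈ Ioo b τ := by
    have := Real.exp_lt_exp.2 hs
    exact ⟨by rw [hxdef]; linarith, by rw [hxdef]; linarith [Real.exp_pos s]⟩
  let A : ℝ → ℝ := (Ioo b τ).indicator (deriv V)
  have hdc : ContinuousOn (deriv V) (Ioo b τ) := fun t ht =>
    (hV t ht).deriv.continuousAt.continuousWithinAt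
  have hAi : Integrable A := by
    rw [integrable_indicator_iff measurableSet_Ioo]
    refine Integrable.mono' (integrable_const MV) (hdc.aestronglyMeasurable measurableSet_Ioo) ?_
    exact (ae_restrict_iff' measurableSet_Ioo).2 (Eventually.of_forall fun t ht => hVb t ht)
  have hAb : ∀ t, |A t| ≤ |MV| := by
    intro t
    by_cases ht : t ∈ Ioo b τ
    · simp only [A, indicator_of_mem ht]
      exact (hVb t ht).trans (le_abs_self _)
    · simp only [A, indicator_of_notMem ht, abs_zero]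
      exact abs_nonneg _
  have hAe : A =ᶠ[𝓝 x] deriv V := by
    filter_upwards [isOpen_Ioo.mem_nhds hx] with t ht
    simp only [A, indicator_of_mem ht]
  have hAc : ContinuousAt A x := (hV x hx).deriv.continuousAt.congr hAe.symm
  have hAx : A x = deriv V x := hAe.eq_of_nhds
  have hint : ∀ z : ℂ, (∫ t, (A t : ℂ) / (z - t)) = Fe z := by
    intro z
    rw [hFe]
    show _ = ∫ t in Ioo b τ, ((deriv V t : ℝ) : ℂ) / (z - t)
    rw [← integral_indicator measurableSet_Ioo]
    congr 1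
    funext t
    by_cases ht : t ∈ Ioo b τ
    · simp only [A, indicator_of_mem ht]
    · simp only [A, indicator_of_notMem ht]
      simp
  have hj := jump A hAi |MV| hAb x hAc
  simp only [hint, hAx] at hj
  -- the logarithms
  have hre : (-((Real.exp s : ℝ) : ℂ)).re < 0 := by
    simp only [Complex.neg_re, Complex.ofReal_re]
    linarith [Real.exp_pos s]
  have him : (-((Real.exp s : ℝ) : ℂ)).im = 0 := by simp
  have hnorm : Real.log ‖(-((Real.exp s : ℝ) : ℂ))‖ = s := by
    rw [norm_neg, Complex.norm_real, Real.norm_of_nonneg (Real.exp_pos s).le, Real.log_exp]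
  have hup := Complex.tendsto_log_nhdsWithin_im_nonneg_of_re_neg_of_im_zero hre him
  have hdn := Complex.tendsto_log_nhdsWithin_im_neg_of_re_neg_of_im_zero hre him
  rw [hnorm] at hup hdn
  have hcup : Tendsto (fun ε : ℝ => (-((Real.exp s : ℝ) : ℂ)) + ε * Complex.I) (𝓝[>] 0)
      (𝓝[{z : ℂ | 0 ≤ z.im}] (-((Real.exp s : ℝ) : ℂ))) := by
    refine tendsto_nhdsWithin_iff.2 ⟨?_, ?_⟩
    · have h1 : Continuous fun ε : ℝ => (-((Real.exp s : ℝ) : ℂ)) + ε * Complex.I := by fun_prop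
      have h2 := h1.tendsto 0
      simp only [Complex.ofReal_zero, zero_mul, add_zero] at h2
      exact h2.mono_left nhdsWithin_le_nhds
    · filter_upwards [self_mem_nhdsWithin] with ε hε
      have : (0 : ℝ) < ε := hε
      show 0 ≤ (-((Real.exp s : ℝ) : ℂ) + ε * Complex.I).im
      simp only [Complex.add_im, Complex.neg_im, Complex.ofReal_im, Complex.mul_im,
        Complex.ofReal_re, Complex.I_im, Complex.I_re]
      linarith
  have hcdn : Tendsto (fun ε : ℝ => (-((Real.exp s : ℝ) : ℂ)) - ε * Complex.I) (𝓝[>] 0)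
      (𝓝[{z : ℂ | z.im < 0}] (-((Real.exp s : ℝ) : ℂ))) := by
    refine tendsto_nhdsWithin_iff.2 ⟨?_, ?_⟩
    · have h1 : Continuous fun ε : ℝ => (-((Real.exp s : ℝ) : ℂ)) - ε * Complex.I := by fun_prop
      have h2 := h1.tendsto 0
      simp only [Complex.ofReal_zero, zero_mul, sub_zero] at h2
      exact h2.mono_left nhdsWithin_le_nhds
    · filter_upwards [self_mem_nhdsWithin] with ε hε
      have : (0 : ℝ) < ε := hε
      show (-((Real.exp s : ℝ) : ℂ) - ε * Complex.I).im < 0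
      simp only [Complex.sub_im, Complex.neg_im, Complex.ofReal_im, Complex.mul_im,
        Complex.ofReal_re, Complex.I_im, Complex.I_re]
      linarith
  have hlup := hup.comp hcup
  have hldn := hdn.comp hcdn
  have hmemup : (s : ℂ) + Real.pi * Complex.I ∈ {w : ℂ | w.re < c} := by
    show ((s : ℂ) + Real.pi * Complex.I).re < c
    simpa using hs
  have hmemdn : (s : ℂ) - Real.pi * Complex.I ∈ {w : ℂ | w.re < c} := by
    show ((s : ℂ) - Real.pi * Complex.I).re < c
    simpa using hs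
  have hFcup : ContinuousAt Ft ((s : ℂ) + Real.pi * Complex.I) :=
    (hF.differentiableAt (hopen.mem_nhds hmemup)).continuousAt
  have hFcdn : ContinuousAt Ft ((s : ℂ) - Real.pi * Complex.I) :=
    (hF.differentiableAt (hopen.mem_nhds hmemdn)).continuousAt
  have hFup := hFcup.tendsto.comp hlup
  have hFdn := hFcdn.tendsto.comp hldn
  have hxe : (τ : ℂ) + -((Real.exp s : ℝ) : ℂ) = (x : ℂ) := by
    rw [hxdef]; push_cast; ring
  have heup : ∀ᶠ ε : ℝ in 𝓝[>] 0,
      Ft (Complex.log ((-((Real.exp s : ℝ) : ℂ)) + ε * Complex.I)) =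
        Fe ((x : ℂ) + ε * Complex.I) := by
    have h1 := hlup.eventually (hopen.mem_nhds hmemup)
    filter_upwards [h1, self_mem_nhdsWithin] with ε h2 hε
    have hε' : (0 : ℝ) < ε := hε
    have him1 : ((-((Real.exp s : ℝ) : ℂ)) + ε * Complex.I).im = ε := by simp
    have hne : (-((Real.exp s : ℝ) : ℂ)) + ε * Complex.I ≠ 0 := by
      intro h0
      rw [h0] at him1
      simp at him1
      linarith
    have harg : |(Complex.log ((-((Real.exp s : ℝ) : ℂ)) + ε * Complex.I)).im| < Real.pi := by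
      rw [Complex.log_im]
      refine abs_lt.2 ⟨Complex.neg_pi_lt_arg _, lt_of_le_of_ne (Complex.arg_le_pi _) fun h0 => ?_⟩
      have h00 := (Complex.arg_eq_pi_iff.1 h0).2
      rw [him1] at h00
      linarith
    have h3 : (Complex.log ((-((Real.exp s : ℝ) : ℂ)) + ε * Complex.I)).re < c := h2
    rw [hFF _ h3 harg, Complex.exp_log hne, ← add_assoc, hxe]
  have hedn : ∀ᶠ ε : ℝ in 𝓝[>] 0,
      Ft (Complex.log ((-((Real.exp s : ℝ) : ℂ)) - ε * Complex.I)) =
        Fe ((x : ℂ) - ε * Complex.I) := by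
    have h1 := hldn.eventually (hopen.mem_nhds hmemdn)
    filter_upwards [h1, self_mem_nhdsWithin] with ε h2 hε
    have hε' : (0 : ℝ) < ε := hε
    have him1 : ((-((Real.exp s : ℝ) : ℂ)) - ε * Complex.I).im = -ε := by simp
    have hne : (-((Real.exp s : ℝ) : ℂ)) - ε * Complex.I ≠ 0 := by
      intro h0
      rw [h0] at him1
      simp at him1
      linarith
    have harg : |(Complex.log ((-((Real.exp s : ℝ) : ℂ)) - ε * Complex.I)).im| < Real.pi := by
      rw [Complex.log_im]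
      refine abs_lt.2 ⟨Complex.neg_pi_lt_arg _, lt_of_le_of_ne (Complex.arg_le_pi _) fun h0 => ?_⟩
      have h00 := (Complex.arg_eq_pi_iff.1 h0).2
      rw [him1] at h00
      linarith
    have h3 : (Complex.log ((-((Real.exp s : ℝ) : ℂ)) - ε * Complex.I)).re < c := h2
    rw [hFF _ h3 harg, Complex.exp_log hne, ← add_sub_assoc, hxe]
  have h1 := hFup.congr' heup
  have h2 := hFdn.congr' hedn
  exact tendsto_nhds_unique (h1.sub h2) hj

/-- TARGET: no solution modulo high powers at the top end point -/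
theorem top_obstruction (b τ : ℝ) (hbτ : b < τ) (V : ℝ → ℝ)
    (hV : ∀ t ∈ Ioo b τ, AnalyticAt ℝ V t) (MV : ℝ) (hVb : ∀ t ∈ Ioo b τ, |deriv V t| ≤ MV)
    (q : ℕ) (C₁ C₂ h₀ : ℝ) (hC₁ : 0 < C₁) (hh₀ : 0 < h₀)
    (hexp : ∀ h, 0 < h → h < h₀ → C₁ * h ^ q ≤ deriv V (τ - h) ∧ deriv V (τ - h) ≤ C₂ * h ^ q)
    (P : ℂ[X][X]) (hPV : ∀ t ∈ Ioo b τ, P.evalEval (t : ℂ) (V t : ℂ) = 0)
    (r : ℕ) (p : ℕ → ℂ[X]) (Δ : ℂ[X]) (hΔ : Δ ≠ 0)
    (hst : ∀ z, Δ.eval z ≠ 0 →
      (P.map (evalRingHom z)).natDegree = P.natDegree ∧ (P.map (evalRingHom z)).Separable ∧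
      (p r).eval z ≠ 0 ∧
      (∀ α : ℂ → ℂ, AnalyticAt ℂ α z → (∀ᶠ z' in 𝓝 z, P.evalEval z' (α z') = 0) →
        ∑ i ∈ Finset.range (r + 1), (p i).eval z * iteratedDeriv (i + 1) α z = 0) ∧
      (∀ α : Fin P.natDegree → ℂ → ℂ, (∀ j, AnalyticAt ℂ (α j) z) →
        (∀ j, ∀ᶠ z' in 𝓝 z, P.evalEval z' (α j z') = 0) →
        Function.Injective (fun j => α j z) →
        ∀ c : Fin r → ℂ, (∀ j, ∑ i : Fin r, c i * iteratedDeriv ((i : ℕ) + 1) (α j) z = 0) →
          c = 0))
    (M : ℕ) (Q : ℂ[X]) (Fe : ℂ → ℂ)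
    (hFe : Fe = fun z => ∫ t in Ioo b τ, ((deriv V t : ℝ) : ℂ) / (z - t))
    (hLF : ∀ z : ℂ, (∀ t ∈ Icc b τ, z ≠ (t : ℂ)) → ∑ i ∈ Finset.range (r + 1),
      (Δ ^ M * p i).eval z * iteratedDeriv i Fe z = Q.eval z) :
    ∃ K : ℕ, ∀ f : ℂ[X], ¬ (X - C (τ : ℂ)) ^ K ∣
      ∑ i ∈ Finset.range (r + 1), Δ ^ M * p i * (derivative^[i] f) - Q := by
  classical
  -- factor Δ
  obtain ⟨Δ1, hfac, hnd⟩ := exists_eq_pow_rootMultiplicity_mul_and_not_dvd Δ hΔ (τ : ℂ)
  set m0 : ℕ := Δ.rootMultiplicity (τ : ℂ) with hm0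
  have hΔ1 : Δ1.eval (τ : ℂ) ≠ 0 := by
    intro h0
    exact hnd (dvd_iff_isRoot.2 h0)
  have hfe : ∀ z, Δ.eval z = (z - τ) ^ m0 * Δ1.eval z := by
    intro z
    rw [hfac]
    simp
  obtain ⟨ρ, hρ, hρΔ⟩ : ∃ ρ > 0, ∀ z : ℂ, ‖z - τ‖ < ρ → Δ1.eval z ≠ 0 := by
    have hc : ContinuousAt (fun z : ℂ => Δ1.eval z) τ := Δ1.continuous.continuousAt
    obtain ⟨ρ, hρ, h⟩ := Metric.eventually_nhds_iff.1 (hc.eventually_ne hΔ1)
    exact ⟨ρ, hρ, fun z hz => h (by rwa [dist_eq_norm])⟩
  obtain ⟨c', hc'⟩ : ∃ c' : ℝ, Real.exp c' = min ρ (min h₀ (τ - b)) :=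
    ⟨Real.log (min ρ (min h₀ (τ - b))), Real.exp_log (lt_min hρ (lt_min hh₀ (by linarith)))⟩
  have hc'ρ : Real.exp c' ≤ ρ := by rw [hc']; exact min_le_left _ _
  have hc'h : Real.exp c' ≤ h₀ := by
    rw [hc']; exact (min_le_right _ _).trans (min_le_left _ _)
  have hc'b : Real.exp c' ≤ τ - b := by
    rw [hc']; exact (min_le_right _ _).trans (min_le_right _ _)
  have hΔne : ∀ z : ℂ, 0 < ‖z - τ‖ → ‖z - τ‖ < Real.exp c' → Δ.eval z ≠ 0 := by
    intro z h1 h2
    rw [hfe]
    exact mul_ne_zero (pow_ne_zero _ (norm_pos_iff.1 h1)) (hρΔ z (h2.trans_le hc'ρ))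
  have hexpn : ∀ w : ℂ, w.re < c' → 0 < ‖((τ : ℂ) + Complex.exp w) - τ‖ ∧
      ‖((τ : ℂ) + Complex.exp w) - τ‖ < Real.exp c' := by
    intro w hw
    rw [add_sub_cancel_left, Complex.norm_exp]
    exact ⟨Real.exp_pos _, Real.exp_lt_exp.2 hw⟩
  have hΔw : ∀ w : ℂ, w.re < c' → Δ.eval ((τ : ℂ) + Complex.exp w) ≠ 0 := fun w hw =>
    hΔne _ (hexpn w hw).1 (hexpn w hw).2
  obtain ⟨N, α, hN, hαd, hαinj, hαroot, hαper, hαgrow⟩ := puiseux P (τ : ℂ) c'
    (fun z h1 h2 => (hst z (hΔne z h1 h2)).1) (fun z h1 h2 => (hst z (hΔne z h1 h2)).2.1)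
  obtain ⟨Cg, ag, hCg⟩ := hαgrow (c' - 1) (by linarith)
  set c₀ : ℝ := c' - 2 with hc₀
  have hsub : ∀ c, c ≤ c' → ({w : ℂ | w.re < c} ⊆ {w : ℂ | w.re < c'}) := fun c hc w hw =>
    lt_of_lt_of_le hw hc
  have hc₀c' : c₀ < c' := by rw [hc₀]; linarith
  have hgd : ∀ j, DifferentiableOn ℂ (Dw (α j)) {w | w.re < c₀} := fun j =>
    (T_Dw_diff (hαd j)).mono (hsub c₀ hc₀c'.le)
  have hgper : ∀ j, ∀ w : ℂ, w.re < c₀ →
      Dw (α j) (w + 2 * Real.pi * Complex.I * N) = Dw (α j) w := fun j w hw =>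
    T_Dw_per (hαper j) w (hw.trans hc₀c')
  have hggrow : ∀ j, ∀ w : ℂ, w.re < c₀ →
      ‖Dw (α j) w‖ ≤ |Cg| * Real.exp |ag| * Real.exp (-(ag + 1) * w.re) := by
    intro j w hw
    refine T_Dw_growth ((hαd j).mono (hsub (c' - 1) (by linarith))) (hCg j) w ?_
    rw [hc₀] at hw
    linarith
  -- local analytic roots
  have hloc : ∀ w : ℂ, w.re < c' → ∃ F : Fin P.natDegree → ℂ → ℂ,
      (∀ j, AnalyticAt ℂ (F j) ((τ : ℂ) + Complex.exp w)) ∧
      (∀ j, ∀ᶠ z' in 𝓝 ((τ : ℂ) + Complex.exp w), P.evalEval z' (F j z') = 0) ∧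
      Function.Injective (fun j => F j ((τ : ℂ) + Complex.exp w)) ∧
      (∀ j, ∀ i : ℕ, (Dw^[i] (Dw (α j))) w =
        iteratedDeriv (i + 1) (F j) ((τ : ℂ) + Complex.exp w)) := by
    intro w hw
    have h := fun j => T_local P (τ : ℂ) c' (α j) (hαd j)
      (fun w hw => (hαroot w hw (α j w)).2 ⟨j, rfl⟩) w hw
    choose F hF1 hF2 hF3 hF4 using h
    refine ⟨F, hF1, hF2, ?_, fun j i => ?_⟩
    · have : (fun j => F j ((τ : ℂ) + Complex.exp w)) = fun j => α j w := by
        funext j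
        exact hF3 j
      rw [this]
      exact hαinj w hw
    · have h1 := (T_Dw_iter (hF1 j) (hF4 j) (i + 1)).eq_of_nhds
      rw [Function.iterate_succ_apply] at h1
      exact h1
  have hkill : ∀ j, ∀ w : ℂ, w.re < c₀ → ∑ i ∈ Finset.range (r + 1),
      (Δ1 ^ M * p i).eval ((τ : ℂ) + Complex.exp w) * (Dw^[i] (Dw (α j))) w = 0 := by
    intro j w hw
    obtain ⟨F, hF1, hF2, hF3, hF4⟩ := hloc w (hw.trans hc₀c')
    have h1 := (hst _ (hΔw w (hw.trans hc₀c'))).2.2.2.1 (F j) (hF1 j) (hF2 j)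
    have h2 : ∑ i ∈ Finset.range (r + 1),
      (Δ1 ^ M * p i).eval ((τ : ℂ) + Complex.exp w) * (Dw^[i] (Dw (α j))) w =
      (Δ1 ^ M).eval ((τ : ℂ) + Complex.exp w) * ∑ i ∈ Finset.range (r + 1),
        (p i).eval ((τ : ℂ) + Complex.exp w) *
          iteratedDeriv (i + 1) (F j) ((τ : ℂ) + Complex.exp w) := by
      rw [Finset.mul_sum]
      refine Finset.sum_congr rfl fun i _ => ?_
      rw [hF4 j i, eval_mul]
      ring
    rw [h2, h1, mul_zero]
  have hspan : ∀ w : ℂ, w.re < c₀ → ∀ c : Fin r → ℂ,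
      (∀ j, ∑ i : Fin r, c i * (Dw^[(i : ℕ)] (Dw (α j))) w = 0) → c = 0 := by
    intro w hw c hc
    obtain ⟨F, hF1, hF2, hF3, hF4⟩ := hloc w (hw.trans hc₀c')
    refine (hst _ (hΔw w (hw.trans hc₀c'))).2.2.2.2 F hF1 hF2 hF3 c fun j => ?_
    rw [← hc j]
    refine Finset.sum_congr rfl fun i _ => ?_
    rw [hF4 j i]
  have hpr : ∀ z : ℂ, 0 < ‖z - τ‖ → ‖z - τ‖ < Real.exp c₀ → (Δ1 ^ M * p r).eval z ≠ 0 := by
    intro z h1 h2
    have h3 := h2.trans (Real.exp_lt_exp.2 hc₀c')
    rw [eval_mul, eval_pow]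
    exact mul_ne_zero (pow_ne_zero _ (hρΔ z (h3.trans_le hc'ρ))) (hst z (hΔne z h1 h3)).2.2.1
  obtain ⟨K0, hK0⟩ := periodic_ext (τ : ℂ) c₀ N hN r (fun i => Δ1 ^ M * p i) hpr P.natDegree
    (fun j => Dw (α j)) hgd hgper ⟨_, _, hggrow⟩ hkill hspan
  refine ⟨M * m0 + K0, fun f hf => ?_⟩
  obtain ⟨S, hS⟩ := hf
  -- Fe is holomorphic off the segment
  have hdc : ContinuousOn (deriv V) (Ioo b τ) := fun t ht =>
    (hV t ht).deriv.continuousAt.continuousWithinAt
  have hFed : DifferentiableOn ℂ Fe {z : ℂ | ∀ t ∈ Icc b τ, z ≠ (t : ℂ)} := by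
    rw [hFe]
    exact T_cauchy b τ (deriv V) (hdc.aestronglyMeasurable measurableSet_Ioo) MV hVb
  have hoff : ∀ z : ℂ, z - τ ∈ Complex.slitPlane → ∀ t ∈ Icc b τ, z ≠ (t : ℂ) := by
    intro z hz t ht h0
    rw [h0] at hz
    have h1 : (t : ℂ) - τ = ((t - τ : ℝ) : ℂ) := by push_cast; ring
    rw [h1, Complex.ofReal_mem_slitPlane] at hz
    linarith [ht.2]
  have hFea : ∀ z : ℂ, z - τ ∈ Complex.slitPlane → AnalyticAt ℂ Fe z := fun z hz =>
    hFed.analyticAt ((T_offopen b τ).mem_nhds (hoff z hz))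
  have hfa : ∀ z : ℂ, AnalyticAt ℂ (fun z => f.eval z) z := fun z =>
    (f.differentiable).analyticAt z
  obtain ⟨Y, hYd, hYeq, hYper⟩ := hK0 (-((X - C (τ : ℂ)) ^ K0 * S))
    ((Dvd.intro _ rfl : (X - C (τ : ℂ)) ^ K0 ∣ (X - C (τ : ℂ)) ^ K0 * S).neg_right)
    (fun z => Fe z - f.eval z)
    (fun z hz => ((hFea z hz.2).sub (hfa z)).differentiableAt.differentiableWithinAt) (by
      intro z hz1 hz2
      have hzne : z - τ ≠ 0 := Complex.slitPlane_ne_zero hz2
      have h1 : ∀ i, iteratedDeriv i (fun z => Fe z - f.eval z) z =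
          iteratedDeriv i Fe z - (derivative^[i] f).eval z := by
        intro i
        rw [iteratedDeriv_fun_sub (hFea z hz2).contDiffAt (hfa z).contDiffAt, T_poly]
      have h2 := hLF z (hoff z hz2)
      have h3 := congrArg (eval z) hS
      rw [eval_sub, eval_finsetSum, eval_mul, eval_pow, eval_sub, eval_X, eval_C] at h3
      have h4 : (z - τ) ^ (M * m0) * ∑ i ∈ Finset.range (r + 1),
          (Δ1 ^ M * p i).eval z * (iteratedDeriv i Fe z - (derivative^[i] f).eval z) =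
          Q.eval z - ∑ i ∈ Finset.range (r + 1), (Δ ^ M * p i * (derivative^[i] f)).eval z := by
        rw [← h2, ← Finset.sum_sub_distrib, Finset.mul_sum]
        refine Finset.sum_congr rfl fun i _ => ?_
        simp only [eval_mul, eval_pow, hfe]
        ring
      simp only [h1]
      refine mul_left_cancel₀ (pow_ne_zero (M * m0) hzne) ?_
      rw [h4, eval_neg, eval_mul, eval_pow, eval_sub, eval_X, eval_C]
      rw [pow_add] at h3
      linear_combination -h3)
  -- the periodic extension of Fe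
  set Ft : ℂ → ℂ := fun w => Y w + f.eval ((τ : ℂ) + Complex.exp w) with hFt
  have hFtd : DifferentiableOn ℂ Ft {w | w.re < c₀} := by
    refine hYd.add ?_
    have h1 : Differentiable ℂ fun w : ℂ => f.eval ((τ : ℂ) + Complex.exp w) :=
      f.differentiable.comp (by fun_prop : Differentiable ℂ fun w : ℂ => (τ : ℂ) + Complex.exp w)
    exact h1.differentiableOn
  have hFteq : ∀ w : ℂ, w.re < c₀ → |w.im| < Real.pi → Ft w = Fe ((τ : ℂ) + Complex.exp w) := by
    intro w hw1 hw2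
    simp only [hFt]
    rw [hYeq w hw1 hw2]
    ring
  have hFtper : ∀ w : ℂ, w.re < c₀ → Ft (w + 2 * Real.pi * Complex.I * N) = Ft w := by
    intro w hw
    simp only [hFt]
    rw [hYper w hw]
    have h1 : Complex.exp (w + 2 * Real.pi * Complex.I * N) = Complex.exp w := by
      have : w + 2 * Real.pi * Complex.I * N = w + N * (2 * Real.pi * Complex.I) := by ring
      rw [this]
      exact (Complex.exp_periodic.nat_mul N) w
    rw [h1]
  -- the root which is V
  have hbV : ∀ s : ℝ, s < c' → τ - Real.exp s ∈ Ioo b τ := by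
    intro s hs
    have := Real.exp_lt_exp.2 hs
    exact ⟨by linarith, by linarith [Real.exp_pos s]⟩
  obtain ⟨j0, hj0⟩ : ∃ j0, ∀ s : ℝ, s < c' →
      α j0 ((s : ℂ) + Real.pi * Complex.I) = ((V (τ - Real.exp s) : ℝ) : ℂ) := by
    let T : Set ℂ := {w | w.re < c' ∧ w.im = Real.pi}
    have hTc : IsPreconnected T := by
      have h1 : Convex ℝ T := by
        have h2 : Convex ℝ {w : ℂ | w.re < c'} := convex_halfSpace_re_lt c'
        have h3 : Convex ℝ {w : ℂ | w.im = Real.pi} :=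
          convex_hyperplane (f := fun w : ℂ => w.im) ⟨Complex.add_im, by simp⟩ Real.pi
        exact h2.inter h3
      exact h1.isPreconnected
    have hTne : T.Nonempty := ⟨((c' - 1 : ℝ) : ℂ) + Real.pi * Complex.I, by simp [T]⟩
    have hTexp : ∀ w ∈ T, (τ : ℂ) + Complex.exp w = ((τ - Real.exp w.re : ℝ) : ℂ) := by
      intro w hw
      have h1 : w = (w.re : ℂ) + Real.pi * Complex.I := by
        conv_lhs => rw [← Complex.re_add_im w, hw.2]
      conv_lhs => rw [h1, T_exppi]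
      push_cast
      ring
    have hmapeval : ∀ z v : ℂ, (P.map (evalRingHom z)).eval v = P.evalEval z v := by
      intro z v
      rw [← map_evalRingHom_eval]
    obtain ⟨j0, hj0⟩ := root_unique hTc hTne P.natDegree
      (fun w => P.map (evalRingHom ((τ : ℂ) + Complex.exp w))) α
      (fun j => ((hαd j).continuousOn).mono fun w hw => hw.1)
      (fun w hw => hαinj w hw.1)
      (fun w hw v => by rw [hmapeval]; exact hαroot w hw.1 v)
      (fun w => ((V (τ - Real.exp w.re) : ℝ) : ℂ)) (by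
        intro w hw
        have h1 : ContinuousAt V (τ - Real.exp w.re) := (hV _ (hbV _ hw.1)).continuousAt
        have h2 : ContinuousAt (fun w : ℂ => τ - Real.exp w.re) w := by fun_prop
        have h3 : ContinuousAt (fun w : ℂ => V (τ - Real.exp w.re)) w :=
          ContinuousAt.comp (f := fun w : ℂ => τ - Real.exp w.re) h1 h2
        exact (Complex.continuous_ofReal.continuousAt.comp h3).continuousWithinAt) (by
        intro w hw
        rw [hmapeval, hTexp w hw]
        exact hPV _ (hbV _ hw.1))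
    refine ⟨j0, fun s hs => ?_⟩
    have h1 := hj0 ((s : ℂ) + Real.pi * Complex.I) (by
      show ((s : ℂ) + Real.pi * Complex.I).re < c' ∧ ((s : ℂ) + Real.pi * Complex.I).im = Real.pi
      simpa using hs)
    rw [← h1]
    simp
  have hAt := T_step8 (α j0) c' (hαd j0) V b τ hV hc'b hj0
  -- the jump relation
  have hjump := T_jump b τ V hV MV hVb Fe hFe c₀
    ((Real.exp_le_exp.2 hc₀c'.le).trans hc'b) Ft hFtd hFteq
  have hopen : IsOpen {w : ℂ | w.re < c₀} := isOpen_lt Complex.continuous_re continuous_const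
  have hpre : IsPreconnected {w : ℂ | w.re < c₀} := (convex_halfSpace_re_lt c₀).isPreconnected
  have hshift : ∀ (w : ℂ) (k : ℕ), w.re < c₀ → (w - 2 * Real.pi * Complex.I * k).re < c₀ := by
    intro w k hw
    simpa using hw
  set φ : ℂ → ℂ := fun w => Ft w - Ft (w - 2 * Real.pi * Complex.I) +
    2 * Real.pi * Complex.I * Dw (α j0) w with hφ
  have hφd : DifferentiableOn ℂ φ {w | w.re < c₀} := by
    refine (hFtd.sub ?_).add ((hgd j0).const_mul _)
    have h1 : DifferentiableOn ℂ (fun w : ℂ => w - 2 * Real.pi * Complex.I)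
      {w | w.re < c₀} := by fun_prop
    refine hFtd.comp h1 ?_
    intro w hw
    show (w - 2 * Real.pi * Complex.I).re < c₀
    simpa using hw
  have hφ0 : ∀ s : ℝ, s < c₀ → φ ((s : ℂ) + Real.pi * Complex.I) = 0 := by
    intro s hs
    have h1 := hjump s hs
    have h2 := hAt s (hs.trans hc₀c')
    simp only [hφ]
    have h3 : (s : ℂ) + Real.pi * Complex.I - 2 * Real.pi * Complex.I =
        (s : ℂ) - Real.pi * Complex.I := by ring
    rw [h3, h1, h2]
    ring
  have hφz : EqOn φ 0 {w | w.re < c₀} := by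
    refine (hφd.analyticOnNhd hopen).eqOn_zero_of_preconnected_of_frequently_eq_zero hpre
      (z₀ := ((c₀ - 1 : ℝ) : ℂ) + Real.pi * Complex.I) (by simp) ?_
    have ht : Tendsto (fun s : ℝ => (s : ℂ) + Real.pi * Complex.I) (𝓝[≠] (c₀ - 1))
        (𝓝[≠] (((c₀ - 1 : ℝ) : ℂ) + Real.pi * Complex.I)) := by
      refine tendsto_nhdsWithin_iff.2 ⟨?_, ?_⟩
      · have h1 : Continuous fun s : ℝ => (s : ℂ) + Real.pi * Complex.I := by fun_prop
        exact (h1.tendsto (c₀ - 1)).mono_left nhdsWithin_le_nhds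
      · filter_upwards [self_mem_nhdsWithin] with s hs h0
        apply hs
        have h1 : (s : ℂ) + Real.pi * Complex.I =
          ((c₀ - 1 : ℝ) : ℂ) + Real.pi * Complex.I := h0
        have h2 : (s : ℂ) = ((c₀ - 1 : ℝ) : ℂ) := add_right_cancel h1
        exact_mod_cast h2
    have hev : ∀ᶠ s : ℝ in 𝓝[≠] (c₀ - 1), φ ((s : ℂ) + Real.pi * Complex.I) = 0 := by
      have h1 : ∀ᶠ s : ℝ in 𝓝 (c₀ - 1), s < c₀ := gt_mem_nhds (by linarith)
      filter_upwards [nhdsWithin_le_nhds h1] with s hs using hφ0 s hs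
    exact ht.frequently hev.frequently
  -- sum over the period
  have hSum : ∀ w : ℂ, w.re < c₀ →
      ∑ k ∈ Finset.range N, Dw (α j0) (w - 2 * Real.pi * Complex.I * k) = 0 := by
    intro w hw
    have h1 : ∀ k : ℕ, 2 * Real.pi * Complex.I *
        Dw (α j0) (w - 2 * Real.pi * Complex.I * k) =
        Ft (w - 2 * Real.pi * Complex.I * ((k + 1 : ℕ) : ℂ)) -
          Ft (w - 2 * Real.pi * Complex.I * k) := by
      intro k
      have h2 := hφz (hshift w k hw)
      simp only [hφ, Pi.zero_apply] at h2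
      have h3 : w - 2 * Real.pi * Complex.I * k - 2 * Real.pi * Complex.I =
        w - 2 * Real.pi * Complex.I * ((k + 1 : ℕ) : ℂ) := by push_cast; ring
      rw [h3] at h2
      linear_combination h2
    have h4 : 2 * Real.pi * Complex.I * ∑ k ∈ Finset.range N,
        Dw (α j0) (w - 2 * Real.pi * Complex.I * k) = 0 := by
      rw [Finset.mul_sum, Finset.sum_congr rfl fun k _ => h1 k,
        Finset.sum_range_sub (fun k : ℕ => Ft (w - 2 * Real.pi * Complex.I * (k : ℂ)))]
      have h5 := hFtper (w - 2 * Real.pi * Complex.I * N) (hshift w N hw)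
      rw [sub_add_cancel] at h5
      rw [← h5]
      simp
    exact (mul_eq_zero.1 h4).resolve_left Complex.two_pi_I_ne_zero
  have ha : ∀ s < c₀, C₁ * Real.exp (q * s) ≤ deriv V (τ - Real.exp s) ∧
      deriv V (τ - Real.exp s) ≤ C₂ * Real.exp (q * s) := by
    intro s hs
    have h1 := hexp (Real.exp s) (Real.exp_pos s)
      ((Real.exp_lt_exp.2 (hs.trans hc₀c')).trans_le hc'h)
    have h2 : Real.exp s ^ q = Real.exp (q * s) := by rw [Real.exp_nat_mul]
    rwa [h2] at h1
  rcases laurent c₀ N hN (Dw (α j0)) (hgd j0) (hgper j0) _ _ (hggrow j0) with hz | ⟨l, G, hG, hG0, c₁, hc₁, hrep⟩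
  · have h1 := hz (((c₀ - 1 : ℝ) : ℂ) + Real.pi * Complex.I) (by simp)
    have h2 := hAt (c₀ - 1) (by linarith)
    rw [h1] at h2
    have h3 := (ha (c₀ - 1) (by linarith)).1
    have h4 : deriv V (τ - Real.exp (c₀ - 1)) = 0 := by exact_mod_cast h2.symm
    rw [h4] at h3
    have : 0 < C₁ * Real.exp (q * (c₀ - 1)) := by positivity
    linarith
  · exact T_final c₀ N hN (Dw (α j0)) q C₁ C₂ hC₁ (fun s => deriv V (τ - Real.exp s)) ha
      (fun s hs => hAt s (hs.trans hc₀c')) hSum l G hG hG0 c₁ hc₁ hrep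

end AR.J5810

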