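import Mathlib
import Pool.Agent.Helper272.Arn.J5677
import Pool.Agent.Helper272.Ell.J4002

set_option autoImplicit false
open Polynomial Set Filter Topology Metric MeasureTheory
open scoped ContDiff

namespace AR.J5811

open AS.J4002 (compl_real_preconn)
open AR.J5677 (taylor_solv)

/-- Cauchy type integrals are differentiable off the support -/
theorem cauchy_diff (μ : Measure ℝ) (g γ : ℝ → ℂ) (hg : Integrable g μ)
    (hγ : AEStronglyMeasurable γ μ) (z₀ : ℂ) (δ : ℝ) (hδ : 0 < δ)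
    (h : ∀ᵐ s ∂μ, δ ≤ ‖z₀ - γ s‖) :
    DifferentiableAt ℂ (fun z => ∫ s, g s / (z - γ s) ∂μ) z₀ := by
  have hmeas : ∀ z : ℂ, AEStronglyMeasurable (fun s => g s / (z - γ s)) μ := fun z =>
    hg.aestronglyMeasurable.div₀ (aestronglyMeasurable_const.sub hγ)
  have hb : ∀ᵐ s ∂μ, ∀ z ∈ ball z₀ (δ / 2), δ / 2 ≤ ‖z - γ s‖ := by
    filter_upwards [h] with s hs z hz
    rw [mem_ball, dist_eq_norm] at hz
    have h1 : ‖z₀ - γ s‖ ≤ ‖z - γ s‖ + ‖z - z₀‖ := by
      have : z₀ - γ s = (z - γ s) - (z - z₀) := by ring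
      rw [this]
      exact norm_sub_le _ _
    linarith
  have hint : Integrable (fun s => g s / (z₀ - γ s)) μ := by
    refine Integrable.mono' (hg.norm.div_const (δ / 2)) (hmeas z₀) ?_
    filter_upwards [hb] with s hs
    have h1 := hs z₀ (mem_ball_self (by positivity))
    rw [norm_div]
    exact div_le_div_of_nonneg_left (norm_nonneg _) (by positivity) h1
  refine (hasDerivAt_integral_of_dominated_loc_of_deriv_le (s := ball z₀ (δ / 2))
    (bound := fun s => ‖g s‖ / (δ / 2) ^ 2)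
    (F' := fun z s => - g s / (z - γ s) ^ 2) (ball_mem_nhds _ (by positivity))
    (Filter.Eventually.of_forall hmeas) hint ?_ ?_ ?_ ?_).2.differentiableAt
  · exact hg.aestronglyMeasurable.neg.div₀ ((aestronglyMeasurable_const.sub hγ).pow 2)
  · filter_upwards [hb] with s hs z hz
    have h1 := hs z hz
    rw [norm_div, norm_neg, norm_pow]
    exact div_le_div_of_nonneg_left (norm_nonneg _) (by positivity)
      (pow_le_pow_left₀ (by positivity) h1 2)
  · exact hg.norm.div_const _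
  · filter_upwards [hb] with s hs z hz
    have h1 := hs z hz
    have hne : z - γ s ≠ 0 := by
      intro h0
      rw [h0, norm_zero] at h1
      linarith
    have h2 : HasDerivAt (fun z => z - γ s) 1 z := (hasDerivAt_id z).sub_const _
    have h3 : HasDerivAt (fun z => g s / (z - γ s)) ((0 * (z - γ s) - g s * 1) / (z - γ s) ^ 2) z :=
      (hasDerivAt_const z (g s)).fun_div h2 hne
    have h4 : (0 * (z - γ s) - g s * 1) / (z - γ s) ^ 2 = - g s / (z - γ s) ^ 2 := by ring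
    rw [h4] at h3
    exact h3

theorem cauchy_analytic (μ : Measure ℝ) (g γ : ℝ → ℂ) (hg : Integrable g μ)
    (hγ : AEStronglyMeasurable γ μ) (z₀ : ℂ) (δ : ℝ) (hδ : 0 < δ)
    (h : ∀ᵐ s ∂μ, δ ≤ ‖z₀ - γ s‖) :
    AnalyticAt ℂ (fun z => ∫ s, g s / (z - γ s) ∂μ) z₀ := by
  rw [Complex.analyticAt_iff_eventually_differentiableAt]
  filter_upwards [ball_mem_nhds z₀ (show 0 < δ / 2 by positivity)] with z hz
  refine cauchy_diff μ g γ hg hγ z (δ / 2) (by positivity) ?_
  filter_upwards [h] with s hs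
  rw [mem_ball, dist_eq_norm] at hz
  have h1 : ‖z₀ - γ s‖ ≤ ‖z - γ s‖ + ‖z - z₀‖ := by
    have : z₀ - γ s = (z - γ s) - (z - z₀) := by ring
    rw [this]
    exact norm_sub_le _ _
  linarith

theorem open_off (b τ : ℝ) : IsOpen {z : ℂ | ∀ t ∈ Icc b τ, z ≠ (t : ℂ)} := by
  have : {z : ℂ | ∀ t ∈ Icc b τ, z ≠ (t : ℂ)} = ((fun t : ℝ => (t : ℂ)) '' Icc b τ)ᶜ := by
    ext z
    simp only [mem_compl_iff, mem_image, not_exists, not_and]
    constructor
    · intro h t ht h2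
      exact h t ht h2.symm
    · intro h t ht h2
      exact h t ht h2.symm
  rw [this]
  exact (isCompact_Icc.image Complex.continuous_ofReal).isClosed.isOpen_compl

theorem Fe_analytic (b τ : ℝ) (A : ℝ → ℝ) (hA : IntegrableOn A (Ioo b τ))
    (z : ℂ) (hz : ∀ t ∈ Icc b τ, z ≠ (t : ℂ)) :
    AnalyticAt ℂ (fun z => ∫ t in Ioo b τ, ((A t : ℝ) : ℂ) / (z - t)) z := by
  obtain ⟨δ, hδ, hball⟩ := Metric.isOpen_iff.1 (open_off b τ) z hz
  refine cauchy_analytic (volume.restrict (Ioo b τ)) (fun t => (A t : ℂ)) (fun t => (t : ℂ))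
    hA.ofReal Complex.continuous_ofReal.aestronglyMeasurable z δ hδ ?_
  refine (ae_restrict_iff' measurableSet_Ioo).2 (Filter.Eventually.of_forall fun t ht => ?_)
  by_contra hcon
  push Not at hcon
  have h1 : (t : ℂ) ∈ ball z δ := by
    rw [mem_ball, dist_comm, dist_eq_norm]
    exact hcon
  exact hball h1 t (Ioo_subset_Icc_self ht) rfl

theorem ode_analytic (r : ℕ) (c : ℕ → ℂ[X]) (Q : ℂ[X]) (G : ℂ → ℂ) (z : ℂ)
    (hG : AnalyticAt ℂ G z) :
    AnalyticAt ℂ (fun z => ∑ i ∈ Finset.range (r + 1), (c i).eval z * iteratedDeriv i G z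
      - Q.eval z) z := by
  have hp : ∀ P : ℂ[X], AnalyticAt ℂ (fun z => P.eval z) z := fun P =>
    P.differentiable.analyticAt z
  refine AnalyticAt.sub ?_ (hp Q)
  refine Finset.analyticAt_fun_sum _ fun i _ => ?_
  refine (hp _).mul ?_
  rw [iteratedDeriv_eq_iterate]
  exact hG.iterated_deriv i

/-- TARGET 1: the Cauchy transform is analytic off the support and the ODE extends from infinity -/
theorem ode_off (b τ : ℝ) (hbτ : b < τ) (A : ℝ → ℝ) (hA : IntegrableOn A (Ioo b τ)) (Fe : ℂ → ℂ)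
    (hFe : Fe = fun z => ∫ t in Ioo b τ, ((A t : ℝ) : ℂ) / (z - t)) (r : ℕ) (c : ℕ → ℂ[X])
    (Q : ℂ[X]) (M : ℝ) (h : ∀ z : ℂ, M < ‖z‖ → ∑ i ∈ Finset.range (r + 1),
      (c i).eval z * iteratedDeriv i Fe z = Q.eval z) :
    ∀ z : ℂ, (∀ t ∈ Icc b τ, z ≠ (t : ℂ)) → AnalyticAt ℂ Fe z ∧ ∑ i ∈ Finset.range (r + 1),
      (c i).eval z * iteratedDeriv i Fe z = Q.eval z := by
  have han : ∀ z : ℂ, (∀ t ∈ Icc b τ, z ≠ (t : ℂ)) → AnalyticAt ℂ Fe z := by
    intro z hz
    rw [hFe]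
    exact Fe_analytic b τ A hA z hz
  intro z hz
  refine ⟨han z hz, ?_⟩
  have hW : AnalyticOnNhd ℂ (fun z => ∑ i ∈ Finset.range (r + 1),
      (c i).eval z * iteratedDeriv i Fe z - Q.eval z) {z : ℂ | ∀ t ∈ Icc b τ, z ≠ (t : ℂ)} :=
    fun z hz => ode_analytic r c Q Fe z (han z hz)
  have hinf : ∀ t ∈ Icc b τ, (((|M| + 1 : ℝ) : ℂ) * Complex.I) ≠ (t : ℂ) := by
    intro t _ h1
    have := congrArg Complex.im h1
    simp at this
    have h2 := abs_nonneg M
    linarith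
  have hnorm : M < ‖(((|M| + 1 : ℝ) : ℂ) * Complex.I)‖ := by
    rw [norm_mul, Complex.norm_I, mul_one, Complex.norm_real, Real.norm_eq_abs]
    have h1 := le_abs_self (|M| + 1)
    have h2 := le_abs_self M
    linarith
  have hev : (fun z => ∑ i ∈ Finset.range (r + 1),
      (c i).eval z * iteratedDeriv i Fe z - Q.eval z) =ᶠ[𝓝 (((|M| + 1 : ℝ) : ℂ) * Complex.I)] 0 := by
    filter_upwards [(isOpen_lt continuous_const continuous_norm).mem_nhds hnorm] with w hw
    show _ = (0:ℂ)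
    rw [h w hw, sub_self]
  have := hW.eqOn_zero_of_preconnected_of_eventuallyEq_zero
    (compl_real_preconn (Icc b τ) isCompact_Icc) hinf hev hz
  exact sub_eq_zero.1 this

/-- complexification of a real analytic function -/
theorem complexify (A : ℝ → ℝ) (t₀ : ℝ) (hAt : AnalyticAt ℝ A t₀) :
    ∃ (B : ℂ → ℂ) (ρ : ℝ), 0 < ρ ∧ DifferentiableOn ℂ B (ball (t₀ : ℂ) ρ) ∧
      ∀ t : ℝ, |t - t₀| < ρ → B t = A t := by
  obtain ⟨p, hp⟩ := hAt
  rw [hasFPowerSeriesAt_iff'] at hp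
  obtain ⟨ε, hε, hs⟩ := Metric.eventually_nhds_iff.1 hp
  set r := ε / 2 with hr
  have hr0 : 0 < r := by positivity
  have h1 := hs (y := t₀ + r) (by rw [Real.dist_eq]; simp; rw [abs_of_pos hr0]; linarith)
  obtain ⟨C, hC⟩ : ∃ C, ∀ n, |r ^ n * p.coeff n| ≤ C := by
    have h2 := h1.summable.tendsto_atTop_zero
    have h3 := (Metric.isBounded_range_of_tendsto _ h2)
    obtain ⟨C, hC⟩ := isBounded_iff_forall_norm_le.1 h3
    refine ⟨C, fun n => ?_⟩
    have := hC _ (mem_range_self n)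
    simpa using this
  refine ⟨fun w => ∑' n, (p.coeff n : ℂ) * (w - t₀) ^ n, r / 2, by positivity, ?_, ?_⟩
  · refine Complex.differentiableOn_tsum_of_summable_norm (u := fun n => C * (1 / 2) ^ n)
      ((summable_geometric_of_lt_one (by norm_num) (by norm_num)).mul_left C)
      (fun n => by fun_prop) isOpen_ball ?_
    intro n w hw
    rw [mem_ball, dist_eq_norm] at hw
    rw [norm_mul, norm_pow, Complex.norm_real, Real.norm_eq_abs]
    calc |p.coeff n| * ‖w - t₀‖ ^ n ≤ |p.coeff n| * (r / 2) ^ n :=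
          mul_le_mul_of_nonneg_left (pow_le_pow_left₀ (norm_nonneg _) hw.le n) (abs_nonneg _)
      _ = |r ^ n * p.coeff n| * (1 / 2) ^ n := by
          rw [abs_mul, abs_of_pos (pow_pos hr0 n)]
          ring
      _ ≤ C * (1 / 2) ^ n := mul_le_mul_of_nonneg_right (hC n) (by positivity)
  · intro t ht
    have h2 := hs (y := t) (by rw [Real.dist_eq]; linarith)
    have h3 : HasSum (fun n => (((t - t₀) ^ n * p.coeff n : ℝ) : ℂ)) (A t : ℂ) := by
      have := Complex.hasSum_ofReal.2 h2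
      simpa using this
    show ∑' n, (p.coeff n : ℂ) * ((t : ℂ) - t₀) ^ n = A t
    rw [← h3.tsum_eq]
    refine tsum_congr fun n => ?_
    push_cast
    ring

/-- TARGET 2: analytic continuation of a Cauchy transform through the support -/
theorem continue_up (b τ : ℝ) (A : ℝ → ℝ) (hA : IntegrableOn A (Ioo b τ)) (Fe : ℂ → ℂ)
    (hFe : Fe = fun z => ∫ t in Ioo b τ, ((A t : ℝ) : ℂ) / (z - t)) (t₀ : ℝ) (ht₀ : t₀ ∈ Ioo b τ)
    (hAt : AnalyticAt ℝ A t₀) :
    ∃ G : ℂ → ℂ, AnalyticAt ℂ G t₀ ∧ ∃ ε > 0, ∀ z ∈ ball (t₀ : ℂ) ε, 0 < z.im → G z = Fe z := by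
  obtain ⟨B, ρ, hρ, hB, hBA⟩ := complexify A t₀ hAt
  obtain ⟨ε, hε, hε1, hε2, hε3⟩ : ∃ ε : ℝ, 0 < ε ∧ 2 * ε < ρ ∧ b < t₀ - ε ∧ t₀ + ε < τ := by
    refine ⟨min (ρ / 3) (min ((t₀ - b) / 2) ((τ - t₀) / 2)), ?_, ?_, ?_, ?_⟩
    · have := ht₀.1; have := ht₀.2
      refine lt_min (by positivity) (lt_min ?_ ?_) <;> linarith
    · have := min_le_left (ρ / 3) (min ((t₀ - b) / 2) ((τ - t₀) / 2))
      linarith
    · have := (min_le_right (ρ / 3) (min ((t₀ - b) / 2) ((τ - t₀) / 2))).trans (min_le_left _ _)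
      have := ht₀.1
      linarith
    · have := (min_le_right (ρ / 3) (min ((t₀ - b) / 2) ((τ - t₀) / 2))).trans (min_le_right _ _)
      have := ht₀.2
      linarith
  set J : Set ℝ := Ioc (t₀ - ε) (t₀ + ε) with hJ
  have hJsub : J ⊆ Ioo b τ := fun x hx => ⟨by linarith [hx.1], by linarith [hx.2]⟩
  -- the pieces
  let G0 : ℂ → ℂ := fun z => ∫ t in Ioo b τ \ J, ((A t : ℝ) : ℂ) / (z - t)
  let G1 : ℂ → ℂ := fun z => ∫ x in J, B ((x:ℂ) + ((-ε : ℝ) : ℂ) * Complex.I) /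
    (z - ((x:ℂ) + ((-ε : ℝ) : ℂ) * Complex.I))
  let G2 : ℂ → ℂ := fun z => ∫ y in Ioc (-ε) 0, B (((t₀ + ε : ℝ) : ℂ) + (y : ℂ) * Complex.I) /
    (z - (((t₀ + ε : ℝ) : ℂ) + (y : ℂ) * Complex.I))
  let G3 : ℂ → ℂ := fun z => ∫ y in Ioc (-ε) 0, B (((t₀ - ε : ℝ) : ℂ) + (y : ℂ) * Complex.I) /
    (z - (((t₀ - ε : ℝ) : ℂ) + (y : ℂ) * Complex.I))
  have hBc : ContinuousOn B (ball (t₀ : ℂ) ρ) := hB.continuousOn
  have hbox : ∀ x y : ℝ, |x - t₀| ≤ ε → |y| ≤ ε → ((x : ℂ) + (y : ℂ) * Complex.I) ∈ ball (t₀ : ℂ) ρ := by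
    intro x y hx hy
    rw [mem_ball, dist_eq_norm]
    have e : (x : ℂ) + (y : ℂ) * Complex.I - t₀ = ((x - t₀ : ℝ) : ℂ) + (y : ℂ) * Complex.I := by
      push_cast; ring
    rw [e]
    calc ‖((x - t₀ : ℝ) : ℂ) + (y : ℂ) * Complex.I‖ ≤ ‖((x - t₀ : ℝ) : ℂ)‖ + ‖(y : ℂ) * Complex.I‖ :=
          norm_add_le _ _
      _ = |x - t₀| + |y| := by
          rw [norm_mul, Complex.norm_I, mul_one, Complex.norm_real, Complex.norm_real,
            Real.norm_eq_abs, Real.norm_eq_abs]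
      _ < ρ := by linarith
  have hG0 : AnalyticAt ℂ G0 t₀ := by
    refine cauchy_analytic (volume.restrict (Ioo b τ \ J)) (fun t => (A t : ℂ)) (fun t => (t : ℂ))
      (hA.mono_set sdiff_subset).ofReal Complex.continuous_ofReal.aestronglyMeasurable t₀ ε hε ?_
    refine (ae_restrict_iff' (measurableSet_Ioo.diff measurableSet_Ioc)).2
      (Filter.Eventually.of_forall fun t ht => ?_)
    rw [← Complex.ofReal_sub, Complex.norm_real, Real.norm_eq_abs]
    by_contra hcon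
    push Not at hcon
    rw [abs_lt] at hcon
    exact ht.2 ⟨by linarith, by linarith⟩
  have hG1 : AnalyticAt ℂ G1 t₀ := by
    refine cauchy_analytic (volume.restrict J)
      (fun x : ℝ => B ((x:ℂ) + ((-ε : ℝ) : ℂ) * Complex.I))
      (fun x : ℝ => (x:ℂ) + ((-ε : ℝ) : ℂ) * Complex.I) ?_ ?_ t₀ ε hε ?_
    · have hc : ContinuousOn (fun x : ℝ => B ((x:ℂ) + ((-ε : ℝ) : ℂ) * Complex.I))
          (Icc (t₀ - ε) (t₀ + ε)) := by
        refine hBc.comp (by fun_prop) fun x hx => ?_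
        exact hbox x (-ε) (by rw [abs_le]; constructor <;> linarith [hx.1, hx.2])
          (by rw [abs_neg, abs_of_pos hε])
      exact (hc.integrableOn_Icc).mono_set Ioc_subset_Icc_self
    · exact (show Continuous fun x : ℝ => (x:ℂ) + ((-ε : ℝ) : ℂ) * Complex.I by
        fun_prop).aestronglyMeasurable
    · refine Filter.Eventually.of_forall fun x => ?_
      have h1 := Complex.abs_im_le_norm ((t₀:ℂ) - ((x:ℂ) + ((-ε : ℝ) : ℂ) * Complex.I))
      have h2 : ((t₀:ℂ) - ((x:ℂ) + ((-ε : ℝ) : ℂ) * Complex.I)).im = ε := by simp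
      rw [h2, abs_of_pos hε] at h1
      exact h1
  have hside : ∀ σ : ℝ, |σ| = ε → AnalyticAt ℂ (fun z => ∫ y in Ioc (-ε) 0,
      B (((t₀ + σ : ℝ) : ℂ) + (y : ℂ) * Complex.I) /
      (z - (((t₀ + σ : ℝ) : ℂ) + (y : ℂ) * Complex.I))) t₀ := by
    intro σ hσ
    refine cauchy_analytic (volume.restrict (Ioc (-ε) 0))
      (fun y : ℝ => B (((t₀ + σ : ℝ) : ℂ) + (y : ℂ) * Complex.I))
      (fun y : ℝ => ((t₀ + σ : ℝ) : ℂ) + (y : ℂ) * Complex.I) ?_ ?_ t₀ ε hε ?_
    · have hc : ContinuousOn (fun y : ℝ => B (((t₀ + σ : ℝ) : ℂ) + (y : ℂ) * Complex.I))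
          (Icc (-ε) 0) := by
        refine hBc.comp (by fun_prop) fun y hy => ?_
        refine hbox (t₀ + σ) y (by rw [add_sub_cancel_left, hσ]) ?_
        rw [abs_le]; constructor <;> linarith [hy.1, hy.2]
      exact (hc.integrableOn_Icc).mono_set Ioc_subset_Icc_self
    · exact (show Continuous fun y : ℝ => ((t₀ + σ : ℝ) : ℂ) + (y : ℂ) * Complex.I by
        fun_prop).aestronglyMeasurable
    · refine Filter.Eventually.of_forall fun y => ?_
      have h1 := Complex.abs_re_le_norm ((t₀:ℂ) - (((t₀ + σ : ℝ) : ℂ) + (y : ℂ) * Complex.I))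
      have h2 : ((t₀:ℂ) - (((t₀ + σ : ℝ) : ℂ) + (y : ℂ) * Complex.I)).re = -σ := by simp
      rw [h2, abs_neg, hσ] at h1
      exact h1
  have hG2 : AnalyticAt ℂ G2 t₀ := hside ε (abs_of_pos hε)
  have hG3 : AnalyticAt ℂ G3 t₀ := by
    have := hside (-ε) (by rw [abs_neg, abs_of_pos hε])
    simpa only [← sub_eq_add_neg] using this
  refine ⟨fun z => G0 z + (G1 z + Complex.I * G2 z - Complex.I * G3 z), ?_, ε, hε, ?_⟩
  · exact hG0.add ((hG1.add (analyticAt_const.mul hG2)).sub (analyticAt_const.mul hG3))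
  · intro z hz him
    have hFz : Fe z = G0 z + ∫ t in J, ((A t : ℝ) : ℂ) / (z - t) := by
      rw [hFe]
      have hint : IntegrableOn (fun t : ℝ => ((A t : ℝ) : ℂ) / (z - t)) (Ioo b τ) := by
        have hAC : Integrable (fun t => (A t : ℂ)) (volume.restrict (Ioo b τ)) := hA.ofReal
        refine Integrable.mono' (hAC.norm.div_const z.im)
          (hAC.aestronglyMeasurable.div₀
            (show Continuous fun t : ℝ => z - (t:ℂ) by fun_prop).aestronglyMeasurable) ?_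
        refine Filter.Eventually.of_forall fun t => ?_
        rw [norm_div]
        refine div_le_div_of_nonneg_left (norm_nonneg _) him ?_
        have h1 := Complex.abs_im_le_norm (z - (t:ℂ))
        have h2 : (z - (t:ℂ)).im = z.im := by simp
        rw [h2, abs_of_pos him] at h1
        exact h1
      show ∫ t in Ioo b τ, ((A t : ℝ) : ℂ) / (z - t) = _
      conv_lhs => rw [← sdiff_union_of_subset hJsub]
      rw [setIntegral_union disjoint_sdiff_left measurableSet_Ioc (hint.mono_set sdiff_subset)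
        (hint.mono_set hJsub)]
    rw [hFz]
    show G0 z + (G1 z + Complex.I * G2 z - Complex.I * G3 z) = _
    congr 1
    -- rectangle
    have hrect := Complex.integral_boundary_rect_eq_zero_of_differentiableOn
      (fun w => B w / (z - w)) (((t₀ - ε : ℝ) : ℂ) + ((-ε : ℝ) : ℂ) * Complex.I) ((t₀ + ε : ℝ) : ℂ) (by
        have hre1 : (((t₀ - ε : ℝ) : ℂ) + ((-ε : ℝ) : ℂ) * Complex.I).re = t₀ - ε := by simp
        have him1 : (((t₀ - ε : ℝ) : ℂ) + ((-ε : ℝ) : ℂ) * Complex.I).im = -ε := by simp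
        rw [hre1, him1, Complex.ofReal_re, Complex.ofReal_im,
          uIcc_of_le (by linarith : t₀ - ε ≤ t₀ + ε), uIcc_of_le (by linarith : -ε ≤ 0)]
        intro w hw
        rw [Complex.mem_reProdIm] at hw
        have hwb : w ∈ ball (t₀ : ℂ) ρ := by
          have := hbox w.re w.im (by rw [abs_le]; constructor <;> linarith [hw.1.1, hw.1.2])
            (by rw [abs_le]; constructor <;> linarith [hw.2.1, hw.2.2])
          rwa [Complex.re_add_im] at this
        have hne : z - w ≠ 0 := by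
          intro h0
          have := congrArg Complex.im h0
          simp at this
          linarith [hw.2.2]
        exact ((hB.differentiableAt (isOpen_ball.mem_nhds hwb)).div
          ((differentiableAt_const z).sub differentiableAt_id) hne).differentiableWithinAt)
    have hre1 : (((t₀ - ε : ℝ) : ℂ) + ((-ε : ℝ) : ℂ) * Complex.I).re = t₀ - ε := by simp
    have him1 : (((t₀ - ε : ℝ) : ℂ) + ((-ε : ℝ) : ℂ) * Complex.I).im = -ε := by simp
    rw [hre1, him1, Complex.ofReal_re, Complex.ofReal_im,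
      intervalIntegral.integral_of_le (by linarith : t₀ - ε ≤ t₀ + ε),
      intervalIntegral.integral_of_le (by linarith : t₀ - ε ≤ t₀ + ε),
      intervalIntegral.integral_of_le (by linarith : -ε ≤ 0),
      intervalIntegral.integral_of_le (by linarith : -ε ≤ 0)] at hrect
    have hA' : ∫ t in J, ((A t : ℝ) : ℂ) / (z - t) =
        ∫ x in Ioc (t₀ - ε) (t₀ + ε), B ((x:ℂ) + ((0:ℝ):ℂ) * Complex.I) /
          (z - ((x:ℂ) + ((0:ℝ):ℂ) * Complex.I)) := by
      refine setIntegral_congr_fun measurableSet_Ioc fun x hx => ?_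
      have h1 : B (x:ℂ) = A x := hBA x (by rw [abs_lt]; constructor <;> linarith [hx.1, hx.2])
      simp only [Complex.ofReal_zero, zero_mul, add_zero, h1]
    rw [hA']
    have hrect' : G1 z - (∫ x in Ioc (t₀ - ε) (t₀ + ε), B ((x:ℂ) + ((0:ℝ):ℂ) * Complex.I) /
          (z - ((x:ℂ) + ((0:ℝ):ℂ) * Complex.I))) + Complex.I * G2 z - Complex.I * G3 z = 0 := hrect
    linear_combination hrect'

/-- TARGET 3: solvability away from the end points -/
theorem nontop_solv (b τ : ℝ) (hbτ : b < τ) (A : ℝ → ℝ) (hA : IntegrableOn A (Ioo b τ))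
    (hAa : ∀ t ∈ Ioo b τ, AnalyticAt ℝ A t) (Fe : ℂ → ℂ)
    (hFe : Fe = fun z => ∫ t in Ioo b τ, ((A t : ℝ) : ℂ) / (z - t)) (r : ℕ) (c : ℕ → ℂ[X])
    (Q : ℂ[X]) (h : ∀ z : ℂ, (∀ t ∈ Icc b τ, z ≠ (t : ℂ)) → AnalyticAt ℂ Fe z ∧
      ∑ i ∈ Finset.range (r + 1), (c i).eval z * iteratedDeriv i Fe z = Q.eval z)
    (z₀ : ℂ) (hb : z₀ ≠ b) (hτ : z₀ ≠ τ) (K : ℕ) :
    ∃ f : ℂ[X], (X - C z₀) ^ K ∣ ∑ i ∈ Finset.range (r + 1), c i * (derivative^[i] f) - Q := by
  by_cases hz : ∀ t ∈ Icc b τ, z₀ ≠ (t : ℂ)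
  · refine taylor_solv r c Q z₀ Fe (h z₀ hz).1 ?_ K
    filter_upwards [(open_off b τ).mem_nhds hz] with z hz'
    exact (h z hz').2
  · push Not at hz
    obtain ⟨t₀, ht, rfl⟩ := hz
    have ht₀ : t₀ ∈ Ioo b τ := by
      refine ⟨lt_of_le_of_ne ht.1 ?_, lt_of_le_of_ne ht.2 ?_⟩
      · rintro rfl; exact hb rfl
      · rintro rfl; exact hτ rfl
    obtain ⟨G, hG, ε, hε, hGF⟩ := continue_up b τ A hA Fe hFe t₀ ht₀ (hAa t₀ ht₀)
    refine taylor_solv r c Q t₀ G hG ?_ K
    have hW := ode_analytic r c Q G t₀ hG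
    have hzero : ∀ z ∈ ball (t₀ : ℂ) ε, 0 < z.im → ∑ i ∈ Finset.range (r + 1),
        (c i).eval z * iteratedDeriv i G z - Q.eval z = 0 := by
      intro z hz him
      have hopen : IsOpen (ball (t₀ : ℂ) ε ∩ {w : ℂ | 0 < w.im}) :=
        isOpen_ball.inter (isOpen_lt continuous_const Complex.continuous_im)
      have hev : G =ᶠ[𝓝 z] Fe := by
        filter_upwards [hopen.mem_nhds ⟨hz, him⟩] with w hw
        exact hGF w hw.1 hw.2
      have hz' : ∀ t ∈ Icc b τ, z ≠ (t : ℂ) := by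
        intro t _ h1
        rw [h1] at him
        simp at him
      rw [← (h z hz').2, sub_eq_zero]
      refine Finset.sum_congr rfl fun i _ => ?_
      rw [hev.iteratedDeriv_eq i]
    have hfreq : ∃ᶠ z in 𝓝[≠] (t₀ : ℂ), ∑ i ∈ Finset.range (r + 1),
        (c i).eval z * iteratedDeriv i G z - Q.eval z = 0 := by
      rw [(nhdsWithin_hasBasis nhds_basis_ball _).frequently_iff]
      intro δ hδ
      set s := min (δ / 2) (ε / 2) with hs
      have hs0 : 0 < s := lt_min (by positivity) (by positivity)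
      have hd : ‖((t₀:ℂ) + (s:ℂ) * Complex.I) - t₀‖ = s := by
        rw [add_sub_cancel_left, norm_mul, Complex.norm_I, mul_one, Complex.norm_real,
          Real.norm_eq_abs, abs_of_pos hs0]
      refine ⟨(t₀:ℂ) + (s:ℂ) * Complex.I, ⟨?_, ?_⟩, ?_⟩
      · rw [mem_ball, dist_eq_norm, hd]
        have := min_le_left (δ / 2) (ε / 2)
        linarith
      · intro h1
        have h2 : (t₀:ℂ) + (s:ℂ) * Complex.I = t₀ := h1
        rw [h2, sub_self, norm_zero] at hd
        linarith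
      · refine hzero _ ?_ (by simpa using hs0)
        rw [mem_ball, dist_eq_norm, hd]
        have := min_le_right (δ / 2) (ε / 2)
        linarith
    filter_upwards [hW.frequently_zero_iff_eventually_zero.1 hfreq] with z hz
    exact sub_eq_zero.1 hz

end AR.J5811

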