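import Mathlib
import Pool.Agent.Helper272.Arn.Defs

set_option autoImplicit false
open Polynomial Set Filter Topology MeasureTheory Metric
open scoped ContDiff

namespace AR.J5944

theorem bridge_core (Y : Set (ℝ × ℝ)) (hYo : IsOpen Y) (μ : Measure (ℝ × ℝ)) [IsFiniteMeasure μ]
    (hμ : μ Yᶜ = 0) (ρ : ℝ) (hρ : 0 ≤ ρ) (hYρ : ∀ y ∈ Y, ‖y‖ ≤ ρ) (s : ℝ) (A : ℝ → ℝ)
    (hA : IntegrableOn A ((fun y : ℝ × ℝ => y.1 + s * y.2) '' Y))
    (hint : ∀ φ : ℝ → ℝ, Continuous φ → ∫ y, φ (y.1 + s * y.2) ∂μ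
        = ∫ t in (fun y : ℝ × ℝ => y.1 + s * y.2) '' Y, φ t * A t)
    (φ : ℝ → ℂ) (hφ : Continuous φ) :
    (∫ y : ℝ × ℝ, φ (y.1 + s * y.2) ∂μ) =
      ∫ t in (fun y : ℝ × ℝ => y.1 + s * y.2) '' Y, φ t * (A t : ℂ) := by
  set U := (fun y : ℝ × ℝ => y.1 + s * y.2) '' Y with hU
  set M := ρ * (1 + |s|) with hM
  have hM0 : 0 ≤ M := by positivity
  have hY : ∀ y ∈ Y, |y.1 + s * y.2| ≤ M := by
    intro y hy
    have h1 : |y.1| ≤ ρ := (norm_fst_le y).trans (hYρ y hy)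
    have h2 : |y.2| ≤ ρ := (norm_snd_le y).trans (hYρ y hy)
    calc |y.1 + s * y.2| ≤ |y.1| + |s * y.2| := abs_add_le _ _
      _ = |y.1| + |s| * |y.2| := by rw [abs_mul]
      _ ≤ ρ + |s| * ρ := add_le_add h1 (mul_le_mul_of_nonneg_left h2 (abs_nonneg _))
      _ = M := by rw [hM]; ring
  have hUM : U ⊆ Icc (-M) M := by
    rintro _ ⟨y, hy, rfl⟩
    exact abs_le.1 (hY y hy)
  have hUo : IsOpen U := by
    have h1 : IsOpenMap (fun y : ℝ × ℝ => y.1 + s * y.2) := by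
      have h2 := ContinuousLinearMap.isOpenMap
        (ContinuousLinearMap.fst ℝ ℝ ℝ + s • ContinuousLinearMap.snd ℝ ℝ ℝ)
        (fun t => ⟨(t, 0), by simp⟩)
      exact h2
    exact h1 _ hYo
  obtain ⟨B, hB⟩ := (isCompact_Icc (a := -M) (b := M)).exists_bound_of_continuousOn hφ.continuousOn
  have hl : Continuous (fun y : ℝ × ℝ => y.1 + s * y.2) := by fun_prop
  have hYae : ∀ᵐ y ∂μ, y ∈ Y := by
    rw [ae_iff]
    exact hμ
  have hLi : Integrable (fun y : ℝ × ℝ => φ (y.1 + s * y.2)) μ := by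
    refine Integrable.of_bound (hφ.comp hl).aestronglyMeasurable B ?_
    filter_upwards [hYae] with y hy
    exact hB _ (abs_le.1 (hY y hy))
  have hRi : IntegrableOn (fun t => φ t * (A t : ℂ)) U := by
    have h1 : IntegrableOn (fun t => (A t : ℂ)) U := hA.ofReal
    refine Integrable.bdd_mul (c := B) h1 (hφ.aestronglyMeasurable) ?_
    rw [ae_restrict_iff' hUo.measurableSet]
    exact Eventually.of_forall fun t ht => hB t (hUM ht)
  rw [← integral_re_add_im hLi, ← integral_re_add_im hRi]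
  have e1 := hint (fun t => (φ t).re) (Complex.continuous_re.comp hφ)
  have e2 := hint (fun t => (φ t).im) (Complex.continuous_im.comp hφ)
  have e3 : ∀ t, RCLike.re (φ t * (A t : ℂ)) = (φ t).re * A t := by
    intro t
    show (φ t * (A t : ℂ)).re = _
    simp
  have e4 : ∀ t, RCLike.im (φ t * (A t : ℂ)) = (φ t).im * A t := by
    intro t
    show (φ t * (A t : ℂ)).im = _
    simp
  simp only [e3, e4]
  have e5 : (∫ y : ℝ × ℝ, RCLike.re (φ (y.1 + s * y.2)) ∂μ) = ∫ t in U, (φ t).re * A t := e1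
  have e6 : (∫ y : ℝ × ℝ, RCLike.im (φ (y.1 + s * y.2)) ∂μ) = ∫ t in U, (φ t).im * A t := e2
  rw [e5, e6]

/-- TARGET 1 -/
theorem Fe_eq2 (Y : Set (ℝ × ℝ)) (hYo : IsOpen Y) (μ : Measure (ℝ × ℝ)) [IsFiniteMeasure μ]
    (hμ : μ Yᶜ = 0) (ρ : ℝ) (hρ : 0 ≤ ρ) (hYρ : ∀ y ∈ Y, ‖y‖ ≤ ρ) (s : ℝ) (A : ℝ → ℝ)
    (hA : IntegrableOn A ((fun y : ℝ × ℝ => y.1 + s * y.2) '' Y))
    (hint : ∀ φ : ℝ → ℝ, Continuous φ → ∫ y, φ (y.1 + s * y.2) ∂μ
        = ∫ t in (fun y : ℝ × ℝ => y.1 + s * y.2) '' Y, φ t * A t)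
    (z : ℂ) (hz : ρ * (1 + |s|) < ‖z‖) :
    FF μ ((s : ℂ), z) = ∫ t in (fun y : ℝ × ℝ => y.1 + s * y.2) '' Y, ((A t : ℝ) : ℂ) / (z - t) := by
  set M := ρ * (1 + |s|) with hM
  have hM0 : 0 ≤ M := by positivity
  have hY : ∀ y ∈ Y, |y.1 + s * y.2| ≤ M := by
    intro y hy
    have h1 : |y.1| ≤ ρ := (norm_fst_le y).trans (hYρ y hy)
    have h2 : |y.2| ≤ ρ := (norm_snd_le y).trans (hYρ y hy)
    calc |y.1 + s * y.2| ≤ |y.1| + |s * y.2| := abs_add_le _ _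
      _ = |y.1| + |s| * |y.2| := by rw [abs_mul]
      _ ≤ ρ + |s| * ρ := add_le_add h1 (mul_le_mul_of_nonneg_left h2 (abs_nonneg _))
      _ = M := by rw [hM]; ring
  have hUo : IsOpen ((fun y : ℝ × ℝ => y.1 + s * y.2) '' Y) := by
    have h1 : IsOpenMap (fun y : ℝ × ℝ => y.1 + s * y.2) := by
      have h2 := ContinuousLinearMap.isOpenMap
        (ContinuousLinearMap.fst ℝ ℝ ℝ + s • ContinuousLinearMap.snd ℝ ℝ ℝ)
        (fun t => ⟨(t, 0), by simp⟩)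
      exact h2
    exact h1 _ hYo
  let c : ℝ → ℝ := fun t => max (-M) (min M t)
  have hc : Continuous c := continuous_const.max (continuous_const.min continuous_id)
  have hcM : ∀ t, |c t| ≤ M := by
    intro t
    rw [abs_le]
    refine ⟨le_max_left _ _, max_le (by linarith) (min_le_left _ _)⟩
  have hct : ∀ t ∈ Icc (-M) M, c t = t := by
    intro t ht
    show max (-M) (min M t) = t
    rw [min_eq_right ht.2, max_eq_right ht.1]
  have hcz : ∀ t, z - (c t : ℂ) ≠ 0 := by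
    intro t h
    have h1 : z = (c t : ℂ) := sub_eq_zero.1 h
    have h2 : ‖z‖ = |c t| := by rw [h1, Complex.norm_real, Real.norm_eq_abs]
    have := hcM t
    linarith
  have hφ : Continuous (fun t : ℝ => (z - (c t : ℂ))⁻¹) :=
    (continuous_const.sub (Complex.continuous_ofReal.comp hc)).inv₀ hcz
  have key := bridge_core Y hYo μ hμ ρ hρ hYρ s A hA hint _ hφ
  have hL : FF μ ((s : ℂ), z) = ∫ y : ℝ × ℝ, (z - (c (y.1 + s * y.2) : ℂ))⁻¹ ∂μ := by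
    unfold FF
    refine integral_congr_ae ?_
    have h1 : ∀ᵐ y ∂μ, y ∈ Y := by
      rw [ae_iff]
      exact hμ
    filter_upwards [h1] with y hy
    show (z - ((y.1 : ℂ) + (s : ℂ) * (y.2 : ℂ)))⁻¹ = (z - (c (y.1 + s * y.2) : ℂ))⁻¹
    rw [hct _ (abs_le.1 (hY y hy))]
    push_cast
    rfl
  rw [hL, key]
  refine setIntegral_congr_fun hUo.measurableSet ?_
  rintro _ ⟨y, hy, rfl⟩
  show (z - (c (y.1 + s * y.2) : ℂ))⁻¹ * (A (y.1 + s * y.2) : ℂ) =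
    (A (y.1 + s * y.2) : ℂ) / (z - ((y.1 + s * y.2 : ℝ) : ℂ))
  rw [hct _ (abs_le.1 (hY y hy)), div_eq_mul_inv, mul_comm]

/-- TARGET 2 -/
theorem int_poly (Y : Set (ℝ × ℝ)) (hYo : IsOpen Y) (μ : Measure (ℝ × ℝ)) [IsFiniteMeasure μ]
    (hμ : μ Yᶜ = 0) (ρ : ℝ) (hρ : 0 ≤ ρ) (hYρ : ∀ y ∈ Y, ‖y‖ ≤ ρ) (s : ℝ) (A : ℝ → ℝ)
    (hA : IntegrableOn A ((fun y : ℝ × ℝ => y.1 + s * y.2) '' Y))
    (hint : ∀ φ : ℝ → ℝ, Continuous φ → ∫ y, φ (y.1 + s * y.2) ∂μ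
        = ∫ t in (fun y : ℝ × ℝ => y.1 + s * y.2) '' Y, φ t * A t) (P : ℂ[X]) :
    ∫ y : ℝ × ℝ, P.eval ((y.1 : ℂ) + (s : ℂ) * (y.2 : ℂ)) ∂μ
      = ∫ t in (fun y : ℝ × ℝ => y.1 + s * y.2) '' Y, ((A t : ℝ) : ℂ) * P.eval (t : ℂ) := by
  have hφ : Continuous (fun t : ℝ => P.eval (t : ℂ)) := P.continuous.comp Complex.continuous_ofReal
  have key := bridge_core Y hYo μ hμ ρ hρ hYρ s A hA hint _ hφ
  have e1 : (∫ y : ℝ × ℝ, P.eval ((y.1 : ℂ) + (s : ℂ) * (y.2 : ℂ)) ∂μ) =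
      ∫ y : ℝ × ℝ, P.eval (((y.1 + s * y.2 : ℝ)) : ℂ) ∂μ := by
    congr 1
    ext y
    push_cast
    rfl
  rw [e1, key]
  congr 1
  ext t
  ring

theorem analytic_evalEval (P : ℂ[X][X]) {α : ℂ → ℂ} {z₀ : ℂ} (hα : AnalyticAt ℂ α z₀) :
    AnalyticAt ℂ (fun z => P.evalEval z (α z)) z₀ := by
  induction P using Polynomial.induction_on' with
  | add p q hp hq =>
    simp only [evalEval_add]
    exact hp.add hq
  | monomial n a =>
    have : (fun z => (monomial n a : ℂ[X][X]).evalEval z (α z)) = fun z => a.eval z * α z ^ n := by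
      ext z
      simp [evalEval, eval_monomial]
    rw [this]
    exact (a.differentiable.analyticAt z₀).mul (hα.pow n)

/-- TARGET 3: complexification of a real analytic algebraic function (the real variable `t` is
annotated, the posted statement did not elaborate without it) -/
theorem complexify (V : ℝ → ℝ) (t₀ : ℝ) (hV : AnalyticAt ℝ V t₀) :
    ∃ α : ℂ → ℂ, AnalyticAt ℂ α (t₀ : ℂ) ∧ (∀ᶠ t : ℝ in 𝓝 t₀, α (t : ℂ) = (V t : ℂ)) ∧
      (∀ i, iteratedDeriv i α (t₀ : ℂ) = ((iteratedDeriv i V t₀ : ℝ) : ℂ)) ∧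
      ∀ P : ℂ[X][X], (∀ᶠ t : ℝ in 𝓝 t₀, P.evalEval (t : ℂ) (V t : ℂ) = 0) →
        ∀ᶠ z in 𝓝 (t₀ : ℂ), P.evalEval z (α z) = 0 := by
  obtain ⟨p, hp⟩ := hV
  have hsum := hasFPowerSeriesAt_iff'.1 hp
  set q : FormalMultilinearSeries ℂ ℂ ℂ :=
    FormalMultilinearSeries.ofScalars ℂ (fun n => ((p.coeff n : ℝ) : ℂ)) with hq
  obtain ⟨R, hR⟩ := hp
  obtain ⟨r, hr0, hr⟩ := ENNReal.lt_iff_exists_nnreal_btwn.1 (hR.r_pos.trans_le hR.r_le)
  obtain ⟨C, hC, hCb⟩ := p.norm_mul_pow_le_of_lt_radius hr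
  have hqr : 0 < q.radius := by
    refine hr0.trans_le (q.le_radius_of_bound C fun n => ?_)
    have : ‖q n‖ = ‖p n‖ := by
      rw [hq, FormalMultilinearSeries.ofScalars_norm, Complex.norm_real,
        FormalMultilinearSeries.norm_apply_eq_norm_coef]
    rw [this]
    exact hCb n
  have hqb := (q.hasFPowerSeriesOnBall hqr).comp_sub (t₀ : ℂ)
  rw [zero_add] at hqb
  set α : ℂ → ℂ := fun z => q.sum (z - (t₀ : ℂ)) with hα
  have hαa : AnalyticAt ℂ α (t₀ : ℂ) := hqb.analyticAt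
  have hαV : ∀ᶠ t : ℝ in 𝓝 t₀, α (t : ℂ) = (V t : ℂ) := by
    filter_upwards [hsum] with t ht
    have h1 := Complex.hasSum_ofReal.2 ht
    have h2 : α (t : ℂ) = ∑' n, ((p.coeff n : ℝ) : ℂ) • ((t : ℂ) - t₀) ^ n := by
      show q.sum ((t : ℂ) - t₀) = _
      rw [FormalMultilinearSeries.sum]
      congr 1
      ext n
      rw [hq, FormalMultilinearSeries.ofScalars_apply_eq]
    rw [h2, ← h1.tsum_eq]
    congr 1
    ext n
    simp only [smul_eq_mul]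
    push_cast
    ring
  have hreal : Tendsto (fun t : ℝ => (t : ℂ)) (𝓝 t₀) (𝓝 (t₀ : ℂ)) :=
    Complex.continuous_ofReal.tendsto t₀
  have hV' : AnalyticAt ℝ V t₀ := ⟨p, R, hR⟩
  have hder : ∀ i, AnalyticAt ℂ (iteratedDeriv i α) (t₀ : ℂ) ∧ AnalyticAt ℝ (iteratedDeriv i V) t₀ ∧
      ∀ᶠ t : ℝ in 𝓝 t₀, iteratedDeriv i α (t : ℂ) = ((iteratedDeriv i V t : ℝ) : ℂ) := by
    intro i
    induction i with
    | zero =>
      rw [iteratedDeriv_zero, iteratedDeriv_zero]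
      exact ⟨hαa, hV', hαV⟩
    | succ i ih =>
      obtain ⟨h1, h2, h3⟩ := ih
      rw [iteratedDeriv_succ, iteratedDeriv_succ]
      refine ⟨h1.deriv, h2.deriv, ?_⟩
      have h4 : ∀ᶠ t : ℝ in 𝓝 t₀, AnalyticAt ℂ (iteratedDeriv i α) (t : ℂ) :=
        hreal.eventually h1.eventually_analyticAt
      filter_upwards [h3.eventually_nhds, h4, h2.eventually_analyticAt] with t ht hta htr
      have d1 := hta.differentiableAt.hasDerivAt.comp_ofReal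
      have d2 := htr.differentiableAt.hasDerivAt.ofReal_comp
      have d3 : HasDerivAt (fun y : ℝ => iteratedDeriv i α (y : ℂ))
          ((deriv (iteratedDeriv i V) t : ℝ) : ℂ) t := d2.congr_of_eventuallyEq ht
      exact d1.unique d3
  refine ⟨α, hαa, hαV, fun i => (hder i).2.2.self_of_nhds, ?_⟩
  intro P hP
  have hf := analytic_evalEval P hαa
  rw [← hf.frequently_zero_iff_eventually_zero]
  have h1 : ∀ᶠ t : ℝ in 𝓝 t₀, P.evalEval (t : ℂ) (α (t : ℂ)) = 0 := by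
    filter_upwards [hP, hαV] with t ht1 ht2
    rw [ht2]; exact ht1
  have h2 : ∀ᶠ t : ℝ in 𝓝[≠] t₀, P.evalEval (t : ℂ) (α (t : ℂ)) = 0 := h1.filter_mono nhdsWithin_le_nhds
  have h3 : Tendsto (fun t : ℝ => (t : ℂ)) (𝓝[≠] t₀) (𝓝[≠] (t₀ : ℂ)) := by
    refine tendsto_nhdsWithin_iff.2 ⟨hreal.mono_left nhdsWithin_le_nhds, ?_⟩
    filter_upwards [self_mem_nhdsWithin] with t ht
    intro h
    have h' : (t : ℂ) = (t₀ : ℂ) := h
    exact ht (Complex.ofReal_injective h')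
  exact h3.frequently h2.frequently

end AR.J5944

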