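import Mathlib
import Pool.Agent.Helper272.Arn.Defs
import Pool.Agent.Helper272.Arn.J5676
import Pool.Agent.Helper272.Arn.J5677
import Pool.Agent.Helper272.Arn.J5678
import Pool.Agent.Helper272.Arn.J5763
import Pool.Agent.Helper272.Arn.J5758
import Pool.Agent.Helper272.Arn.J5811
import Pool.Agent.Helper272.Arn.J5759
import Pool.Agent.Helper272.Arn.J5810
import Pool.Agent.Helper272.Arn.J5944
import Pool.Agent.Helper272.Ell.J3644

set_option autoImplicit false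
open Polynomial Set Filter Topology MeasureTheory Metric
open scoped ContDiff

namespace AR

open AR.J5676 (resolvent)
open AR.J5677 (transfer taylor_solv)
open AR.J5678 (growth exists_factor exists_factor3)
open AR.J5763 (moment_identity)
open AR.J5758 (exists_Q_gen complex_M)
open AR.J5811 (ode_off nontop_solv)
open AR.J5759 (smooth_algebraic)
open AR.J5810 (top_obstruction)
open AR.J5944 (Fe_eq2 int_poly complexify)
open AS.J3644 (endgame)

/-! ### evaluation lemmas -/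

theorem map_map_eval (P : ℂ[X][X][X]) (s z : ℂ) :
    (P.map (mapRingHom (evalRingHom s))).map (evalRingHom z) = P.map (evalEvalRingHom s z) := by
  rw [Polynomial.map_map]
  congr 1
  ext x
  · simp
  · simp
  · simp

theorem evalEval_map_eval (P : ℂ[X][X][X]) (s z w : ℂ) :
    (P.map (mapRingHom (evalRingHom s))).evalEval z w = (P.map (evalEvalRingHom s z)).eval w := by
  rw [← map_map_eval, ← Polynomial.map_evalRingHom_eval]

theorem evalEval_eq_eval_map (R : ℂ[X][X]) (s z : ℂ) :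
    R.evalEval s z = (R.map (evalRingHom s)).eval z := by
  rw [← Polynomial.map_evalRingHom_eval]


theorem map2_finite_zero (R : ℂ[X][X]) (hR : R ≠ 0) :
    {s : ℂ | R.map (evalRingHom s) = 0}.Finite := by
  classical
  obtain ⟨n, hn⟩ : ∃ n, R.coeff n ≠ 0 := by
    by_contra h
    push Not at h
    exact hR (Polynomial.ext (by simpa using h))
  refine ((R.coeff n).roots.toFinset.finite_toSet).subset fun s hs => ?_
  have h1 : (R.map (evalRingHom s)).coeff n = 0 := by rw [hs]; simp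
  rw [Polynomial.coeff_map] at h1
  simp only [Finset.mem_coe, Multiset.mem_toFinset, mem_roots hn]
  exact h1

theorem map3_finite_zero (P : ℂ[X][X][X]) (hP : P ≠ 0) :
    {s : ℂ | P.map (mapRingHom (evalRingHom s)) = 0}.Finite := by
  obtain ⟨n, hn⟩ : ∃ n, P.coeff n ≠ 0 := by
    by_contra h
    push Not at h
    exact hP (Polynomial.ext (by simpa using h))
  refine (map2_finite_zero _ hn).subset fun s hs => ?_
  have h1 : (P.map (mapRingHom (evalRingHom s))).coeff n = 0 := by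
    rw [show P.map (mapRingHom (evalRingHom s)) = 0 from hs]; simp
  rw [Polynomial.coeff_map] at h1
  exact h1

theorem cont_eval3 {T : Type*} [TopologicalSpace T] (P : ℂ[X][X][X]) (s : ℂ) (z w : T → ℂ)
    (hz : Continuous z) (hw : Continuous w) :
    Continuous fun t => (P.map (evalEvalRingHom s (z t))).eval (w t) := by
  have h : (fun t => (P.map (evalEvalRingHom s (z t))).eval (w t))
      = fun t => ∑ n ∈ P.support, ((P.coeff n).map (evalRingHom s)).eval (z t) * (w t) ^ n := by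
    funext t
    rw [Polynomial.eval_map, Polynomial.eval₂_eq_sum, Polynomial.sum]
    refine Finset.sum_congr rfl fun n _ => ?_
    rw [coe_evalEvalRingHom, evalEval_eq_eval_map]
  rw [h]
  refine continuous_finsetSum _ fun n _ => ?_
  exact ((Polynomial.continuous _).comp hz).mul (hw.pow n)

theorem evalEval_eval_const (P : ℂ[X][X][X]) (s z v : ℂ) :
    (P.eval (C (C v))).evalEval s z = (P.map (evalEvalRingHom s z)).eval v := by
  rw [Polynomial.eval_map, ← coe_evalEvalRingHom, Polynomial.eval, Polynomial.hom_eval₂,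
    RingHom.comp_id]
  congr 1
  simp


theorem V_analytic (Ψ : ℂ[X][X][X]) (s b τ : ℝ)
    (hs : Ψ.map (mapRingHom (evalRingHom (s : ℂ))) ≠ 0) (V : ℝ → ℝ)
    (hV : ContDiffOn ℝ ∞ V (Ioo b τ))
    (h : ∀ t ∈ Ioo b τ, (Ψ.map (evalEvalRingHom (s : ℂ) (t : ℂ))).eval (V t : ℂ) = 0) :
    ∀ t ∈ Ioo b τ, AnalyticAt ℝ V t := by
  intro t ht
  refine smooth_algebraic _ isOpen_Ioo V hV _ hs ?_ t ht
  intro t ht
  rw [evalEval_map_eval]
  exact h t ht

theorem eval_const_ne (Ψ : ℂ[X][X][X]) (hΨ : Irreducible Ψ) (s b τ : ℝ) (hbτ : b < τ) (V : ℝ → ℝ)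
    (hpos : ∀ t ∈ Ioo b τ, 0 < deriv V t)
    (h : ∀ t ∈ Ioo b τ, (Ψ.map (evalEvalRingHom (s : ℂ) (t : ℂ))).eval (V t : ℂ) = 0) (v : ℂ) :
    Ψ.eval (C (C v)) ≠ 0 := by
  intro h0
  have hd : (X - C (C (C v))) ∣ Ψ := dvd_iff_isRoot.2 h0
  have hd' : Ψ ∣ (X - C (C (C v))) := (irreducible_X_sub_C _).dvd_symm hΨ hd
  obtain ⟨q, hq⟩ := hd'
  have hVc : ∀ t ∈ Ioo b τ, ((V t : ℝ) : ℂ) = v := by
    intro t ht
    have h1 := congrArg (fun P : ℂ[X][X][X] => (P.map (evalEvalRingHom (s : ℂ) (t : ℂ))).eval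
      (V t : ℂ)) hq
    simp only [Polynomial.map_mul, eval_mul, h t ht, zero_mul] at h1
    rw [Polynomial.map_sub, Polynomial.map_X, Polynomial.map_C, eval_sub, eval_X, eval_C] at h1
    rw [sub_eq_zero] at h1
    rw [h1, coe_evalEvalRingHom]
    simp
  obtain ⟨t, ht⟩ : (Ioo b τ).Nonempty := nonempty_Ioo.2 hbτ
  have h2 : V =ᶠ[𝓝 t] fun _ => v.re := by
    filter_upwards [isOpen_Ioo.mem_nhds ht] with u hu
    rw [← hVc u hu, Complex.ofReal_re]
  have h3 := h2.deriv_eq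
  have h4 := hpos t ht
  rw [h3] at h4
  simp at h4

theorem end_zero (Ψ : ℂ[X][X][X]) (s b τ : ℝ) (hbτ : b < τ) (V : ℝ → ℝ) (hc : Continuous V)
    (h : ∀ t ∈ Ioo b τ, (Ψ.map (evalEvalRingHom (s : ℂ) (t : ℂ))).eval (V t : ℂ) = 0) :
    ∀ t ∈ Icc b τ, (Ψ.map (evalEvalRingHom (s : ℂ) (t : ℂ))).eval (V t : ℂ) = 0 := by
  have hcont := cont_eval3 Ψ (s : ℂ) (fun t : ℝ => (t : ℂ)) (fun t => (V t : ℂ))
    Complex.continuous_ofReal (Complex.continuous_ofReal.comp hc)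
  have hcl : IsClosed {t : ℝ | (Ψ.map (evalEvalRingHom (s : ℂ) (t : ℂ))).eval (V t : ℂ) = 0} :=
    isClosed_eq hcont continuous_const
  have hsub : Ioo b τ ⊆ {t : ℝ | (Ψ.map (evalEvalRingHom (s : ℂ) (t : ℂ))).eval (V t : ℂ) = 0} :=
    fun t ht => h t ht
  have := closure_minimal hsub hcl
  rw [closure_Ioo hbτ.ne] at this
  exact fun t ht => this ht

/-- killing and bounds for real analytic solutions -/
theorem kill_real (Ψ : ℂ[X][X][X]) (r e : ℕ) (p : ℕ → ℂ[X][X]) (Δ : ℂ[X][X]) (B : ℕ → ℂ[X][X][X])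
    (hres : ∀ s z : ℂ, Δ.evalEval s z ≠ 0 →
      (∀ α : ℂ → ℂ, AnalyticAt ℂ α z →
        (∀ᶠ z' in 𝓝 z, (Ψ.map (evalEvalRingHom s z')).eval (α z') = 0) →
        (∑ i ∈ Finset.range (r + 1), (p i).evalEval s z * iteratedDeriv (i + 1) α z = 0) ∧
        ∀ i ≤ r, (Δ.evalEval s z) ^ e * iteratedDeriv (i + 1) α z
          = ((B i).map (evalEvalRingHom s z)).eval (α z)))
    (s b τ : ℝ) (V : ℝ → ℝ) (hV : ∀ t ∈ Ioo b τ, AnalyticAt ℝ V t)
    (h : ∀ t ∈ Ioo b τ, (Ψ.map (evalEvalRingHom (s : ℂ) (t : ℂ))).eval (V t : ℂ) = 0) (t : ℝ)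
    (ht : t ∈ Ioo b τ) (hΔ : Δ.evalEval (s : ℂ) (t : ℂ) ≠ 0) :
    (∑ i ∈ Finset.range (r + 1), (p i).evalEval (s : ℂ) (t : ℂ) *
      ((iteratedDeriv (i + 1) V t : ℝ) : ℂ) = 0) ∧
    ∀ i ≤ r, (Δ.evalEval (s : ℂ) (t : ℂ)) ^ e * ((iteratedDeriv (i + 1) V t : ℝ) : ℂ)
          = ((B i).map (evalEvalRingHom (s : ℂ) (t : ℂ))).eval (V t : ℂ) := by
  obtain ⟨α, hα, hαe, hαi, hαP⟩ := complexify V t (hV t ht)
  have h1 : ∀ᶠ z in 𝓝 (t : ℂ), (Ψ.map (evalEvalRingHom (s : ℂ) z)).eval (α z) = 0 := by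
    have h2 := hαP (Ψ.map (mapRingHom (evalRingHom (s : ℂ)))) (by
      filter_upwards [isOpen_Ioo.mem_nhds ht] with u hu
      rw [evalEval_map_eval]
      exact h u hu)
    filter_upwards [h2] with z hz
    rw [evalEval_map_eval] at hz
    exact hz
  obtain ⟨h3, h4⟩ := hres (s : ℂ) (t : ℂ) hΔ α hα h1
  have h5 : α (t : ℂ) = ((V t : ℝ) : ℂ) := hαe.self_of_nhds
  constructor
  · rw [← h3]
    refine Finset.sum_congr rfl fun i _ => ?_
    rw [hαi]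
  · intro i hi
    rw [← hαi, h4 i hi, h5]


theorem deriv_integrable (b τ : ℝ) (V : ℝ → ℝ) (hV : ContDiffOn ℝ ∞ V (Ioo b τ))
    (hVb : ∃ M : ℝ, ∀ t ∈ Ioo b τ, |deriv V t| ≤ M) : IntegrableOn (deriv V) (Ioo b τ) := by
  obtain ⟨M, hM⟩ := hVb
  have hc : ContinuousOn (deriv V) (Ioo b τ) :=
    hV.continuousOn_deriv_of_isOpen isOpen_Ioo (by norm_num)
  have : IsFiniteMeasure (volume.restrict (Ioo b τ)) := ⟨by simp⟩
  refine Integrable.of_bound (hc.aestronglyMeasurable measurableSet_Ioo) M ?_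
  rw [ae_restrict_iff' measurableSet_Ioo]
  exact Eventually.of_forall fun t ht => by rw [Real.norm_eq_abs]; exact hM t ht

theorem moment_real (Y : Set (ℝ × ℝ)) (hYo : IsOpen Y) (μ : Measure (ℝ × ℝ)) [IsFiniteMeasure μ]
    (hμ : μ Yᶜ = 0) (ρ : ℝ) (hρ : 0 ≤ ρ) (hYρ : ∀ y ∈ Y, ‖y‖ ≤ ρ) (s b τ : ℝ) (hbτ : b < τ)
    (himg : (fun y : ℝ × ℝ => y.1 + s * y.2) '' Y = Ioo b τ) (V : ℝ → ℝ)
    (hV : ContDiffOn ℝ ∞ V (Ioo b τ)) (hVa : ∀ t ∈ Ioo b τ, AnalyticAt ℝ V t)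
    (hVb : ∃ M : ℝ, ∀ t ∈ Ioo b τ, |deriv V t| ≤ M) (hVc : Continuous V)
    (Ψ : ℂ[X][X][X])
    (h : ∀ t ∈ Ioo b τ, (Ψ.map (evalEvalRingHom (s : ℂ) (t : ℂ))).eval (V t : ℂ) = 0)
    (hint : ∀ φ : ℝ → ℝ, Continuous φ → ∫ y, φ (y.1 + s * y.2) ∂μ
        = ∫ t in (fun y : ℝ × ℝ => y.1 + s * y.2) '' Y, φ t * deriv V t)
    (r e : ℕ) (p : ℕ → ℂ[X][X]) (Δ : ℂ[X][X]) (B : ℕ → ℂ[X][X][X])
    (hres : ∀ s z : ℂ, Δ.evalEval s z ≠ 0 →
      (∀ α : ℂ → ℂ, AnalyticAt ℂ α z →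
        (∀ᶠ z' in 𝓝 z, (Ψ.map (evalEvalRingHom s z')).eval (α z') = 0) →
        (∑ i ∈ Finset.range (r + 1), (p i).evalEval s z * iteratedDeriv (i + 1) α z = 0) ∧
        ∀ i ≤ r, (Δ.evalEval s z) ^ e * iteratedDeriv (i + 1) α z
          = ((B i).map (evalEvalRingHom s z)).eval (α z)))
    (E0 : ℂ[X][X]) (hE0b : E0.evalEval (s : ℂ) (b : ℂ) = 0)
    (hE0τ : E0.evalEval (s : ℂ) (τ : ℂ) = 0) (k : ℕ) :
    ∫ y : ℝ × ℝ, (∑ i ∈ Finset.range (r + 1),
      (-1) ^ i * (derivative^[i] (((E0 * Δ) ^ (e + 1 + r + 1) * (Δ * p i)).map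
        (evalRingHom (s : ℂ)) * X ^ k))).eval ((y.1 : ℂ) + (s : ℂ) * (y.2 : ℂ)) ∂μ = 0 := by
  have hint' := deriv_integrable b τ V hV hVb
  rw [int_poly Y hYo μ hμ ρ hρ hYρ s (deriv V) (by rw [himg]; exact hint') hint, himg]
  have key := kill_real Ψ r e p Δ B hres s b τ V hVa h
  have hcE : Continuous fun t : ℝ => E0.evalEval (s : ℂ) (t : ℂ) := by
    simp only [evalEval_eq_eval_map]
    exact (Polynomial.continuous _).comp Complex.continuous_ofReal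
  have hcΔ : Continuous fun t : ℝ => Δ.evalEval (s : ℂ) (t : ℂ) := by
    simp only [evalEval_eq_eval_map]
    exact (Polynomial.continuous _).comp Complex.continuous_ofReal
  have hcB : ∀ i, Continuous fun t : ℝ =>
      ((B i).map (evalEvalRingHom (s : ℂ) (t : ℂ))).eval (V t : ℂ) := fun i =>
    cont_eval3 (B i) (s : ℂ) (fun t : ℝ => (t : ℂ)) (fun t => (V t : ℂ))
      Complex.continuous_ofReal (Complex.continuous_ofReal.comp hVc)
  have hcf : Continuous fun t : ℝ => ∑ i ∈ Finset.range (r + 1),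
      ‖E0.evalEval (s : ℂ) (t : ℂ)‖ ^ (e + 1) * ‖Δ.evalEval (s : ℂ) (t : ℂ)‖ *
        ‖((B i).map (evalEvalRingHom (s : ℂ) (t : ℂ))).eval (V t : ℂ)‖ :=
    continuous_finsetSum _ fun i _ => ((hcE.norm.pow _).mul hcΔ.norm).mul (hcB i).norm
  obtain ⟨C, hC⟩ := (isCompact_Icc (a := b) (b := τ)).exists_bound_of_continuousOn
    hcf.continuousOn
  have hmain := moment_identity b τ hbτ V hV r (e + 1 + r + 1) (e + 1)
    ((E0 * Δ).map (evalRingHom (s : ℂ))) (by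
      rw [← evalEval_eq_eval_map, evalEval_mul, hE0b, zero_mul]) (by
      rw [← evalEval_eq_eval_map, evalEval_mul, hE0τ, zero_mul])
    (fun i => (Δ * p i).map (evalRingHom (s : ℂ))) le_rfl ?_ ?_ hint' (X ^ k)
  · rw [← hmain]
    refine setIntegral_congr_fun measurableSet_Ioo fun t _ => ?_
    simp only [Polynomial.map_mul, Polynomial.map_pow]
  · refine ⟨C, fun i hi t ht => ?_⟩
    rw [← evalEval_eq_eval_map, evalEval_mul]
    by_cases hΔ : Δ.evalEval (s : ℂ) (t : ℂ) = 0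
    · rw [hΔ, mul_zero, norm_zero, zero_pow (by omega), zero_mul]
      exact (norm_nonneg _).trans (hC t (Ioo_subset_Icc_self ht))
    · have h1 := (key t ht hΔ).2 i hi
      have h2 : ‖E0.evalEval (s : ℂ) (t : ℂ) * Δ.evalEval (s : ℂ) (t : ℂ)‖ ^ (e + 1) *
          |iteratedDeriv (i + 1) V t| = ‖E0.evalEval (s : ℂ) (t : ℂ)‖ ^ (e + 1) *
            ‖Δ.evalEval (s : ℂ) (t : ℂ)‖ *
            ‖((B i).map (evalEvalRingHom (s : ℂ) (t : ℂ))).eval (V t : ℂ)‖ := by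
        rw [← h1, norm_mul, norm_mul, norm_pow, Complex.norm_real, Real.norm_eq_abs]
        ring
      rw [h2]
      have h3 := hC t (Ioo_subset_Icc_self ht)
      rw [Real.norm_eq_abs] at h3
      refine le_trans ?_ ((le_abs_self _).trans h3)
      exact Finset.single_le_sum (f := fun i => ‖E0.evalEval (s : ℂ) (t : ℂ)‖ ^ (e + 1) *
            ‖Δ.evalEval (s : ℂ) (t : ℂ)‖ *
            ‖((B i).map (evalEvalRingHom (s : ℂ) (t : ℂ))).eval (V t : ℂ)‖)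
        (fun i _ => by positivity) (Finset.mem_range.2 (by omega))
  · intro t ht
    by_cases hΔ : Δ.evalEval (s : ℂ) (t : ℂ) = 0
    · refine Finset.sum_eq_zero fun i _ => ?_
      rw [← evalEval_eq_eval_map, evalEval_mul, hΔ, zero_mul, zero_mul]
    · have h1 := (key t ht hΔ).1
      have h2 : ∑ i ∈ Finset.range (r + 1), ((Δ * p i).map (evalRingHom (s : ℂ))).eval (t : ℂ) *
          ((iteratedDeriv (i + 1) V t : ℝ) : ℂ) = Δ.evalEval (s : ℂ) (t : ℂ) *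
          ∑ i ∈ Finset.range (r + 1), (p i).evalEval (s : ℂ) (t : ℂ) *
          ((iteratedDeriv (i + 1) V t : ℝ) : ℂ) := by
        rw [Finset.mul_sum]
        refine Finset.sum_congr rfl fun i _ => ?_
        rw [← evalEval_eq_eval_map, evalEval_mul, mul_assoc]
      rw [h2, h1, mul_zero]


theorem not_countable_Ioo (a b : ℝ) (h : a < b) : ¬ (Ioo a b).Countable := by
  intro hc
  obtain ⟨x, hx, hx'⟩ := (hc.dense_compl ℝ).exists_mem_open isOpen_Ioo (nonempty_Ioo.2 h)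
  exact hx hx'

theorem exists_mem_diff {G S : Set ℝ} (hG : ¬ G.Countable) (hS : S.Countable) : ∃ s ∈ G, s ∉ S := by
  by_contra h
  push Not at h
  exact hG (hS.mono h)

theorem core2 (k : ℕ) (Y : Set (ℝ × ℝ)) (hYo : IsOpen Y) (hYne : Y.Nonempty)
    (hYb : Bornology.IsBounded Y) (μ : Measure (ℝ × ℝ)) [IsFiniteMeasure μ] (hμ : μ Yᶜ = 0)
    (V : ℝ → ℝ → ℝ) (v₀ : ℝ) (δ : ℝ) (hδ : 0 < δ)
    (hst : ∀ s : ℝ, ∃ b τ : ℝ, b < τ ∧ (fun y : ℝ × ℝ => y.1 + s * y.2) '' Y = Ioo b τ ∧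
      ContDiffOn ℝ ∞ (V s) (Ioo b τ) ∧ (∀ t ∈ Ioo b τ, 0 < deriv (V s) t) ∧
      (∃ M : ℝ, ∀ t ∈ Ioo b τ, |deriv (V s) t| ≤ M) ∧
      (∀ t, t ≤ b → V s t = 0) ∧ (∀ t, τ ≤ t → V s t = v₀) ∧
      Continuous (V s) ∧
      (|s| < δ → ∃ C₁ > 0, ∃ C₂ : ℝ, ∃ h₀ > 0, ∀ h : ℝ, 0 < h → h < h₀ →
        C₁ * h ^ k ≤ deriv (V s) (τ - h) ∧ deriv (V s) (τ - h) ≤ C₂ * h ^ k))
    (hint : ∀ s, ∀ φ : ℝ → ℝ, Continuous φ → ∫ y, φ (y.1 + s * y.2) ∂μ
        = ∫ t in (fun y : ℝ × ℝ => y.1 + s * y.2) '' Y, φ t * deriv (V s) t)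
    (Ψ : ℂ[X][X][X]) (hΨ : Ψ ≠ 0)
    (hΨV : ∀ s t : ℝ, t ∈ (fun y : ℝ × ℝ => y.1 + s * y.2) '' Y →
      (Ψ.map (evalEvalRingHom (s : ℂ) (t : ℂ))).eval (V s t : ℂ) = 0) :
    ∃ a b c d e : ℝ, ∀ s : ℝ,
      sSup ((fun y : ℝ × ℝ => y.1 + s * y.2) '' Y) + sInf ((fun y : ℝ × ℝ => y.1 + s * y.2) '' Y)
        = a + b * s ∧
      sSup ((fun y : ℝ × ℝ => y.1 + s * y.2) '' Y) * sInf ((fun y : ℝ × ℝ => y.1 + s * y.2) '' Y)
        = c + d * s + e * s ^ 2 := by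
  choose b τ hbτ himg hsm hpos hbd hb0 hτ0 hc hexp using hst
  obtain ⟨ρ, hρ, hYρ⟩ : ∃ ρ : ℝ, 0 ≤ ρ ∧ ∀ y ∈ Y, ‖y‖ ≤ ρ := by
    obtain ⟨ρ, hρ⟩ := hYb.exists_norm_le
    exact ⟨max ρ 0, le_max_right _ _, fun y hy => (hρ y hy).trans (le_max_left _ _)⟩
  have hμY : ∀ᵐ y ∂μ, y ∈ Y := by
    rw [ae_iff]; exact hμ
  have hμρ : ∀ᵐ y ∂μ, ‖y‖ ≤ ρ := hμY.mono fun y hy => hYρ y hy
  -- the finite set of bad parameters
  have hF1 : {s : ℝ | Ψ.map (mapRingHom (evalRingHom (s : ℂ))) = 0}.Finite :=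
    (map3_finite_zero Ψ hΨ).preimage Complex.ofReal_injective.injOn
  have hrel : ∀ s : ℝ, ∀ t ∈ Ioo (b s) (τ s),
      (Ψ.map (evalEvalRingHom (s : ℂ) (t : ℂ))).eval (V s t : ℂ) = 0 :=
    fun s t ht => hΨV s t (by rw [himg]; exact ht)
  have hana : ∀ s : ℝ, Ψ.map (mapRingHom (evalRingHom (s : ℂ))) ≠ 0 →
      ∀ t ∈ Ioo (b s) (τ s), AnalyticAt ℝ (V s) t :=
    fun s hs => V_analytic Ψ s _ _ hs (V s) (hsm s) (hrel s)
  have hVi : ∀ s, IntegrableOn (deriv (V s)) (Ioo (b s) (τ s)) := fun s =>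
    deriv_integrable _ _ (V s) (hsm s) (hbd s)
  obtain ⟨G, hG⟩ : ∃ G : Set ℝ,
      G = Ioo (-δ) δ \ {s : ℝ | Ψ.map (mapRingHom (evalRingHom (s : ℂ))) = 0} := ⟨_, rfl⟩
  have hGunc : ¬ G.Countable := by
    intro h
    refine not_countable_Ioo (-δ) δ (by linarith) ((h.union hF1.countable).mono ?_)
    rw [hG]
    exact fun x hx => by
      by_cases hx' : x ∈ {s : ℝ | Ψ.map (mapRingHom (evalRingHom (s : ℂ))) = 0}
      · exact Or.inr hx'
      · exact Or.inl ⟨hx, hx'⟩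
  obtain ⟨Ψ', hirr, hdeg, G', hG'G, hG'unc, hrel'⟩ := exists_factor3 Ψ hΨ G hGunc
    (fun s => Ioo (b s) (τ s)) (fun s _ => isOpen_Ioo) (fun s _ => isPreconnected_Ioo)
    (fun s _ => nonempty_Ioo.2 (hbτ s)) V
    (fun s hs => hana s (by rw [hG] at hs; exact hs.2)) (fun s _ => hrel s)
  obtain ⟨r, p, Δ, e, B, hΔ, hres⟩ := resolvent Ψ' hirr hdeg
  -- the polynomial vanishing at the end points
  obtain ⟨E0, hE0d⟩ : ∃ E0 : ℂ[X][X],
      E0 = Ψ'.eval (C (C ((0 : ℝ) : ℂ))) * Ψ'.eval (C (C (v₀ : ℂ))) := ⟨_, rfl⟩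
  obtain ⟨s₁, hs₁, -⟩ := exists_mem_diff hG'unc countable_empty
  have hE0 : E0 ≠ 0 := by
    rw [hE0d]
    exact mul_ne_zero
      (eval_const_ne Ψ' hirr s₁ _ _ (hbτ s₁) (V s₁) (hpos s₁) (hrel' s₁ hs₁) _)
      (eval_const_ne Ψ' hirr s₁ _ _ (hbτ s₁) (V s₁) (hpos s₁) (hrel' s₁ hs₁) _)
  have hE0b : ∀ s ∈ G', E0.evalEval (s : ℂ) (b s : ℂ) = 0 := by
    intro s hs
    have h1 := end_zero Ψ' s _ _ (hbτ s) (V s) (hc s) (hrel' s hs) (b s)
      (left_mem_Icc.2 (hbτ s).le)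
    rw [hb0 s _ le_rfl] at h1
    rw [hE0d, evalEval_mul, evalEval_eval_const, h1, zero_mul]
  have hE0τ : ∀ s ∈ G', E0.evalEval (s : ℂ) (τ s : ℂ) = 0 := by
    intro s hs
    have h1 := end_zero Ψ' s _ _ (hbτ s) (V s) (hc s) (hrel' s hs) (τ s)
      (right_mem_Icc.2 (hbτ s).le)
    rw [hτ0 s _ le_rfl] at h1
    rw [hE0d, evalEval_mul, evalEval_eval_const _ _ _ (v₀ : ℂ), h1, mul_zero]
  have hana' : ∀ s ∈ G', ∀ t ∈ Ioo (b s) (τ s), AnalyticAt ℝ (V s) t := fun s hs =>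
    hana s (by have := hG'G hs; rw [hG] at this; exact this.2)
  have hG'δ : ∀ s ∈ G', |s| < δ := fun s hs => by
    have := hG'G hs; rw [hG] at this; exact abs_lt.2 this.1
  -- coefficients of the operator
  obtain ⟨c, hcd⟩ : ∃ c : ℕ → ℂ[X][X], c = fun i => (E0 * Δ) ^ (e + 1 + r + 1) * (Δ * p i) :=
    ⟨_, rfl⟩
  have hmom : ∀ s ∈ G', ∀ k : ℕ, ∫ y : ℝ × ℝ, (∑ i ∈ Finset.range (r + 1),
      (-1) ^ i * (derivative^[i] ((c i).map (evalRingHom (s : ℂ)) * X ^ k))).eval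
        ((y.1 : ℂ) + (s : ℂ) * (y.2 : ℂ)) ∂μ = 0 := by
    intro s hs k
    rw [hcd]
    exact moment_real Y hYo μ hμ ρ hρ hYρ s (b s) (τ s) (hbτ s) (himg s) (V s) (hsm s) (hana' s hs)
      (hbd s) (hc s) Ψ' (hrel' s hs) (hint s) r e p Δ B
      (fun s z h α h1 h2 => (hres s z h).2.2.2.1 α h1 h2) E0 (hE0b s hs) (hE0τ s hs) k
  have hG'inf : G'.Infinite := fun h => hG'unc h.countable
  have hmomc := complex_M μ ρ hμρ r c G' hG'inf hmom
  obtain ⟨Q, hQ⟩ := exists_Q_gen μ ρ hρ hμρ r c hmomc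
  -- the Cauchy transforms at real parameters
  obtain ⟨Fe, hFe⟩ : ∃ Fe : ℝ → ℂ → ℂ, ∀ s, Fe s = fun z =>
    ∫ t in Ioo (b s) (τ s), ((deriv (V s) t : ℝ) : ℂ) / (z - t) := ⟨_, fun _ => rfl⟩
  have hode : ∀ s : ℝ, ∀ z : ℂ, (∀ t ∈ Icc (b s) (τ s), z ≠ (t : ℂ)) → AnalyticAt ℂ (Fe s) z ∧
      ∑ i ∈ Finset.range (r + 1), ((c i).map (evalRingHom (s : ℂ))).eval z *
        iteratedDeriv i (Fe s) z = (Q.map (evalRingHom (s : ℂ))).eval z := by
    intro s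
    refine ode_off (b s) (τ s) (hbτ s) (deriv (V s)) (hVi s) (Fe s) (hFe s) r
      (fun i => (c i).map (evalRingHom (s : ℂ))) (Q.map (evalRingHom (s : ℂ))) (ρ * (1 + |s|)) ?_
    intro z hz
    have hn : ‖(s : ℂ)‖ = |s| := by simp
    have hev : Fe s =ᶠ[𝓝 z] fun w => FF μ ((s : ℂ), w) := by
      have ho : IsOpen {z : ℂ | ρ * (1 + |s|) < ‖z‖} := isOpen_lt continuous_const continuous_norm
      filter_upwards [ho.mem_nhds hz] with w hw
      have h1 := Fe_eq2 Y hYo μ hμ ρ hρ hYρ s (deriv (V s)) (by rw [himg]; exact hVi s) (hint s) w hw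
      rw [h1, himg, hFe]
    have h2 := (hQ (s : ℂ) z (by rw [hn]; exact hz)).2
    rw [← evalEval_eq_eval_map, ← h2]
    refine Finset.sum_congr rfl fun i _ => ?_
    rw [← evalEval_eq_eval_map, hev.iteratedDeriv_eq i]
  -- solvability
  have hsolvC : ∀ s z₀ : ℂ, ρ * (1 + ‖s‖) < ‖z₀‖ → ∀ K, Solv r c Q s z₀ K := by
    intro s z₀ hz K
    refine taylor_solv r (fun i => (c i).map (evalRingHom s)) (Q.map (evalRingHom s)) z₀
      (fun z => FF μ (s, z)) (hQ s z₀ hz).1 ?_ K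
    have ho : IsOpen {z : ℂ | ρ * (1 + ‖s‖) < ‖z‖} := isOpen_lt continuous_const continuous_norm
    filter_upwards [ho.mem_nhds hz] with z hz
    simp only [← evalEval_eq_eval_map]
    exact (hQ s z hz).2
  have hsolvR : ∀ s : ℝ, Ψ.map (mapRingHom (evalRingHom (s : ℂ))) ≠ 0 → ∀ z₀ : ℂ,
      z₀ ≠ (b s : ℂ) → z₀ ≠ (τ s : ℂ) → ∀ K, Solv r c Q (s : ℂ) z₀ K := by
    intro s hs z₀ hzb hzτ K
    exact nontop_solv (b s) (τ s) (hbτ s) (deriv (V s)) (hVi s)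
      (fun t ht => (hana s hs t ht).deriv) (Fe s) (hFe s) r
      (fun i => (c i).map (evalRingHom (s : ℂ))) (Q.map (evalRingHom (s : ℂ))) (hode s) z₀ hzb hzτ K
  have htop : ∀ s ∈ G', (E0 * Δ).map (evalRingHom (s : ℂ)) ≠ 0 →
      ¬ ∀ K, Solv r c Q (s : ℂ) (τ s : ℂ) K := by
    intro s hs hg hall
    obtain ⟨C₁, hC₁, C₂, h₀, hh₀, hex⟩ := hexp s (hG'δ s hs)
    obtain ⟨MV, hMV⟩ := hbd s
    obtain ⟨P, hP⟩ : ∃ P : ℂ[X][X], P = Ψ'.map (mapRingHom (evalRingHom (s : ℂ))) := ⟨_, rfl⟩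
    have hgne : ∀ z, ((E0 * Δ).map (evalRingHom (s : ℂ))).eval z ≠ 0 →
        Δ.evalEval (s : ℂ) z ≠ 0 := by
      intro z hz h
      apply hz
      rw [← evalEval_eq_eval_map, evalEval_mul, h, mul_zero]
    have hPmap : ∀ z, P.map (evalRingHom z) = Ψ'.map (evalEvalRingHom (s : ℂ) z) := by
      intro z; rw [hP]; exact map_map_eval Ψ' _ _
    have hPd : P.natDegree = Ψ'.natDegree := by
      obtain ⟨z, hz⟩ : ∃ z, ((E0 * Δ).map (evalRingHom (s : ℂ))).eval z ≠ 0 := by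
        by_contra h
        push Not at h
        exact hg (Polynomial.funext fun z => by rw [h z, eval_zero])
      have h1 := (hres (s : ℂ) z (hgne z hz)).1
      rw [← hPmap] at h1
      refine le_antisymm ?_ ?_
      · rw [hP]; exact natDegree_map_le
      · rw [← h1]; exact natDegree_map_le
    obtain ⟨K, hK⟩ := top_obstruction (b s) (τ s) (hbτ s) (V s) (hana' s hs) MV hMV k C₁ C₂ h₀
      hC₁ hh₀ hex P (by
        intro t ht
        rw [hP, evalEval_map_eval]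
        exact hrel' s hs t ht) r (fun i => (Δ * p i).map (evalRingHom (s : ℂ)))
      ((E0 * Δ).map (evalRingHom (s : ℂ))) hg (by
        intro z hz
        have hΔz := hgne z hz
        obtain ⟨h1, h2, h3, h4, h5⟩ := hres (s : ℂ) z hΔz
        rw [hPmap, hPd]
        refine ⟨h1, h2, ?_, ?_, ?_⟩
        · rw [← evalEval_eq_eval_map, evalEval_mul]
          exact mul_ne_zero hΔz h3
        · intro α hα hαe
          have h6 := (h4 α hα (by
            filter_upwards [hαe] with z' hz'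
            rw [hP, evalEval_map_eval] at hz'
            exact hz')).1
          have h7 : ∑ i ∈ Finset.range (r + 1), ((Δ * p i).map (evalRingHom (s : ℂ))).eval z *
              iteratedDeriv (i + 1) α z = Δ.evalEval (s : ℂ) z *
              ∑ i ∈ Finset.range (r + 1), (p i).evalEval (s : ℂ) z *
                iteratedDeriv (i + 1) α z := by
            rw [Finset.mul_sum]
            refine Finset.sum_congr rfl fun i _ => ?_
            rw [← evalEval_eq_eval_map, evalEval_mul, mul_assoc]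
          rw [h7, h6, mul_zero]
        · intro α hα hαe hinj
          refine h5 α hα (fun j => ?_) hinj
          filter_upwards [hαe j] with z' hz'
          rw [hP, evalEval_map_eval] at hz'
          exact hz') (e + 1 + r + 1) (Q.map (evalRingHom (s : ℂ))) (Fe s) (hFe s) (by
        intro z hz
        rw [← (hode s z hz).2]
        refine Finset.sum_congr rfl fun i _ => ?_
        rw [hcd]
        simp only [Polynomial.map_mul, Polynomial.map_pow])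
    obtain ⟨f, hf⟩ := hall K
    apply hK f
    have h8 : ∑ i ∈ Finset.range (r + 1), ((E0 * Δ).map (evalRingHom (s : ℂ))) ^ (e + 1 + r + 1) *
        (Δ * p i).map (evalRingHom (s : ℂ)) * (derivative^[i] f) - Q.map (evalRingHom (s : ℂ))
        = ∑ i ∈ Finset.range (r + 1), (c i).map (evalRingHom (s : ℂ)) * (derivative^[i] f)
        - Q.map (evalRingHom (s : ℂ)) := by
      rw [hcd]
      simp only [Polynomial.map_mul, Polynomial.map_pow]
    rw [h8]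
    exact hf
  -- the irreducible factor vanishing at the top end point
  obtain ⟨E1, hE1, hE1d, hG3⟩ := exists_factor E0 hE0 G' hG'unc τ hE0τ
  have hgfin : {s : ℝ | (E0 * Δ).map (evalRingHom (s : ℂ)) = 0}.Finite :=
    (map2_finite_zero (E0 * Δ) (mul_ne_zero hE0 hΔ)).preimage Complex.ofReal_injective.injOn
  have hBadc : {s : ℂ | ∃ z₀, E1.evalEval s z₀ = 0 ∧ ∀ K, Solv r c Q s z₀ K}.Countable := by
    by_contra hcon
    obtain ⟨S, hS, hSs⟩ := transfer r c Q E1 hE1 hE1d hcon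
    have hS' : {s : ℝ | (s : ℂ) ∈ S}.Countable :=
      hS.preimage_of_injOn Complex.ofReal_injective.injOn
    obtain ⟨s, hs, hs'⟩ := exists_mem_diff hG3 (hS'.union hgfin.countable)
    simp only [mem_union, mem_setOf_eq, not_or] at hs'
    exact htop s hs.1 hs'.2 (hSs (s : ℂ) hs'.1 (τ s : ℂ) hs.2)
  obtain ⟨Bad, hBad⟩ : ∃ Bad : Set ℂ,
    Bad = {s : ℂ | ∃ z₀, E1.evalEval s z₀ = 0 ∧ ∀ K, Solv r c Q s z₀ K} := ⟨_, rfl⟩
  rw [← hBad] at hBadc
  have hb : ∀ s ∉ Bad, ∀ z, E1.evalEval s z = 0 → ‖z‖ ≤ ρ * (1 + ‖s‖) := by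
    intro s hs z hz
    by_contra hlt
    apply hs
    rw [hBad]
    exact ⟨z, hz, hsolvC s z (not_le.1 hlt)⟩
  obtain ⟨a, Gm, ha, hEG, hmon, hGd, hcoef, T, hT, hTn⟩ := growth E1 hE1 hE1d ρ Bad hBadc hb
  have hGE : ∀ s z, Gm.evalEval s z = 0 ↔ E1.evalEval s z = 0 := by
    intro s z
    rw [hEG, evalEval_mul]
    simp [ha]
  -- the good real parameters
  have hBadr : {s : ℝ | (s : ℂ) ∈ Bad}.Countable :=
    hBadc.preimage_of_injOn Complex.ofReal_injective.injOn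
  obtain ⟨D, hDd⟩ : ∃ D : Set ℝ,
    D = ({s : ℝ | Ψ.map (mapRingHom (evalRingHom (s : ℂ))) = 0} ∪ {s : ℝ | (s : ℂ) ∈ Bad})ᶜ :=
    ⟨_, rfl⟩
  have hDdense : Dense D := by
    rw [hDd]
    exact (hF1.countable.union hBadr).dense_compl ℝ
  have hDmem : ∀ s ∈ D, Ψ.map (mapRingHom (evalRingHom (s : ℂ))) ≠ 0 ∧ (s : ℂ) ∉ Bad := by
    intro s hs
    rw [hDd] at hs
    simp only [mem_compl_iff, mem_union, mem_setOf_eq, not_or] at hs
    exact hs
  have hTr : {s : ℝ | (s : ℂ) ∈ T}.Finite := hT.preimage Complex.ofReal_injective.injOn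
  obtain ⟨s₀, hs₀, hs₀'⟩ := exists_mem_diff hG3
    ((hF1.countable.union hBadr).union hTr.countable)
  rw [mem_union, not_or] at hs₀'
  have hs₀D : s₀ ∈ D := by rw [hDd]; exact hs₀'.1
  refine endgame Y hYo hYne hYb Gm.natDegree Gm hmon rfl hcoef D hDdense ?_ s₀ hs₀D ?_
    (hTn (s₀ : ℂ) hs₀'.2) ?_
  · intro s hs z hz
    rw [hGE] at hz
    obtain ⟨h1, h2⟩ := hDmem s hs
    rw [himg, frontier_Ioo (hbτ s)]
    by_contra hcon
    push Not at hcon
    apply h2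
    rw [hBad]
    exact ⟨z, hz, hsolvR s h1 z (hcon _ (by simp)) (hcon _ (by simp))⟩
  · rw [himg, frontier_Ioo (hbτ s₀)]
    exact Set.toFinite _
  · rw [himg, csSup_Ioo (hbτ s₀), hGE]
    exact hs₀.2

end AR
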