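import Mathlib
import Pool.Agent.Helper272.Arn.Defs

set_option autoImplicit false
open Set Metric MeasureTheory Polynomial
open scoped ContDiff RealInnerProductSpace ENNReal

namespace AR.J5917

theorem ev_eq {n : ℕ} (Φ : MvPolynomial (Fin n ⊕ Fin 2) ℝ) (ξ : EuclideanSpace ℝ (Fin n))
    (t w : ℝ) : ev Φ ξ t w = ∑ d ∈ Φ.support, Φ.coeff d *
      ((∏ i : Fin n, ξ i ^ d (Sum.inl i)) * (t ^ d (Sum.inr 0) * w ^ d (Sum.inr 1))) := by
  unfold ev
  rw [MvPolynomial.eval_eq']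
  apply Finset.sum_congr rfl
  intro d _
  congr 1
  rw [Fintype.prod_sum_type]
  congr 1
  rw [Fin.prod_univ_two]
  rfl

theorem ev_analytic_line {n : ℕ} (Φ : MvPolynomial (Fin n ⊕ Fin 2) ℝ)
    (x y : EuclideanSpace ℝ (Fin n)) (hxy : ∀ s : ℝ, x + s • y ≠ 0) (t w : ℝ) :
    AnalyticOnNhd ℝ (fun s : ℝ => ev Φ ((‖x + s • y‖⁻¹ : ℝ) • (x + s • y)) t w) univ := by
  intro s _
  simp only [ev_eq]
  have h1 : AnalyticAt ℝ (fun s : ℝ => x + s • y) s :=
    analyticAt_const.add (analyticAt_id.smul analyticAt_const)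
  have h2 : AnalyticAt ℝ (fun s : ℝ => ‖x + s • y‖⁻¹) s := by
    have hq : ∀ s : ℝ, ‖x‖ ^ 2 + 2 * (s * ⟪x, y⟫) + s ^ 2 * ‖y‖ ^ 2 = ‖x + s • y‖ ^ 2 := by
      intro s
      rw [norm_add_sq_real, inner_smul_right, norm_smul, mul_pow, Real.norm_eq_abs, sq_abs]
    have h3 : (fun s : ℝ => ‖x + s • y‖⁻¹) = fun s : ℝ =>
        Real.exp (-(1 / 2 * Real.log (‖x‖ ^ 2 + 2 * (s * ⟪x, y⟫) + s ^ 2 * ‖y‖ ^ 2))) := by
      funext s
      have hp : 0 < ‖x + s • y‖ := norm_pos_iff.mpr (hxy s)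
      rw [hq, Real.log_pow, Real.exp_neg]
      congr 1
      rw [show (1 / 2 * ((2 : ℕ) * Real.log ‖x + s • y‖)) = Real.log ‖x + s • y‖ by push_cast; ring,
        Real.exp_log hp]
    rw [h3]
    apply AnalyticAt.rexp
    apply AnalyticAt.neg
    apply analyticAt_const.mul
    apply AnalyticAt.log
    · fun_prop
    · rw [hq]
      have := hxy s
      positivity
  apply Finset.analyticAt_fun_sum
  intro d _
  apply analyticAt_const.mul
  apply AnalyticAt.mul _ analyticAt_const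
  apply Finset.analyticAt_fun_prod
  intro i _
  apply AnalyticAt.pow
  have h4 : (fun s : ℝ => ((‖x + s • y‖⁻¹ : ℝ) • (x + s • y)) i) =
      fun s : ℝ => ‖x + s • y‖⁻¹ * (x i + s * y i) := by
    funext s; simp; ring
  rw [h4]
  apply h2.mul
  fun_prop

theorem ev_cont {n : ℕ} (Φ : MvPolynomial (Fin n ⊕ Fin 2) ℝ) (t w : ℝ) :
    ContinuousOn (fun x : EuclideanSpace ℝ (Fin n) => ev Φ ((‖x‖⁻¹ : ℝ) • x) t w) {0}ᶜ := by
  simp only [ev_eq]
  intro x hx
  have hx0 : ‖x‖ ≠ 0 := by simpa using hx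
  apply ContinuousAt.continuousWithinAt
  apply tendsto_finsetSum
  intro d _
  apply Filter.Tendsto.mul tendsto_const_nhds
  apply Filter.Tendsto.mul _ tendsto_const_nhds
  apply tendsto_finsetProd
  intro i _
  apply Filter.Tendsto.pow
  have h4 : (fun x : EuclideanSpace ℝ (Fin n) => ((‖x‖⁻¹ : ℝ) • x) i) =
      fun x : EuclideanSpace ℝ (Fin n) => ‖x‖⁻¹ * x i := by
    funext s; simp
  have h5 : ContinuousAt (fun x : EuclideanSpace ℝ (Fin n) => ((‖x‖⁻¹ : ℝ) • x) i) x := by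
    rw [h4]
    apply ContinuousAt.mul
    · exact (continuous_norm.continuousAt).inv₀ hx0
    · have : Continuous fun x : EuclideanSpace ℝ (Fin n) => x i := by fun_prop
      exact this.continuousAt
  exact h5

/-- TARGET 1: generic directions -/
theorem generic_dir {n : ℕ} (hn : 2 ≤ n) (Φ : MvPolynomial (Fin n ⊕ Fin 2) ℝ)
    (hΦ : ∃ ξ : EuclideanSpace ℝ (Fin n), ‖ξ‖ = 1 ∧ ∃ t w : ℝ, ev Φ ξ t w ≠ 0)
    (x₀ : EuclideanSpace ℝ (Fin n)) (hx₀ : x₀ ≠ 0) (η : ℝ) (hη : 0 < η) :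
    ∃ x₁ : EuclideanSpace ℝ (Fin n), ∃ η' > 0, ball x₁ η' ⊆ ball x₀ η ∧
      ∀ ξ₀ ∈ ball x₁ η', ξ₀ ≠ 0 ∧ ∃ t w : ℝ, ev Φ ((‖ξ₀‖⁻¹ : ℝ) • ξ₀) t w ≠ 0 := by
  obtain ⟨ζ, hζ, t, w, htw⟩ := hΦ
  -- the open set
  set S : Set (EuclideanSpace ℝ (Fin n)) :=
    {x | x ≠ 0 ∧ ev Φ ((‖x‖⁻¹ : ℝ) • x) t w ≠ 0} with hS
  have hSo : IsOpen S := by
    have := (ev_cont Φ t w).isOpen_inter_preimage isOpen_compl_singleton
      (isOpen_compl_singleton (x := (0 : ℝ)))
    convert this using 1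
    ext x
    simp [hS]
  have hζS : ζ ∈ S := by
    refine ⟨?_, ?_⟩
    · intro h; rw [h] at hζ; simp at hζ
    · simpa [hζ] using htw
  -- a point of S off the line of x₀
  have hex : ∃ z ∈ S, z ∉ Submodule.span ℝ {x₀} := by
    by_cases hz : ζ ∈ Submodule.span ℝ {x₀}
    · have hne : Submodule.span ℝ {x₀} ≠ ⊤ := by
        intro h
        have h1 := finrank_span_singleton (K := ℝ) hx₀
        rw [h, finrank_top, finrank_euclideanSpace_fin] at h1
        omega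
      obtain ⟨v, -, hv⟩ := SetLike.exists_of_lt (lt_top_iff_ne_top.mpr hne)
      have hc : Filter.Tendsto (fun δ : ℝ => ζ + δ • v) (nhds 0) (nhds ζ) := by
        have : Continuous (fun δ : ℝ => ζ + δ • v) := by fun_prop
        have h := this.tendsto 0
        simpa using h
      have h1 : ∀ᶠ δ in nhds (0 : ℝ), ζ + δ • v ∈ S := hc.eventually (hSo.mem_nhds hζS)
      obtain ⟨ε, hε, hb⟩ := Metric.eventually_nhds_iff.mp h1
      refine ⟨ζ + (ε / 2) • v, hb ?_, ?_⟩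
      · rw [Real.dist_eq, sub_zero, abs_of_pos (by positivity)]
        linarith
      · intro h
        have h2 : (ε / 2) • v ∈ Submodule.span ℝ {x₀} := by
          have := Submodule.sub_mem _ h hz
          simpa using this
        have h3 := Submodule.smul_mem _ (ε / 2)⁻¹ h2
        rw [smul_smul, inv_mul_cancel₀ (by positivity), one_smul] at h3
        exact hv h3
    · exact ⟨ζ, hζS, hz⟩
  obtain ⟨z, hzS, hz⟩ := hex
  -- the line from x₀ to z
  have hline : ∀ s : ℝ, x₀ + s • (z - x₀) ≠ 0 := by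
    intro s hs
    by_cases hs0 : s = 0
    · subst hs0; simp at hs; exact hx₀ hs
    · apply hz
      have : z = (s⁻¹ * (s - 1)) • x₀ := by
        have h1 : s • z = (s - 1) • x₀ := by
          rw [smul_sub] at hs
          rw [sub_smul, one_smul]
          have := hs
          rw [← sub_eq_zero]
          rw [← this]
          abel
        rw [mul_smul, ← h1, smul_smul, inv_mul_cancel₀ hs0, one_smul]
      rw [this]
      exact Submodule.smul_mem _ _ (Submodule.mem_span_singleton_self x₀)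
  have hA := ev_analytic_line Φ x₀ (z - x₀) hline t w
  -- not eventually zero near 0
  have hne : ¬ (∀ᶠ s in nhds (0 : ℝ),
      ev Φ ((‖x₀ + s • (z - x₀)‖⁻¹ : ℝ) • (x₀ + s • (z - x₀))) t w = 0) := by
    intro h
    have h1 := hA.eq_of_eventuallyEq (g := fun _ => 0) (fun _ _ => analyticAt_const) (z₀ := 0) h
    have h2 := congrFun h1 1
    simp only [one_smul, add_sub_cancel] at h2
    exact hzS.2 h2
  have hball : ∀ᶠ s in nhds (0 : ℝ), x₀ + s • (z - x₀) ∈ ball x₀ η := by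
    have hc : Filter.Tendsto (fun δ : ℝ => x₀ + δ • (z - x₀)) (nhds 0) (nhds x₀) := by
      have : Continuous (fun δ : ℝ => x₀ + δ • (z - x₀)) := by fun_prop
      have h := this.tendsto 0
      simpa using h
    exact hc.eventually (ball_mem_nhds x₀ hη)
  rw [Filter.not_eventually] at hne
  obtain ⟨s, hs1, hs2⟩ := (hne.and_eventually hball).exists
  have hx1S : x₀ + s • (z - x₀) ∈ S ∩ ball x₀ η := ⟨⟨hline s, hs1⟩, hs2⟩
  obtain ⟨ε, hε, hb⟩ := Metric.isOpen_iff.mp (hSo.inter isOpen_ball) _ hx1S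
  refine ⟨_, ε, hε, fun x hx => (hb hx).2, fun x hx => ⟨(hb hx).1.1, t, w, (hb hx).1.2⟩⟩

/-- full evaluation -/
noncomputable def E (s t w : ℂ) : ℂ[X][X][X] →+* ℂ :=
  (evalRingHom w).comp (mapRingHom (evalEvalRingHom s t))

noncomputable def G (t w : ℂ) : ℂ[X][X][X] →+* ℂ[X] :=
  (evalRingHom (C t)).comp (evalRingHom (C (C w)))

theorem E_eq_G (s t w : ℂ) (P : ℂ[X][X][X]) : E s t w P = (G t w P).eval s := by
  have : E s t w = (evalRingHom s).comp (G t w) := by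
    apply Polynomial.ringHom_ext'
    · apply Polynomial.ringHom_ext'
      · apply Polynomial.ringHom_ext'
        · ext a
          simp [E, G]
        · simp [E, G]
      · simp [E, G]
    · simp [E, G]
  rw [this]
  rfl

theorem G_sub (t w : ℂ) (P Q : ℂ[X][X][X]) : G t w (P - Q) = G t w P - G t w Q := by
  change eval (C t) (eval (C (C w)) (P - Q)) = _
  rw [eval_sub, eval_sub]
  rfl

theorem E_sub (s t w : ℂ) (P Q : ℂ[X][X][X]) : E s t w (P - Q) = E s t w P - E s t w Q := by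
  rw [E_eq_G, E_eq_G, E_eq_G, G_sub, eval_sub]

def InM (ν : ℝ → ℝ) (F : ℝ → ℝ → ℝ → ℝ) : Prop :=
  ∃ P Q : ℂ[X][X][X], ∀ s t w : ℝ, (F s t w : ℂ) = E s t w P + (ν s : ℂ) * E s t w Q

theorem InM.const (ν : ℝ → ℝ) (c : ℝ) : InM ν (fun _ _ _ => c) :=
  ⟨C (C (C (c : ℂ))), 0, by intro s t w; simp [E]⟩

theorem InM.s (ν : ℝ → ℝ) : InM ν (fun s _ _ => s) :=
  ⟨C (C X), 0, by intro s t w; simp [E]⟩

theorem InM.t (ν : ℝ → ℝ) : InM ν (fun _ t _ => t) :=
  ⟨C X, 0, by intro s t w; simp [E]⟩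

theorem InM.w (ν : ℝ → ℝ) : InM ν (fun _ _ w => w) :=
  ⟨X, 0, by intro s t w; simp [E]⟩

theorem InM.nu (ν : ℝ → ℝ) : InM ν (fun s _ _ => ν s) :=
  ⟨0, 1, by intro s t w; simp [E]⟩

theorem InM.add {ν : ℝ → ℝ} {F F' : ℝ → ℝ → ℝ → ℝ} (h : InM ν F) (h' : InM ν F') :
    InM ν (fun s t w => F s t w + F' s t w) := by
  obtain ⟨P, Q, hPQ⟩ := h
  obtain ⟨P', Q', hPQ'⟩ := h'
  refine ⟨P + P', Q + Q', ?_⟩
  intro s t w
  push_cast
  rw [hPQ, hPQ', map_add, map_add]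
  ring

theorem InM.mul {ν : ℝ → ℝ} (N : ℂ[X]) (hN : ∀ s : ℝ, ((ν s : ℂ)) ^ 2 = N.eval (s : ℂ))
    {F F' : ℝ → ℝ → ℝ → ℝ} (h : InM ν F) (h' : InM ν F') :
    InM ν (fun s t w => F s t w * F' s t w) := by
  obtain ⟨P, Q, hPQ⟩ := h
  obtain ⟨P', Q', hPQ'⟩ := h'
  refine ⟨P * P' + C (C N) * (Q * Q'), P * Q' + Q * P', ?_⟩
  intro s t w
  push_cast
  have : E s t w (C (C N)) = (ν s : ℂ) ^ 2 := by
    rw [hN]; simp [E]
  rw [hPQ, hPQ', map_add, map_add, map_mul, map_mul, map_mul, map_mul, map_mul, this]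
  ring

theorem InM.pow {ν : ℝ → ℝ} (N : ℂ[X]) (hN : ∀ s : ℝ, ((ν s : ℂ)) ^ 2 = N.eval (s : ℂ))
    {F : ℝ → ℝ → ℝ → ℝ} (h : InM ν F) (k : ℕ) :
    InM ν (fun s t w => F s t w ^ k) := by
  induction k with
  | zero => simpa using InM.const ν 1
  | succ k ih => simpa [pow_succ] using InM.mul N hN ih h

theorem InM.prod {ν : ℝ → ℝ} (N : ℂ[X]) (hN : ∀ s : ℝ, ((ν s : ℂ)) ^ 2 = N.eval (s : ℂ))
    {ι : Type*} (I : Finset ι) (F : ι → ℝ → ℝ → ℝ → ℝ) (h : ∀ i ∈ I, InM ν (F i)) :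
    InM ν (fun s t w => ∏ i ∈ I, F i s t w) := by
  classical
  induction I using Finset.induction_on with
  | empty => simpa using InM.const ν 1
  | insert a I ha ih =>
    simp only [Finset.prod_insert ha]
    exact InM.mul N hN (h a (Finset.mem_insert_self a I))
      (ih fun i hi => h i (Finset.mem_insert_of_mem hi))

theorem InM.sum {ν : ℝ → ℝ}
    {ι : Type*} (I : Finset ι) (F : ι → ℝ → ℝ → ℝ → ℝ) (h : ∀ i ∈ I, InM ν (F i)) :
    InM ν (fun s t w => ∑ i ∈ I, F i s t w) := by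
  classical
  induction I using Finset.induction_on with
  | empty => simpa using InM.const ν 0
  | insert a I ha ih =>
    simp only [Finset.sum_insert ha]
    exact InM.add (h a (Finset.mem_insert_self a I))
      (ih fun i hi => h i (Finset.mem_insert_of_mem hi))

theorem quad_simple_root (A B D : ℝ) (hD : 0 < D) (hdisc : B ^ 2 < A * D) :
    ∃ s1 : ℂ, ((C (A : ℂ) + C (2 * B : ℂ) * X + C (D : ℂ) * X ^ 2 : ℂ[X])).rootMultiplicity s1 = 1 := by
  set N : ℂ[X] := C (A : ℂ) + C (2 * B : ℂ) * X + C (D : ℂ) * X ^ 2 with hN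
  have hDc : (D : ℂ) ≠ 0 := by exact_mod_cast hD.ne'
  have hN2 : N.coeff 2 = D := by
    simp [hN, coeff_X, coeff_C]
  have hN0 : N ≠ 0 := by
    intro h
    rw [h] at hN2
    simp at hN2
    exact hDc hN2.symm
  have hdeg : N.degree ≠ 0 := by
    intro h
    have := Polynomial.coeff_eq_zero_of_degree_lt (p := N) (n := 2) (by rw [h]; norm_num)
    rw [hN2] at this
    exact hDc this
  obtain ⟨s1, hs1⟩ := IsAlgClosed.exists_root N hdeg
  refine ⟨s1, ?_⟩
  have h1 : 0 < N.rootMultiplicity s1 := (rootMultiplicity_pos hN0).mpr hs1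
  have h2 : ¬ 1 < N.rootMultiplicity s1 := by
    intro h
    rw [one_lt_rootMultiplicity_iff_isRoot hN0] at h
    obtain ⟨ha, hb⟩ := h
    have ha' : (A : ℂ) + 2 * B * s1 + D * s1 ^ 2 = 0 := by
      have := ha
      simp only [hN, IsRoot.def, eval_add, eval_mul, eval_C, eval_X, eval_pow] at this
      exact this
    have hb' : 2 * (B : ℂ) + D * (2 * s1) = 0 := by
      have := hb
      simp only [hN, IsRoot.def] at this
      simpa [one_add_one_eq_two] using this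
    have h3 : (D : ℂ) * s1 = -B := by linear_combination hb' / 2
    have h4 : (A : ℂ) * D - B ^ 2 = 0 := by
      linear_combination D * ha' - (D * s1 + B) * h3
    have h5 : A * D - B ^ 2 = 0 := by exact_mod_cast h4
    linarith
  omega

/-- TARGET 2: the polynomial relation on a pencil of directions -/
theorem plane_relation {n : ℕ} (Φ : MvPolynomial (Fin n ⊕ Fin 2) ℝ)
    (ξ₀ ξ₁ : EuclideanSpace ℝ (Fin n)) (hli : LinearIndependent ℝ ![ξ₀, ξ₁])
    (h0 : ∃ t w : ℝ, ev Φ ((‖ξ₀‖⁻¹ : ℝ) • ξ₀) t w ≠ 0) :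
    ∃ Ψ : ℂ[X][X][X], Ψ ≠ 0 ∧ ∀ s t w : ℝ,
      ev Φ ((‖ξ₀ + s • ξ₁‖⁻¹ : ℝ) • (ξ₀ + s • ξ₁)) (‖ξ₀ + s • ξ₁‖⁻¹ * t) w = 0 →
      (Ψ.map (evalEvalRingHom (s : ℂ) (t : ℂ))).eval (w : ℂ) = 0 := by
  set ν : ℝ → ℝ := fun s => ‖ξ₀ + s • ξ₁‖ with hν
  have hνpos : ∀ s, 0 < ν s := by
    intro s
    rw [hν]
    simp only [norm_pos_iff]
    intro h
    have := LinearIndependent.pair_iff.mp hli 1 s (by simpa using h)
    exact one_ne_zero this.1
  have hξ₁ : ξ₁ ≠ 0 := by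
    intro h
    have := LinearIndependent.pair_iff.mp hli 0 1 (by simp [h])
    exact one_ne_zero this.2
  have hξ₀ : ξ₀ ≠ 0 := by
    intro h
    have := LinearIndependent.pair_iff.mp hli 1 0 (by simp [h])
    exact one_ne_zero this.1
  set A : ℝ := ‖ξ₀‖ ^ 2 with hA
  set B : ℝ := ⟪ξ₀, ξ₁⟫ with hB
  set D : ℝ := ‖ξ₁‖ ^ 2 with hD
  have hDpos : 0 < D := by positivity
  have hν2 : ∀ s : ℝ, ν s ^ 2 = A + 2 * B * s + D * s ^ 2 := by
    intro s
    rw [hν]
    simp only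
    rw [norm_add_sq_real, inner_smul_right, norm_smul, mul_pow, Real.norm_eq_abs, sq_abs]
    ring
  have hdisc : B ^ 2 < A * D := by
    have h1 := hνpos (-B / D)
    have h2 := hν2 (-B / D)
    have h3 : 0 < A + 2 * B * (-B / D) + D * (-B / D) ^ 2 := by
      rw [← h2]; positivity
    have h4 : A + 2 * B * (-B / D) + D * (-B / D) ^ 2 = (A * D - B ^ 2) / D := by
      field_simp
      ring
    rw [h4] at h3
    have := (div_pos_iff_of_pos_right hDpos).mp h3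
    linarith
  set N : ℂ[X] := C (A : ℂ) + C (2 * B : ℂ) * X + C (D : ℂ) * X ^ 2 with hN
  have hNν : ∀ s : ℝ, ((ν s : ℂ)) ^ 2 = N.eval (s : ℂ) := by
    intro s
    have := hν2 s
    rw [hN]
    simp only [eval_add, eval_mul, eval_C, eval_X, eval_pow]
    rw [← Complex.ofReal_pow, this]
    push_cast
    ring
  set d : ℕ := Φ.totalDegree with hd
  -- the function
  have hF : InM ν (fun s t w => ν s ^ d *
      ev Φ ((‖ξ₀ + s • ξ₁‖⁻¹ : ℝ) • (ξ₀ + s • ξ₁)) (‖ξ₀ + s • ξ₁‖⁻¹ * t) w) := by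
    have hrew : (fun s t w => ν s ^ d *
      ev Φ ((‖ξ₀ + s • ξ₁‖⁻¹ : ℝ) • (ξ₀ + s • ξ₁)) (‖ξ₀ + s • ξ₁‖⁻¹ * t) w) =
      fun s t w => ∑ m ∈ Φ.support, (Φ.coeff m * (ν s ^ (d - ((∑ i, m (Sum.inl i)) + m (Sum.inr 0))) *
        ((∏ i : Fin n, (ξ₀ i + s * ξ₁ i) ^ m (Sum.inl i)) * (t ^ m (Sum.inr 0) * w ^ m (Sum.inr 1))))) := by
      funext s t w
      rw [ev_eq, Finset.mul_sum]
      apply Finset.sum_congr rfl
      intro m hm
      have hle : (∑ i, m (Sum.inl i)) + m (Sum.inr 0) ≤ d := by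
        have h1 := MvPolynomial.le_totalDegree hm
        rw [Finsupp.sum_fintype _ _ (by simp), Fintype.sum_sum_type, Fin.sum_univ_two] at h1
        omega
      have hνs : ν s ≠ 0 := (hνpos s).ne'
      have h1 : ν s ^ d = ν s ^ (d - ((∑ i, m (Sum.inl i)) + m (Sum.inr 0))) *
          ((∏ i : Fin n, ν s ^ m (Sum.inl i)) * ν s ^ m (Sum.inr 0)) := by
        rw [Finset.prod_pow_eq_pow_sum, ← pow_add, ← pow_add]
        congr 1
        omega
      have h2 : (∏ i : Fin n, (((‖ξ₀ + s • ξ₁‖⁻¹ : ℝ) • (ξ₀ + s • ξ₁)) i) ^ m (Sum.inl i)) =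
          (∏ i : Fin n, ν s ^ m (Sum.inl i))⁻¹ * ∏ i : Fin n, (ξ₀ i + s * ξ₁ i) ^ m (Sum.inl i) := by
        rw [← Finset.prod_inv_distrib, ← Finset.prod_mul_distrib]
        apply Finset.prod_congr rfl
        intro i _
        simp only [PiLp.smul_apply, PiLp.add_apply, smul_eq_mul]
        rw [mul_pow, inv_pow]
      rw [h2, h1, mul_pow, inv_pow]
      have h3 : (∏ i : Fin n, ν s ^ m (Sum.inl i)) ≠ 0 :=
        Finset.prod_ne_zero_iff.mpr fun i _ => pow_ne_zero _ hνs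
      have h4 : ν s ^ m (Sum.inr 0) ≠ 0 := pow_ne_zero _ hνs
      have h5 : ‖ξ₀ + s • ξ₁‖ = ν s := rfl
      rw [h5]
      field_simp
    rw [hrew]
    apply InM.sum
    intro m _
    apply InM.mul N hNν (InM.const ν _)
    apply InM.mul N hNν (InM.pow N hNν (InM.nu ν) _)
    apply InM.mul N hNν
    · apply InM.prod N hNν
      intro i _
      apply InM.pow N hNν
      exact InM.add (InM.const ν _) (InM.mul N hNν (InM.s ν) (InM.const ν _))
    · exact InM.mul N hNν (InM.pow N hNν (InM.t ν) _) (InM.pow N hNν (InM.w ν) _)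
  obtain ⟨P, Q, hPQ⟩ := hF
  refine ⟨P ^ 2 - C (C N) * Q ^ 2, ?_, ?_⟩
  · intro hzero
    obtain ⟨t, w, htw⟩ := h0
    set t' : ℝ := ‖ξ₀‖ * t with ht'
    have hev : E 0 t' w P + (ν 0 : ℂ) * E 0 t' w Q ≠ 0 := by
      have h1 := hPQ 0 t' w
      have h0' : ((0 : ℝ) : ℂ) = 0 := by simp
      rw [h0'] at h1
      rw [← h1]
      simp only
      have hn0 : ‖ξ₀‖ ≠ 0 := by simpa using hξ₀
      have h2 : ‖ξ₀ + (0 : ℝ) • ξ₁‖⁻¹ * t' = t := by
        rw [zero_smul, add_zero, ht']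
        field_simp
      have h3 : (‖ξ₀ + (0 : ℝ) • ξ₁‖⁻¹ : ℝ) • (ξ₀ + (0 : ℝ) • ξ₁) = (‖ξ₀‖⁻¹ : ℝ) • ξ₀ := by
        rw [zero_smul, add_zero]
      rw [h2, h3]
      have h4 : ν 0 ^ d * ev Φ ((‖ξ₀‖⁻¹ : ℝ) • ξ₀) t w ≠ 0 :=
        mul_ne_zero (pow_ne_zero _ (hνpos 0).ne') htw
      exact_mod_cast h4
    -- one-variable polynomials
    have hG : (G t' w P) ^ 2 = N * (G t' w Q) ^ 2 := by
      have h1 := congrArg (G t' w) hzero
      rw [G_sub, RingHom.map_mul, RingHom.map_pow, RingHom.map_pow, RingHom.map_zero,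
        sub_eq_zero] at h1
      rw [h1]
      congr 1
      simp [G]
    have hGne : G t' w Q ≠ 0 := by
      intro hQ
      rw [hQ] at hG
      have hP : G t' w P = 0 := by
        have : (G t' w P) ^ 2 = 0 := by rw [hG]; ring
        exact pow_eq_zero_iff (two_ne_zero) |>.mp this
      apply hev
      rw [E_eq_G, E_eq_G, hP, hQ]
      simp
    obtain ⟨s1, hs1⟩ := quad_simple_root A B D hDpos hdisc
    have hN0 : N ≠ 0 := by
      intro h
      have := hs1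
      rw [← hN, h] at this
      simp at this
    have hQ2 : N * (G t' w Q) ^ 2 ≠ 0 := mul_ne_zero hN0 (pow_ne_zero _ hGne)
    have h1 := congrArg (rootMultiplicity s1) hG
    rw [rootMultiplicity_mul hQ2] at h1
    have hPne : G t' w P ≠ 0 := by
      intro h
      rw [h] at hG
      apply hQ2
      rw [← hG]; ring
    rw [pow_two, pow_two, rootMultiplicity_mul (mul_ne_zero hPne hPne),
      rootMultiplicity_mul (mul_ne_zero hGne hGne), hs1] at h1
    omega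
  · intro s t w h
    have h1 := hPQ s t w
    simp only at h1
    rw [h, mul_zero] at h1
    have h2 : E s t w (P ^ 2 - C (C N) * Q ^ 2) = 0 := by
      have : E s t w (C (C N)) = (ν s : ℂ) ^ 2 := by
        rw [hNν]; simp [E]
      rw [E_sub, RingHom.map_mul, RingHom.map_pow, RingHom.map_pow, this]
      have h3 : E s t w P = - ((ν s : ℂ) * E s t w Q) := by
        have := h1
        push_cast at this
        linear_combination -this
      rw [h3]
      ring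
    exact h2

end AR.J5917

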