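import Mathlib

set_option autoImplicit false
open Set Metric MeasureTheory Polynomial
open scoped ContDiff RealInnerProductSpace ENNReal

namespace AR.J5842

section radial
variable {E : Type*} [NormedAddCommGroup E] [NormedSpace ℝ E]

open Topology Filter

theorem rs_basic (K : Set E) (hK : IsCompact K) (hKc : Convex ℝ K) (p : E) (hp : p ∈ interior K)
    (v : E) (hv : v ≠ 0) :
    0 < (gauge ((fun x => p + x) ⁻¹' K) v)⁻¹ ∧
      ∀ r : ℝ, 0 ≤ r → (p + r • v ∈ K ↔ r ≤ (gauge ((fun x => p + x) ⁻¹' K) v)⁻¹) := by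
  set s := (fun x => p + x) ⁻¹' K with hs
  have hsc : Convex ℝ s := hKc.translate_preimage_right p
  have hs0 : s ∈ 𝓝 (0:E) := by
    have h1 : ContinuousAt (fun x : E => p + x) 0 := by fun_prop
    refine h1 ?_
    show K ∈ 𝓝 (p + 0)
    rw [add_zero]
    exact mem_interior_iff_mem_nhds.1 hp
  have hscl : IsClosed s := hK.isClosed.preimage (by fun_prop)
  have hsb : Bornology.IsVonNBounded ℝ s := by
    rw [NormedSpace.isVonNBounded_iff]
    obtain ⟨R, hR⟩ := hK.isBounded.exists_norm_le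
    rw [isBounded_iff_forall_norm_le]
    refine ⟨R + ‖p‖, fun x hx => ?_⟩
    have h1 := hR (p + x) hx
    have h2 : x = (p + x) - p := by abel
    rw [h2]
    exact (norm_sub_le _ _).trans (by linarith)
  have hg : 0 < gauge s v := (gauge_pos (absorbent_nhds_zero hs0) hsb).2 hv
  refine ⟨inv_pos.2 hg, fun r hr => ?_⟩
  have h1 : p + r • v ∈ K ↔ r • v ∈ closure s := by rw [hscl.closure_eq]; rfl
  rw [h1, ← gauge_le_one_iff_mem_closure hsc hs0, gauge_smul_of_nonneg hr, smul_eq_mul,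
    ← le_div_iff₀ hg, one_div]

theorem rs_int (K : Set E) (hKc : Convex ℝ K) (p v : E) (hp : p ∈ interior K) (ρ r : ℝ)
    (hρ : 0 < ρ) (hx : p + ρ • v ∈ K) (hr0 : 0 ≤ r) (hr : r < ρ) : p + r • v ∈ interior K := by
  have h := hKc.combo_interior_self_mem_interior hp hx (a := 1 - r / ρ) (b := r / ρ)
    (by rw [sub_pos, div_lt_one hρ]; exact hr) (by positivity) (by ring)
  have e : (1 - r / ρ) • p + (r / ρ) • (p + ρ • v) = p + r • v := by
    rw [smul_add, smul_smul, div_mul_cancel₀ _ hρ.ne', sub_smul, one_smul]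
    abel
  rwa [e] at h

/-- the defining property of the radial function -/
def RP (K : Set E) (ρ : E × E → ℝ) : Prop :=
  ∀ p ∈ interior K, ∀ v : E, v ≠ 0 → 0 < ρ (p, v) ∧
    ∀ r : ℝ, 0 ≤ r → (p + r • v ∈ K ↔ r ≤ ρ (p, v))

theorem rs_mem (K : Set E) (ρ : E × E → ℝ) (hρ : RP K ρ) (p v : E) (hp : p ∈ interior K) (hv : v ≠ 0) :
    p + ρ (p, v) • v ∈ K := by
  obtain ⟨h1, h2⟩ := hρ p hp v hv
  exact (h2 _ h1.le).2 le_rfl

theorem rs_frontier (K : Set E) (hK : IsClosed K) (ρ : E × E → ℝ) (hρ : RP K ρ) (p v : E)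
    (hp : p ∈ interior K) (hv : v ≠ 0) : p + ρ (p, v) • v ∈ frontier K := by
  obtain ⟨h1, h2⟩ := hρ p hp v hv
  rw [frontier, hK.closure_eq]
  refine ⟨rs_mem K ρ hρ p v hp hv, fun hi => ?_⟩
  have hc : ContinuousAt (fun r : ℝ => p + r • v) (ρ (p, v)) := by fun_prop
  have h3 : ∀ᶠ r in 𝓝 (ρ (p, v)), p + r • v ∈ K := hc (mem_interior_iff_mem_nhds.1 hi)
  obtain ⟨ε, hε, hball⟩ := Metric.eventually_nhds_iff.1 h3
  have h4 := hball (y := ρ (p, v) + ε / 2) (by rw [Real.dist_eq]; rw [add_sub_cancel_left, abs_of_pos (by linarith)]; linarith)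
  have h5 := (h2 _ (by linarith)).1 h4
  linarith

theorem rs_cont (K : Set E) (hK : IsClosed K) (hKc : Convex ℝ K) (ρ : E × E → ℝ) (hρ : RP K ρ)
    (p v : E) (hp : p ∈ interior K) (hv : v ≠ 0) : ContinuousAt ρ (p, v) := by
  obtain ⟨h1, h2⟩ := hρ p hp v hv
  have hev : ∀ᶠ q : E × E in 𝓝 (p, v), q.1 ∈ interior K ∧ q.2 ≠ 0 := by
    have e1 : ∀ᶠ q : E × E in 𝓝 (p, v), q.1 ∈ interior K :=
      continuousAt_fst.eventually (isOpen_interior.mem_nhds hp)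
    have e2 : ∀ᶠ q : E × E in 𝓝 (p, v), q.2 ≠ 0 :=
      (isOpen_ne_fun continuous_snd continuous_const).mem_nhds hv
    exact e1.and e2
  refine tendsto_order.2 ⟨fun a' ha' => ?_, fun a' ha' => ?_⟩
  · obtain ⟨r1, hr1, hr2⟩ := exists_between (max_lt ha' h1)
    have hr0 : 0 < r1 := lt_of_le_of_lt (le_max_right _ _) hr1
    have hi := rs_int K hKc p v hp _ r1 h1 (rs_mem K ρ hρ p v hp hv) hr0.le hr2
    have hc : ContinuousAt (fun q : E × E => q.1 + r1 • q.2) (p, v) := by fun_prop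
    have e3 : ∀ᶠ q : E × E in 𝓝 (p, v), q.1 + r1 • q.2 ∈ K := hc (mem_interior_iff_mem_nhds.1 hi)
    filter_upwards [hev, e3] with q hq hq2
    have := ((hρ q.1 hq.1 q.2 hq.2).2 r1 hr0.le).1 hq2
    exact lt_of_lt_of_le (lt_of_le_of_lt (le_max_left _ _) hr1) this
  · have ha0 : 0 < a' := h1.trans ha'
    have hn : p + a' • v ∉ K := fun h => absurd ((h2 a' ha0.le).1 h) (not_le.2 ha')
    have hc : ContinuousAt (fun q : E × E => q.1 + a' • q.2) (p, v) := by fun_prop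
    have e3 : ∀ᶠ q : E × E in 𝓝 (p, v), q.1 + a' • q.2 ∈ Kᶜ := hc (hK.isOpen_compl.mem_nhds hn)
    filter_upwards [hev, e3] with q hq hq2
    by_contra hcon
    exact hq2 (((hρ q.1 hq.1 q.2 hq.2).2 a' ha0.le).2 (not_lt.1 hcon))

theorem rs_deriv_pos (g : ℝ → ℝ) (g' : ℝ) (hg : HasDerivAt g g' 0) (hg0 : g 0 = 0) (hg' : 0 < g') :
    ∀ᶠ s in 𝓝[>] (0:ℝ), 0 < g s := by
  have h1 := hasDerivAt_iff_tendsto_slope.1 hg
  have h2 : ∀ᶠ s in 𝓝[≠] (0:ℝ), 0 < slope g 0 s := h1.eventually (lt_mem_nhds hg')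
  have h3 : ∀ᶠ s in 𝓝[>] (0:ℝ), 0 < slope g 0 s :=
    h2.filter_mono (nhdsWithin_mono _ fun x hx => ne_of_gt hx)
  filter_upwards [h3, self_mem_nhdsWithin] with s hs hs0
  rw [slope_def_field, hg0, sub_zero, sub_zero] at hs
  have hs0' : (0:ℝ) < s := hs0
  have := mul_pos hs hs0'
  rwa [div_mul_cancel₀ _ hs0'.ne'] at this

theorem rs_transv (K : Set E) (hKc : Convex ℝ K) (p v : E) (hp : p ∈ interior K) (ρ : ℝ)
    (hρ : 0 < ρ) (hx : p + ρ • v ∉ interior K) (U : Set E) (hU : IsOpen U) (hxU : p + ρ • v ∈ U)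
    (f : E → ℝ) (hf : ContinuousOn f U) (L : E →L[ℝ] ℝ) (hL : HasFDerivAt f L (p + ρ • v))
    (hL0 : L ≠ 0) (hfK : ∀ y ∈ U, f y = 0 → y ∈ K) (hf0 : f (p + ρ • v) = 0) : L v ≠ 0 := by
  intro hLv
  obtain ⟨w, hw⟩ : ∃ w, L w = 1 := by
    obtain ⟨w, hw⟩ : ∃ w, L w ≠ 0 := by
      by_contra hcon
      push Not at hcon
      exact hL0 (ContinuousLinearMap.ext hcon)
    exact ⟨(L w)⁻¹ • w, by rw [map_smul, smul_eq_mul, inv_mul_cancel₀ hw]⟩
  -- choose η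
  obtain ⟨η, hη, hηK⟩ : ∃ η > 0, ∀ τ : ℝ, |τ| ≤ η → p - (ρ * τ) • w ∈ interior K := by
    have hc : ContinuousAt (fun τ : ℝ => p - (ρ * τ) • w) 0 := by fun_prop
    have h3 : ∀ᶠ τ in 𝓝 (0:ℝ), p - (ρ * τ) • w ∈ interior K := by
      refine hc.eventually (isOpen_interior.mem_nhds ?_)
      simpa using hp
    obtain ⟨ε, hε, hball⟩ := Metric.eventually_nhds_iff.1 h3
    refine ⟨ε / 2, by linarith, fun τ hτ => hball ?_⟩
    rw [Real.dist_eq, sub_zero]; linarith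
  -- sign conditions
  have hd : ∀ c : ℝ, HasDerivAt (fun s : ℝ => f (p + ρ • v + s • (v + c • w))) c 0 := by
    intro c
    have h1 : HasDerivAt (fun s : ℝ => p + ρ • v + s • (v + c • w)) (v + c • w) 0 := by
      have := ((hasDerivAt_id (0:ℝ)).smul_const (v + c • w)).const_add (p + ρ • v)
      simpa using this
    have h2 : HasFDerivAt f L ((fun s : ℝ => p + ρ • v + s • (v + c • w)) 0) := by simpa using hL
    have h3 := h2.comp_hasDerivAt (0:ℝ) h1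
    have h4 : L (v + c • w) = c := by rw [map_add, map_smul, hLv, hw]; simp
    rw [h4] at h3
    exact h3
  have hpos : ∀ᶠ s in 𝓝[>] (0:ℝ), 0 < f (p + ρ • v + s • (v + η • w)) :=
    rs_deriv_pos _ η (hd η) (by simpa using hf0) hη
  have hneg : ∀ᶠ s in 𝓝[>] (0:ℝ), 0 < -f (p + ρ • v + s • (v + (-η) • w)) :=
    rs_deriv_pos (fun s => -f (p + ρ • v + s • (v + (-η) • w))) (-(-η)) (hd (-η)).neg
      (by simpa using hf0) (by linarith)
  obtain ⟨δ, hδ, hδU⟩ := Metric.isOpen_iff.1 hU _ hxU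
  have hsmall : ∀ᶠ s in 𝓝[>] (0:ℝ), s < δ / (‖v‖ + η * ‖w‖ + 1) :=
    mem_nhdsWithin_of_mem_nhds (Iio_mem_nhds (by positivity))
  obtain ⟨s, ⟨⟨hs1, hs2⟩, hs3⟩, hs0⟩ := (((hpos.and hneg).and hsmall).and self_mem_nhdsWithin).exists
  have hs0' : (0:ℝ) < s := hs0
  have hin : ∀ t : ℝ, |t| ≤ η * s → p + ρ • v + s • v + t • w ∈ U := by
    intro t ht
    apply hδU
    rw [mem_ball, dist_eq_norm]
    have e : p + ρ • v + s • v + t • w - (p + ρ • v) = s • v + t • w := by abel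
    rw [e]
    have hN : (0:ℝ) < ‖v‖ + η * ‖w‖ + 1 := by positivity
    rw [lt_div_iff₀ hN] at hs3
    calc ‖s • v + t • w‖ ≤ ‖s • v‖ + ‖t • w‖ := norm_add_le _ _
      _ = s * ‖v‖ + |t| * ‖w‖ := by rw [norm_smul, norm_smul, Real.norm_eq_abs, Real.norm_eq_abs, abs_of_pos hs0']
      _ ≤ s * ‖v‖ + (η * s) * ‖w‖ := by gcongr
      _ < δ := by nlinarith
  have hcont : ContinuousOn (fun t : ℝ => f (p + ρ • v + s • v + t • w)) (Icc (-(η * s)) (η * s)) := by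
    refine hf.comp (by fun_prop) fun t ht => hin t (abs_le.2 ht)
  have hηs : 0 ≤ η * s := by positivity
  have hivt := intermediate_value_Icc (by linarith : -(η * s) ≤ η * s) hcont
  have h0mem : (0:ℝ) ∈ Icc (f (p + ρ • v + s • v + (-(η * s)) • w)) (f (p + ρ • v + s • v + (η * s) • w)) := by
    have e1 : p + ρ • v + s • (v + (-η) • w) = p + ρ • v + s • v + (-(η * s)) • w := by
      rw [smul_add, smul_smul, ← add_assoc]; congr 2; ring
    have e2 : p + ρ • v + s • (v + η • w) = p + ρ • v + s • v + (η * s) • w := by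
      rw [smul_add, smul_smul, ← add_assoc]; congr 2; ring
    rw [e1] at hs2
    rw [e2] at hs1
    exact ⟨by linarith, hs1.le⟩
  obtain ⟨t, ht, htf⟩ := hivt h0mem
  have htabs : |t| ≤ η * s := abs_le.2 ht
  have hyK : p + ρ • v + s • v + t • w ∈ K := hfK _ (hin t htabs) htf
  have hq := hηK (t / s) (by rw [abs_div, abs_of_pos hs0', div_le_iff₀ hs0']; exact htabs)
  have hfin := hKc.combo_interior_self_mem_interior hq hyK (a := s / (ρ + s)) (b := ρ / (ρ + s))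
    (by positivity) (by positivity) (by field_simp; ring)
  apply hx
  have hρs : ρ + s ≠ 0 := by positivity
  have e : (s / (ρ + s)) • (p - (ρ * (t / s)) • w) + (ρ / (ρ + s)) • (p + ρ • v + s • v + t • w) = p + ρ • v := by
    have c1 : s / (ρ + s) + ρ / (ρ + s) = 1 := by field_simp; ring
    have c2 : s / (ρ + s) * (ρ * (t / s)) = ρ / (ρ + s) * t := by field_simp
    have c3 : ρ / (ρ + s) * ρ + ρ / (ρ + s) * s = ρ := by field_simp
    have : (s / (ρ + s)) • (p - (ρ * (t / s)) • w) + (ρ / (ρ + s)) • (p + ρ • v + s • v + t • w) =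
        (s / (ρ + s) + ρ / (ρ + s)) • p + (ρ / (ρ + s) * ρ + ρ / (ρ + s) * s) • v
          + (ρ / (ρ + s) * t - s / (ρ + s) * (ρ * (t / s))) • w := by module
    rw [this, c1, c2, c3, sub_self, zero_smul, one_smul, add_zero]
  rwa [e] at hfin

end radial

open Topology Filter in
/-- TARGET: the radial function of a convex body with smooth boundary is smooth, jointly in the
centre and the direction -/
theorem radial_smooth {n : ℕ} (K : Set (EuclideanSpace ℝ (Fin n))) (hK : IsCompact K)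
    (hKc : Convex ℝ K) (hKi : (interior K).Nonempty)
    (hsm : ∀ x ∈ frontier K, ∃ U : Set (EuclideanSpace ℝ (Fin n)), IsOpen U ∧ x ∈ U ∧
      ∃ f : EuclideanSpace ℝ (Fin n) → ℝ, ContDiffOn ℝ ∞ f U ∧ fderiv ℝ f x ≠ 0 ∧
        frontier K ∩ U = {y ∈ U | f y = 0}) :
    ∃ ρ : EuclideanSpace ℝ (Fin n) × EuclideanSpace ℝ (Fin n) → ℝ,
      ContDiffOn ℝ ∞ ρ (interior K ×ˢ {0}ᶜ) ∧
      ∀ p ∈ interior K, ∀ v : EuclideanSpace ℝ (Fin n), v ≠ 0 → 0 < ρ (p, v) ∧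
        ∀ r : ℝ, 0 ≤ r → (p + r • v ∈ K ↔ r ≤ ρ (p, v)) := by
  obtain ⟨ρ, hρ⟩ : ∃ ρ : EuclideanSpace ℝ (Fin n) × EuclideanSpace ℝ (Fin n) → ℝ, RP K ρ :=
    ⟨fun q => (gauge ((fun x => q.1 + x) ⁻¹' K) q.2)⁻¹, fun p hp v hv => rs_basic K hK hKc p hp v hv⟩
  refine ⟨ρ, ?_, hρ⟩
  rintro ⟨p0, v0⟩ ⟨hp0, hv0⟩
  apply ContDiffAt.contDiffWithinAt
  have hp0' : p0 ∈ interior K := hp0
  have hv0' : v0 ≠ 0 := hv0
  have hcont := rs_cont K hK.isClosed hKc ρ hρ p0 v0 hp0' hv0'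
  have hfr := rs_frontier K hK.isClosed ρ hρ p0 v0 hp0' hv0'
  have hρ0 := (hρ p0 hp0' v0 hv0').1
  obtain ⟨U, hU, hxU, f, hf, hf', hfU⟩ := hsm _ hfr
  obtain ⟨r0, hr0⟩ : ∃ r0, r0 = ρ (p0, v0) := ⟨_, rfl⟩
  rw [← hr0] at hfr hρ0 hxU hf'
  have hfx : ContDiffAt ℝ ∞ f (p0 + r0 • v0) := hf.contDiffAt (hU.mem_nhds hxU)
  obtain ⟨L, hLdef⟩ : ∃ L, L = fderiv ℝ f (p0 + r0 • v0) := ⟨_, rfl⟩
  have hL : HasFDerivAt f L (p0 + r0 • v0) := by
    rw [hLdef]; exact (hfx.differentiableAt (by simp)).hasFDerivAt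
  have hL0 : L ≠ 0 := by rw [hLdef]; exact hf'
  have hzero : ∀ y ∈ frontier K, y ∈ U → f y = 0 := by
    intro y hy hyU
    have : y ∈ {y ∈ U | f y = 0} := by rw [← hfU]; exact ⟨hy, hyU⟩
    exact this.2
  have hfK : ∀ y ∈ U, f y = 0 → y ∈ K := by
    intro y hyU hy0
    have : y ∈ frontier K ∩ U := by rw [hfU]; exact ⟨hyU, hy0⟩
    exact hK.isClosed.frontier_subset this.1
  have hD : L v0 ≠ 0 := rs_transv K hKc p0 v0 hp0' r0 hρ0 hfr.2 U hU hxU f hf.continuousOn L hL hL0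
    hfK (hzero _ hfr hxU)
  -- the map for the inverse function theorem
  let E := EuclideanSpace ℝ (Fin n)
  let B : (E × E) →L[ℝ] ℝ := L.comp (ContinuousLinearMap.fst ℝ E E + r0 • ContinuousLinearMap.snd ℝ E E)
  let fwd : ((E × E) × ℝ) →L[ℝ] ((E × E) × ℝ) := (ContinuousLinearMap.fst ℝ (E × E) ℝ).prod
    (B.comp (ContinuousLinearMap.fst ℝ (E × E) ℝ) + (L v0) • ContinuousLinearMap.snd ℝ (E × E) ℝ)
  let bwd : ((E × E) × ℝ) →L[ℝ] ((E × E) × ℝ) := (ContinuousLinearMap.fst ℝ (E × E) ℝ).prod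
    ((L v0)⁻¹ • (ContinuousLinearMap.snd ℝ (E × E) ℝ - B.comp (ContinuousLinearMap.fst ℝ (E × E) ℝ)))
  have h1 : Function.LeftInverse bwd fwd := by
    intro x
    refine Prod.ext rfl ?_
    show (L v0)⁻¹ * ((B x.1 + L v0 * x.2) - B x.1) = x.2
    field_simp
    ring
  have h2 : Function.RightInverse bwd fwd := by
    intro x
    refine Prod.ext rfl ?_
    show B x.1 + L v0 * ((L v0)⁻¹ * (x.2 - B x.1)) = x.2
    field_simp
    ring
  let e : ((E × E) × ℝ) ≃L[ℝ] ((E × E) × ℝ) := ContinuousLinearEquiv.equivOfInverse fwd bwd h1 h2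
  let Ψ : ((E × E) × ℝ) → ((E × E) × ℝ) := fun a => (a.1, f (a.1.1 + a.2 • a.1.2))
  have hΨ : ContDiffAt ℝ ∞ Ψ ((p0, v0), r0) := by
    refine ContDiffAt.prodMk contDiffAt_fst ?_
    have hin : ContDiffAt ℝ ∞ (fun a : (E × E) × ℝ => a.1.1 + a.2 • a.1.2) ((p0, v0), r0) := by
      fun_prop
    exact ContDiffAt.comp (g := f) ((p0, v0), r0) hfx hin
  have hΨ' : HasFDerivAt Ψ (e : ((E × E) × ℝ) →L[ℝ] ((E × E) × ℝ)) ((p0, v0), r0) := by
    have k1 : HasFDerivAt (fun a : (E × E) × ℝ => a.1.1) ((ContinuousLinearMap.fst ℝ E E).comp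
        (ContinuousLinearMap.fst ℝ (E × E) ℝ)) ((p0, v0), r0) :=
      ((ContinuousLinearMap.fst ℝ E E).comp (ContinuousLinearMap.fst ℝ (E × E) ℝ)).hasFDerivAt
    have k2 : HasFDerivAt (fun a : (E × E) × ℝ => a.1.2) ((ContinuousLinearMap.snd ℝ E E).comp
        (ContinuousLinearMap.fst ℝ (E × E) ℝ)) ((p0, v0), r0) :=
      ((ContinuousLinearMap.snd ℝ E E).comp (ContinuousLinearMap.fst ℝ (E × E) ℝ)).hasFDerivAt
    have k3 : HasFDerivAt (fun a : (E × E) × ℝ => a.2) (ContinuousLinearMap.snd ℝ (E × E) ℝ)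
        ((p0, v0), r0) := hasFDerivAt_snd
    have k4 := k1.add (k3.smul k2)
    have k5 : HasFDerivAt (fun a : (E × E) × ℝ => f (a.1.1 + a.2 • a.1.2)) _ ((p0, v0), r0) :=
      HasFDerivAt.comp (g := f) ((p0, v0), r0) hL k4
    have k0 : HasFDerivAt (fun a : (E × E) × ℝ => a.1) (ContinuousLinearMap.fst ℝ (E × E) ℝ)
        ((p0, v0), r0) := hasFDerivAt_fst
    have k6 : HasFDerivAt Ψ _ ((p0, v0), r0) := k0.prodMk k5
    refine k6.congr_fderiv ?_
    apply ContinuousLinearMap.ext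
    intro a
    refine Prod.ext rfl ?_
    show L (a.1.1 + (r0 • a.1.2 + a.2 • v0)) = L (a.1.1 + r0 • a.1.2) + L v0 * a.2
    simp only [map_add, map_smul, smul_eq_mul]
    ring
  have hne : (∞ : WithTop ℕ∞) ≠ 0 := by simp
  have hinv := hΨ.to_localInverse hΨ' hne
  have hleft := (hΨ.hasStrictFDerivAt' hΨ' hne).eventually_left_inverse
  have hΨ0 : Ψ ((p0, v0), r0) = ((p0, v0), 0) := by
    refine Prod.ext rfl ?_
    exact hzero _ hfr hxU
  rw [hΨ0] at hinv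
  -- the local formula for ρ
  have hG : ContDiffAt ℝ ∞ (fun q : E × E => (hΨ.localInverse hΨ' hne (q, (0:ℝ))).2) (p0, v0) := by
    have k1 : ContDiffAt ℝ ∞ (fun q : E × E => (q, (0:ℝ))) (p0, v0) := by fun_prop
    have k2 := ContDiffAt.comp (g := hΨ.localInverse hΨ' hne) (p0, v0) hinv k1
    exact contDiffAt_snd.comp _ k2
  refine hG.congr_of_eventuallyEq ?_
  have hpair : ContinuousAt (fun q : E × E => (q, ρ q)) (p0, v0) := continuousAt_id.prodMk hcont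
  have hpair0 : (fun q : E × E => (q, ρ q)) (p0, v0) = ((p0, v0), r0) := by rw [hr0]
  have ev1 : ∀ᶠ q : E × E in 𝓝 (p0, v0), hΨ.localInverse hΨ' hne (Ψ (q, ρ q)) = (q, ρ q) := by
    have : Tendsto (fun q : E × E => (q, ρ q)) (𝓝 (p0, v0)) (𝓝 ((p0, v0), r0)) := by
      have h := hpair.tendsto
      rwa [← hr0] at h
    exact this.eventually hleft
  have ev2 : ∀ᶠ q : E × E in 𝓝 (p0, v0), q.1 + ρ q • q.2 ∈ U := by
    have hc : ContinuousAt (fun q : E × E => q.1 + ρ q • q.2) (p0, v0) :=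
      continuousAt_fst.add (hcont.smul continuousAt_snd)
    refine hc.eventually (hU.mem_nhds ?_)
    show p0 + ρ (p0, v0) • v0 ∈ U
    rw [← hr0]; exact hxU
  have ev3 : ∀ᶠ q : E × E in 𝓝 (p0, v0), q.1 ∈ interior K ∧ q.2 ≠ 0 := by
    have e1 : ∀ᶠ q : E × E in 𝓝 (p0, v0), q.1 ∈ interior K :=
      continuousAt_fst.eventually (isOpen_interior.mem_nhds hp0')
    have e2 : ∀ᶠ q : E × E in 𝓝 (p0, v0), q.2 ≠ 0 :=
      (isOpen_ne_fun continuous_snd continuous_const).mem_nhds hv0'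
    exact e1.and e2
  filter_upwards [ev1, ev2, ev3] with q h1q h2q h3q
  have hz : f (q.1 + ρ q • q.2) = 0 :=
    hzero _ (rs_frontier K hK.isClosed ρ hρ q.1 q.2 h3q.1 h3q.2) h2q
  have hΨq : Ψ (q, ρ q) = (q, 0) := Prod.ext rfl hz
  rw [hΨq] at h1q
  rw [h1q]

end AR.J5842

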