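import Mathlib

set_option autoImplicit false
open Set Metric MeasureTheory Polynomial
open scoped ContDiff RealInnerProductSpace ENNReal

namespace AR.J5843

theorem ps_meas {α F : Type*} [MeasurableSpace α] 
    [NormedAddCommGroup F] [NormedSpace ℝ F] [MeasurableSpace F]
    [BorelSpace F] (ι : α → F) (hι : Measurable ι) (S : Set F) 
    (hιS : ∀ a, ι a ∈ S) (g : F → ℝ) (hg : ContinuousOn g S) : Measurable (fun a => g (ι a)) := by
  have h1 : Measurable (fun a => (⟨ι a, hιS a⟩ : S)) := hι.subtype_mk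
  have h2 : Continuous (S.domRestrict g) := continuousOn_iff_continuous_domRestrict.1 hg
  exact h2.measurable.comp h1

theorem ps_deriv {α F : Type*} [MeasurableSpace α] (σ : Measure α) [IsFiniteMeasure σ]
    [NormedAddCommGroup F] [NormedSpace ℝ F] [FiniteDimensional ℝ F] [MeasurableSpace F]
    [BorelSpace F] (ι : α → F) (hι : Measurable ι) (S : Set F) (hS : IsCompact S)
    (hιS : ∀ a, ι a ∈ S) (I : Set ℝ) (hI : IsOpen I) (O : Set F) (hO : IsOpen O) (hSO : S ⊆ O)
    (g : ℝ × F → ℝ) (hg : ContDiffOn ℝ ∞ g (I ×ˢ O)) (t : ℝ) (ht : t ∈ I) :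
    HasDerivAt (fun t => ∫ a, g (t, ι a) ∂σ) (∫ a, fderiv ℝ g (t, ι a) (1, 0) ∂σ) t := by
  obtain ⟨ε, hε, hεI⟩ := Metric.isOpen_iff.1 hI t ht
  set K : Set ℝ := closedBall t (ε / 2) with hK
  have hKI : K ⊆ I := fun s hs => hεI (by
    simp only [hK, mem_closedBall, mem_ball] at hs ⊢; linarith)
  have hopen : IsOpen (I ×ˢ O) := hI.prod hO
  have hfd : ContinuousOn (fun z => fderiv ℝ g z (1, 0)) (I ×ˢ O) := by
    have := hg.continuousOn_fderiv_of_isOpen hopen (by simp)
    exact this.clm_apply continuousOn_const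
  have hcomp : IsCompact (K ×ˢ S) := (isCompact_closedBall t (ε/2)).prod hS
  have hsub : K ×ˢ S ⊆ I ×ˢ O := prod_mono hKI hSO
  obtain ⟨C, hC⟩ := hcomp.exists_bound_of_continuousOn (hfd.mono hsub)
  obtain ⟨C', hC'⟩ := hcomp.exists_bound_of_continuousOn (hg.continuousOn.mono hsub)
  have hcs : ∀ s ∈ I, ContinuousOn (fun v => g (s, v)) S := by
    intro s hs
    refine hg.continuousOn.comp (by fun_prop) ?_
    intro v hv; exact ⟨hs, hSO hv⟩
  have hcs' : ∀ s ∈ I, ContinuousOn (fun v => fderiv ℝ g (s, v) (1, 0)) S := by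
    intro s hs
    refine hfd.comp (f := fun v => (s, v)) (by fun_prop) ?_
    intro v hv; exact ⟨hs, hSO hv⟩
  have hIn : I ∈ nhds t := hI.mem_nhds ht
  refine (hasDerivAt_integral_of_dominated_loc_of_deriv_le (F := fun s a => g (s, ι a))
    (F' := fun s a => fderiv ℝ g (s, ι a) (1, 0)) (bound := fun _ => C)
    (closedBall_mem_nhds t (by positivity : (0:ℝ) < ε / 2)) ?_ ?_ ?_ ?_ ?_ ?_).2
  · filter_upwards [hIn] with s hs
    exact (ps_meas ι hι S hιS (fun v => g (s, v)) (hcs s hs)).aestronglyMeasurable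
  · refine Integrable.of_bound (ps_meas ι hι S hιS (fun v => g (t, v)) (hcs t ht)).aestronglyMeasurable C' ?_
    filter_upwards with a
    exact hC' (t, ι a) ⟨mem_closedBall_self (by positivity), hιS a⟩
  · exact (ps_meas ι hι S hιS (fun v => fderiv ℝ g (t, v) (1, 0)) (hcs' t ht)).aestronglyMeasurable
  · filter_upwards with a s hs
    exact hC (s, ι a) ⟨hs, hιS a⟩
  · exact integrable_const C
  · filter_upwards with a s hs
    have hmem : (s, ι a) ∈ I ×ˢ O := ⟨hKI hs, hSO (hιS a)⟩
    have hd : HasFDerivAt g (fderiv ℝ g (s, ι a)) (s, ι a) :=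
      ((hg.contDiffAt (hopen.mem_nhds hmem)).differentiableAt (by simp)).hasFDerivAt
    have h1 : HasDerivAt (fun r : ℝ => (r, ι a)) ((1 : ℝ), (0 : F)) s :=
      (hasDerivAt_id s).prodMk (hasDerivAt_const s (ι a))
    exact hd.comp_hasDerivAt s h1

/-- TARGET 1: smooth dependence of an integral on a real parameter -/
theorem param_smooth {α F : Type*} [MeasurableSpace α] (σ : Measure α) [IsFiniteMeasure σ]
    [NormedAddCommGroup F] [NormedSpace ℝ F] [FiniteDimensional ℝ F] [MeasurableSpace F]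
    [BorelSpace F] (ι : α → F) (hι : Measurable ι) (S : Set F) (hS : IsCompact S)
    (hιS : ∀ a, ι a ∈ S) (I : Set ℝ) (hI : IsOpen I) (O : Set F) (hO : IsOpen O) (hSO : S ⊆ O)
    (g : ℝ × F → ℝ) (hg : ContDiffOn ℝ ∞ g (I ×ˢ O)) :
    ContDiffOn ℝ ∞ (fun t => ∫ a, g (t, ι a) ∂σ) I := by
  rw [contDiffOn_infty]
  intro k
  induction k generalizing g with
  | zero =>
    simp only [Nat.cast_zero, contDiffOn_zero]
    intro t ht
    exact (ps_deriv σ ι hι S hS hιS I hI O hO hSO g hg t ht).continuousAt.continuousWithinAt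
  | succ k ih =>
    have hopen : IsOpen (I ×ˢ O) := hI.prod hO
    have hg' : ContDiffOn ℝ ∞ (fun z => fderiv ℝ g z (1, 0)) (I ×ˢ O) := by
      have h0 := hg.fderiv_of_isOpen hopen (m := ∞) (by simp)
      exact h0.clm_apply contDiffOn_const
    have h2 := ih (fun z => fderiv ℝ g z (1, 0)) hg'
    push_cast
    rw [contDiffOn_succ_iff_deriv_of_isOpen hI]
    refine ⟨?_, ?_, ?_⟩
    · intro t ht
      exact (ps_deriv σ ι hι S hS hιS I hI O hO hSO g hg t ht).differentiableAt.differentiableWithinAt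
    · intro h; exact absurd h (by simp)
    · refine h2.congr ?_
      intro t ht
      exact (ps_deriv σ ι hι S hS hιS I hI O hO hSO g hg t ht).deriv

theorem ioi_Iic (n : ℕ) (x : Ioi (0 : ℝ)) :
    Measure.volumeIoiPow n (Iic x) = ENNReal.ofReal (x.1 ^ (n + 1) / (n + 1)) := by
  have hr₀ : 0 ≤ x.1 := le_of_lt x.2
  have him : (Subtype.val '' (Iic x) : Set ℝ) = Ioc 0 x.1 := by
    ext y; constructor
    · rintro ⟨z, hz, rfl⟩; exact ⟨z.2, hz⟩
    · rintro ⟨h1, h2⟩; exact ⟨⟨y, h1⟩, h2, rfl⟩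
  rw [Measure.volumeIoiPow, withDensity_apply _ measurableSet_Iic,
    setLIntegral_subtype measurableSet_Ioi _ fun a : ℝ ↦ .ofReal (a ^ n),
    him,
    ← ofReal_integral_eq_lintegral_ofReal (intervalIntegral.intervalIntegrable_pow _).1, ← intervalIntegral.integral_of_le hr₀]
  · simp
  · filter_upwards [ae_restrict_mem measurableSet_Ioc] with y hy
    exact pow_nonneg hy.1.le _

theorem polar_volume {F : Type*} [NormedAddCommGroup F] [InnerProductSpace ℝ F]
    [FiniteDimensional ℝ F] [MeasurableSpace F] [BorelSpace F] (hF : 0 < Module.finrank ℝ F)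
    (T : Set F) (hT : MeasurableSet T) (y₀ : F) (R : F → ℝ) (hR : ContinuousOn R (sphere 0 1))
    (hRp : ∀ θ ∈ sphere (0 : F) 1, 0 ≤ R θ)
    (h : ∀ θ ∈ sphere (0 : F) 1, ∀ r : ℝ, 0 < r → (y₀ + r • θ ∈ T ↔ r ≤ R θ)) :
    (volume T).toReal = ∫ θ : sphere (0 : F) 1,
      (R θ) ^ (Module.finrank ℝ F) / (Module.finrank ℝ F) ∂(volume : Measure F).toSphere := by
  have : Nontrivial F := Module.finrank_pos_iff.1 hF
  set d := Module.finrank ℝ F with hd
  set T' : Set F := (fun z => y₀ + z) ⁻¹' T with hT'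
  have hT'm : MeasurableSet T' := hT.preimage (measurable_const_add y₀)
  have e1 : volume T = volume T' := by
    rw [hT']
    exact (measure_preimage_add volume y₀ T).symm
  have hRc : Continuous (fun θ : sphere (0 : F) 1 => R θ) :=
    continuousOn_iff_continuous_domRestrict.1 hR
  -- the set in the product
  set A : Set (sphere (0 : F) 1 × Ioi (0 : ℝ)) := {p | (p.2 : ℝ) ≤ R p.1} with hA
  have hAm : MeasurableSet A := by
    apply IsClosed.measurableSet
    apply isClosed_le
    · fun_prop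
    · exact hRc.comp continuous_fst
  have e2 : volume T' = (Measure.comap (Subtype.val : ({0}ᶜ : Set F) → F) volume) (Subtype.val ⁻¹' T') := by
    rw [comap_subtype_coe_apply (measurableSet_singleton (0 : F)).compl]
    rw [Subtype.image_preimage_coe]
    have hnull : volume ({0} : Set F) = 0 := measure_singleton _
    have : T' ∩ {0}ᶜ = T' \ {0} := rfl
    rw [inter_comm, this, measure_sdiff_null hnull]
  have e3 : (Subtype.val ⁻¹' T' : Set ({0}ᶜ : Set F)) = homeomorphUnitSphereProd F ⁻¹' A := by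
    ext z
    simp only [mem_preimage, hA, mem_ofPred_eq, hT']
    have hz : (z : F) ≠ 0 := z.2
    have hzn : 0 < ‖(z : F)‖ := norm_pos_iff.2 hz
    have hs : ((homeomorphUnitSphereProd F z).1 : F) = ‖(z : F)‖⁻¹ • (z : F) := by
      simp [homeomorphUnitSphereProd]
    have hr : ((homeomorphUnitSphereProd F z).2 : ℝ) = ‖(z : F)‖ := by
      simp [homeomorphUnitSphereProd]
    rw [hs, hr]
    have hmem : ‖(z : F)‖⁻¹ • (z : F) ∈ sphere (0 : F) 1 := by
      rw [← hs]; exact (homeomorphUnitSphereProd F z).1.2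
    have := h _ hmem ‖(z : F)‖ hzn
    rw [smul_smul, mul_inv_cancel₀ hzn.ne', one_smul] at this
    exact this
  have e4 : volume T = ((volume : Measure F).toSphere.prod (Measure.volumeIoiPow (d - 1))) A := by
    rw [e1, e2, e3]
    exact ((volume : Measure F).measurePreserving_homeomorphUnitSphereProd).measure_preimage hAm.nullMeasurableSet
  have e5 : volume T = ∫⁻ θ : sphere (0 : F) 1, ENNReal.ofReal ((R θ) ^ d / d) ∂(volume : Measure F).toSphere := by
    rw [e4, Measure.prod_apply hAm]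
    refine lintegral_congr ?_
    intro θ
    have hθ := hRp θ θ.2
    rcases hθ.eq_or_lt with h0 | h0
    · have : (Prod.mk θ ⁻¹' A : Set (Ioi (0:ℝ))) = ∅ := by
        ext r; simp only [hA, mem_preimage, mem_ofPred_eq, mem_empty_iff_false, iff_false, not_le]
        rw [← h0]; exact r.2
      have hz : (0 : ℝ) ^ d / (d : ℝ) = 0 := by rw [zero_pow hF.ne', zero_div]
      rw [this, ← h0, hz]
      simp
    · have : (Prod.mk θ ⁻¹' A : Set (Ioi (0:ℝ))) = Iic ⟨R θ, h0⟩ := by
        ext r; simp only [hA, mem_preimage, mem_ofPred_eq, mem_Iic]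
        rfl
      rw [this, ioi_Iic]
      have hd1 : d - 1 + 1 = d := Nat.sub_add_cancel hF
      rw [hd1]
      congr 2
      have : ((d - 1 : ℕ) : ℝ) + 1 = ((d - 1 + 1 : ℕ) : ℝ) := by push_cast; ring
      rw [this, hd1]
  rw [e5]
  rw [integral_eq_lintegral_of_nonneg_ae]
  · filter_upwards with θ
    exact div_nonneg (pow_nonneg (hRp θ θ.2) _) (Nat.cast_nonneg _)
  · exact ((hRc.pow d).div_const _).aestronglyMeasurable

end AR.J5843

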