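import Mathlib
import Pool.Agent.Helper272.Arn.J5842
import Pool.Agent.Helper272.Arn.J5843
import Pool.Agent.Helper272.Ell.J3730

set_option autoImplicit false
open Set Metric MeasureTheory Polynomial
open scoped ContDiff RealInnerProductSpace ENNReal

namespace AR.J5874

open AR.J5842 (radial_smooth)
open AR.J5843 (param_smooth polar_volume)
open AS.J3730 (lintegral_slice)

/-! the following lemmas are proved elsewhere, you may use them -/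

theorem ar_inner {n : ℕ} {ξ : EuclideanSpace ℝ (Fin n)} (hξ : ‖ξ‖ = 1) (t : ℝ)
    (y : (ℝ ∙ ξ)ᗮ) : ⟪t • ξ + (y : EuclideanSpace ℝ (Fin n)), ξ⟫ = t := by
  have h1 : ⟪(y : EuclideanSpace ℝ (Fin n)), ξ⟫ = 0 :=
    (Submodule.mem_orthogonal_singleton_iff_inner_left).1 y.2
  rw [inner_add_left, real_inner_smul_left, real_inner_self_eq_norm_sq, hξ, h1]
  ring

theorem ar_mem {n : ℕ} {ξ : EuclideanSpace ℝ (Fin n)} (hξ : ‖ξ‖ = 1)
    (p : EuclideanSpace ℝ (Fin n)) : p - ⟪p, ξ⟫ • ξ ∈ (ℝ ∙ ξ)ᗮ := by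
  rw [Submodule.mem_orthogonal_singleton_iff_inner_left, inner_sub_left, real_inner_smul_left,
    real_inner_self_eq_norm_sq, hξ]
  ring

theorem ar_finrank {n : ℕ} (hn : 2 ≤ n) (ξ : EuclideanSpace ℝ (Fin n)) :
    0 < Module.finrank ℝ (ℝ ∙ ξ)ᗮ := by
  have h1 := Submodule.finrank_add_finrank_orthogonal (ℝ ∙ ξ)
  have h2 := finrank_span_le_card (R := ℝ) ({ξ} : Set (EuclideanSpace ℝ (Fin n)))
  rw [finrank_euclideanSpace_fin] at h1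
  simp only [Set.toFinset_singleton, Finset.card_singleton] at h2
  omega

theorem ar_slice_closed {n : ℕ} {K : Set (EuclideanSpace ℝ (Fin n))} (hK : IsCompact K)
    (ξ : EuclideanSpace ℝ (Fin n)) (t : ℝ) :
    IsClosed {y : (ℝ ∙ ξ)ᗮ | t • ξ + (y : EuclideanSpace ℝ (Fin n)) ∈ K} :=
  hK.isClosed.preimage (by fun_prop)

theorem ar_slice_lt_top {n : ℕ} {K : Set (EuclideanSpace ℝ (Fin n))} (hK : IsCompact K)
    (ξ : EuclideanSpace ℝ (Fin n)) (t : ℝ) :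
    volume {y : (ℝ ∙ ξ)ᗮ | t • ξ + (y : EuclideanSpace ℝ (Fin n)) ∈ K} < ⊤ := by
  obtain ⟨R, hR⟩ := hK.isBounded.subset_closedBall (0 : EuclideanSpace ℝ (Fin n))
  have hsub : {y : (ℝ ∙ ξ)ᗮ | t • ξ + (y : EuclideanSpace ℝ (Fin n)) ∈ K} ⊆
      closedBall (0 : (ℝ ∙ ξ)ᗮ) (R + ‖t • ξ‖) := by
    intro y hy
    have h1 := hR hy
    rw [mem_closedBall, dist_zero_right] at h1 ⊢
    have h2 : ‖(y : EuclideanSpace ℝ (Fin n))‖ ≤
        ‖t • ξ + (y : EuclideanSpace ℝ (Fin n))‖ + ‖t • ξ‖ := by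
      have e : (y : EuclideanSpace ℝ (Fin n)) =
        (t • ξ + (y : EuclideanSpace ℝ (Fin n))) - t • ξ := by abel
      calc ‖(y : EuclideanSpace ℝ (Fin n))‖ =
          ‖(t • ξ + (y : EuclideanSpace ℝ (Fin n))) - t • ξ‖ := by rw [← e]
        _ ≤ _ := norm_sub_le _ _
    have h3 : ‖y‖ = ‖(y : EuclideanSpace ℝ (Fin n))‖ := rfl
    rw [h3]
    linarith
  exact (measure_mono hsub).trans_lt measure_closedBall_lt_top

theorem ar_param {n : ℕ} {K : Set (EuclideanSpace ℝ (Fin n))} {ξ : EuclideanSpace ℝ (Fin n)}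
    {ρ : EuclideanSpace ℝ (Fin n) × EuclideanSpace ℝ (Fin n) → ℝ}
    (hρ : ContDiffOn ℝ ∞ ρ (interior K ×ˢ {0}ᶜ)) (y0 : (ℝ ∙ ξ)ᗮ) (d : ℕ) :
    ContDiffOn ℝ ∞ (fun q : ℝ × (ℝ ∙ ξ)ᗮ =>
        (ρ (q.1 • ξ + (y0 : EuclideanSpace ℝ (Fin n)), (q.2 : EuclideanSpace ℝ (Fin n)))) ^ d /
          (d : ℝ))
      ({t | t • ξ + (y0 : EuclideanSpace ℝ (Fin n)) ∈ interior K} ×ˢ {0}ᶜ) := by
  apply ContDiffOn.div_const
  apply ContDiffOn.pow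
  have h1 : ContDiff ℝ ∞ (fun q : ℝ × (ℝ ∙ ξ)ᗮ =>
      (q.1 • ξ + (y0 : EuclideanSpace ℝ (Fin n)), (q.2 : EuclideanSpace ℝ (Fin n)))) := by
    apply ContDiff.prodMk
    · exact (contDiff_fst.smul contDiff_const).add contDiff_const
    · exact ((ℝ ∙ ξ)ᗮ.subtypeL.contDiff).comp contDiff_snd
  refine hρ.comp h1.contDiffOn ?_
  rintro ⟨t, v⟩ ⟨h2, h3⟩
  refine ⟨h2, ?_⟩
  intro h4
  apply h3
  rw [mem_singleton_iff] at h4 ⊢
  exact Subtype.ext h4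

theorem ar_polar {n : ℕ} (hn : 2 ≤ n) {K : Set (EuclideanSpace ℝ (Fin n))} (hK : IsCompact K)
    {ξ : EuclideanSpace ℝ (Fin n)}
    {ρ : EuclideanSpace ℝ (Fin n) × EuclideanSpace ℝ (Fin n) → ℝ}
    (hρ : ContDiffOn ℝ ∞ ρ (interior K ×ˢ {0}ᶜ))
    (hρ2 : ∀ p ∈ interior K, ∀ v : EuclideanSpace ℝ (Fin n), v ≠ 0 → 0 < ρ (p, v) ∧
        ∀ r : ℝ, 0 ≤ r → (p + r • v ∈ K ↔ r ≤ ρ (p, v)))
    (y0 : (ℝ ∙ ξ)ᗮ) {t : ℝ} (ht : t • ξ + (y0 : EuclideanSpace ℝ (Fin n)) ∈ interior K) :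
    (volume {y : (ℝ ∙ ξ)ᗮ | t • ξ + (y : EuclideanSpace ℝ (Fin n)) ∈ K}).toReal =
      ∫ θ : sphere (0 : (ℝ ∙ ξ)ᗮ) 1,
        (ρ (t • ξ + (y0 : EuclideanSpace ℝ (Fin n)),
          ((θ : (ℝ ∙ ξ)ᗮ) : EuclideanSpace ℝ (Fin n)))) ^ (Module.finrank ℝ (ℝ ∙ ξ)ᗮ) /
          (Module.finrank ℝ (ℝ ∙ ξ)ᗮ : ℝ) ∂(volume : Measure (ℝ ∙ ξ)ᗮ).toSphere := by
  have hne : ∀ θ ∈ sphere (0 : (ℝ ∙ ξ)ᗮ) 1, (θ : EuclideanSpace ℝ (Fin n)) ≠ 0 := by
    intro θ hθ h0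
    have h1 : ‖(θ : EuclideanSpace ℝ (Fin n))‖ = 1 := by
      have := mem_sphere_zero_iff_norm.1 hθ
      exact this
    rw [h0, norm_zero] at h1
    exact zero_ne_one h1
  refine polar_volume (ar_finrank hn ξ)
    {y : (ℝ ∙ ξ)ᗮ | t • ξ + (y : EuclideanSpace ℝ (Fin n)) ∈ K}
    (ar_slice_closed hK ξ t).measurableSet y0
    (fun θ => ρ (t • ξ + (y0 : EuclideanSpace ℝ (Fin n)), (θ : EuclideanSpace ℝ (Fin n)))) ?_ ?_ ?_
  · refine hρ.continuousOn.comp (by fun_prop) ?_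
    intro θ hθ
    exact ⟨ht, hne θ hθ⟩
  · intro θ hθ
    exact (hρ2 _ ht _ (hne θ hθ)).1.le
  · intro θ hθ r hr
    have h1 := (hρ2 _ ht _ (hne θ hθ)).2 r hr.le
    rw [← h1]
    have e : t • ξ + ((y0 + r • θ : (ℝ ∙ ξ)ᗮ) : EuclideanSpace ℝ (Fin n)) =
        t • ξ + (y0 : EuclideanSpace ℝ (Fin n)) + r • (θ : EuclideanSpace ℝ (Fin n)) := by
      rw [Submodule.coe_add, Submodule.coe_smul, add_assoc]
    show t • ξ + ((y0 + r • θ : (ℝ ∙ ξ)ᗮ) : EuclideanSpace ℝ (Fin n)) ∈ K ↔ _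
    rw [e]

/-- TARGET 1 -/
theorem smooth_sections {n : ℕ} (hn : 2 ≤ n) (K : Set (EuclideanSpace ℝ (Fin n)))
    (hK : IsCompact K) (hKc : Convex ℝ K) (hKi : (interior K).Nonempty)
    (hsm : ∀ x ∈ frontier K, ∃ U : Set (EuclideanSpace ℝ (Fin n)), IsOpen U ∧ x ∈ U ∧
      ∃ f : EuclideanSpace ℝ (Fin n) → ℝ, ContDiffOn ℝ ∞ f U ∧ fderiv ℝ f x ≠ 0 ∧
        frontier K ∩ U = {y ∈ U | f y = 0})
    (ξ : EuclideanSpace ℝ (Fin n)) (hξ : ‖ξ‖ = 1) :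
    ContDiffOn ℝ ∞ (fun t : ℝ =>
        (volume {y : (ℝ ∙ ξ)ᗮ | t • ξ + (y : EuclideanSpace ℝ (Fin n)) ∈ K}).toReal)
      ((fun x : EuclideanSpace ℝ (Fin n) => ⟪x, ξ⟫) '' interior K) := by
  obtain ⟨ρ, hρ, hρ2⟩ := radial_smooth K hK hKc hKi hsm
  intro t0 ht0
  obtain ⟨p, hp, hpt⟩ := ht0
  simp only at hpt
  have hy0 : p - t0 • ξ ∈ (ℝ ∙ ξ)ᗮ := by
    rw [← hpt]
    exact ar_mem hξ p
  set y0 : (ℝ ∙ ξ)ᗮ := ⟨p - t0 • ξ, hy0⟩ with hy0def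
  set I : Set ℝ := {t | t • ξ + (y0 : EuclideanSpace ℝ (Fin n)) ∈ interior K} with hIdef
  have hI : IsOpen I := isOpen_interior.preimage (by fun_prop)
  have ht0I : t0 ∈ I := by
    show t0 • ξ + (p - t0 • ξ) ∈ interior K
    rw [add_sub_cancel]
    exact hp
  have hmain := param_smooth (volume : Measure (ℝ ∙ ξ)ᗮ).toSphere
    (fun θ : sphere (0 : (ℝ ∙ ξ)ᗮ) 1 => (θ : (ℝ ∙ ξ)ᗮ)) measurable_subtype_coe
    (sphere (0 : (ℝ ∙ ξ)ᗮ) 1) (isCompact_sphere 0 1) (fun a => a.2) I hI ({0}ᶜ)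
    isOpen_compl_singleton (by
      intro θ hθ h0
      rw [mem_singleton_iff] at h0
      rw [h0] at hθ
      simp at hθ) _ (ar_param hρ y0 (Module.finrank ℝ (ℝ ∙ ξ)ᗮ))
  have hA : ContDiffOn ℝ ∞ (fun t : ℝ =>
        (volume {y : (ℝ ∙ ξ)ᗮ | t • ξ + (y : EuclideanSpace ℝ (Fin n)) ∈ K}).toReal) I := by
    refine hmain.congr ?_
    intro t ht
    exact ar_polar hn hK hρ hρ2 y0 ht
  exact (hA.contDiffAt (hI.mem_nhds ht0I)).contDiffWithinAt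

/-- the measure of the part of `K` below height `t` -/
theorem ar_cum {n : ℕ} {K : Set (EuclideanSpace ℝ (Fin n))} (hK : IsCompact K)
    {ξ : EuclideanSpace ℝ (Fin n)} (hξ : ‖ξ‖ = 1) (B : Set ℝ) (hB : MeasurableSet B) :
    volume {x ∈ K | ⟪x, ξ⟫ ∈ B} =
      ∫⁻ s in B, volume {y : (ℝ ∙ ξ)ᗮ | s • ξ + (y : EuclideanSpace ℝ (Fin n)) ∈ K} := by
  have hm : MeasurableSet {x ∈ K | ⟪x, ξ⟫ ∈ B} := by
    apply hK.isClosed.measurableSet.inter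
    exact (show Measurable fun x : EuclideanSpace ℝ (Fin n) => ⟪x, ξ⟫ by fun_prop) hB
  have h1 := lintegral_slice ξ hξ ({x ∈ K | ⟪x, ξ⟫ ∈ B}.indicator 1)
    (measurable_one.indicator hm)
  rw [lintegral_indicator_one hm] at h1
  rw [h1, ← lintegral_indicator hB]
  refine lintegral_congr fun s => ?_
  by_cases hs : s ∈ B
  · rw [indicator_of_mem hs]
    rw [← lintegral_indicator_one (ar_slice_closed hK ξ s).measurableSet]
    refine lintegral_congr fun y => ?_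
    by_cases hy : s • ξ + (y : EuclideanSpace ℝ (Fin n)) ∈ K
    · rw [indicator_of_mem (s := {x ∈ K | ⟪x, ξ⟫ ∈ B})
        (show _ ∈ _ from ⟨hy, by rw [ar_inner hξ]; exact hs⟩),
        indicator_of_mem (s := {y : (ℝ ∙ ξ)ᗮ | s • ξ + (y : EuclideanSpace ℝ (Fin n)) ∈ K}) hy]
      rfl
    · rw [indicator_of_notMem (s := {x ∈ K | ⟪x, ξ⟫ ∈ B}) (fun h => hy h.1),
        indicator_of_notMem (s := {y : (ℝ ∙ ξ)ᗮ | s • ξ + (y : EuclideanSpace ℝ (Fin n)) ∈ K}) hy]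
  · rw [indicator_of_notMem hs]
    rw [lintegral_eq_zero_iff']
    · refine Filter.Eventually.of_forall fun y => ?_
      exact indicator_of_notMem (s := {x ∈ K | ⟪x, ξ⟫ ∈ B})
        (fun h => hs (by have := h.2; rwa [ar_inner hξ] at this)) _
    · apply Measurable.aemeasurable
      exact (measurable_one.indicator hm).comp (by fun_prop)

theorem ar_meas {n : ℕ} {K : Set (EuclideanSpace ℝ (Fin n))} (hK : IsCompact K)
    (ξ : EuclideanSpace ℝ (Fin n)) :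
    Measurable fun s : ℝ =>
      volume {y : (ℝ ∙ ξ)ᗮ | s • ξ + (y : EuclideanSpace ℝ (Fin n)) ∈ K} := by
  have h1 : Measurable fun q : ℝ × (ℝ ∙ ξ)ᗮ =>
      K.indicator (1 : EuclideanSpace ℝ (Fin n) → ℝ≥0∞)
        (q.1 • ξ + (q.2 : EuclideanSpace ℝ (Fin n))) :=
    (measurable_one.indicator hK.isClosed.measurableSet).comp (by fun_prop)
  have h2 := h1.lintegral_prod_right' (ν := (volume : Measure (ℝ ∙ ξ)ᗮ))
  have h3 : (fun s : ℝ => volume {y : (ℝ ∙ ξ)ᗮ | s • ξ + (y : EuclideanSpace ℝ (Fin n)) ∈ K}) =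
      fun s : ℝ => ∫⁻ y : (ℝ ∙ ξ)ᗮ, K.indicator (1 : EuclideanSpace ℝ (Fin n) → ℝ≥0∞)
        (s • ξ + (y : EuclideanSpace ℝ (Fin n))) := by
    funext s
    rw [← lintegral_indicator_one (ar_slice_closed hK ξ s).measurableSet]
    rfl
  rw [h3]
  exact h2

theorem ar_open {n : ℕ} {K : Set (EuclideanSpace ℝ (Fin n))}
    {ξ : EuclideanSpace ℝ (Fin n)} (hξ : ‖ξ‖ = 1) :
    IsOpen ((fun x : EuclideanSpace ℝ (Fin n) => ⟪x, ξ⟫) '' interior K) := by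
  rw [isOpen_iff_mem_nhds]
  rintro _ ⟨p, hp, rfl⟩
  have hc : Continuous fun t : ℝ => t • ξ + (p - ⟪p, ξ⟫ • ξ) := by fun_prop
  have h1 : {t : ℝ | t • ξ + (p - ⟪p, ξ⟫ • ξ) ∈ interior K} ∈ nhds ⟪p, ξ⟫ := by
    apply (isOpen_interior.preimage hc).mem_nhds
    show ⟪p, ξ⟫ • ξ + (p - ⟪p, ξ⟫ • ξ) ∈ interior K
    rw [add_sub_cancel]
    exact hp
  filter_upwards [h1] with t ht
  exact ⟨_, ht, ar_inner hξ t ⟨_, ar_mem hξ p⟩⟩

theorem ar_pos {n : ℕ} {K : Set (EuclideanSpace ℝ (Fin n))} (hK : IsCompact K)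
    {ξ : EuclideanSpace ℝ (Fin n)} (hξ : ‖ξ‖ = 1) {t : ℝ}
    (ht : t ∈ (fun x : EuclideanSpace ℝ (Fin n) => ⟪x, ξ⟫) '' interior K) :
    0 < (volume {y : (ℝ ∙ ξ)ᗮ | t • ξ + (y : EuclideanSpace ℝ (Fin n)) ∈ K}).toReal := by
  obtain ⟨p, hp, hpt⟩ := ht
  simp only at hpt
  have hy0 : p - t • ξ ∈ (ℝ ∙ ξ)ᗮ := by
    rw [← hpt]
    exact ar_mem hξ p
  refine ENNReal.toReal_pos ?_ (ar_slice_lt_top hK ξ t).ne
  have hopen : IsOpen {y : (ℝ ∙ ξ)ᗮ | t • ξ + (y : EuclideanSpace ℝ (Fin n)) ∈ interior K} :=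
    isOpen_interior.preimage (by fun_prop)
  have hne : {y : (ℝ ∙ ξ)ᗮ | t • ξ + (y : EuclideanSpace ℝ (Fin n)) ∈ interior K}.Nonempty := by
    refine ⟨⟨p - t • ξ, hy0⟩, ?_⟩
    show t • ξ + (p - t • ξ) ∈ interior K
    rw [add_sub_cancel]
    exact hp
  have h1 := hopen.measure_pos volume hne
  have h2 : volume {y : (ℝ ∙ ξ)ᗮ | t • ξ + (y : EuclideanSpace ℝ (Fin n)) ∈ interior K} ≤
      volume {y : (ℝ ∙ ξ)ᗮ | t • ξ + (y : EuclideanSpace ℝ (Fin n)) ∈ K} :=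
    measure_mono fun y hy => (interior_subset : interior K ⊆ K) hy
  exact (h1.trans_le h2).ne'

/-- TARGET 2 -/
theorem smooth_cumulative {n : ℕ} (hn : 2 ≤ n) (K : Set (EuclideanSpace ℝ (Fin n)))
    (hK : IsCompact K) (hKc : Convex ℝ K) (hKi : (interior K).Nonempty)
    (hsm : ∀ x ∈ frontier K, ∃ U : Set (EuclideanSpace ℝ (Fin n)), IsOpen U ∧ x ∈ U ∧
      ∃ f : EuclideanSpace ℝ (Fin n) → ℝ, ContDiffOn ℝ ∞ f U ∧ fderiv ℝ f x ≠ 0 ∧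
        frontier K ∩ U = {y ∈ U | f y = 0})
    (ξ : EuclideanSpace ℝ (Fin n)) (hξ : ‖ξ‖ = 1) (V : ℝ → ℝ)
    (hV : V = fun t => (volume {x ∈ K | ⟪x, ξ⟫ ≤ t}).toReal) (U : Set ℝ)
    (hU : U = (fun x : EuclideanSpace ℝ (Fin n) => ⟪x, ξ⟫) '' interior K) :
    ContDiffOn ℝ ∞ V U ∧ ∀ t ∈ U,
      deriv V t = (volume {y : (ℝ ∙ ξ)ᗮ | t • ξ + (y : EuclideanSpace ℝ (Fin n)) ∈ K}).toReal ∧
      0 < deriv V t := by
  set A : ℝ → ℝ := fun s =>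
    (volume {y : (ℝ ∙ ξ)ᗮ | s • ξ + (y : EuclideanSpace ℝ (Fin n)) ∈ K}).toReal with hA
  have hAs : ContDiffOn ℝ ∞ A U := by
    rw [hU]
    exact smooth_sections hn K hK hKc hKi hsm ξ hξ
  have hUo : IsOpen U := by
    rw [hU]
    exact ar_open hξ
  have hmeas := ar_meas hK ξ
  have hAm : Measurable A := hmeas.ennreal_toReal
  have htot : ∫⁻ s : ℝ, volume {y : (ℝ ∙ ξ)ᗮ | s • ξ + (y : EuclideanSpace ℝ (Fin n)) ∈ K} ≠ ⊤ := by
    have h1 := ar_cum hK hξ univ MeasurableSet.univ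
    rw [Measure.restrict_univ] at h1
    rw [← h1]
    refine ((measure_mono (fun x hx => hx.1)).trans_lt hK.measure_lt_top).ne
  have hAi : Integrable A := integrable_toReal_of_lintegral_ne_top hmeas.aemeasurable htot
  have hVi : ∀ t, V t = ∫ s in Iic t, A s := by
    intro t
    rw [hV]
    simp only
    have h1 := ar_cum hK hξ (Iic t) measurableSet_Iic
    have h2 : {x ∈ K | ⟪x, ξ⟫ ≤ t} = {x ∈ K | ⟪x, ξ⟫ ∈ Iic t} := rfl
    rw [h2, h1, hA, integral_toReal hmeas.aemeasurable.restrict]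
    exact Filter.Eventually.of_forall fun s => ar_slice_lt_top hK ξ s
  have hder : ∀ t ∈ U, HasDerivAt V (A t) t := by
    intro t ht
    have hc : ContinuousAt A t := (hAs.continuousOn.continuousAt (hUo.mem_nhds ht))
    have h1 : HasDerivAt (fun u => ∫ x in t..u, A x) (A t) t :=
      intervalIntegral.integral_hasDerivAt_right hAi.intervalIntegrable
        (hAm.stronglyMeasurable.stronglyMeasurableAtFilter) hc
    have h2 : V = fun u => V t + ∫ x in t..u, A x := by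
      funext u
      rw [hVi u, hVi t, ← intervalIntegral.integral_Iic_sub_Iic hAi.integrableOn hAi.integrableOn]
      ring
    rw [h2]
    exact h1.const_add (V t)
  have hdV : ∀ t ∈ U, deriv V t = A t := fun t ht => (hder t ht).deriv
  refine ⟨?_, ?_⟩
  · rw [contDiffOn_infty_iff_deriv_of_isOpen hUo]
    refine ⟨fun t ht => (hder t ht).differentiableAt.differentiableWithinAt, ?_⟩
    exact hAs.congr hdV
  · intro t ht
    refine ⟨hdV t ht, ?_⟩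
    rw [hdV t ht]
    rw [hU] at ht
    exact ar_pos hK hξ ht

end AR.J5874

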