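import Mathlib

set_option autoImplicit false
open Set Metric MeasureTheory Polynomial
open scoped ContDiff RealInnerProductSpace ENNReal

namespace AR.J5875

/-- TARGET: size of the sections near a nondegenerate support point -/
theorem section_bounds {n k : ℕ} (hn : n = 2 * k + 1) (hk : 0 < k)
    (K : Set (EuclideanSpace ℝ (Fin n))) (hK : IsCompact K)
    (ξ : EuclideanSpace ℝ (Fin n)) (hξ : ‖ξ‖ = 1) (z : EuclideanSpace ℝ (Fin n)) (hz : z ∈ K)
    (κ : ℝ) (hκ : 0 < κ) (hsup : ∀ x ∈ K, ⟪x, ξ⟫ ≤ ⟪z, ξ⟫ - κ * ‖x - z‖ ^ 2)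
    (c : EuclideanSpace ℝ (Fin n)) (ρ : ℝ) (hρ : 0 < ρ) (hc : dist z c = ρ)
    (hball : ball c ρ ⊆ interior K) :
    ∃ C₁ > 0, ∃ C₂ : ℝ, ∃ h₀ > 0, ∀ h : ℝ, 0 < h → h < h₀ →
      C₁ * h ^ k ≤ (volume {y : (ℝ ∙ ξ)ᗮ |
        (⟪z, ξ⟫ - h) • ξ + (y : EuclideanSpace ℝ (Fin n)) ∈ K}).toReal ∧
      (volume {y : (ℝ ∙ ξ)ᗮ |
        (⟪z, ξ⟫ - h) • ξ + (y : EuclideanSpace ℝ (Fin n)) ∈ K}).toReal ≤ C₂ * h ^ k := by
  classical
  set h : ℝ := ⟪z, ξ⟫ with hh
  have hξξ : ⟪ξ, ξ⟫ = 1 := by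
    rw [real_inner_self_eq_norm_sq, hξ]; norm_num
  have hξ0 : ξ ≠ 0 := by
    intro h0; rw [h0, norm_zero] at hξ; norm_num at hξ
  have hballK : ball c ρ ⊆ K := hball.trans interior_subset
  -- c = z - ρ ξ
  have hzc_norm : ‖z - c‖ = ρ := by rw [← dist_eq_norm]; exact hc
  have hs : ∀ s : ℝ, 0 ≤ s → s < ρ → ⟪c, ξ⟫ + s ≤ h := by
    intro s hs0 hs
    have hmem : c + s • ξ ∈ ball c ρ := by
      rw [mem_ball, dist_eq_norm, add_sub_cancel_left, norm_smul, hξ, mul_one, Real.norm_eq_abs, abs_of_nonneg hs0]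
      exact hs
    have h1 := hsup _ (hballK hmem)
    rw [inner_add_left, real_inner_smul_left, hξξ, mul_one] at h1
    have h2 : 0 ≤ κ * ‖c + s • ξ - z‖ ^ 2 := by positivity
    linarith
  have hge : ρ ≤ ⟪z - c, ξ⟫ := by
    rw [inner_sub_left]
    by_contra hcon
    push Not at hcon
    -- choose s
    set d := ⟪z, ξ⟫ - ⟪c, ξ⟫ with hd
    have h0 := hs 0 le_rfl hρ
    have h1 := hs ((ρ + d) / 2) (by linarith) (by linarith)
    linarith
  have hzc : z - c = ρ • ξ := by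
    have h1 : ‖(z - c) - ρ • ξ‖ ^ 2 ≤ 0 := by
      rw [norm_sub_sq_real, real_inner_smul_right, norm_smul, hξ, hzc_norm, Real.norm_eq_abs, mul_one, sq_abs]
      nlinarith
    have h2 : ‖(z - c) - ρ • ξ‖ = 0 := by
      have := sq_nonneg ‖(z - c) - ρ • ξ‖
      have h3 : ‖(z - c) - ρ • ξ‖ ^ 2 = 0 := le_antisymm h1 this
      exact pow_eq_zero_iff (two_ne_zero) |>.1 h3
    exact sub_eq_zero.1 (norm_eq_zero.1 h2)
  -- projection of z
  have hpmem : z - h • ξ ∈ (ℝ ∙ ξ)ᗮ := by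
    rw [Submodule.mem_orthogonal_singleton_iff_inner_left, inner_sub_left, real_inner_smul_left, hξξ, mul_one, sub_self]
  set p : (ℝ ∙ ξ)ᗮ := ⟨z - h • ξ, hpmem⟩ with hp
  have hpc : (p : EuclideanSpace ℝ (Fin n)) = z - h • ξ := rfl
  have horth : ∀ y : (ℝ ∙ ξ)ᗮ, ⟪(y : EuclideanSpace ℝ (Fin n)), ξ⟫ = 0 := by
    intro y
    exact Submodule.mem_orthogonal_singleton_iff_inner_left.1 y.2
  have hpyth : ∀ (s : ℝ) (y : (ℝ ∙ ξ)ᗮ), ‖s • ξ + (y : EuclideanSpace ℝ (Fin n))‖ ^ 2 = s ^ 2 + ‖y‖ ^ 2 := by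
    intro s y
    have h1 := horth y
    rw [norm_add_sq_real, real_inner_smul_left, real_inner_comm, h1, norm_smul, hξ, Real.norm_eq_abs, mul_one, sq_abs]
    simp
  have hinner : ∀ (s : ℝ) (y : (ℝ ∙ ξ)ᗮ), ⟪s • ξ + (y : EuclideanSpace ℝ (Fin n)), ξ⟫ = s := by
    intro s y
    rw [inner_add_left, real_inner_smul_left, hξξ, horth y, mul_one, add_zero]
  -- distance to c
  have hdistc : ∀ (u : ℝ) (y : (ℝ ∙ ξ)ᗮ),
      ‖(h - u) • ξ + (y : EuclideanSpace ℝ (Fin n)) - c‖ ^ 2 = (ρ - u) ^ 2 + ‖y - p‖ ^ 2 := by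
    intro u y
    rw [← hpyth]
    congr 2
    have hcc : c = z - ρ • ξ := by rw [← hzc]; abel
    rw [hcc, Submodule.coe_sub, hpc]
    module
  have hdistz : ∀ (u : ℝ) (y : (ℝ ∙ ξ)ᗮ),
      ‖(h - u) • ξ + (y : EuclideanSpace ℝ (Fin n)) - z‖ ^ 2 = (-u) ^ 2 + ‖y - p‖ ^ 2 := by
    intro u y
    rw [← hpyth]
    congr 2
    rw [Submodule.coe_sub, hpc]
    module
  have hinball : ∀ (u : ℝ), 0 < u → u ≤ ρ → ∀ y : (ℝ ∙ ξ)ᗮ, ‖y - p‖ ^ 2 < ρ * u →
      (h - u) • ξ + (y : EuclideanSpace ℝ (Fin n)) ∈ ball c ρ := by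
    intro u hu huρ y hy
    rw [mem_ball, dist_eq_norm]
    have h1 := hdistc u y
    have h2 : ‖(h - u) • ξ + (y : EuclideanSpace ℝ (Fin n)) - c‖ ^ 2 < ρ ^ 2 := by
      rw [h1]; nlinarith
    exact lt_of_pow_lt_pow_left₀ 2 hρ.le h2
  set S : ℝ → Set ((ℝ ∙ ξ)ᗮ) := fun t => {y : (ℝ ∙ ξ)ᗮ | t • ξ + (y : EuclideanSpace ℝ (Fin n)) ∈ K} with hS
  have hsub1 : ∀ u : ℝ, 0 < u → u ≤ ρ → ball p (Real.sqrt (ρ * u)) ⊆ S (h - u) := by
    intro u hu huρ y hy
    rw [mem_ball, dist_eq_norm] at hy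
    have h1 : ‖y - p‖ ^ 2 < ρ * u := by
      have := (Real.lt_sqrt (norm_nonneg _)).1 hy
      exact this
    exact hballK (hinball u hu huρ y h1)
  have hsub2 : ∀ u : ℝ, 0 < u → u ≤ ρ → S (h - u) ⊆ closedBall p (Real.sqrt (u / κ)) := by
    intro u hu huρ y hy
    have h1 := hsup _ hy
    rw [hinner, hdistz] at h1
    rw [mem_closedBall, dist_eq_norm]
    apply Real.le_sqrt_of_sq_le
    rw [le_div_iff₀ hκ]
    nlinarith [mul_nonneg hκ.le (sq_nonneg u)]
  have hfact : Fact (Module.finrank ℝ (EuclideanSpace ℝ (Fin n)) = (n - 1) + 1) := ⟨by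
    rw [finrank_euclideanSpace_fin]; omega⟩
  have hfin : Module.finrank ℝ (ℝ ∙ ξ)ᗮ = n - 1 := Submodule.finrank_orthogonal_span_singleton hξ0
  set V : ℝ := (volume (ball (0 : (ℝ ∙ ξ)ᗮ) 1)).toReal with hV
  have hVfin : volume (ball (0 : (ℝ ∙ ξ)ᗮ) 1) ≠ ⊤ := measure_ball_lt_top.ne
  have hVpos : 0 < V := by
    apply ENNReal.toReal_pos _ hVfin
    exact (measure_ball_pos volume _ one_pos).ne'
  have hlowV : ∀ u : ℝ, 0 < u → u ≤ ρ → V * Real.sqrt (ρ * u) ^ (n - 1) ≤ (volume (S (h - u))).toReal := by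
    intro u hu huρ
    have hr : 0 < Real.sqrt (ρ * u) := Real.sqrt_pos.2 (by positivity)
    have h1 : volume (ball p (Real.sqrt (ρ * u))) ≤ volume (S (h - u)) := measure_mono (hsub1 u hu huρ)
    have h2 : volume (S (h - u)) ≤ volume (closedBall p (Real.sqrt (u / κ))) := measure_mono (hsub2 u hu huρ)
    have h3 : volume (S (h - u)) ≠ ⊤ := (lt_of_le_of_lt h2 measure_closedBall_lt_top).ne
    have h4 := ENNReal.toReal_mono h3 h1
    rw [Measure.addHaar_ball_of_pos volume p hr, hfin, ENNReal.toReal_mul, ENNReal.toReal_ofReal (by positivity)] at h4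
    linarith
  have hupV : ∀ u : ℝ, 0 < u → u ≤ ρ → (volume (S (h - u))).toReal ≤ V * Real.sqrt (u / κ) ^ (n - 1) := by
    intro u hu huρ
    have hr : 0 ≤ Real.sqrt (u / κ) := Real.sqrt_nonneg _
    have h2 : volume (S (h - u)) ≤ volume (closedBall p (Real.sqrt (u / κ))) := measure_mono (hsub2 u hu huρ)
    have h4 := ENNReal.toReal_mono (measure_closedBall_lt_top).ne h2
    rw [Measure.addHaar_closedBall volume p hr, hfin, ENNReal.toReal_mul, ENNReal.toReal_ofReal (by positivity)] at h4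
    linarith
  have hn1 : n - 1 = 2 * k := by omega
  have hsq : ∀ x : ℝ, 0 ≤ x → Real.sqrt x ^ (n - 1) = x ^ k := by
    intro x hx
    rw [hn1, pow_mul, Real.sq_sqrt hx]
  refine ⟨V * ρ ^ k, by positivity, V * (1 / κ) ^ k, ρ, hρ, ?_⟩
  intro u hu huρ
  constructor
  · have h1 := hlowV u hu huρ.le
    rw [hsq _ (by positivity), mul_pow] at h1
    calc V * ρ ^ k * u ^ k = V * (ρ ^ k * u ^ k) := by ring
      _ ≤ _ := h1
  · have h1 := hupV u hu huρ.le
    rw [hsq _ (by positivity)] at h1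
    calc _ ≤ _ := h1
      _ = V * (1 / κ) ^ k * u ^ k := by
        rw [div_eq_mul_inv, mul_pow, one_div]; ring

/-- TARGET 2: convexity makes the projection convex and its images intervals -/
theorem proj_convex {n : ℕ} (K : Set (EuclideanSpace ℝ (Fin n))) (hK : IsCompact K)
    (hKc : Convex ℝ K) (hKi : (interior K).Nonempty) (ξ : EuclideanSpace ℝ (Fin n)) (hξ : ξ ≠ 0) :
    ∃ b τ : ℝ, b < τ ∧
      (fun x : EuclideanSpace ℝ (Fin n) => ⟪x, ξ⟫) '' interior K = Ioo b τ ∧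
      IsGreatest ((fun x : EuclideanSpace ℝ (Fin n) => ⟪x, ξ⟫) '' K) τ ∧
      IsLeast ((fun x : EuclideanSpace ℝ (Fin n) => ⟪x, ξ⟫) '' K) b := by
  classical
  set f : EuclideanSpace ℝ (Fin n) → ℝ := fun x => ⟪x, ξ⟫ with hf
  have hcont : Continuous f := by
    simp only [hf]
    fun_prop
  have hξ2 : ⟪ξ, ξ⟫ ≠ (0:ℝ) := by
    rw [Ne, inner_self_eq_zero]
    exact hξ
  have hopen : IsOpenMap f := by
    have h1 : Function.Surjective (innerSL ℝ ξ) := by
      intro t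
      refine ⟨(t / ⟪ξ, ξ⟫) • ξ, ?_⟩
      rw [innerSL_apply_apply, real_inner_smul_right]
      field_simp
    have h2 := (innerSL ℝ ξ).isOpenMap h1
    have h3 : f = fun x => (innerSL ℝ ξ) x := by
      funext x
      rw [innerSL_apply_apply, real_inner_comm]
    rw [h3]
    exact h2
  have hKne : K.Nonempty := hKi.mono interior_subset
  have himc : IsCompact (f '' K) := hK.image hcont
  obtain ⟨τ, hτ⟩ := himc.exists_isGreatest (hKne.image f)
  obtain ⟨b, hb⟩ := himc.exists_isLeast (hKne.image f)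
  have hsubK : f '' interior K ⊆ f '' K := image_mono interior_subset
  have hsub : f '' interior K ⊆ Ioo b τ := by
    have h1 : f '' interior K ⊆ Icc b τ := fun t ht => ⟨hb.2 (hsubK ht), hτ.2 (hsubK ht)⟩
    have h2 : f '' interior K ⊆ interior (Icc b τ) :=
      interior_maximal h1 (hopen _ isOpen_interior)
    rwa [interior_Icc] at h2
  have hcl : K ⊆ closure (interior K) := by
    rw [hKc.closure_interior_eq_closure_of_nonempty_interior hKi]
    exact subset_closure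
  have hcl2 : f '' K ⊆ closure (f '' interior K) :=
    (image_mono hcl).trans (image_closure_subset_closure_image hcont)
  have hconv : OrdConnected (f '' interior K) := by
    have h1 : Convex ℝ (f '' interior K) := by
      have h2 : f '' interior K = (innerSL ℝ ξ) '' interior K := by
        apply image_congr
        intro x _
        rw [innerSL_apply_apply, real_inner_comm]
      rw [h2]
      exact hKc.interior.linear_image (innerSL ℝ ξ).toLinearMap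
    exact h1.ordConnected
  have heq : f '' interior K = Ioo b τ := by
    apply Subset.antisymm hsub
    intro t ht
    obtain ⟨u, hu1, hu2⟩ := mem_closure_iff.mp (hcl2 hτ.1) (Ioi t) isOpen_Ioi ht.2
    obtain ⟨v, hv1, hv2⟩ := mem_closure_iff.mp (hcl2 hb.1) (Iio t) isOpen_Iio ht.1
    exact hconv.out hv2 hu2 ⟨le_of_lt hv1, le_of_lt hu1⟩
  refine ⟨b, τ, ?_, heq, hτ, hb⟩
  obtain ⟨x, hx⟩ := hKi
  have h1 := hsub (mem_image_of_mem f hx)
  exact h1.1.trans h1.2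

end AR.J5875

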