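import Mathlib
import Pool.Agent.Helper272.Arn.J5874
import Pool.Agent.Helper272.Arn.J5875
import Pool.Agent.Helper272.Ell.J4209

set_option autoImplicit false
open Set Metric MeasureTheory Polynomial
open scoped ContDiff RealInnerProductSpace ENNReal

namespace AR.J5918

open AR.J5874 (smooth_cumulative)
open AR.J5875 (section_bounds proj_convex)

/-! the following lemmas are proved elsewhere, you may use them -/

namespace J5918

theorem mp_slice {n : ℕ} (ξ : EuclideanSpace ℝ (Fin n)) (hξ : ‖ξ‖ = 1) :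
    MeasurePreserving (fun p : ℝ × (ℝ ∙ ξ)ᗮ => p.1 • ξ + (p.2 : EuclideanSpace ℝ (Fin n)))
      ((volume : Measure ℝ).prod volume) volume := by
  have h1 : MeasurePreserving (LinearIsometryEquiv.toSpanUnitSingleton (𝕜 := ℝ) ξ hξ)
      (volume : Measure ℝ) (volume : Measure (ℝ ∙ ξ)) :=
    LinearIsometryEquiv.measurePreserving _
  have h2 := h1.prod (MeasurePreserving.id (volume : Measure (ℝ ∙ ξ)ᗮ))
  have h3 := WithLp.volume_preserving_toLp (ℝ ∙ ξ) (ℝ ∙ ξ)ᗮ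
  have h4 := (ℝ ∙ ξ).orthogonalDecomposition.symm.measurePreserving
  have h5 := h4.comp (h3.comp h2)
  have h6 : (fun p : ℝ × (ℝ ∙ ξ)ᗮ => p.1 • ξ + (p.2 : EuclideanSpace ℝ (Fin n))) =
      (ℝ ∙ ξ).orthogonalDecomposition.symm ∘ (WithLp.toLp 2) ∘
        (Prod.map (LinearIsometryEquiv.toSpanUnitSingleton (𝕜 := ℝ) ξ hξ) id) := by
    funext p
    simp [Submodule.orthogonalDecomposition_symm_apply]
  rw [h6]
  exact h5

/-- TARGET 1: Fubini along a unit direction -/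
theorem lintegral_slice {n : ℕ} (ξ : EuclideanSpace ℝ (Fin n)) (hξ : ‖ξ‖ = 1)
    (f : EuclideanSpace ℝ (Fin n) → ℝ≥0∞) (hf : Measurable f) :
    ∫⁻ x, f x = ∫⁻ t : ℝ, ∫⁻ y : (ℝ ∙ ξ)ᗮ, f (t • ξ + (y : EuclideanSpace ℝ (Fin n))) := by
  have h := mp_slice ξ hξ
  rw [← h.lintegral_comp hf, lintegral_prod]
  exact (hf.comp h.measurable).aemeasurable

/-- TARGET 2 -/
theorem setIntegral_slice {n : ℕ} (ξ : EuclideanSpace ℝ (Fin n)) (hξ : ‖ξ‖ = 1)
    (K : Set (EuclideanSpace ℝ (Fin n))) (hKm : MeasurableSet K) (hKb : Bornology.IsBounded K)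
    (φ : ℝ → ℝ) (hφ : Continuous φ) :
    ∫ x in K, φ ⟪x, ξ⟫ =
      ∫ t : ℝ, φ t * (volume {y : (ℝ ∙ ξ)ᗮ | t • ξ + (y : EuclideanSpace ℝ (Fin n)) ∈ K}).toReal ∧
    Integrable (fun t : ℝ =>
      (volume {y : (ℝ ∙ ξ)ᗮ | t • ξ + (y : EuclideanSpace ℝ (Fin n)) ∈ K}).toReal) := by
  have h := mp_slice ξ hξ
  have key : ∀ ψ : ℝ → ℝ, Continuous ψ →
      Integrable (fun p : ℝ × (ℝ ∙ ξ)ᗮ => K.indicator (fun x => ψ ⟪x, ξ⟫)
        (p.1 • ξ + (p.2 : EuclideanSpace ℝ (Fin n)))) ((volume : Measure ℝ).prod volume) := by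
    intro ψ hψ
    have hcont : Continuous fun x : EuclideanSpace ℝ (Fin n) => ψ ⟪x, ξ⟫ := by fun_prop
    have hint : Integrable (K.indicator (fun x => ψ ⟪x, ξ⟫)) := by
      rw [integrable_indicator_iff hKm]
      obtain ⟨R, hR⟩ := hKb.subset_closedBall 0
      exact (hcont.continuousOn.integrableOn_compact (isCompact_closedBall 0 R)).mono_set hR
    exact (h.integrable_comp hint.aestronglyMeasurable).2 hint
  have inner_eq : ∀ ψ : ℝ → ℝ, ∀ t : ℝ,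
      ∫ y : (ℝ ∙ ξ)ᗮ, K.indicator (fun x => ψ ⟪x, ξ⟫) (t • ξ + (y : EuclideanSpace ℝ (Fin n))) =
      ψ t * (volume {y : (ℝ ∙ ξ)ᗮ | t • ξ + (y : EuclideanSpace ℝ (Fin n)) ∈ K}).toReal := by
    intro ψ t
    have hmeas : MeasurableSet {y : (ℝ ∙ ξ)ᗮ | t • ξ + (y : EuclideanSpace ℝ (Fin n)) ∈ K} :=
      hKm.preimage (by fun_prop)
    have e : (fun y : (ℝ ∙ ξ)ᗮ => K.indicator (fun x => ψ ⟪x, ξ⟫)
        (t • ξ + (y : EuclideanSpace ℝ (Fin n)))) =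
        {y : (ℝ ∙ ξ)ᗮ | t • ξ + (y : EuclideanSpace ℝ (Fin n)) ∈ K}.indicator (fun _ => ψ t) := by
      funext y
      have hin : ⟪t • ξ + (y : EuclideanSpace ℝ (Fin n)), ξ⟫ = t := by
        have h0 : ⟪(y : EuclideanSpace ℝ (Fin n)), ξ⟫ = 0 :=
          (Submodule.mem_orthogonal' _ _).1 y.2 ξ (Submodule.mem_span_singleton_self ξ)
        rw [inner_add_left, real_inner_smul_left, real_inner_self_eq_norm_sq, hξ, h0]
        ring
      by_cases hy : t • ξ + (y : EuclideanSpace ℝ (Fin n)) ∈ K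
      · rw [Set.indicator_of_mem hy, Set.indicator_of_mem
          (show y ∈ {y : (ℝ ∙ ξ)ᗮ | t • ξ + (y : EuclideanSpace ℝ (Fin n)) ∈ K} from hy), hin]
      · rw [Set.indicator_of_notMem hy, Set.indicator_of_notMem
          (show y ∉ {y : (ℝ ∙ ξ)ᗮ | t • ξ + (y : EuclideanSpace ℝ (Fin n)) ∈ K} from hy)]
    rw [e, integral_indicator_const _ hmeas, smul_eq_mul, mul_comm]
    rfl
  constructor
  · rw [← integral_indicator hKm]
    have h1 : ∫ x, K.indicator (fun x => φ ⟪x, ξ⟫) x =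
        ∫ p : ℝ × (ℝ ∙ ξ)ᗮ, K.indicator (fun x => φ ⟪x, ξ⟫)
          (p.1 • ξ + (p.2 : EuclideanSpace ℝ (Fin n))) ∂((volume : Measure ℝ).prod volume) := by
      rw [← h.map_eq, integral_map h.measurable.aemeasurable]
      have hcont : Continuous fun x : EuclideanSpace ℝ (Fin n) => φ ⟪x, ξ⟫ := by fun_prop
      exact (hcont.measurable.indicator hKm).aestronglyMeasurable
    rw [h1, integral_prod _ (key φ hφ)]
    exact integral_congr_ae (Filter.Eventually.of_forall fun t => inner_eq φ t)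
  · have h2 := (key (fun _ => 1) continuous_const).integral_prod_left
    refine h2.congr (Filter.Eventually.of_forall fun t => ?_)
    have := inner_eq (fun _ => 1) t
    rw [one_mul] at this
    exact this

section geo
variable {n : ℕ} (u : EuclideanSpace ℝ (Fin n))

theorem J5918_inner (hu : ‖u‖ = 1) (t : ℝ) (y : (ℝ ∙ u)ᗮ) :
    ⟪t • u + (y : EuclideanSpace ℝ (Fin n)), u⟫ = t := by
  rw [inner_add_left, real_inner_smul_left, real_inner_self_eq_norm_sq, hu]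
  have : ⟪(y : EuclideanSpace ℝ (Fin n)), u⟫ = 0 := by
    rw [real_inner_comm]
    exact Submodule.mem_orthogonal_singleton_iff_inner_right.mp y.2
  rw [this]; ring

theorem J5918_decomp (hu : ‖u‖ = 1) (x : EuclideanSpace ℝ (Fin n)) :
    ∃ y : (ℝ ∙ u)ᗮ, ⟪x, u⟫ • u + (y : EuclideanSpace ℝ (Fin n)) = x := by
  refine ⟨⟨x - ⟪x, u⟫ • u, ?_⟩, by simp⟩
  rw [Submodule.mem_orthogonal_singleton_iff_inner_right, inner_sub_right, real_inner_smul_right,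
    real_inner_self_eq_norm_sq, hu, real_inner_comm]
  ring

theorem J5918_cont (t : ℝ) : Continuous (fun y : (ℝ ∙ u)ᗮ => t • u + (y : EuclideanSpace ℝ (Fin n))) :=
  continuous_const.add continuous_subtype_val

theorem J5918_contp : Continuous (fun p : ℝ × (ℝ ∙ u)ᗮ =>
    p.1 • u + (p.2 : EuclideanSpace ℝ (Fin n))) :=
  (continuous_fst.smul continuous_const).add (continuous_subtype_val.comp continuous_snd)

theorem J5918_sub (hu : ‖u‖ = 1) {K : Set (EuclideanSpace ℝ (Fin n))} {B : ℝ}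
    (hB : ∀ x ∈ K, ‖x‖ ≤ B) (t : ℝ) :
    {y : (ℝ ∙ u)ᗮ | t • u + (y : EuclideanSpace ℝ (Fin n)) ∈ K} ⊆ closedBall 0 (B + |t|) := by
  intro y hy
  rw [mem_closedBall_zero_iff]
  have h1 := hB _ hy
  have h2 : ‖(y : EuclideanSpace ℝ (Fin n))‖ ≤
      ‖t • u + (y : EuclideanSpace ℝ (Fin n))‖ + ‖t • u‖ := by
    have := norm_sub_le (t • u + (y : EuclideanSpace ℝ (Fin n))) (t • u)
    rwa [add_sub_cancel_left] at this
  rw [norm_smul, hu, mul_one, Real.norm_eq_abs] at h2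
  show ‖(y : EuclideanSpace ℝ (Fin n))‖ ≤ _
  linarith

theorem J5918_fin (hu : ‖u‖ = 1) {K : Set (EuclideanSpace ℝ (Fin n))} {B : ℝ}
    (hB : ∀ x ∈ K, ‖x‖ ≤ B) (t : ℝ) :
    volume {y : (ℝ ∙ u)ᗮ | t • u + (y : EuclideanSpace ℝ (Fin n)) ∈ K} < (⊤ : ℝ≥0∞) :=
  lt_of_le_of_lt (measure_mono (J5918_sub u hu hB t)) measure_closedBall_lt_top

theorem J5918_pos (hu : ‖u‖ = 1) {K : Set (EuclideanSpace ℝ (Fin n))}
    (x : EuclideanSpace ℝ (Fin n)) (hx : x ∈ interior K) :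
    0 < volume {y : (ℝ ∙ u)ᗮ | ⟪x, u⟫ • u + (y : EuclideanSpace ℝ (Fin n)) ∈ K} := by
  obtain ⟨y, hy⟩ := J5918_decomp u hu x
  have hopen : IsOpen {y : (ℝ ∙ u)ᗮ | ⟪x, u⟫ • u + (y : EuclideanSpace ℝ (Fin n)) ∈ interior K} :=
    isOpen_interior.preimage (J5918_cont u _)
  have hpos := hopen.measure_pos volume ⟨y, by show _ ∈ interior K; rw [hy]; exact hx⟩
  have hsub : {y : (ℝ ∙ u)ᗮ | ⟪x, u⟫ • u + (y : EuclideanSpace ℝ (Fin n)) ∈ interior K} ⊆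
      {y : (ℝ ∙ u)ᗮ | ⟪x, u⟫ • u + (y : EuclideanSpace ℝ (Fin n)) ∈ K} := by
    intro z hz
    have hz' : ⟪x, u⟫ • u + (z : EuclideanSpace ℝ (Fin n)) ∈ interior K := hz
    exact (interior_subset : interior K ⊆ K) hz'
  exact lt_of_lt_of_le hpos (measure_mono hsub)

/-- slices of a null set -/
theorem J5918_null (hu : ‖u‖ = 1) {F : Set (EuclideanSpace ℝ (Fin n))} (hF : MeasurableSet F)
    (h0 : volume F = 0) :
    ∀ᵐ t : ℝ, volume {y : (ℝ ∙ u)ᗮ | t • u + (y : EuclideanSpace ℝ (Fin n)) ∈ F} = 0 := by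
  have hm : Measurable (F.indicator (1 : EuclideanSpace ℝ (Fin n) → ℝ≥0∞)) :=
    measurable_one.indicator hF
  have h1 := lintegral_slice u hu _ hm
  rw [lintegral_indicator_one hF, h0] at h1
  have hjoint : Measurable (fun p : ℝ × (ℝ ∙ u)ᗮ =>
      F.indicator (1 : EuclideanSpace ℝ (Fin n) → ℝ≥0∞)
        (p.1 • u + (p.2 : EuclideanSpace ℝ (Fin n)))) :=
    hm.comp (J5918_contp u).measurable
  have hm2 : Measurable (fun t : ℝ => ∫⁻ y : (ℝ ∙ u)ᗮ,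
      F.indicator (1 : EuclideanSpace ℝ (Fin n) → ℝ≥0∞)
        (t • u + (y : EuclideanSpace ℝ (Fin n)))) := hjoint.lintegral_prod_right'
  have h2 := (lintegral_eq_zero_iff hm2).mp h1.symm
  filter_upwards [h2] with t ht
  have hmt : MeasurableSet {y : (ℝ ∙ u)ᗮ | t • u + (y : EuclideanSpace ℝ (Fin n)) ∈ F} :=
    (J5918_cont u t).measurable hF
  rw [← lintegral_indicator_one hmt]
  exact ht

end geo

/-- the inner products with two linearly independent vectors -/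
lemma gram_surj {n : ℕ} (ξ₀ ξ₁ : EuclideanSpace ℝ (Fin n))
    (hli : ∀ a b : ℝ, a • ξ₀ + b • ξ₁ = 0 → a = 0 ∧ b = 0) (p q : ℝ) :
    ∃ x : EuclideanSpace ℝ (Fin n), ⟪ξ₀, x⟫ = p ∧ ⟪ξ₁, x⟫ = q := by
  have h1 : ξ₁ ≠ 0 := by
    intro h
    have := (hli 0 1 (by simp [h])).2
    norm_num at this
  have hn1 : 0 < ⟪ξ₁, ξ₁⟫ := real_inner_self_pos.2 h1
  set g : ℝ := ⟪ξ₀, ξ₁⟫ with hg
  set A : ℝ := ⟪ξ₀, ξ₀⟫ with hA
  set B : ℝ := ⟪ξ₁, ξ₁⟫ with hB
  have hg' : ⟪ξ₁, ξ₀⟫ = g := real_inner_comm _ _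
  set w : EuclideanSpace ℝ (Fin n) := B • ξ₀ - g • ξ₁ with hw
  set w' : EuclideanSpace ℝ (Fin n) := A • ξ₁ - g • ξ₀ with hw'
  have e1 : ⟪ξ₀, w⟫ = A * B - g ^ 2 := by
    rw [hw, inner_sub_right, real_inner_smul_right, real_inner_smul_right]
    ring
  have e2 : ⟪ξ₁, w⟫ = 0 := by
    rw [hw, inner_sub_right, real_inner_smul_right, real_inner_smul_right, hg']
    ring
  have e3 : ⟪ξ₀, w'⟫ = 0 := by
    rw [hw', inner_sub_right, real_inner_smul_right, real_inner_smul_right]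
    ring
  have e4 : ⟪ξ₁, w'⟫ = A * B - g ^ 2 := by
    rw [hw', inner_sub_right, real_inner_smul_right, real_inner_smul_right, hg']
    ring
  have hw0 : w ≠ 0 := by
    intro h
    have h2 := (hli B (-g) (by rw [neg_smul, ← sub_eq_add_neg]; exact h)).1
    exact hn1.ne' h2
  have hww : 0 < ⟪w, w⟫ := real_inner_self_pos.2 hw0
  have e5 : ⟪w, w⟫ = B * (A * B - g ^ 2) := by
    conv_lhs => rw [hw, inner_sub_left, real_inner_smul_left, real_inner_smul_left]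
    rw [← hw, e1, e2]
    ring
  have hD : A * B - g ^ 2 ≠ 0 := by
    intro h
    rw [e5, h, mul_zero] at hww
    exact lt_irrefl _ hww
  refine ⟨(p / (A * B - g ^ 2)) • w + (q / (A * B - g ^ 2)) • w', ?_, ?_⟩
  · rw [inner_add_right, real_inner_smul_right, real_inner_smul_right, e1, e3, mul_zero, add_zero,
      div_mul_cancel₀ _ hD]
  · rw [inner_add_right, real_inner_smul_right, real_inner_smul_right, e2, e4, mul_zero, zero_add,
      div_mul_cancel₀ _ hD]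

/-- the cumulative volume in a unit direction is a primitive of the section volume -/
theorem cumul {n : ℕ} (K : Set (EuclideanSpace ℝ (Fin n))) (hK : IsCompact K)
    (u : EuclideanSpace ℝ (Fin n)) (hu : ‖u‖ = 1) (t : ℝ) :
    (volume {x ∈ K | ⟪x, u⟫ ≤ t}).toReal
      = ∫ r in Iic t, (volume {y : (ℝ ∙ u)ᗮ | r • u + (y : EuclideanSpace ℝ (Fin n)) ∈ K}).toReal := by
  obtain ⟨B, hB⟩ := hK.isBounded.exists_norm_le
  have hKm := hK.isClosed.measurableSet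
  have hSm : MeasurableSet {x ∈ K | ⟪x, u⟫ ≤ t} := by
    apply hKm.inter
    exact measurableSet_le (Continuous.measurable (by fun_prop :
      Continuous fun x : EuclideanSpace ℝ (Fin n) => ⟪x, u⟫)) measurable_const
  have h1 := lintegral_slice u hu ({x ∈ K | ⟪x, u⟫ ≤ t}.indicator 1) (measurable_one.indicator hSm)
  rw [lintegral_indicator_one hSm] at h1
  have h2 : ∀ r : ℝ, ∫⁻ y : (ℝ ∙ u)ᗮ, ({x ∈ K | ⟪x, u⟫ ≤ t}.indicator
      (1 : EuclideanSpace ℝ (Fin n) → ℝ≥0∞)) (r • u + (y : EuclideanSpace ℝ (Fin n)))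
      = (Iic t).indicator (fun r => volume {y : (ℝ ∙ u)ᗮ |
          r • u + (y : EuclideanSpace ℝ (Fin n)) ∈ K}) r := by
    intro r
    have hms : MeasurableSet {y : (ℝ ∙ u)ᗮ | r • u + (y : EuclideanSpace ℝ (Fin n)) ∈ K} :=
      (J5918_cont u r).measurable hKm
    by_cases hr : r ≤ t
    · rw [indicator_of_mem (show r ∈ Iic t from hr), ← lintegral_indicator_one hms]
      apply lintegral_congr
      intro y
      by_cases hy : r • u + (y : EuclideanSpace ℝ (Fin n)) ∈ K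
      · rw [indicator_of_mem (show y ∈ {y : (ℝ ∙ u)ᗮ |
            r • u + (y : EuclideanSpace ℝ (Fin n)) ∈ K} from hy), indicator_of_mem]
        · rfl
        · refine ⟨hy, ?_⟩
          rw [J5918_inner u hu]
          exact hr
      · rw [indicator_of_notMem (show y ∉ {y : (ℝ ∙ u)ᗮ |
            r • u + (y : EuclideanSpace ℝ (Fin n)) ∈ K} from hy), indicator_of_notMem]
        exact fun h => hy h.1
    · rw [indicator_of_notMem (show r ∉ Iic t from hr), ← lintegral_zero (μ := (volume : Measure (ℝ ∙ u)ᗮ))]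
      apply lintegral_congr
      intro y
      rw [indicator_of_notMem]
      intro h
      apply hr
      have := h.2
      rwa [J5918_inner u hu] at this
  rw [lintegral_congr h2, lintegral_indicator measurableSet_Iic] at h1
  rw [h1]
  symm
  apply integral_toReal
  · have hm : Measurable (K.indicator (1 : EuclideanSpace ℝ (Fin n) → ℝ≥0∞)) :=
      measurable_one.indicator hKm
    have hjoint : Measurable (fun p : ℝ × (ℝ ∙ u)ᗮ =>
        K.indicator (1 : EuclideanSpace ℝ (Fin n) → ℝ≥0∞)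
          (p.1 • u + (p.2 : EuclideanSpace ℝ (Fin n)))) :=
      hm.comp (J5918_contp u).measurable
    have hm2 : Measurable (fun t : ℝ => ∫⁻ y : (ℝ ∙ u)ᗮ,
        K.indicator (1 : EuclideanSpace ℝ (Fin n) → ℝ≥0∞)
          (t • u + (y : EuclideanSpace ℝ (Fin n)))) := hjoint.lintegral_prod_right'
    have hfe : (fun r : ℝ => volume {y : (ℝ ∙ u)ᗮ | r • u + (y : EuclideanSpace ℝ (Fin n)) ∈ K})
        = (fun t : ℝ => ∫⁻ y : (ℝ ∙ u)ᗮ,
        K.indicator (1 : EuclideanSpace ℝ (Fin n) → ℝ≥0∞)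
          (t • u + (y : EuclideanSpace ℝ (Fin n)))) := by
      funext r
      have hms : MeasurableSet {y : (ℝ ∙ u)ᗮ | r • u + (y : EuclideanSpace ℝ (Fin n)) ∈ K} :=
        (J5918_cont u r).measurable hKm
      exact (lintegral_indicator_one hms).symm
    rw [hfe]
    exact hm2.aemeasurable
  · exact Filter.Eventually.of_forall fun r => J5918_fin u hu hB r

/-- facts on a fixed direction -/
theorem dir_facts {n : ℕ} (hn : 2 ≤ n)
    (K : Set (EuclideanSpace ℝ (Fin n))) (hK : IsCompact K)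
    (hKc : Convex ℝ K) (hKi : (interior K).Nonempty)
    (hsm : ∀ x ∈ frontier K, ∃ U : Set (EuclideanSpace ℝ (Fin n)), IsOpen U ∧ x ∈ U ∧
      ∃ f : EuclideanSpace ℝ (Fin n) → ℝ, ContDiffOn ℝ ∞ f U ∧ fderiv ℝ f x ≠ 0 ∧
        frontier K ∩ U = {y ∈ U | f y = 0})
    (ξ : EuclideanSpace ℝ (Fin n)) (hξ : ξ ≠ 0) (u : EuclideanSpace ℝ (Fin n))
    (hu : u = (‖ξ‖⁻¹ : ℝ) • ξ) (W : ℝ → ℝ)
    (hW : W = fun t => (volume {x ∈ K | ⟪x, ξ⟫ ≤ t}).toReal) :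
    ∃ b τ : ℝ, b < τ ∧
      (fun x : EuclideanSpace ℝ (Fin n) => ⟪x, ξ⟫) '' interior K = Ioo b τ ∧
      IsGreatest ((fun x : EuclideanSpace ℝ (Fin n) => ⟪x, ξ⟫) '' K) τ ∧
      ContDiffOn ℝ ∞ W (Ioo b τ) ∧
      (∀ t ∈ Ioo b τ, deriv W t = ‖ξ‖⁻¹ *
        (volume {y : (ℝ ∙ u)ᗮ | (‖ξ‖⁻¹ * t) • u + (y : EuclideanSpace ℝ (Fin n)) ∈ K}).toReal) ∧
      (∀ t ∈ Ioo b τ, 0 < deriv W t) ∧
      (∃ M : ℝ, ∀ t ∈ Ioo b τ, |deriv W t| ≤ M) ∧
      (∀ t, t ≤ b → W t = 0) ∧ (∀ t, τ ≤ t → W t = (volume K).toReal) ∧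
      Continuous W ∧
      (∀ φ : ℝ → ℝ, Continuous φ →
        ∫ x in K, φ ⟪x, ξ⟫ = ∫ t in Ioo b τ, φ t * deriv W t) := by
  have hξn : 0 < ‖ξ‖ := norm_pos_iff.mpr hξ
  have hξi : 0 < ‖ξ‖⁻¹ := inv_pos.2 hξn
  have hξu : ξ = ‖ξ‖ • u := by
    rw [hu, smul_smul, mul_inv_cancel₀ hξn.ne', one_smul]
  have hun : ‖u‖ = 1 := by
    rw [hu, norm_smul, norm_inv, norm_norm, inv_mul_cancel₀ hξn.ne']
  have hin : ∀ x : EuclideanSpace ℝ (Fin n), ⟪x, ξ⟫ = ‖ξ‖ * ⟪x, u⟫ := by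
    intro x
    conv_lhs => rw [hξu]
    rw [real_inner_smul_right]
  have hin' : ∀ x : EuclideanSpace ℝ (Fin n), ‖ξ‖⁻¹ * ⟪x, ξ⟫ = ⟪x, u⟫ := by
    intro x
    rw [hin, inv_mul_cancel_left₀ hξn.ne']
  obtain ⟨B, hB⟩ := hK.isBounded.exists_norm_le
  have hfr : volume (frontier K) = 0 := hKc.addHaar_frontier _
  have hKcl : IsClosed K := hK.isClosed
  have hfrK : frontier K = K \ interior K := hKcl.frontier_eq
  obtain ⟨b, τ, hbτ, himg, hgr, hle⟩ := proj_convex K hK hKc hKi ξ hξ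
  obtain ⟨Vu, hVu⟩ : ∃ Vu : ℝ → ℝ, Vu = fun t => (volume {x ∈ K | ⟪x, u⟫ ≤ t}).toReal := ⟨_, rfl⟩
  obtain ⟨A, hA⟩ : ∃ A : ℝ → ℝ, A = fun t =>
    (volume {y : (ℝ ∙ u)ᗮ | t • u + (y : EuclideanSpace ℝ (Fin n)) ∈ K}).toReal := ⟨_, rfl⟩
  have hAt : ∀ t, A t =
    (volume {y : (ℝ ∙ u)ᗮ | t • u + (y : EuclideanSpace ℝ (Fin n)) ∈ K}).toReal := by
    intro t; rw [hA]
  obtain ⟨hcd, hder⟩ := smooth_cumulative hn K hK hKc hKi hsm u hun Vu hVu _ rfl
  have hWV : W = fun t => Vu (‖ξ‖⁻¹ * t) := by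
    rw [hW, hVu]
    funext t
    show (volume {x ∈ K | ⟪x, ξ⟫ ≤ t}).toReal = (volume {x ∈ K | ⟪x, u⟫ ≤ ‖ξ‖⁻¹ * t}).toReal
    congr 2
    ext x
    constructor
    · rintro ⟨h1, h2⟩
      refine ⟨h1, ?_⟩
      rw [← hin' x]
      exact mul_le_mul_of_nonneg_left h2 hξi.le
    · rintro ⟨h1, h2⟩
      refine ⟨h1, ?_⟩
      rw [← hin' x] at h2
      exact le_of_mul_le_mul_left h2 hξi
  have hmaps : ∀ t ∈ Ioo b τ, ‖ξ‖⁻¹ * t ∈ (fun x : EuclideanSpace ℝ (Fin n) => ⟪x, u⟫) '' interior K := by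
    intro t ht
    rw [← himg] at ht
    obtain ⟨x, hx, rfl⟩ := ht
    exact ⟨x, hx, (hin' x).symm⟩
  have hderW : ∀ t ∈ Ioo b τ, deriv W t = ‖ξ‖⁻¹ * A (‖ξ‖⁻¹ * t) := by
    intro t ht
    rw [hWV, deriv_comp_mul_left, smul_eq_mul, (hder _ (hmaps t ht)).1, hAt]
  have hAprim : ∀ t, Vu t = ∫ r in Iic t, A r := by
    intro t
    rw [hVu, hA]
    exact cumul K hK u hun t
  have hAint : Integrable A := by
    rw [hA]
    exact (setIntegral_slice u hun K hKcl.measurableSet hK.isBounded (fun _ => 1) continuous_const).2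
  refine ⟨b, τ, hbτ, himg, hgr, ?_, ?_, ?_, ?_, ?_, ?_, ?_, ?_⟩
  · rw [hWV]
    exact hcd.comp (contDiff_const.mul contDiff_id).contDiffOn hmaps
  · intro t ht
    rw [hderW t ht, hAt]
  · intro t ht
    rw [hderW t ht, hAt, ← (hder _ (hmaps t ht)).1]
    exact mul_pos hξi (hder _ (hmaps t ht)).2
  · refine ⟨‖ξ‖⁻¹ * (volume (closedBall (0 : (ℝ ∙ u)ᗮ) (B + B))).toReal, ?_⟩
    intro t ht
    have hA0 : 0 ≤ A (‖ξ‖⁻¹ * t) := by rw [hAt]; exact ENNReal.toReal_nonneg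
    rw [hderW t ht, abs_of_nonneg (mul_nonneg hξi.le hA0)]
    apply mul_le_mul_of_nonneg_left _ hξi.le
    rw [hAt]
    apply ENNReal.toReal_mono measure_closedBall_lt_top.ne
    apply measure_mono
    refine (J5918_sub u hun hB _).trans (closedBall_subset_closedBall ?_)
    obtain ⟨x, hx, hxt⟩ := hmaps t ht
    have h1 : |⟪x, u⟫| ≤ ‖x‖ * ‖u‖ := abs_real_inner_le_norm x u
    have h2 := hB x (interior_subset hx)
    rw [hun, mul_one] at h1
    have h3 : |‖ξ‖⁻¹ * t| ≤ B := by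
      rw [← hxt]
      exact h1.trans h2
    linarith
  · intro t ht
    rw [hW]
    show (volume {x ∈ K | ⟪x, ξ⟫ ≤ t}).toReal = 0
    have : volume {x ∈ K | ⟪x, ξ⟫ ≤ t} = 0 := by
      apply measure_mono_null _ hfr
      rintro x ⟨hx1, hx2⟩
      rw [hfrK]
      refine ⟨hx1, fun hx3 => ?_⟩
      have h1 : ⟪x, ξ⟫ ∈ Ioo b τ := by
        rw [← himg]
        exact ⟨x, hx3, rfl⟩
      have h2 := h1.1
      linarith
    rw [this]
    rfl
  · intro t ht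
    rw [hW]
    show (volume {x ∈ K | ⟪x, ξ⟫ ≤ t}).toReal = (volume K).toReal
    congr 2
    ext x
    constructor
    · exact fun h => h.1
    · intro hx
      refine ⟨hx, ?_⟩
      have h1 : ⟪x, ξ⟫ ≤ τ := hgr.2 ⟨x, hx, rfl⟩
      exact h1.trans ht
  · have hVc : Continuous Vu := by
      have h1 : Vu = fun t => (∫ r in Iic 0, A r) + ∫ r in (0 : ℝ)..t, A r := by
        funext t
        rw [hAprim t, ← intervalIntegral.integral_Iic_sub_Iic hAint.integrableOn hAint.integrableOn]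
        ring
      rw [h1]
      exact continuous_const.add (intervalIntegral.continuous_primitive
        (fun a b => hAint.intervalIntegrable) 0)
    rw [hWV]
    exact hVc.comp (continuous_const.mul continuous_id)
  · intro φ hφ
    have h1 := (setIntegral_slice u hun K hK.isClosed.measurableSet hK.isBounded
      (fun s => φ (‖ξ‖ * s)) (hφ.comp (continuous_const.mul continuous_id))).1
    have h2 : ∫ x in K, φ ⟪x, ξ⟫ = ∫ x in K, φ (‖ξ‖ * ⟪x, u⟫) := by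
      congr 1; funext x; rw [hin]
    rw [h2, h1]
    have hnull := J5918_null u hun isClosed_frontier.measurableSet hfr
    obtain ⟨G, hG⟩ : ∃ G : ℝ → ℝ, G = (Ioo b τ).indicator (fun r => φ r * A (‖ξ‖⁻¹ * r)) := ⟨_, rfl⟩
    have h3 : ∫ t : ℝ, φ (‖ξ‖ * t) *
        (volume {y : (ℝ ∙ u)ᗮ | t • u + (y : EuclideanSpace ℝ (Fin n)) ∈ K}).toReal =
        ∫ t : ℝ, G (‖ξ‖ * t) := by
      apply integral_congr_ae
      filter_upwards [hnull] with t ht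
      by_cases hmem : ‖ξ‖ * t ∈ Ioo b τ
      · rw [hG, indicator_of_mem hmem, inv_mul_cancel_left₀ hξn.ne', hAt]
      · rw [hG, indicator_of_notMem hmem]
        have hsub : {y : (ℝ ∙ u)ᗮ | t • u + (y : EuclideanSpace ℝ (Fin n)) ∈ K} ⊆
            {y : (ℝ ∙ u)ᗮ | t • u + (y : EuclideanSpace ℝ (Fin n)) ∈ frontier K} := by
          intro y hy
          refine ⟨subset_closure hy, fun hint => hmem ?_⟩
          rw [← himg]
          refine ⟨_, hint, ?_⟩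
          show ⟪t • u + (y : EuclideanSpace ℝ (Fin n)), ξ⟫ = _
          rw [hin, J5918_inner u hun]
        rw [measure_mono_null hsub ht]
        simp
    rw [h3, Measure.integral_comp_mul_left, abs_of_pos hξi, smul_eq_mul,
      ← integral_const_mul, ← integral_indicator measurableSet_Ioo]
    congr 1
    funext r
    by_cases hmem : r ∈ Ioo b τ
    · rw [hG, indicator_of_mem hmem, indicator_of_mem hmem, hderW r hmem]
      ring
    · rw [hG, indicator_of_notMem hmem, indicator_of_notMem hmem, mul_zero]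

end J5918

/-- TARGET: reduction to a measure in the plane -/
theorem planar2 {n k : ℕ} (hn : n = 2 * k + 1) (hk : 0 < k)
    (K : Set (EuclideanSpace ℝ (Fin n))) (hK : IsCompact K)
    (hKc : Convex ℝ K) (hKi : (interior K).Nonempty)
    (hsm : ∀ x ∈ frontier K, ∃ U : Set (EuclideanSpace ℝ (Fin n)), IsOpen U ∧ x ∈ U ∧
      ∃ f : EuclideanSpace ℝ (Fin n) → ℝ, ContDiffOn ℝ ∞ f U ∧ fderiv ℝ f x ≠ 0 ∧
        frontier K ∩ U = {y ∈ U | f y = 0})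
    (hIB : ∀ x ∈ frontier K, ∃ c : EuclideanSpace ℝ (Fin n), ∃ ρ > 0,
      dist x c = ρ ∧ ball c ρ ⊆ interior K)
    (ξ₀ ξ₁ : EuclideanSpace ℝ (Fin n)) (hli : LinearIndependent ℝ ![ξ₀, ξ₁]) (δ : ℝ)
    (hsup : ∀ s : ℝ, |s| < δ → ∃ z ∈ K, ∃ κ > 0, ∀ x ∈ K,
      ⟪x, ξ₀ + s • ξ₁⟫ ≤ ⟪z, ξ₀ + s • ξ₁⟫ - κ * ‖x - z‖ ^ 2)
    (Y : Set (ℝ × ℝ))
    (hY : Y = (fun x : EuclideanSpace ℝ (Fin n) => (⟪x, ξ₀⟫, ⟪x, ξ₁⟫)) '' interior K)
    (V : ℝ → ℝ → ℝ)
    (hV : V = fun s t => (volume {x ∈ K | ⟪x, ξ₀ + s • ξ₁⟫ ≤ t}).toReal) :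
    IsOpen Y ∧ Y.Nonempty ∧ Bornology.IsBounded Y ∧
    (∀ s : ℝ, (fun y : ℝ × ℝ => y.1 + s * y.2) '' Y
      = (fun x : EuclideanSpace ℝ (Fin n) => ⟪x, ξ₀ + s • ξ₁⟫) '' interior K) ∧
    (∀ s : ℝ, ∃ b τ : ℝ, b < τ ∧ (fun y : ℝ × ℝ => y.1 + s * y.2) '' Y = Ioo b τ ∧
      ContDiffOn ℝ ∞ (V s) (Ioo b τ) ∧ (∀ t ∈ Ioo b τ, 0 < deriv (V s) t) ∧
      (∃ M : ℝ, ∀ t ∈ Ioo b τ, |deriv (V s) t| ≤ M) ∧
      (∀ t, t ≤ b → V s t = 0) ∧ (∀ t, τ ≤ t → V s t = (volume K).toReal) ∧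
      Continuous (V s) ∧
      (|s| < δ → ∃ C₁ > 0, ∃ C₂ : ℝ, ∃ h₀ > 0, ∀ h : ℝ, 0 < h → h < h₀ →
        C₁ * h ^ k ≤ deriv (V s) (τ - h) ∧ deriv (V s) (τ - h) ≤ C₂ * h ^ k)) ∧
    ∃ μ : Measure (ℝ × ℝ), IsFiniteMeasure μ ∧ μ Yᶜ = 0 ∧
      (∀ s, ∀ φ : ℝ → ℝ, Continuous φ → ∫ y, φ (y.1 + s * y.2) ∂μ
        = ∫ t in (fun y : ℝ × ℝ => y.1 + s * y.2) '' Y, φ t * deriv (V s) t) := by
  classical
  have hn2 : 2 ≤ n := by omega
  have hli' : ∀ a b : ℝ, a • ξ₀ + b • ξ₁ = 0 → a = 0 ∧ b = 0 := LinearIndependent.pair_iff.1 hli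
  have hfr : volume (frontier K) = 0 := hKc.addHaar_frontier _
  have hKcl : IsClosed K := hK.isClosed
  have hfrK : frontier K = K \ interior K := hKcl.frontier_eq
  have hξ : ∀ s : ℝ, ξ₀ + s • ξ₁ ≠ 0 := by
    intro s h
    have h2 : (1 : ℝ) • ξ₀ + s • ξ₁ = 0 := by rw [one_smul]; exact h
    have := (hli' 1 s h2).1
    norm_num at this
  -- the map
  obtain ⟨Λ, hΛdef⟩ : ∃ Λ : EuclideanSpace ℝ (Fin n) →L[ℝ] ℝ × ℝ,
      Λ = (innerSL ℝ ξ₀).prod (innerSL ℝ ξ₁) := ⟨_, rfl⟩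
  have hΛ : ∀ x, Λ x = (⟪x, ξ₀⟫, ⟪x, ξ₁⟫) := by
    intro x
    rw [hΛdef]
    simp only [ContinuousLinearMap.prod_apply, innerSL_apply_apply]
    rw [real_inner_comm, real_inner_comm x ξ₁]
  have hsurj : Function.Surjective Λ := by
    rintro ⟨p, q⟩
    obtain ⟨x, hx1, hx2⟩ := J5918.gram_surj ξ₀ ξ₁ hli' p q
    refine ⟨x, ?_⟩
    rw [hΛ, real_inner_comm, hx1, real_inner_comm, hx2]
  have hYΛ : Y = Λ '' interior K := by
    rw [hY]
    exact image_congr fun x _ => (hΛ x).symm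
  have hYo : IsOpen Y := by
    rw [hYΛ]
    exact Λ.isOpenMap hsurj _ isOpen_interior
  have himg : ∀ s : ℝ, (fun y : ℝ × ℝ => y.1 + s * y.2) '' Y
      = (fun x : EuclideanSpace ℝ (Fin n) => ⟪x, ξ₀ + s • ξ₁⟫) '' interior K := by
    intro s
    rw [hY, image_image]
    refine image_congr fun x _ => ?_
    show ⟪x, ξ₀⟫ + s * ⟪x, ξ₁⟫ = _
    rw [inner_add_right, real_inner_smul_right]
  have hVs : ∀ s, V s = fun t => (volume {x ∈ K | ⟪x, ξ₀ + s • ξ₁⟫ ≤ t}).toReal := by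
    intro s
    rw [hV]
  have DF := fun s => J5918.dir_facts hn2 K hK hKc hKi hsm (ξ₀ + s • ξ₁) (hξ s) _ rfl (V s) (hVs s)
  refine ⟨hYo, ?_, ?_, himg, ?_, ?_⟩
  · rw [hY]; exact hKi.image _
  · rw [hYΛ]
    exact ((hK.image Λ.continuous).isBounded).subset (image_mono interior_subset)
  · intro s
    obtain ⟨b, τ, hbτ, h1, h2, h3, h4, h5, h6, h7, h8, h9, h10⟩ := DF s
    refine ⟨b, τ, hbτ, by rw [himg s, h1], h3, h5, h6, h7, h8, h9, ?_⟩
    intro hs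
    obtain ⟨z, hzK, κ, hκ, hz⟩ := hsup s hs
    obtain ⟨ξ, hξdef⟩ : ∃ ξ, ξ = ξ₀ + s • ξ₁ := ⟨_, rfl⟩
    have hξ0 : ξ ≠ 0 := by rw [hξdef]; exact hξ s
    rw [← hξdef] at h1 h2 h4 hz
    have hξn : 0 < ‖ξ‖ := norm_pos_iff.mpr hξ0
    have hξi : 0 < ‖ξ‖⁻¹ := inv_pos.2 hξn
    obtain ⟨u, hu⟩ : ∃ u, u = (‖ξ‖⁻¹ : ℝ) • ξ := ⟨_, rfl⟩
    rw [← hu] at h4
    have hun : ‖u‖ = 1 := by
      rw [hu, norm_smul, norm_inv, norm_norm, inv_mul_cancel₀ hξn.ne']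
    have hzi : z ∉ interior K := by
      intro hzi
      have hcont : Filter.Tendsto (fun ε : ℝ => z + ε • ξ) (nhdsWithin 0 (Ioi 0)) (nhds z) := by
        have : Continuous (fun ε : ℝ => z + ε • ξ) := by fun_prop
        have h2 := this.tendsto 0
        simp only [zero_smul, add_zero] at h2
        exact h2.mono_left nhdsWithin_le_nhds
      have h3 := hcont.eventually (isOpen_interior.mem_nhds hzi)
      obtain ⟨ε, hε, hε0⟩ := (h3.and self_mem_nhdsWithin).exists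
      have h4 := hz _ (interior_subset hε)
      rw [inner_add_left, real_inner_smul_left, real_inner_self_eq_norm_sq] at h4
      have h5 : 0 < ε * ‖ξ‖ ^ 2 := mul_pos hε0 (pow_pos hξn 2)
      have h6 : 0 ≤ κ * ‖z + ε • ξ - z‖ ^ 2 := by positivity
      linarith
    have hzfr : z ∈ frontier K := by rw [hfrK]; exact ⟨hzK, hzi⟩
    obtain ⟨c, ρ, hρ, hc, hball⟩ := hIB z hzfr
    have hxu : ∀ x, ⟪x, u⟫ = ‖ξ‖⁻¹ * ⟪x, ξ⟫ := by
      intro x
      rw [hu, real_inner_smul_right]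
    obtain ⟨C₁, hC₁, C₂, h₀, hh₀, hsec⟩ := section_bounds hn hk K hK u hun z hzK (‖ξ‖⁻¹ * κ)
      (mul_pos hξi hκ) (by
        intro x hx
        rw [hxu, hxu]
        have := mul_le_mul_of_nonneg_left (hz x hx) hξi.le
        linarith) c ρ hρ hc hball
    have hτz : τ = ⟪z, ξ⟫ := by
      apply le_antisymm
      · obtain ⟨x, hx, hxτ⟩ := h2.1
        have h11 := hz x hx
        have h12 : 0 ≤ κ * ‖x - z‖ ^ 2 := by positivity
        have h13 : ⟪x, ξ⟫ = τ := hxτ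
        linarith
      · exact h2.2 ⟨z, hzK, rfl⟩
    refine ⟨‖ξ‖⁻¹ * (C₁ * ‖ξ‖⁻¹ ^ k), by positivity, ‖ξ‖⁻¹ * (C₂ * ‖ξ‖⁻¹ ^ k),
      min (‖ξ‖ * h₀) (τ - b), lt_min (mul_pos hξn hh₀) (by linarith), ?_⟩
    intro h hh1 hh2
    have hh3 : h < ‖ξ‖ * h₀ := hh2.trans_le (min_le_left _ _)
    have hh4 : h < τ - b := hh2.trans_le (min_le_right _ _)
    have hmem : τ - h ∈ Ioo b τ := ⟨by linarith, by linarith⟩
    rw [h4 _ hmem]
    have hpt : ‖ξ‖⁻¹ * (τ - h) = ⟪z, u⟫ - ‖ξ‖⁻¹ * h := by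
      rw [hxu, hτz]; ring
    rw [hpt]
    have hh5 : 0 < ‖ξ‖⁻¹ * h := mul_pos hξi hh1
    have hh6 : ‖ξ‖⁻¹ * h < h₀ := by
      rw [inv_mul_lt_iff₀ hξn]
      exact hh3
    obtain ⟨hs1, hs2⟩ := hsec _ hh5 hh6
    constructor
    · calc ‖ξ‖⁻¹ * (C₁ * ‖ξ‖⁻¹ ^ k) * h ^ k = ‖ξ‖⁻¹ * (C₁ * (‖ξ‖⁻¹ * h) ^ k) := by
            rw [mul_pow]; ring
        _ ≤ _ := mul_le_mul_of_nonneg_left hs1 hξi.le
    · calc _ ≤ ‖ξ‖⁻¹ * (C₂ * (‖ξ‖⁻¹ * h) ^ k) := mul_le_mul_of_nonneg_left hs2 hξi.le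
        _ = ‖ξ‖⁻¹ * (C₂ * ‖ξ‖⁻¹ ^ k) * h ^ k := by
            rw [mul_pow]; ring
  · have hfin : IsFiniteMeasure (volume.restrict K) := by
      constructor
      rw [Measure.restrict_apply_univ]
      exact hK.measure_lt_top
    have hΛm : Measurable Λ := Λ.continuous.measurable
    refine ⟨(volume.restrict K).map Λ, Measure.isFiniteMeasure_map _ _, ?_, ?_⟩
    · rw [Measure.map_apply hΛm hYo.measurableSet.compl,
        Measure.restrict_apply (hΛm hYo.measurableSet.compl)]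
      refine measure_mono_null ?_ hfr
      rintro x ⟨hx1, hx2⟩
      rw [hfrK]
      refine ⟨hx2, fun hx3 => hx1 ?_⟩
      show Λ x ∈ Y
      rw [hYΛ]
      exact mem_image_of_mem _ hx3
    · intro s φ hφ
      obtain ⟨b, τ, hbτ, h1, h2, h3, h4, h5, h6, h7, h8, h9, h10⟩ := DF s
      rw [himg, h1]
      rw [integral_map hΛm.aemeasurable (by
        apply Continuous.aestronglyMeasurable
        fun_prop)]
      refine Eq.trans ?_ (h10 φ hφ)
      refine integral_congr_ae (Filter.Eventually.of_forall fun x => ?_)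
      show φ ((Λ x).1 + s * (Λ x).2) = φ ⟪x, ξ₀ + s • ξ₁⟫
      rw [hΛ]
      rw [inner_add_right, real_inner_smul_right]

end AR.J5918

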