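import Mathlib
import Pool.Agent.Helper272.Arn.Core2
import Pool.Agent.Helper272.Arn.J5917
import Pool.Agent.Helper272.Arn.J5918
import Pool.Agent.Helper272.Ell.J4610
import Pool.Agent.Helper272.Ell.J3727
import Pool.Agent.Helper272.Ell.J3728
import Pool.Agent.Helper272.Ell.J4139
import Pool.Agent.Helper272.Ell.J4140

set_option autoImplicit false
open Set Metric MeasureTheory Polynomial
open scoped ContDiff RealInnerProductSpace ENNReal

namespace AR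

open AS.J4610 (support_basic near_direction farthest frontier_ellipsoid)
open AS.J3727 (local_structure interior_ball)
open AS.J3728 (strong_support)
open AS.J4139 (lin_quad)
open AS.J4140 (ball_position)
open AR.J5917 (generic_dir plane_relation)
open AR.J5918 (planar2)

theorem main {n k : ℕ} (hn : n = 2 * k + 1) (hk : 0 < k) (K : Set (EuclideanSpace ℝ (Fin n)))
    (hK : IsCompact K) (hKc : Convex ℝ K) (hKi : (interior K).Nonempty)
    (hsm : ∀ x ∈ frontier K, ∃ U : Set (EuclideanSpace ℝ (Fin n)), IsOpen U ∧ x ∈ U ∧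
      ∃ f : EuclideanSpace ℝ (Fin n) → ℝ, ContDiffOn ℝ ∞ f U ∧ fderiv ℝ f x ≠ 0 ∧
        frontier K ∩ U = {y ∈ U | f y = 0})
    (Φ : MvPolynomial (Fin n ⊕ Fin 2) ℝ)
    (hΦ : ∃ ξ : EuclideanSpace ℝ (Fin n), ‖ξ‖ = 1 ∧ ∃ t w : ℝ, ev Φ ξ t w ≠ 0)
    (hΦV : ∀ ξ : EuclideanSpace ℝ (Fin n), ‖ξ‖ = 1 → ∀ t : ℝ, (∃ x ∈ interior K, ⟪x, ξ⟫ = t) →
      ev Φ ξ t (volume {x ∈ K | ⟪x, ξ⟫ ≤ t}).toReal = 0) :
    ∃ (c : EuclideanSpace ℝ (Fin n))
      (T : EuclideanSpace ℝ (Fin n) ≃L[ℝ] EuclideanSpace ℝ (Fin n)),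
      K = {x | ‖T (x - c)‖ ≤ 1} ∧ frontier K = {x | ‖T (x - c)‖ = 1} := by
  have hn2 : 2 ≤ n := by omega
  have hKcl : IsClosed K := hK.isClosed
  have hreg : closure (interior K) = K := by
    rw [hKc.closure_interior_eq_closure_of_nonempty_interior hKi, hKcl.closure_eq]
  -- local structure and interior balls
  have hloc : ∀ x ∈ frontier K, ∃ g : EuclideanSpace ℝ (Fin n) → ℝ, ∃ δ > 0,
      ContDiffOn ℝ 2 g (ball x δ) ∧ fderiv ℝ g x ≠ 0 ∧ g x = 0 ∧ ∀ y ∈ ball x δ,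
        (y ∈ K ↔ g y ≤ 0) ∧ (y ∈ interior K ↔ g y < 0) ∧ (y ∈ frontier K ↔ g y = 0) := by
    intro x hx
    obtain ⟨U, hU, hxU, f, hf, hdf, hfr⟩ := hsm x hx
    exact local_structure K hKcl hreg x hx U hU hxU f hf hdf hfr
  have hIB : ∀ x ∈ frontier K, ∃ c : EuclideanSpace ℝ (Fin n), ∃ ρ > 0,
      dist x c = ρ ∧ ball c ρ ⊆ interior K := by
    intro x hx
    obtain ⟨g, δ, hδ, hg, hdg, hgx, h⟩ := hloc x hx
    exact interior_ball K x g δ hδ hg hdg hgx (fun y hy => (h y hy).2.1)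
  -- strong support
  obtain ⟨x₀, hx₀, hx₀0, hfar⟩ := farthest hn2 K hK hKi
  obtain ⟨g, δ, hδ, hg, hdg, hgx, hgl⟩ := hloc x₀ hx₀
  obtain ⟨η, hη, κ, hκ, hsup⟩ := strong_support K hK x₀ (hKcl.frontier_subset hx₀) hx₀0 hfar g δ hδ
    hg hdg hgx (fun y hy => (hgl y hy).1)
  obtain ⟨η', hη', hnear⟩ := near_direction K x₀ hx₀0 η κ hη hκ hsup
  -- generic directions
  obtain ⟨x₁, η₁, hη₁, hsub, hgen⟩ := generic_dir hn2 Φ hΦ x₀ hx₀0 η' hη'
  -- support function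
  obtain ⟨h, hh, hsSup, hsInf, hcont, hu, hv⟩ := support_basic K hK hreg hKi
  obtain ⟨⟨L, hL⟩, B, hBs, hB⟩ := lin_quad (fun ξ => h ξ - h (-ξ)) (fun ξ => h ξ * h (-ξ))
    (hcont.sub (hcont.comp continuous_neg)) (hcont.mul (hcont.comp continuous_neg)) hu hv x₁ η₁ hη₁
    (by
      intro ξ₀ hξ₀ ξ₁ hli
      obtain ⟨δ', hδ', hs⟩ := hnear ξ₀ (hsub hξ₀) ξ₁
      obtain ⟨V, hVd⟩ : ∃ V : ℝ → ℝ → ℝ,
        V = fun s t => (volume {x ∈ K | ⟪x, ξ₀ + s • ξ₁⟫ ≤ t}).toReal := ⟨_, rfl⟩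
      obtain ⟨hYo, hYne, hYb, himg, hst, μ, hμf, hμ, hint⟩ :=
        planar2 hn hk K hK hKc hKi hsm hIB ξ₀ ξ₁ hli δ' hs _ rfl V hVd
      have := hμf
      obtain ⟨Ψ, hΨ, hrel⟩ := plane_relation Φ ξ₀ ξ₁ hli (hgen ξ₀ hξ₀).2
      have hne : ∀ s : ℝ, ξ₀ + s • ξ₁ ≠ 0 := by
        intro s h0
        have h2 := LinearIndependent.pair_iff.1 hli 1 s (by rw [one_smul]; exact h0)
        exact one_ne_zero h2.1
      obtain ⟨a, b, c, d, e, hc⟩ := core2 k _ hYo hYne hYb μ hμ V (volume K).toReal δ' hδ' hst hint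
        Ψ hΨ (by
          intro s t ht
          apply hrel s t (V s t)
          rw [himg s] at ht
          obtain ⟨x, hx, hxt⟩ := ht
          have hpos : 0 < ‖ξ₀ + s • ξ₁‖ := norm_pos_iff.2 (hne s)
          have h1 : ‖(‖ξ₀ + s • ξ₁‖⁻¹ : ℝ) • (ξ₀ + s • ξ₁)‖ = 1 := by
            rw [norm_smul, norm_inv, norm_norm, inv_mul_cancel₀ hpos.ne']
          have h2 := hΦV _ h1 (‖ξ₀ + s • ξ₁‖⁻¹ * t) ⟨x, hx, by
            rw [real_inner_smul_right]; congr 1⟩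
          have h3 : {x | x ∈ K ∧ ⟪x, (‖ξ₀ + s • ξ₁‖⁻¹ : ℝ) • (ξ₀ + s • ξ₁)⟫ ≤ ‖ξ₀ + s • ξ₁‖⁻¹ * t}
              = {x | x ∈ K ∧ ⟪x, ξ₀ + s • ξ₁⟫ ≤ t} := by
            ext y
            refine and_congr_right fun _ => ?_
            rw [real_inner_smul_right]
            exact mul_le_mul_iff_right₀ (inv_pos.2 hpos)
          rw [h3] at h2
          rw [hVd]
          exact h2)
      refine ⟨a, b, -c, -d, -e, fun s => ?_⟩
      obtain ⟨h1, h2⟩ := hc s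
      rw [himg s, hsSup, hsInf] at h1 h2
      constructor
      · show h (ξ₀ + s • ξ₁) - h (-(ξ₀ + s • ξ₁)) = _
        linarith
      · show h (ξ₀ + s • ξ₁) * h (-(ξ₀ + s • ξ₁)) = _
        linarith)
  obtain ⟨c, T, hT1, hT2⟩ := ball_position K hK hKi h hh L hL B hBs hB
  refine ⟨c, T, frontier_ellipsoid hn2 K c T ?_⟩
  have : Nonempty (Fin n) := ⟨⟨0, by omega⟩⟩
  have : Nontrivial (EuclideanSpace ℝ (Fin n)) := inferInstance
  refine Subset.antisymm ?_ ?_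
  · rintro _ ⟨x, hx, rfl⟩
    simpa using hT1 x hx
  · rw [← convexHull_sphere_eq_closedBall (0 : EuclideanSpace ℝ (Fin n)) zero_le_one]
    refine convexHull_min ?_ ?_
    · intro y hy
      obtain ⟨x, hx, hxy⟩ := hT2 y (by simpa using hy)
      exact ⟨x, hx, hxy⟩
    · have h1 : (fun x => T (x - c)) '' K = T '' ((fun x => x - c) '' K) := by
        rw [image_image]
      rw [h1]
      refine Convex.is_linear_image ?_ ⟨fun x y => map_add T x y, fun r x => map_smul T r x⟩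
      have h2 := hKc.translate (-c)
      convert h2 using 1
      ext x
      simp [sub_eq_neg_add]

end AR
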